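import Pool.Agent.Hhelper63.AnT.EndC

/-!
Case (b) for the triangle group `Tri 4 3 3`, given a path of representations and certificates.
-/

namespace Pool.Agent.Hhelper63.AnT

open Pool.Agent.Hhelper67.Anosov
open EndCAux

/-- the block matrix with blocks `B i j * A` -/
def kr (B A : Matrix (Fin 2) (Fin 2) ℂ) : M4 :=
  !![B 0 0 * A 0 0, B 0 0 * A 0 1, B 0 1 * A 0 0, B 0 1 * A 0 1;
     B 0 0 * A 1 0, B 0 0 * A 1 1, B 0 1 * A 1 0, B 0 1 * A 1 1;
     B 1 0 * A 0 0, B 1 0 * A 0 1, B 1 1 * A 0 0, B 1 1 * A 0 1;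
     B 1 0 * A 1 0, B 1 0 * A 1 1, B 1 1 * A 1 0, B 1 1 * A 1 1]

theorem kr_mul (B A B' A' : Matrix (Fin 2) (Fin 2) ℂ) :
    kr B A * kr B' A' = kr (B * B') (A * A') := by
  ext i j
  fin_cases i <;> fin_cases j <;>
    simp [kr, Matrix.mul_apply, Fin.sum_univ_four, Fin.sum_univ_two] <;> ring

theorem kr_one : kr 1 1 = 1 := by
  ext i j
  fin_cases i <;> fin_cases j <;> simp [kr]

theorem kr_one_neg (A : Matrix (Fin 2) (Fin 2) ℂ) : kr 1 (-A) = -kr 1 A := by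
  ext i j
  fin_cases i <;> fin_cases j <;> simp [kr]

theorem kr_one_left (A : Matrix (Fin 2) (Fin 2) ℂ) : kr 1 A = dbl A := by
  ext i j
  fin_cases i <;> fin_cases j <;> simp [kr, dbl]

theorem kr_neg (B A : Matrix (Fin 2) (Fin 2) ℂ) : kr B (-A) = -kr B A := by
  ext i j
  fin_cases i <;> fin_cases j <;> simp [kr]

theorem PhiB_s (i : Fin 3) : (PhiB (Tri.s i)).1 = reflB i := by
  rw [PhiB, Tri.lift_s]

theorem PhiB_z : (PhiB Tri.z).1 = -1 := by
  rw [PhiB, Tri.lift_z]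
  rfl

theorem EtaB_s (i : Fin 3) : (EtaB (Tri.s i)).1 = finB i := by
  rw [EtaB, Tri.lift_s]

theorem EtaB_z : (EtaB Tri.z).1 = 1 := by
  rw [EtaB, Tri.lift_z]
  rfl

/-- the relations for `Tri 4 3 3` with central element `-1` -/
structure RelB (S : Fin 3 → M4) : Prop where
  sq : ∀ i, S i * S i = 1
  r01 : (S 0 * S 1) ^ 4 = -1
  r12 : (S 1 * S 2) ^ 3 = -1
  r02 : (S 0 * S 2) ^ 3 = -1
  det : ∀ i, (S i).det = 1

namespace EndBAux

/-- the images of the generators in `SL4` -/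
def genB {S : Fin 3 → M4} (h : RelB S) (i : Fin 3) : SL4 := ⟨S i, h.det i⟩

theorem rel_b {S : Fin 3 → M4} (h : RelB S) : TriRel 4 3 3 (genB h) negSL where
  sq i := Subtype.ext (h.sq i)
  zz := Subtype.ext (by
    show (-1 : M4) * (-1 : M4) = 1
    simp)
  comm i := Subtype.ext (by
    show (-1 : M4) * S i = S i * (-1 : M4)
    simp)
  r01 := Subtype.ext (by
    rw [Matrix.SpecialLinearGroup.coe_pow]
    exact h.r01)
  r12 := Subtype.ext (by
    rw [Matrix.SpecialLinearGroup.coe_pow]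
    exact h.r12)
  r02 := Subtype.ext (by
    rw [Matrix.SpecialLinearGroup.coe_pow]
    exact h.r02)

/-- the representation -/
noncomputable def PB {S : Fin 3 → M4} (h : RelB S) : Tri 4 3 3 →* SL4 := Tri.lift (rel_b h)

theorem PB_s {S : Fin 3 → M4} (h : RelB S) (i : Fin 3) : (PB h (Tri.s i)).1 = S i := by
  rw [PB, Tri.lift_s]
  rfl

theorem PB_z {S : Fin 3 → M4} (h : RelB S) : (PB h Tri.z).1 = -1 := by
  rw [PB, Tri.lift_z]
  rfl

theorem cx_one : cx 1 = 1 := by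
  ext i j
  fin_cases i <;> fin_cases j <;> simp [cx]

theorem cx_neg_one : cx (-1) = -1 := by
  ext i j
  fin_cases i <;> fin_cases j <;> simp [cx]

theorem PB_zero {S : Fin 3 → M4} (h : RelB S) (A : GL (Fin 4) ℂ)
    (e : ∀ i, A.1 * S i = kr (finB i) (cx (reflB i)) * A.1) (g : Tri 4 3 3) :
    A.1 * (PB h g).1 = kr (EtaB g).1 (cx (PhiB g).1) * A.1 := by
  induction g using tri_ind with
  | h1 =>
    rw [map_one, map_one, map_one]
    show A.1 * (1 : M4) = kr 1 (cx 1) * A.1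
    rw [cx_one, kr_one, Matrix.mul_one, Matrix.one_mul]
  | hs i g ih =>
    rw [map_mul, map_mul, map_mul, SL_mul_val, PB_s, Units.val_mul, Units.val_mul, PhiB_s, EtaB_s,
      cx_mul, ← kr_mul, ← Matrix.mul_assoc, e, Matrix.mul_assoc, ih, Matrix.mul_assoc]
  | hz g ih =>
    rw [map_mul, map_mul, map_mul, SL_mul_val, PB_z, Units.val_mul, Units.val_mul, PhiB_z,
      EtaB_z, cx_mul, cx_neg_one, neg_one_mul, neg_one_mul, one_mul, kr_neg, Matrix.mul_neg, ih,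
      Matrix.neg_mul]

theorem PB_one {S : Fin 3 → M4} (h : RelB S) (A : GL (Fin 4) ℂ) (ε : ℂ)
    (e : ∀ i, A.1 * S i = ε • (sym3 (cx (reflB i)) * A.1)) (g : Tri 4 3 3) :
    ∃ n : ℕ, A.1 * (PB h g).1 = ε ^ n • (sym3 (cx (PhiB g).1) * A.1) ∧
      (PhiB g).1.det = (-1) ^ n := by
  induction g using tri_ind with
  | h1 =>
    refine ⟨0, ?_, ?_⟩
    · rw [map_one, map_one, pow_zero, one_smul]
      show A.1 * (1 : M4) = sym3 (cx 1) * A.1
      rw [cx_one, sym3_one, Matrix.mul_one, Matrix.one_mul]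
    · rw [map_one]
      simp
  | hs i g ih =>
    obtain ⟨n, ih, hd⟩ := ih
    refine ⟨n + 1, ?_, ?_⟩
    · rw [map_mul, map_mul, SL_mul_val, PB_s, Units.val_mul, PhiB_s, cx_mul, sym3_mul,
        ← Matrix.mul_assoc, e, Matrix.smul_mul, Matrix.mul_assoc, ih, Matrix.mul_smul, smul_smul,
        Matrix.mul_assoc, pow_succ']
    · rw [map_mul, Units.val_mul, Matrix.det_mul, hd, PhiB_s, reflB_det, pow_succ']
  | hz g ih =>
    obtain ⟨n, ih, hd⟩ := ih
    have h2 : sym3 (-1 : Matrix (Fin 2) (Fin 2) ℂ) = -1 := by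
      ext i j
      fin_cases i <;> fin_cases j <;> simp [sym3] <;> norm_num
    refine ⟨n, ?_, ?_⟩
    · rw [map_mul, map_mul, SL_mul_val, PB_z, Units.val_mul, PhiB_z, cx_mul, sym3_mul, cx_neg_one,
        h2, neg_one_mul, neg_one_mul, Matrix.mul_neg, ih, Matrix.neg_mul, smul_neg]
    · rw [map_mul, Units.val_mul, Matrix.det_mul, hd, PhiB_z, Matrix.det_neg, Matrix.det_one]
      simp

theorem PB_one' {S : Fin 3 → M4} (h : RelB S) (A : GL (Fin 4) ℂ) {ε : ℂ} (hε : ε * ε = 1)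
    (e : ∀ i, A.1 * S i = ε • (sym3 (cx (reflB i)) * A.1)) {g : Tri 4 3 3}
    (hg : (PhiB g).1.det = 1) : A.1 * (PB h g).1 = sym3 (cx (PhiB g).1) * A.1 := by
  obtain ⟨n, h1, h2⟩ := PB_one h A ε e g
  rw [hg] at h2
  have hn : Even n := by
    by_contra hn
    rw [Nat.not_even_iff_odd] at hn
    rw [hn.neg_one_pow] at h2
    norm_num at h2
  obtain ⟨k, rfl⟩ := hn
  rw [h1, pow_add, ← mul_pow, hε, one_pow, one_smul]

theorem cont_PB {S : ℝ → Fin 3 → M4} (hr : ∀ s ∈ Set.Icc (0 : ℝ) 1, RelB (S s))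
    (hc : ∀ i, ContinuousOn (fun s => S s i) (Set.Icc (0 : ℝ) 1)) (g : Tri 4 3 3) :
    Continuous fun s : Set.Icc (0 : ℝ) 1 => (PB (hr s.1 s.2) g).1 := by
  induction g using tri_ind with
  | h1 =>
    have h : (fun s : Set.Icc (0 : ℝ) 1 => (PB (hr s.1 s.2) 1).1) = fun _ => (1 : M4) := by
      funext s
      rw [map_one]
      rfl
    rw [h]
    exact continuous_const
  | hs i g ih =>
    have h : (fun s : Set.Icc (0 : ℝ) 1 => (PB (hr s.1 s.2) (Tri.s i * g)).1) =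
        fun s => S s.1 i * (PB (hr s.1 s.2) g).1 := by
      funext s
      rw [map_mul, SL_mul_val, PB_s]
    rw [h]
    exact (continuousOn_iff_continuous_domRestrict.1 (hc i)).matrix_mul ih
  | hz g ih =>
    have h : (fun s : Set.Icc (0 : ℝ) 1 => (PB (hr s.1 s.2) (Tri.z * g)).1) =
        fun s => -(PB (hr s.1 s.2) g).1 := by
      funext s
      rw [map_mul, SL_mul_val, PB_z, neg_one_mul]
    rw [h]
    exact ih.neg

theorem cert_PB {S : Fin 3 → M4} (h : RelB S) (hc : CertAt 3 edgesB 2 S) :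
    CertAt 3 edgesB 2 (fun i => (PB h (Tri.s i)).1) := by
  have e : (fun i => (PB h (Tri.s i)).1) = S := by
    funext i
    exact PB_s h i
  rw [e]
  exact hc

/-- entries of a continuous function of a real matrix with bounded entries are bounded -/
theorem bounded_of_cont {Ψ : Matrix (Fin 2) (Fin 2) ℝ → M4} (hcont : Continuous Ψ) (K : ℝ) :
    ∃ K' : ℝ, ∀ M, (∀ i j, |M i j| ≤ K) → ∀ i j, ‖Ψ M i j‖ ≤ K' := by
  let C : Set (Matrix (Fin 2) (Fin 2) ℝ) :=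
    Set.pi Set.univ fun _ => Set.pi Set.univ fun _ => Set.Icc (-K) K
  have hC : IsCompact C := isCompact_univ_pi fun _ => isCompact_univ_pi fun _ => isCompact_Icc
  have hf : Continuous fun M => ∑ i, ∑ j, ‖Ψ M i j‖ :=
    continuous_finsetSum _ fun i _ => continuous_finsetSum _ fun j _ =>
      (hcont.matrix_elem i j).norm
  obtain ⟨K', hK'⟩ := hC.exists_bound_of_continuousOn hf.continuousOn
  refine ⟨K', fun M hM i j => ?_⟩
  have hmem : M ∈ C := by
    intro i _ j _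
    exact abs_le.mp (hM i j)
  have h1 := hK' _ hmem
  have h2 : ‖Ψ M i j‖ ≤ ∑ i, ∑ j, ‖Ψ M i j‖ := by
    refine le_trans ?_ (Finset.single_le_sum
      (f := fun i => ∑ j, ‖Ψ M i j‖)
      (fun i _ => Finset.sum_nonneg fun j _ => norm_nonneg _) (Finset.mem_univ i))
    exact Finset.single_le_sum (f := fun j => ‖Ψ M i j‖) (fun j _ => norm_nonneg _)
      (Finset.mem_univ j)
  exact h2.trans ((le_abs_self _).trans h1)

theorem cont_sym3 : Continuous fun M : Matrix (Fin 2) (Fin 2) ℝ => sym3 (cx M) := by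
  have hcx : Continuous fun M : Matrix (Fin 2) (Fin 2) ℝ => cx M :=
    Continuous.matrix_map continuous_id Complex.continuous_ofReal
  have hent : ∀ i j, Continuous fun M : Matrix (Fin 2) (Fin 2) ℝ => cx M i j :=
    fun i j => hcx.matrix_elem i j
  have h00 := hent 0 0
  have h01 := hent 0 1
  have h10 := hent 1 0
  have h11 := hent 1 1
  apply continuous_matrix
  intro i j
  fin_cases i <;> fin_cases j <;> simp only [sym3] <;> simp <;> fun_prop

theorem conj_of' {A : GL (Fin 4) ℂ} {M B : M4} (h : A.1 * M = B * A.1) :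
    M = (A⁻¹).1 * B * A.1 := by
  rw [Matrix.mul_assoc, ← h, ← Matrix.mul_assoc, ← Units.val_mul, inv_mul_cancel, Units.val_one,
    Matrix.one_mul]

theorem bounded_PB {S : Fin 3 → M4} (h : RelB S) (A : GL (Fin 4) ℂ) {ε : ℂ} (hε : ε * ε = 1)
    (e : ∀ i, A.1 * S i = ε • (sym3 (cx (reflB i)) * A.1)) (K : ℝ) :
    ∃ K' : ℝ, ∀ g : Tri 4 3 3,
    (∀ i j, |(PhiB g).1 i j| ≤ K) → ∀ i j, ‖(PB h g).1 i j‖ ≤ K' := by
  obtain ⟨K', hK'⟩ := bounded_of_cont (Ψ := fun M => (A⁻¹).1 * sym3 (cx M) * A.1)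
    ((continuous_const.matrix_mul cont_sym3).matrix_mul continuous_const) K
  refine ⟨K', fun g hg i j => ?_⟩
  obtain ⟨n, h1, h2⟩ := PB_one h A ε e g
  have hn : ‖ε‖ = 1 := by
    have := congrArg norm hε
    rw [norm_mul, norm_one] at this
    nlinarith [norm_nonneg ε]
  have h3 : (PB h g).1 = ε ^ n • ((A⁻¹).1 * sym3 (cx (PhiB g).1) * A.1) := by
    have h4 : A.1 * (PB h g).1 = (ε ^ n • sym3 (cx (PhiB g).1)) * A.1 := by
      rw [h1, Matrix.smul_mul]
    rw [conj_of' h4, Matrix.mul_smul, Matrix.smul_mul]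
  rw [h3, Matrix.smul_apply, norm_smul, norm_pow, hn, one_pow, one_mul]
  exact hK' _ hg i j

theorem dbl_map (g : Matrix (Fin 2) (Fin 2) ℝ) :
    (dbl g).map Complex.ofRealHom = dbl (cx g) := by
  ext i j
  fin_cases i <;> fin_cases j <;> simp [dbl, cx]

end EndBAux

open EndBAux

/-- Case (b) for the triangle group from a path of representations with certificates. -/
theorem fin_b_of {S : Fin 3 → M4} (hr : RelB S)
    (hu : ∀ i : Fin 3, i ≠ 2 → (S i).conjTranspose * S i = 1)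
    (hc : CertAt 3 edgesB 2 S) (A : GL (Fin 4) ℂ) {ε : ℂ} (hε : ε * ε = 1)
    (e : ∀ i, A.1 * S i = ε • (sym3 (cx (reflB i)) * A.1)) (K : ℝ) :
    {g : Tri 4 3 3 | ∀ i j, |(PhiB g).1 i j| ≤ K}.Finite :=
  fin_of_cert (k := 2) (by norm_num) (by norm_num) hasWord_b PhiB (PB hr) (PB_z hr)
    (fun i hi => by rw [PB_s]; exact hu i hi) (cert_PB hr hc) (bounded_PB hr A hε e) K

theorem core_b_of {S : ℝ → Fin 3 → M4} (hr : ∀ s ∈ Set.Icc (0 : ℝ) 1, RelB (S s))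
    (hcont : ∀ i, ContinuousOn (fun s => S s i) (Set.Icc (0 : ℝ) 1))
    (hu : ∀ s ∈ Set.Icc (0 : ℝ) 1, ∀ i : Fin 3, i ≠ 2 → (S s i).conjTranspose * S s i = 1)
    (hc : ∀ s ∈ Set.Icc (0 : ℝ) 1, CertAt 3 edgesB 2 (S s))
    (A0 A1 : GL (Fin 4) ℂ) {ε : ℂ} (hε : ε * ε = 1)
    (e0 : ∀ i, A0.1 * S 0 i = kr (finB i) (cx (reflB i)) * A0.1)
    (e1 : ∀ i, A1.1 * S 1 i = ε • (sym3 (cx (reflB i)) * A1.1))
    {Γ : Type*} [Group Γ] (ι : Γ →* Tri 4 3 3) (φ : Γ →* X)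
    (hφ : ∀ γ, (φ γ).1 = (PhiB (ι γ)).1) (hη : ∀ γ, EtaB (ι γ) = 1) (hf : ⇑φ ∈ fuchs Γ)
    (T : Finset Γ) (hT : Subgroup.closure (T : Set Γ) = ⊤) :
    ⇑(rho22 φ) ∈ connectedComponentIn (anosovSet 4 T {2}) ⇑(rho4 φ) := by
  obtain ⟨φ', ⟨hinj, hdisc, hcoc⟩, he⟩ := hf
  have he' : φ' = φ := DFunLike.coe_injective he
  subst he'
  have m0 : (0 : ℝ) ∈ Set.Icc (0 : ℝ) 1 := Set.left_mem_Icc.mpr zero_le_one
  have m1 : (1 : ℝ) ∈ Set.Icc (0 : ℝ) 1 := Set.right_mem_Icc.mpr zero_le_one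
  have hanos : ∀ (s : ℝ) (hs : s ∈ Set.Icc (0 : ℝ) 1),
      IsAnosov T {2} ((PB (hr s hs)).comp ι) := fun s hs =>
    anosov_of_cert (k := 2) (by norm_num) (by norm_num) hasWord_b PhiB (PB (hr s hs)) (PB_z _)
      (fun i hi => by rw [PB_s]; exact hu s hs i hi) (cert_PB _ (hc s hs)) ι φ' hφ hinj hdisc
      hcoc T hT
  let F : Set.Icc (0 : ℝ) 1 → (Γ → SL4) := fun s => ⇑((PB (hr s.1 s.2)).comp ι)
  have c1 : Continuous F := by
    rw [continuous_pi_iff]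
    intro γ
    exact continuous_induced_rng.mpr (cont_PB hr hcont (ι γ))
  have p1 : IsPreconnected (Set.range F) := by
    have : PreconnectedSpace (Set.Icc (0 : ℝ) 1) :=
      isPreconnected_iff_preconnectedSpace.mp isPreconnected_Icc
    exact isPreconnected_range c1
  have hsub : Set.range F ⊆ anosovSet 4 T {2} := by
    rintro f ⟨s, rfl⟩
    exact ⟨_, hanos s.1 s.2, rfl⟩
  have k1 : F ⟨1, m1⟩ ∈ connectedComponentIn (anosovSet 4 T {2}) (F ⟨0, m0⟩) :=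
    p1.subset_connectedComponentIn (x := F ⟨0, m0⟩) ⟨_, rfl⟩ hsub ⟨_, rfl⟩
  have k0 : ⇑(rho22 φ') ∈ connectedComponentIn (anosovSet 4 T {2}) (F ⟨0, m0⟩) := by
    refine conj_component (by simp) A0 (fun γ => ?_) (hanos 0 m0)
    have h : (rho22 φ' γ).1 = dbl (cx (φ' γ).1) := dbl_map (φ' γ).1
    rw [h, ← kr_one_left]
    symm
    apply conj_of
    show A0.1 * (PB (hr 0 m0) (ι γ)).1 = kr 1 (cx (φ' γ).1) * A0.1
    rw [PB_zero (hr 0 m0) A0 e0, hη, hφ γ]
    rfl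
  have k2 : ⇑(rho4 φ') ∈ connectedComponentIn (anosovSet 4 T {2}) (F ⟨1, m1⟩) := by
    refine conj_component (by simp) A1 (fun γ => ?_) (hanos 1 m1)
    have h : (rho4 φ' γ).1 = sym3 (cx (φ' γ).1) := sym3_map (φ' γ).1
    rw [h]
    symm
    apply conj_of
    show A1.1 * (PB (hr 1 m1) (ι γ)).1 = sym3 (cx (φ' γ).1) * A1.1
    rw [PB_one' (hr 1 m1) A1 hε e1 (by rw [← hφ γ]; exact (φ' γ).2), hφ γ]
  rw [connectedComponentIn_eq k1, connectedComponentIn_eq k2] at k0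
  exact k0

end Pool.Agent.Hhelper63.AnT
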