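import Pool.Agent.Hhelper63.AnT.Members

/-!
Changing the Fuchsian representation by a sign character, by the reflection `diag (1, -1)`, and
changing the group by an isomorphism and the generating set.

PROOF.
`twist_b`: with `ε γ = ±1`, `rho4 φ' = ε rho4 φ` (as `ε³ = ε`) and `rho22 φ' = ε rho22 φ`. The map
`f ↦ (γ ↦ ε γ • f γ)` is a homeomorphism of `Γ → SL4` which maps `anosovSet 4 S θ` onto itself (the
singular values do not change), so it maps components to components.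
`twist_c`: let `n : Γ → ℤ` with `ε γ = (-1) ^ n γ`. The same twist maps the component of `rho4 φ`
to that of `rho4 φ'` and `rho211 φ` to `ε rho211 φ`, which is `φ'` on the outer basis vectors and
`ε` on the two others; it stays in `Sp`. The path `t ↦ (φ' on the outer vectors, and
diag (exp (iπ t n γ), exp (-iπ t n γ)) on the two inner ones)`, `t ∈ [0, 1]`, joins `rho211 φ'` to it
in `anosovSp S {1}`: it is `rho211 φ'` times a unitary diagonal matrix, so the singular values do not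
change, and `rho211 φ'` is Anosov by `rho211_anosov`.
`flip_b`: `φ' = D φ D` with `D = diag (1, -1)`; `rho4 φ' = A rho4 φ A` with
`A = diag (1, -1, 1, -1)`, `rho22 φ' = A rho22 φ A`, so conjugation by `A` (a homeomorphism of
`Γ → SL4` preserving `anosovSet`, `anosov_conj`) maps one statement to the other.
`flip_c`: the same with the conjugation by `A`, which preserves `anosovSp` since `Aᵀ J4 A = -J4`; it
maps `rho4 φ` to `rho4 φ'` and `rho211 φ` to `rho211 φ'` (`outer (D g D) = A outer g A` with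
`A = diag (1, -1, 1, -1)`: on the outer vectors `diag (1, -1)`, on the inner ones `diag (-1, 1)`,
which commutes with the identity).
`equiv_b`, `equiv_c`: `f ↦ f ∘ α` is a homeomorphism from `Γ → SL4` to `Γ' → SL4`; it maps the
Anosov set for `S` onto the one for `S'`: word lengths with respect to `S` and to `α S'` are
comparable (`wordLen S' γ' ≤ L * wordLen S (α γ')` with `L` a bound of the `S'`-lengths of the
preimages of the elements of `S`).
-/

namespace Pool.Agent.Hhelper63.AnT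

open Pool.Agent.Hhelper67.Anosov

variable {Γ : Type*} [Group Γ]

/-! ### General tools -/

lemma map_comp_in {α β : Type*} [TopologicalSpace α] [TopologicalSpace β] {F : α → β}
    (hF : Continuous F) {A : Set α} {B : Set β} (hAB : ∀ a ∈ A, F a ∈ B) {x y : α}
    (h : y ∈ connectedComponentIn A x) : F y ∈ connectedComponentIn B (F x) := by
  have hx : x ∈ A := by
    by_contra hc
    rw [connectedComponentIn_eq_empty hc] at h
    exact h
  refine (isPreconnected_connectedComponentIn.image F hF.continuousOn).subset_connectedComponentIn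
    ⟨x, mem_connectedComponentIn hx, rfl⟩ ?_ ⟨y, h, rfl⟩
  rintro _ ⟨z, hz, rfl⟩
  exact hAB z (connectedComponentIn_subset _ _ hz)

lemma sv_isom_le {D : SL4} (hD : ∀ x, ‖mL D.1 x‖ ≤ ‖x‖) (M : SL4) {k : ℕ} (hk : k ≤ 4) :
    sv (D * M) k ≤ sv M k := by
  have h1 := singularValue_comp_le (Matrix.toEuclideanLin M.1) (Matrix.toEuclideanLin D.1)
    (LinearEquiv.refl ℂ V4) (a := 1) (b := 1) zero_le_one
    (fun x => by rw [one_mul]; exact hD x) (fun x => by rw [one_mul]; rfl)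
    (k := k - 1) (by rw [finrank_V4]; omega)
  rw [one_mul, one_mul] at h1
  have h2 : (Matrix.toEuclideanLin D.1 ∘ₗ Matrix.toEuclideanLin M.1 ∘ₗ
      ((LinearEquiv.refl ℂ V4 : V4 ≃ₗ[ℂ] V4) : V4 →ₗ[ℂ] V4)) =
      Matrix.toEuclideanLin (D * M).1 := by
    rw [Matrix.SpecialLinearGroup.coe_mul, toEuclideanLin_mul]
    rfl
  rw [h2] at h1
  exact h1

lemma sv_isom {D : SL4} (hD : ∀ x, ‖mL D.1 x‖ ≤ ‖x‖) (hD' : ∀ x, ‖mL D⁻¹.1 x‖ ≤ ‖x‖) (M : SL4)
    {k : ℕ} (hk : k ≤ 4) : sv (D * M) k = sv M k := by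
  refine le_antisymm (sv_isom_le hD M hk) ?_
  have h := sv_isom_le hD' (D * M) hk
  rwa [inv_mul_cancel_left] at h

/-- isometric factors do not change the Anosov property -/
lemma anosov_isom {S : Finset Γ} {θ : Set ℕ} (hθ : θ ⊆ {1, 2, 3}) {ρ ρ' : Γ →* SL4}
    (h : ∀ γ, ∃ D : SL4, (∀ x, ‖mL D.1 x‖ ≤ ‖x‖) ∧ (∀ x, ‖mL D⁻¹.1 x‖ ≤ ‖x‖) ∧
      ρ' γ = D * ρ γ) (hρ : IsAnosov S θ ρ) : IsAnosov S θ ρ' := by
  obtain ⟨C, c, hC, hc, hgap⟩ := hρ
  refine ⟨C, c, hC, hc, fun γ k hk => ?_⟩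
  have hk3 : k ≤ 3 := by
    have h1 := hθ hk
    simp only [Set.mem_insert_iff, Set.mem_singleton_iff] at h1
    omega
  obtain ⟨D, hD, hD', he⟩ := h γ
  rw [he, sv_isom hD hD' _ (by omega), sv_isom hD hD' _ (by omega)]
  exact hgap γ k hk

/-! ### Twisting by signs -/

/-- `-1` and `1` in `SL(4, ℂ)` -/
noncomputable def sg : ℤˣ →* SL4 where
  toFun u := ⟨(((u : ℤ) : ℂ)) • (1 : M4), by
    rw [Matrix.det_smul, Matrix.det_one, mul_one, Fintype.card_fin]
    rcases Int.units_eq_one_or u with rfl | rfl <;> norm_num⟩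
  map_one' := Subtype.ext (by simp)
  map_mul' u v := Subtype.ext (by simp [smul_smul, mul_comm])

lemma sg_coe (u : ℤˣ) : (sg u).1 = (((u : ℤ) : ℂ)) • (1 : M4) := rfl

lemma sg_mul_coe (u : ℤˣ) (M : SL4) : (sg u * M).1 = (((u : ℤ) : ℂ)) • M.1 := by
  rw [Matrix.SpecialLinearGroup.coe_mul, sg_coe, Matrix.smul_mul, Matrix.one_mul]

lemma sg_comm (u : ℤˣ) (M : SL4) : sg u * M = M * sg u := by
  apply Subtype.ext
  rw [sg_mul_coe, Matrix.SpecialLinearGroup.coe_mul, sg_coe, Matrix.mul_smul, Matrix.mul_one]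

lemma sg_norm (u : ℤˣ) (x : V4) : ‖mL (sg u).1 x‖ ≤ ‖x‖ := by
  have h : mL (sg u).1 x = (((u : ℤ) : ℂ)) • x := by
    rw [sg_coe, mL_apply, Matrix.smul_mulVec, Matrix.one_mulVec]
    rfl
  rw [h, norm_smul]
  rcases Int.units_eq_one_or u with rfl | rfl <;> simp

lemma sg_inv_norm (u : ℤˣ) (x : V4) : ‖mL (sg u)⁻¹.1 x‖ ≤ ‖x‖ := by
  rw [← map_inv]
  exact sg_norm _ x

/-- the twisted representation -/
noncomputable def twHom (ε : Γ →* ℤˣ) (ρ : Γ →* SL4) : Γ →* SL4 where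
  toFun γ := sg (ε γ) * ρ γ
  map_one' := by rw [map_one, map_one, map_one, one_mul]
  map_mul' γ δ := by
    rw [map_mul, map_mul, map_mul, mul_assoc, ← mul_assoc (sg (ε δ)), sg_comm (ε δ) (ρ γ),
      mul_assoc, ← mul_assoc (sg (ε γ))]

/-- the twist -/
noncomputable def twF (ε : Γ →* ℤˣ) (f : Γ → SL4) : Γ → SL4 := fun γ => sg (ε γ) * f γ

lemma twF_cont (ε : Γ →* ℤˣ) : Continuous (twF ε) :=
  continuous_pi fun γ => continuous_const.mul (continuous_apply γ)

lemma tw_anosov {S : Finset Γ} {θ : Set ℕ} (hθ : θ ⊆ {1, 2, 3}) (ε : Γ →* ℤˣ) {ρ : Γ →* SL4}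
    (h : IsAnosov S θ ρ) : IsAnosov S θ (twHom ε ρ) :=
  anosov_isom hθ (fun γ => ⟨sg (ε γ), sg_norm _, sg_inv_norm _, rfl⟩) h

lemma units_cube (u : ℤˣ) : ((u : ℤ) : ℝ) ^ 3 = ((u : ℤ) : ℝ) := by
  rcases Int.units_eq_one_or u with rfl | rfl <;> norm_num

lemma units_sq (u : ℤˣ) : ((u : ℤ) : ℝ) ^ 2 = 1 := by
  rcases Int.units_eq_one_or u with rfl | rfl <;> norm_num

lemma sym3_smul (e : ℝ) (he : e ^ 3 = e) (g : Matrix (Fin 2) (Fin 2) ℝ) :
    sym3 (e • g) = e • sym3 g := by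
  have h : sym3 (e • g) = e ^ 3 • sym3 g := by
    ext i j
    fin_cases i <;> fin_cases j <;> simp [sym3] <;> ring
  rw [h, he]

lemma dbl_smul (e : ℝ) (g : Matrix (Fin 2) (Fin 2) ℝ) : dbl (e • g) = e • dbl g := by
  ext i j
  fin_cases i <;> fin_cases j <;> simp [dbl]

lemma map_smul_ofReal (e : ℤ) (A : Matrix (Fin 4) (Fin 4) ℝ) :
    ((e : ℝ) • A).map Complex.ofRealHom = ((e : ℤ) : ℂ) • A.map Complex.ofRealHom := by
  ext i j
  simp

lemma rho4_tw {φ φ' : Γ →* X} (ε : Γ →* ℤˣ)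
    (h : ∀ γ, (φ' γ).1 = (((ε γ : ℤˣ) : ℤ) : ℝ) • (φ γ).1) : twF ε ⇑(rho4 φ) = ⇑(rho4 φ') := by
  funext γ
  apply Subtype.ext
  show (sg (ε γ) * rho4 φ γ).1 = (sym3 (φ' γ).1).map Complex.ofRealHom
  rw [sg_mul_coe, h, sym3_smul _ (units_cube _), map_smul_ofReal]
  rfl

lemma rho22_tw {φ φ' : Γ →* X} (ε : Γ →* ℤˣ)
    (h : ∀ γ, (φ' γ).1 = (((ε γ : ℤˣ) : ℤ) : ℝ) • (φ γ).1) : twF ε ⇑(rho22 φ) = ⇑(rho22 φ') := by
  funext γ
  apply Subtype.ext
  show (sg (ε γ) * rho22 φ γ).1 = (dbl (φ' γ).1).map Complex.ofRealHom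
  rw [sg_mul_coe, h, dbl_smul, map_smul_ofReal]
  rfl

theorem twist_b {S : Finset Γ} {φ φ' : Γ →* X}
    (ε : Γ →* ℤˣ) (h : ∀ γ, (φ' γ).1 = (((ε γ : ℤˣ) : ℤ) : ℝ) • (φ γ).1)
    (hb : ⇑(rho22 φ) ∈ connectedComponentIn (anosovSet 4 S {2}) ⇑(rho4 φ)) :
    ⇑(rho22 φ') ∈ connectedComponentIn (anosovSet 4 S {2}) ⇑(rho4 φ') := by
  have h1 := map_comp_in (twF_cont ε) (B := anosovSet 4 S {2}) (by
    rintro _ ⟨ρ, hρ, rfl⟩
    exact ⟨twHom ε ρ, tw_anosov (by intro x hx; rw [Set.mem_singleton_iff] at hx; simp [hx]) ε hρ,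
      rfl⟩) hb
  rwa [rho4_tw ε h, rho22_tw ε h] at h1

/-! ### The path of rotations -/

/-- `diag (1, e^{ix}, e^{-ix}, 1)` -/
noncomputable def dgT (x : ℝ) : SL4 :=
  ⟨Matrix.diagonal ![1, Complex.exp (x * Complex.I), Complex.exp (-(x * Complex.I)), 1], by
    rw [Matrix.det_diagonal]
    simp [Fin.prod_univ_four, ← Complex.exp_add]⟩

lemma dg_coe (x : ℝ) : (dgT x).1 =
    Matrix.diagonal ![1, Complex.exp (x * Complex.I), Complex.exp (-(x * Complex.I)), 1] := rfl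

lemma dg_zero : dgT 0 = 1 := by
  apply Subtype.ext
  rw [dg_coe]
  ext i j
  fin_cases i <;> fin_cases j <;> simp

lemma dg_add (x y : ℝ) : dgT (x + y) = dgT x * dgT y := by
  apply Subtype.ext
  rw [Matrix.SpecialLinearGroup.coe_mul, dg_coe, dg_coe, dg_coe, Matrix.diagonal_mul_diagonal]
  congr 1
  funext i
  fin_cases i
  · simp
  · show Complex.exp (((x + y : ℝ) : ℂ) * Complex.I) =
      Complex.exp (x * Complex.I) * Complex.exp (y * Complex.I)
    rw [← Complex.exp_add]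
    congr 1
    push_cast
    ring
  · show Complex.exp (-(((x + y : ℝ) : ℂ) * Complex.I)) =
      Complex.exp (-(x * Complex.I)) * Complex.exp (-(y * Complex.I))
    rw [← Complex.exp_add]
    congr 1
    push_cast
    ring
  · simp

lemma dg_inv (x : ℝ) : (dgT x)⁻¹ = dgT (-x) := by
  rw [inv_eq_iff_mul_eq_one, ← dg_add, add_neg_cancel, dg_zero]

lemma dg_norm (x : ℝ) (v : V4) : ‖mL (dgT x).1 v‖ ≤ ‖v‖ := by
  refine le_of_sq_le_sq ?_ (norm_nonneg _)
  rw [EuclideanSpace.norm_sq_eq, EuclideanSpace.norm_sq_eq]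
  refine Finset.sum_le_sum fun i _ => ?_
  have h1 : mL (dgT x).1 v i =
      ![1, Complex.exp (x * Complex.I), Complex.exp (-(x * Complex.I)), 1] i * v i := by
    rw [mL_apply]
    show ((dgT x).1).mulVec _ i = _
    rw [dg_coe, Matrix.mulVec_diagonal]
  have h2 : ‖(![1, Complex.exp (x * Complex.I), Complex.exp (-(x * Complex.I)), 1] :
      Fin 4 → ℂ) i‖ = 1 := by
    fin_cases i
    · simp
    · show ‖Complex.exp (x * Complex.I)‖ = 1
      exact Complex.norm_exp_ofReal_mul_I x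
    · show ‖Complex.exp (-(x * Complex.I))‖ = 1
      have := Complex.norm_exp_ofReal_mul_I (-x)
      push_cast at this
      rwa [neg_mul] at this
    · simp
  rw [h1, norm_mul, h2, one_mul]

lemma dg_inv_norm (x : ℝ) (v : V4) : ‖mL (dgT x)⁻¹.1 v‖ ≤ ‖v‖ := by
  rw [dg_inv]
  exact dg_norm _ v

lemma dg_J (x : ℝ) : (dgT x).1.transpose * J4 * (dgT x).1 = J4 := by
  have h1 : Complex.exp (x * Complex.I) * Complex.exp (-(x * Complex.I)) = 1 := by
    rw [← Complex.exp_add, add_neg_cancel, Complex.exp_zero]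
  rw [dg_coe, Matrix.diagonal_transpose]
  ext i j
  rw [Matrix.mul_diagonal, Matrix.diagonal_mul]
  fin_cases i <;> fin_cases j <;> simp [J4]
  · linear_combination (-1 / 3 : ℂ) * h1
  · linear_combination (1 / 3 : ℂ) * h1

lemma dg_outer (x : ℝ) (g : X) : dgT x * toC4 (outerX g) = toC4 (outerX g) * dgT x := by
  apply Subtype.ext
  rw [Matrix.SpecialLinearGroup.coe_mul, Matrix.SpecialLinearGroup.coe_mul, dg_coe]
  have h : (toC4 (outerX g)).1 = (outer g.1).map Complex.ofRealHom := rfl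
  rw [h]
  ext i j
  rw [Matrix.mul_diagonal, Matrix.diagonal_mul]
  fin_cases i <;> fin_cases j <;> simp [outer]

lemma dg_cont : Continuous dgT := by
  refine continuous_induced_rng.mpr ?_
  show Continuous fun x : ℝ => (Matrix.diagonal ![1, Complex.exp (x * Complex.I),
    Complex.exp (-(x * Complex.I)), 1] : M4)
  apply Continuous.matrix_diagonal
  apply continuous_pi
  intro i
  fin_cases i
  · show Continuous fun x : ℝ => (1 : ℂ)
    exact continuous_const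
  · show Continuous fun x : ℝ => Complex.exp (x * Complex.I)
    fun_prop
  · show Continuous fun x : ℝ => Complex.exp (-(x * Complex.I))
    fun_prop
  · show Continuous fun x : ℝ => (1 : ℂ)
    exact continuous_const

/-- the path of representations -/
noncomputable def pathHom (φ : Γ →* X) (n : Γ →* Multiplicative ℤ) (t : ℝ) : Γ →* SL4 where
  toFun γ := dgT (t * (Multiplicative.toAdd (n γ) : ℤ)) * rho211 φ γ
  map_one' := by
    rw [map_one n, map_one (rho211 φ), toAdd_one, Int.cast_zero, mul_zero, dg_zero, one_mul]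
  map_mul' γ δ := by
    rw [map_mul n, map_mul (rho211 φ), toAdd_mul, Int.cast_add, mul_add, dg_add, mul_assoc,
      ← mul_assoc (dgT (t * (Multiplicative.toAdd (n δ) : ℤ)))]
    have h : dgT (t * (Multiplicative.toAdd (n δ) : ℤ)) * rho211 φ γ =
        rho211 φ γ * dgT (t * (Multiplicative.toAdd (n δ) : ℤ)) := dg_outer _ (φ γ)
    rw [h, mul_assoc, ← mul_assoc (dgT (t * (Multiplicative.toAdd (n γ) : ℤ)))]

lemma pathHom_apply (φ : Γ →* X) (n : Γ →* Multiplicative ℤ) (t : ℝ) (γ : Γ) :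
    pathHom φ n t γ = dgT (t * (Multiplicative.toAdd (n γ) : ℤ)) * rho211 φ γ := rfl

lemma zpow_units (k : ℤ) : ((((-1 : ℤˣ) ^ k : ℤˣ) : ℤ) : ℝ) = (-1 : ℝ) ^ k := by
  rcases Int.even_or_odd k with hk | hk
  · rw [hk.neg_one_zpow, hk.neg_one_zpow]
    simp
  · rw [hk.neg_one_zpow, hk.neg_one_zpow]
    simp

lemma exp_pi_int (k : ℤ) : Complex.exp (((Real.pi * k : ℝ) : ℂ) * Complex.I) =
    ((((-1 : ℤˣ) ^ k : ℤˣ) : ℤ) : ℂ) := by
  have h : ((Real.pi * k : ℝ) : ℂ) * Complex.I = k * (Real.pi * Complex.I) := by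
    push_cast
    ring
  rw [h, Complex.exp_int_mul, Complex.exp_pi_mul_I]
  rcases Int.even_or_odd k with hk | hk
  · rw [hk.neg_one_zpow, hk.neg_one_zpow]
    simp
  · rw [hk.neg_one_zpow, hk.neg_one_zpow]
    simp

theorem twist_c {S : Finset Γ} (hS : Subgroup.closure (S : Set Γ) = ⊤) {φ φ' : Γ →* X}
    (hφ : ⇑φ' ∈ fuchs Γ) (n : Γ →* Multiplicative ℤ)
    (h : ∀ γ, (φ' γ).1 = ((-1 : ℝ) ^ (Multiplicative.toAdd (n γ))) • (φ γ).1)
    (hc : ⇑(rho211 φ) ∈ connectedComponentIn (anosovSp S {1}) ⇑(rho4 φ)) :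
    ⇑(rho211 φ') ∈ connectedComponentIn (anosovSp S {1}) ⇑(rho4 φ') := by
  have hθ : ({1} : Set ℕ) ⊆ {1, 2, 3} := by
    intro x hx
    rw [Set.mem_singleton_iff] at hx
    simp [hx]
  set ε : Γ →* ℤˣ := (zpowersHom ℤˣ (-1)).comp n with hε
  have hεa : ∀ γ, ε γ = (-1 : ℤˣ) ^ (Multiplicative.toAdd (n γ)) := fun γ => rfl
  have h' : ∀ γ, (φ' γ).1 = (((ε γ : ℤˣ) : ℤ) : ℝ) • (φ γ).1 := by
    intro γ
    rw [h, hεa, zpow_units]
  have h1 := map_comp_in (twF_cont ε) (B := anosovSp S {1}) (by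
    rintro _ ⟨ρ, hρ, hsp, rfl⟩
    refine ⟨twHom ε ρ, tw_anosov hθ ε hρ, fun γ => ?_, rfl⟩
    show (sg (ε γ) * ρ γ).1.transpose * J4 * (sg (ε γ) * ρ γ).1 = J4
    rw [sg_mul_coe, Matrix.transpose_smul, Matrix.smul_mul, Matrix.smul_mul, Matrix.mul_smul,
      hsp, smul_smul]
    rcases Int.units_eq_one_or (ε γ) with h2 | h2 <;> rw [h2] <;> simp) hc
  rw [rho4_tw ε h'] at h1
  -- the path
  let P : ℝ → (Γ → SL4) := fun t => ⇑(pathHom φ' n t)
  have hP : Continuous P := by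
    refine continuous_pi fun γ => ?_
    show Continuous fun t : ℝ => dgT (t * (Multiplicative.toAdd (n γ) : ℤ)) * rho211 φ' γ
    exact (dg_cont.comp (continuous_id.mul continuous_const)).mul continuous_const
  have hsub : Set.range P ⊆ anosovSp S {1} := by
    rintro _ ⟨t, rfl⟩
    refine ⟨pathHom φ' n t, ?_, fun γ => ?_, rfl⟩
    · exact anosov_isom hθ (fun γ => ⟨_, dg_norm _, dg_inv_norm _, rfl⟩)
        (anosov_mono (rho211_anosov S hS hφ) (by simp))
    · rw [pathHom_apply, Matrix.SpecialLinearGroup.coe_mul, Matrix.transpose_mul]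
      have e1 := rho211_sp φ' γ
      have e2 := dg_J (t * (Multiplicative.toAdd (n γ) : ℤ))
      calc (rho211 φ' γ).1.transpose * (dgT (t * (Multiplicative.toAdd (n γ) : ℤ))).1.transpose *
            J4 * ((dgT (t * (Multiplicative.toAdd (n γ) : ℤ))).1 * (rho211 φ' γ).1)
          = (rho211 φ' γ).1.transpose *
            ((dgT (t * (Multiplicative.toAdd (n γ) : ℤ))).1.transpose * J4 *
              (dgT (t * (Multiplicative.toAdd (n γ) : ℤ))).1) * (rho211 φ' γ).1 := by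
            simp only [Matrix.mul_assoc]
        _ = J4 := by rw [e2, e1]
  have h0 : P 0 = ⇑(rho211 φ') := by
    funext γ
    show pathHom φ' n 0 γ = _
    rw [pathHom_apply, zero_mul, dg_zero, one_mul]
  have h2 : P Real.pi = twF ε ⇑(rho211 φ) := by
    funext γ
    show pathHom φ' n Real.pi γ = sg (ε γ) * rho211 φ γ
    rw [pathHom_apply]
    apply Subtype.ext
    rw [sg_mul_coe, Matrix.SpecialLinearGroup.coe_mul, dg_coe]
    have e1 : (rho211 φ' γ).1 = (outer (φ' γ).1).map Complex.ofRealHom := rfl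
    have e2 : (rho211 φ γ).1 = (outer (φ γ).1).map Complex.ofRealHom := rfl
    have e3 := exp_pi_int (Multiplicative.toAdd (n γ))
    have e4 : Complex.exp (-(((Real.pi * (Multiplicative.toAdd (n γ) : ℤ) : ℝ) : ℂ) *
        Complex.I)) = ((((-1 : ℤˣ) ^ (Multiplicative.toAdd (n γ)) : ℤˣ) : ℤ) : ℂ) := by
      rw [Complex.exp_neg, e3]
      rcases Int.units_eq_one_or ((-1 : ℤˣ) ^ (Multiplicative.toAdd (n γ))) with h3 | h3 <;>
        rw [h3] <;> simp
    rw [e1, e2, h', e3, e4, ← hεa]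
    ext i j
    rw [Matrix.diagonal_mul]
    fin_cases i <;> fin_cases j <;> simp [outer]
  have hpre : IsPreconnected (Set.range P) := isPreconnected_range hP
  have h3 := hpre.subset_connectedComponentIn (x := twF ε ⇑(rho211 φ)) ⟨Real.pi, h2⟩ hsub
    ⟨0, h0⟩
  rwa [← connectedComponentIn_eq h1] at h3

/-! ### The reflection -/

/-- `diag (1, -1, 1, -1)` -/
noncomputable def fl : SL4 := ⟨Matrix.diagonal ![1, -1, 1, -1], by
  rw [Matrix.det_diagonal]
  simp [Fin.prod_univ_four]⟩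

lemma fl_coe : fl.1 = Matrix.diagonal ![1, -1, 1, -1] := rfl

lemma fl_mul : fl * fl = 1 := by
  apply Subtype.ext
  rw [Matrix.SpecialLinearGroup.coe_mul, fl_coe, Matrix.diagonal_mul_diagonal]
  ext i j
  fin_cases i <;> fin_cases j <;> simp

lemma fl_inv : fl⁻¹ = fl := inv_eq_of_mul_eq_one_right fl_mul

/-- the conjugate of a representation -/
noncomputable def flHom (ρ : Γ →* SL4) : Γ →* SL4 where
  toFun γ := fl * ρ γ * fl
  map_one' := by rw [map_one, mul_one, fl_mul]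
  map_mul' γ δ := by
    rw [map_mul]
    calc fl * (ρ γ * ρ δ) * fl = fl * ρ γ * 1 * (ρ δ * fl) := by group
      _ = fl * ρ γ * (fl * fl) * (ρ δ * fl) := by rw [fl_mul]
      _ = fl * ρ γ * fl * (fl * ρ δ * fl) := by group

/-- the conjugation -/
noncomputable def flF (f : Γ → SL4) : Γ → SL4 := fun γ => fl * f γ * fl

lemma flF_cont : Continuous (flF : (Γ → SL4) → (Γ → SL4)) :=
  continuous_pi fun γ => (continuous_const.mul (continuous_apply γ)).mul continuous_const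

lemma fl_anosov {S : Finset Γ} {θ : Set ℕ} (hθ : θ ⊆ {1, 2, 3}) {ρ : Γ →* SL4}
    (h : IsAnosov S θ ρ) : IsAnosov S θ (flHom ρ) := by
  refine anosov_conj hθ (Matrix.SpecialLinearGroup.toGL fl) (fun γ => ?_) h
  have e : ((Matrix.SpecialLinearGroup.toGL fl)⁻¹ : GL (Fin 4) ℂ) =
      Matrix.SpecialLinearGroup.toGL fl := by
    rw [← map_inv, fl_inv]
  rw [e]
  rfl

lemma fl_conj_apply (M : M4) (i j : Fin 4) :
    (fl.1 * M * fl.1) i j = (![1, -1, 1, -1] : Fin 4 → ℂ) i * M i j *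
      (![1, -1, 1, -1] : Fin 4 → ℂ) j := by
  rw [fl_coe, Matrix.mul_diagonal, Matrix.diagonal_mul]

lemma flip_entries (g : Matrix (Fin 2) (Fin 2) ℝ) :
    !![1, 0; 0, -1] * g * !![1, 0; 0, -1] = !![g 0 0, -g 0 1; -g 1 0, g 1 1] := by
  ext i j
  fin_cases i <;> fin_cases j <;>
    simp [Matrix.mul_apply, Fin.sum_univ_two, Matrix.vecMul, dotProduct]

lemma rho4_fl {φ φ' : Γ →* X}
    (h : ∀ γ, (φ' γ).1 = !![1, 0; 0, -1] * (φ γ).1 * !![1, 0; 0, -1]) :
    flF ⇑(rho4 φ) = ⇑(rho4 φ') := by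
  funext γ
  apply Subtype.ext
  have e1 : (rho4 φ γ).1 = (sym3 (φ γ).1).map Complex.ofRealHom := rfl
  show (fl * rho4 φ γ * fl).1 = (sym3 (φ' γ).1).map Complex.ofRealHom
  rw [h, flip_entries, Matrix.SpecialLinearGroup.coe_mul, Matrix.SpecialLinearGroup.coe_mul, e1]
  ext i j
  rw [fl_conj_apply]
  fin_cases i <;> fin_cases j <;> simp [sym3] <;> ring

lemma rho22_fl {φ φ' : Γ →* X}
    (h : ∀ γ, (φ' γ).1 = !![1, 0; 0, -1] * (φ γ).1 * !![1, 0; 0, -1]) :
    flF ⇑(rho22 φ) = ⇑(rho22 φ') := by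
  funext γ
  apply Subtype.ext
  have e1 : (rho22 φ γ).1 = (dbl (φ γ).1).map Complex.ofRealHom := rfl
  show (fl * rho22 φ γ * fl).1 = (dbl (φ' γ).1).map Complex.ofRealHom
  rw [h, flip_entries, Matrix.SpecialLinearGroup.coe_mul, Matrix.SpecialLinearGroup.coe_mul, e1]
  ext i j
  rw [fl_conj_apply]
  fin_cases i <;> fin_cases j <;> simp [dbl]

lemma rho211_fl {φ φ' : Γ →* X}
    (h : ∀ γ, (φ' γ).1 = !![1, 0; 0, -1] * (φ γ).1 * !![1, 0; 0, -1]) :
    flF ⇑(rho211 φ) = ⇑(rho211 φ') := by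
  funext γ
  apply Subtype.ext
  have e1 : (rho211 φ γ).1 = (outer (φ γ).1).map Complex.ofRealHom := rfl
  show (fl * rho211 φ γ * fl).1 = (outer (φ' γ).1).map Complex.ofRealHom
  rw [h, flip_entries, Matrix.SpecialLinearGroup.coe_mul, Matrix.SpecialLinearGroup.coe_mul, e1]
  ext i j
  rw [fl_conj_apply]
  fin_cases i <;> fin_cases j <;> simp [outer]

lemma fl_J : fl.1.transpose * J4 * fl.1 = -J4 := by
  rw [fl_coe, Matrix.diagonal_transpose]
  ext i j
  rw [Matrix.mul_diagonal, Matrix.diagonal_mul]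
  fin_cases i <;> fin_cases j <;> simp [J4]

theorem flip_b {S : Finset Γ} {φ φ' : Γ →* X}
    (h : ∀ γ, (φ' γ).1 = !![1, 0; 0, -1] * (φ γ).1 * !![1, 0; 0, -1])
    (hb : ⇑(rho22 φ) ∈ connectedComponentIn (anosovSet 4 S {2}) ⇑(rho4 φ)) :
    ⇑(rho22 φ') ∈ connectedComponentIn (anosovSet 4 S {2}) ⇑(rho4 φ') := by
  have h1 := map_comp_in flF_cont (B := anosovSet 4 S {2}) (by
    rintro _ ⟨ρ, hρ, rfl⟩
    exact ⟨flHom ρ, fl_anosov (by intro x hx; rw [Set.mem_singleton_iff] at hx; simp [hx]) hρ,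
      rfl⟩) hb
  rwa [rho4_fl h, rho22_fl h] at h1

theorem flip_c {S : Finset Γ} {φ φ' : Γ →* X}
    (h : ∀ γ, (φ' γ).1 = !![1, 0; 0, -1] * (φ γ).1 * !![1, 0; 0, -1])
    (hc : ⇑(rho211 φ) ∈ connectedComponentIn (anosovSp S {1}) ⇑(rho4 φ)) :
    ⇑(rho211 φ') ∈ connectedComponentIn (anosovSp S {1}) ⇑(rho4 φ') := by
  have h1 := map_comp_in flF_cont (B := anosovSp S {1}) (by
    rintro _ ⟨ρ, hρ, hsp, rfl⟩
    refine ⟨flHom ρ, fl_anosov (by intro x hx; rw [Set.mem_singleton_iff] at hx; simp [hx]) hρ,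
      fun γ => ?_, rfl⟩
    show (fl * ρ γ * fl).1.transpose * J4 * (fl * ρ γ * fl).1 = J4
    rw [Matrix.SpecialLinearGroup.coe_mul, Matrix.SpecialLinearGroup.coe_mul,
      Matrix.transpose_mul, Matrix.transpose_mul]
    calc fl.1.transpose * ((ρ γ).1.transpose * fl.1.transpose) * J4 * (fl.1 * (ρ γ).1 * fl.1)
        = fl.1.transpose * ((ρ γ).1.transpose * (fl.1.transpose * J4 * fl.1) * (ρ γ).1) *
            fl.1 := by simp only [Matrix.mul_assoc]
      _ = fl.1.transpose * (-((ρ γ).1.transpose * J4 * (ρ γ).1)) * fl.1 := by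
          rw [fl_J, Matrix.mul_neg, Matrix.neg_mul]
      _ = -(fl.1.transpose * J4 * fl.1) := by
          rw [hsp, Matrix.mul_neg, Matrix.neg_mul]
      _ = J4 := by rw [fl_J, neg_neg]) hc
  rwa [rho4_fl h, rho211_fl h] at h1

/-! ### Isomorphisms -/

lemma wordLen_equiv {Γ' : Type*} [Group Γ'] (α : Γ' ≃* Γ) {S : Finset Γ}
    (hS : Subgroup.closure (S : Set Γ) = ⊤) {S' : Finset Γ'}
    (hS' : Subgroup.closure (S' : Set Γ') = ⊤) :
    ∃ L : ℕ, 0 < L ∧ ∀ γ, wordLen S' γ ≤ L * wordLen S (α γ) := by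
  classical
  obtain ⟨L0, hL0⟩ := (((S ∪ S.image (fun x => x⁻¹)).image
    (fun x => wordLen S' (α.symm x))).finite_toSet).bddAbove
  have hL : ∀ s, s ∈ S ∨ s⁻¹ ∈ S → wordLen S' (α.symm s) ≤ L0 := by
    intro s hs
    apply hL0
    rw [Finset.mem_coe]
    apply Finset.mem_image_of_mem (fun x => wordLen S' (α.symm x))
    rw [Finset.mem_union]
    rcases hs with hs | hs
    · exact Or.inl hs
    · refine Or.inr ?_
      rw [Finset.mem_image]
      exact ⟨s⁻¹, hs, inv_inv s⟩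
  have hone : wordLen S' (1 : Γ') = 0 := by
    have := wordLen_le (S := S') (γ := (1 : Γ')) [] (by simp) rfl
    simpa using this
  have key : ∀ l : List Γ, (∀ s ∈ l, s ∈ S ∨ s⁻¹ ∈ S) →
      wordLen S' (α.symm l.prod) ≤ L0 * l.length := by
    intro l
    induction l with
    | nil =>
      intro _
      rw [List.prod_nil, map_one, hone]
      exact Nat.zero_le _
    | cons a l ih =>
      intro hl
      rw [List.prod_cons, map_mul, List.length_cons]
      have h1 := wordLen_mul hS' (α.symm a) (α.symm l.prod)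
      have h2 := hL a (hl a (by simp))
      have h3 := ih (fun s hs => hl s (by simp [hs]))
      calc wordLen S' (α.symm a * α.symm l.prod) ≤ L0 + L0 * l.length := by omega
        _ = L0 * (l.length + 1) := by ring
  refine ⟨L0 + 1, Nat.succ_pos _, fun γ => ?_⟩
  obtain ⟨l, h1, h2, h3⟩ := wordLen_spec hS (α γ)
  have h4 := key l h2
  rw [h3, MulEquiv.symm_apply_apply, h1] at h4
  exact h4.trans (Nat.mul_le_mul_right _ (Nat.le_succ _))

lemma equiv_anosov {Γ' : Type*} [Group Γ'] (α : Γ' ≃* Γ) {S : Finset Γ}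
    (hS : Subgroup.closure (S : Set Γ) = ⊤) {S' : Finset Γ'}
    (hS' : Subgroup.closure (S' : Set Γ') = ⊤) {θ : Set ℕ} {ρ : Γ →* SL4}
    (h : IsAnosov S θ ρ) : IsAnosov S' θ (ρ.comp α.toMonoidHom) := by
  obtain ⟨C, c, hC, hc, hgap⟩ := h
  obtain ⟨L, hL, hLen⟩ := wordLen_equiv α hS hS'
  have hL' : (0 : ℝ) < L := by exact_mod_cast hL
  refine ⟨C, c / L, hC, by positivity, fun γ k hk => ?_⟩
  refine le_trans ?_ (hgap (α γ) k hk)
  have h1 : (wordLen S' γ : ℝ) ≤ L * wordLen S (α γ) := by exact_mod_cast hLen γ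
  have h2 : c / L * wordLen S' γ ≤ c * wordLen S (α γ) := by
    calc c / L * wordLen S' γ ≤ c / L * (L * wordLen S (α γ)) := by gcongr
      _ = c * wordLen S (α γ) := by field_simp
  gcongr

theorem equiv_b {Γ' : Type*} [Group Γ'] (α : Γ' ≃* Γ) {S : Finset Γ}
    (hS : Subgroup.closure (S : Set Γ) = ⊤) {S' : Finset Γ'}
    (hS' : Subgroup.closure (S' : Set Γ') = ⊤) {φ : Γ →* X}
    (hb : ⇑(rho22 φ) ∈ connectedComponentIn (anosovSet 4 S {2}) ⇑(rho4 φ)) :
    ⇑(rho22 (φ.comp α.toMonoidHom)) ∈ connectedComponentIn (anosovSet 4 S' {2})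
      ⇑(rho4 (φ.comp α.toMonoidHom)) := by
  have hF : Continuous (fun (f : Γ → SL4) (γ : Γ') => f (α γ)) :=
    continuous_pi fun γ => continuous_apply (α γ)
  exact map_comp_in hF (B := anosovSet 4 S' {2}) (by
    rintro _ ⟨ρ, hρ, rfl⟩
    exact ⟨ρ.comp α.toMonoidHom, equiv_anosov α hS hS' hρ, rfl⟩) hb

theorem equiv_c {Γ' : Type*} [Group Γ'] (α : Γ' ≃* Γ) {S : Finset Γ}
    (hS : Subgroup.closure (S : Set Γ) = ⊤) {S' : Finset Γ'}
    (hS' : Subgroup.closure (S' : Set Γ') = ⊤) {φ : Γ →* X}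
    (hc : ⇑(rho211 φ) ∈ connectedComponentIn (anosovSp S {1}) ⇑(rho4 φ)) :
    ⇑(rho211 (φ.comp α.toMonoidHom)) ∈ connectedComponentIn (anosovSp S' {1})
      ⇑(rho4 (φ.comp α.toMonoidHom)) := by
  have hF : Continuous (fun (f : Γ → SL4) (γ : Γ') => f (α γ)) :=
    continuous_pi fun γ => continuous_apply (α γ)
  exact map_comp_in hF (B := anosovSp S' {1}) (by
    rintro _ ⟨ρ, hρ, hsp, rfl⟩
    exact ⟨ρ.comp α.toMonoidHom, equiv_anosov α hS hS' hρ, fun γ => hsp (α γ), rfl⟩) hc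

end Pool.Agent.Hhelper63.AnT
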