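import Pool.Agent.Hhelper63.AnT.FinC
import Pool.Agent.Hhelper63.AnT.Twist

/-!
From one Fuchsian representation to all of them, given the connectedness of moduli space.
-/

namespace Pool.Agent.Hhelper63.AnT

open Pool.Agent.Hhelper67.Anosov

/-- Connectedness of moduli space: every Fuchsian representation `φ` of the surface group of genus
`g` lies in the component of a sign twist of `φ₀` or of its mirror image. -/
def TeichStmt (g : ℕ) : Prop :=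
  ∀ φ φ₀ : Surf g →* X, ⇑φ ∈ fuchs (Surf g) → ⇑φ₀ ∈ fuchs (Surf g) →
    ∃ (n : Surf g →* Multiplicative ℤ) (φ₁ φ₂ : Surf g →* X),
      (φ₁ = φ₀ ∨ ∀ γ, (φ₁ γ).1 = !![1, 0; 0, -1] * (φ₀ γ).1 * !![1, 0; 0, -1]) ∧
      (∀ γ, (φ₂ γ).1 = ((-1 : ℝ) ^ (Multiplicative.toAdd (n γ))) • (φ₁ γ).1) ∧
      ⇑φ₂ ∈ fuchs (Surf g) ∧ ⇑φ ∈ connectedComponentIn (fuchs (Surf g)) ⇑φ₂

theorem all_phi_c {g : ℕ} (hg : 2 ≤ g) (ht : TeichStmt g) (S : Finset (Surf g))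
    (hS : Subgroup.closure (S : Set (Surf g)) = ⊤) (φ : Surf g →* X)
    (hφ : ⇑φ ∈ fuchs (Surf g)) :
    ⇑(rho211 φ) ∈ connectedComponentIn (anosovSp S {1}) ⇑(rho4 φ) := by
  obtain ⟨φ₀, h0, hc⟩ := main_c g hg
  obtain ⟨n, φ₁, φ₂, h1, h2, h3, h4⟩ := ht φ φ₀ hφ h0
  have k0 := hc S hS
  have k1 : ⇑(rho211 φ₁) ∈ connectedComponentIn (anosovSp S {1}) ⇑(rho4 φ₁) := by
    rcases h1 with h1 | h1
    · rw [h1]; exact k0
    · exact flip_c h1 k0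
  exact transport_c hS (twist_c hS h3 n h2 k1) h4

/-- the sign character of a character with values in the integers -/
def sgn {Γ : Type*} [Group Γ] (n : Γ →* Multiplicative ℤ) : Γ →* ℤˣ :=
  (zpowersHom ℤˣ (-1)).comp n

lemma sgn_apply {Γ : Type*} [Group Γ] (n : Γ →* Multiplicative ℤ) (γ : Γ) :
    (((sgn n γ : ℤˣ) : ℤ) : ℝ) = (-1 : ℝ) ^ (Multiplicative.toAdd (n γ)) := by
  have h : sgn n γ = (-1 : ℤˣ) ^ (Multiplicative.toAdd (n γ)) := rfl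
  rw [h]
  rcases Int.even_or_odd (Multiplicative.toAdd (n γ)) with he | ho
  · rw [he.neg_one_zpow, he.neg_one_zpow]; norm_num
  · rw [ho.neg_one_zpow, ho.neg_one_zpow]; norm_num

theorem all_phi_b {g : ℕ} (ht : TeichStmt g)
    (hb : ∃ φ : Surf g →* X, ⇑φ ∈ fuchs (Surf g) ∧
      ∀ S : Finset (Surf g), Subgroup.closure (S : Set (Surf g)) = ⊤ →
        ⇑(rho22 φ) ∈ connectedComponentIn (anosovSet 4 S {2}) ⇑(rho4 φ))
    (S : Finset (Surf g)) (hS : Subgroup.closure (S : Set (Surf g)) = ⊤) (φ : Surf g →* X)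
    (hφ : ⇑φ ∈ fuchs (Surf g)) :
    ⇑(rho22 φ) ∈ connectedComponentIn (anosovSet 4 S {2}) ⇑(rho4 φ) := by
  obtain ⟨φ₀, h0, hc⟩ := hb
  obtain ⟨n, φ₁, φ₂, h1, h2, h3, h4⟩ := ht φ φ₀ hφ h0
  have k0 := hc S hS
  have k1 : ⇑(rho22 φ₁) ∈ connectedComponentIn (anosovSet 4 S {2}) ⇑(rho4 φ₁) := by
    rcases h1 with h1 | h1
    · rw [h1]; exact k0
    · exact flip_b h1 k0
  refine transport_b hS (twist_b (sgn n) (fun γ => ?_) k1) h4
  rw [sgn_apply]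
  exact h2 γ

end Pool.Agent.Hhelper63.AnT
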