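import Pool.Agent.Hhelper63.AnT.SurfB
import Pool.Agent.Hhelper63.AnT.EndB
import Pool.Agent.Hhelper63.AnT.All

/-!
Case (b) for one Fuchsian representation of every surface group, from the statement for the
triangle group.
-/

namespace Pool.Agent.Hhelper63.AnT

open Pool.Agent.Hhelper67.Anosov

theorem main_b_of (g : ℕ) (hg : 2 ≤ g)
    (hfin : ∀ K : ℝ, {g : Tri 4 3 3 | ∀ i j, |(PhiB g).1 i j| ≤ K}.Finite)
    (core : ∀ (j : Surf g →* Tri 4 3 3) (φ : Surf g →* X), (∀ γ, (φ γ).1 = (PhiB (j γ)).1) →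
      (∀ γ, EtaB (j γ) = 1) → ⇑φ ∈ fuchs (Surf g) →
      ∀ S : Finset (Surf g), Subgroup.closure (S : Set (Surf g)) = ⊤ →
        ⇑(rho22 φ) ∈ connectedComponentIn (anosovSet 4 S {2}) ⇑(rho4 φ)) :
    ∃ φ : Surf g →* X, ⇑φ ∈ fuchs (Surf g) ∧
    ∀ S : Finset (Surf g), Subgroup.closure (S : Set (Surf g)) = ⊤ →
      ⇑(rho22 φ) ∈ connectedComponentIn (anosovSet 4 S {2}) ⇑(rho4 φ) := by
  obtain ⟨ι, hι, hη, hdet, hF⟩ := surf_b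
  obtain ⟨κ, hκ, hF'⟩ := surf_cover g hg
  let j : Surf g →* Tri 4 3 3 := ι.comp κ
  let φ : Surf g →* X := toX (PhiB.comp j) (fun a => hdet (κ a))
  have hφ : ∀ γ, (φ γ).1 = (PhiB (j γ)).1 := fun _ => rfl
  have hinj : Function.Injective φ := by
    intro a b hab
    have h1 : (PhiB (j a)).1 = (PhiB (j b)).1 := by rw [← hφ, ← hφ, hab]
    exact hκ (hι (faith_b (Units.ext h1)))
  have hf : ⇑φ ∈ fuchs (Surf g) :=
    ⟨φ, ⟨hinj, disc_of_fin PhiB hfin j φ hφ, coc_b hfin j φ hφ (reps_comp κ ι hF' hF)⟩, rfl⟩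
  exact ⟨φ, hf, fun S hS => core j φ hφ (fun γ => hη (κ γ)) hf S hS⟩

/-- case (b) for one Fuchsian representation, from a path with certificates -/
theorem main_b_path (g : ℕ) (hg : 2 ≤ g) {S : ℝ → Fin 3 → M4}
    (hr : ∀ s ∈ Set.Icc (0 : ℝ) 1, RelB (S s))
    (hcont : ∀ i, ContinuousOn (fun s => S s i) (Set.Icc (0 : ℝ) 1))
    (hu : ∀ s ∈ Set.Icc (0 : ℝ) 1, ∀ i : Fin 3, i ≠ 2 → (S s i).conjTranspose * S s i = 1)
    (hc : ∀ s ∈ Set.Icc (0 : ℝ) 1, CertAt 3 edgesB 2 (S s))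
    (A0 A1 : GL (Fin 4) ℂ) {ε : ℂ} (hε : ε * ε = 1)
    (e0 : ∀ i, A0.1 * S 0 i = kr (finB i) (EndCAux.cx (reflB i)) * A0.1)
    (e1 : ∀ i, A1.1 * S 1 i = ε • (sym3 (EndCAux.cx (reflB i)) * A1.1)) :
    ∃ φ : Surf g →* X, ⇑φ ∈ fuchs (Surf g) ∧
    ∀ S : Finset (Surf g), Subgroup.closure (S : Set (Surf g)) = ⊤ →
      ⇑(rho22 φ) ∈ connectedComponentIn (anosovSet 4 S {2}) ⇑(rho4 φ) := by
  have m1 : (1 : ℝ) ∈ Set.Icc (0 : ℝ) 1 := Set.right_mem_Icc.mpr zero_le_one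
  exact main_b_of g hg (fin_b_of (hr 1 m1) (hu 1 m1) (hc 1 m1) A1 hε e1)
    fun j φ hφ hη hf T hT => core_b_of hr hcont hu hc A0 A1 hε e0 e1 j φ hφ hη hf T hT

end Pool.Agent.Hhelper63.AnT
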