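import Pool.Agent.Hhelper63.AnT.DataC0
import Pool.Agent.Hhelper63.AnT.DataC1
import Pool.Agent.Hhelper63.AnT.DataC2
import Pool.Agent.Hhelper63.AnT.DataC3
import Pool.Agent.Hhelper63.AnT.DataC4

/-!
The certificates hold along the whole path, case (c).
-/

namespace Pool.Agent.Hhelper63.AnT

theorem all_c (s : ℝ) (hs : s ∈ Set.Icc (0 : ℝ) 1) : GoodC s ∧ CertAt 4 edgesC 1 (pathC s) := by
  have h : CovC 8192 := segC4 (segC3 (segC2 (segC1 segC0)))
  exact h s hs.1 (by norm_num; exact hs.2)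

end Pool.Agent.Hhelper63.AnT
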