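import Pool.Agent.Hhelper63.AnT.Check

/-!
Complex ball arithmetic with integer centres at scale `2 ^ 20`.
-/

namespace Pool.Agent.Hhelper63.AnT

open Complex

namespace Z4

/-- absolute value of the real part -/
def ar (p : Z4) : ℕ := Nat.add (Nat.sub p.a p.c) (Nat.sub p.c p.a)

/-- absolute value of the imaginary part -/
def ai (p : Z4) : ℕ := Nat.add (Nat.sub p.b p.d) (Nat.sub p.d p.b)

/-- upper bound for the absolute value -/
def ab (p : Z4) : ℕ :=
  bif Nat.ble p.ar p.ai then Nat.add (Nat.add p.ai (Nat.div (Nat.mul 54 p.ar) 128)) 1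
  else Nat.add (Nat.add p.ar (Nat.div (Nat.mul 54 p.ai) 128)) 1

lemma ar_eq (p : Z4) : (p.ar : ℝ) = |p.toC.re| := by
  simp only [ar, toC, Nat.add_eq, Nat.sub_eq]
  rcases le_total p.a p.c with h | h
  · have h' : (p.a : ℝ) ≤ p.c := by exact_mod_cast h
    rw [Nat.sub_eq_zero_of_le h, zero_add, Nat.cast_sub h, abs_of_nonpos (by linarith)]
    ring
  · have h' : (p.c : ℝ) ≤ p.a := by exact_mod_cast h
    rw [Nat.sub_eq_zero_of_le h, add_zero, Nat.cast_sub h, abs_of_nonneg (by linarith)]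

lemma ai_eq (p : Z4) : (p.ai : ℝ) = |p.toC.im| := by
  simp only [ai, toC, Nat.add_eq, Nat.sub_eq]
  rcases le_total p.b p.d with h | h
  · have h' : (p.b : ℝ) ≤ p.d := by exact_mod_cast h
    rw [Nat.sub_eq_zero_of_le h, zero_add, Nat.cast_sub h, abs_of_nonpos (by linarith)]
    ring
  · have h' : (p.d : ℝ) ≤ p.b := by exact_mod_cast h
    rw [Nat.sub_eq_zero_of_le h, add_zero, Nat.cast_sub h, abs_of_nonneg (by linarith)]

lemma div_bound (a b : ℕ) (hb : 0 < b) : (a : ℝ) / b ≤ ((Nat.div a b : ℕ) : ℝ) + 1 := by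
  have h : a < b * (a / b + 1) := by
    have := Nat.lt_mul_div_succ a hb
    simpa using this
  have hb' : (0 : ℝ) < b := by exact_mod_cast hb
  rw [div_le_iff₀ hb']
  have h' : (a : ℝ) < b * ((a / b : ℕ) + 1) := by exact_mod_cast h
  have e : (Nat.div a b : ℕ) = a / b := rfl
  rw [e]
  linarith

lemma hyp_bound {x y : ℝ} (hx : 0 ≤ x) (hy : 0 ≤ y) (h : y ≤ x) :
    Real.sqrt (x ^ 2 + y ^ 2) ≤ x + 54 * y / 128 := by
  apply Real.sqrt_le_iff.2
  constructor
  · positivity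
  · nlinarith [mul_nonneg hx hy, mul_nonneg hy (sub_nonneg.2 h)]

lemma norm_le_ab (p : Z4) : ‖p.toC‖ ≤ p.ab := by
  have e : ‖p.toC‖ = Real.sqrt (|p.toC.re| ^ 2 + |p.toC.im| ^ 2) := by
    rw [Complex.norm_def, Complex.normSq_apply]
    congr 1
    rw [sq_abs, sq_abs]
    ring
  rw [e, ← ar_eq, ← ai_eq]
  have h1 : (0 : ℝ) ≤ p.ar := Nat.cast_nonneg _
  have h2 : (0 : ℝ) ≤ p.ai := Nat.cast_nonneg _
  unfold ab
  rcases le_total p.ar p.ai with h | h
  · have hb : Nat.ble p.ar p.ai = true := by rw [Nat.ble_eq]; exact h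
    rw [hb, cond_true]
    have h' : (p.ar : ℝ) ≤ p.ai := by exact_mod_cast h
    have h3 := hyp_bound h2 h1 h'
    have h4 := div_bound (Nat.mul 54 p.ar) 128 (by norm_num)
    rw [add_comm]
    refine h3.trans ?_
    simp only [Nat.add_eq, Nat.cast_add, Nat.cast_one]
    have e5 : ((Nat.mul 54 p.ar : ℕ) : ℝ) = 54 * p.ar := by
      rw [Nat.mul_eq]; push_cast; ring
    rw [e5] at h4
    push_cast at h4
    linarith
  · rcases Nat.eq_or_lt_of_le h with h0 | h0
    · have hb : Nat.ble p.ar p.ai = true := by rw [Nat.ble_eq]; exact h0.symm.le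
      rw [hb, cond_true]
      have h' : (p.ar : ℝ) ≤ p.ai := by exact_mod_cast h0.symm.le
      have h3 := hyp_bound h2 h1 h'
      have h4 := div_bound (Nat.mul 54 p.ar) 128 (by norm_num)
      rw [add_comm]
      refine h3.trans ?_
      simp only [Nat.add_eq, Nat.cast_add, Nat.cast_one]
      have e5 : ((Nat.mul 54 p.ar : ℕ) : ℝ) = 54 * p.ar := by
        rw [Nat.mul_eq]; push_cast; ring
      rw [e5] at h4
      push_cast at h4
      linarith
    · have hb : Nat.ble p.ar p.ai = false := by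
        rw [Bool.eq_false_iff, Ne, Nat.ble_eq]; omega
      rw [hb, cond_false]
      have h' : (p.ai : ℝ) ≤ p.ar := by exact_mod_cast h
      have h3 := hyp_bound h1 h2 h'
      have h4 := div_bound (Nat.mul 54 p.ai) 128 (by norm_num)
      refine h3.trans ?_
      simp only [Nat.add_eq, Nat.cast_add, Nat.cast_one]
      have e5 : ((Nat.mul 54 p.ai : ℕ) : ℝ) = 54 * p.ai := by
        rw [Nat.mul_eq]; push_cast; ring
      rw [e5] at h4
      push_cast at h4
      linarith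

/-- division by `2 ^ 20`, rounded -/
def rd (p : Z4) : Z4 :=
  ⟨Nat.shiftRight (Nat.sub p.a p.c) 20, Nat.shiftRight (Nat.sub p.b p.d) 20,
    Nat.shiftRight (Nat.sub p.c p.a) 20, Nat.shiftRight (Nat.sub p.d p.b) 20⟩

/-- normalisation -/
def nz (p : Z4) : Z4 :=
  ⟨Nat.sub p.a p.c, Nat.sub p.b p.d, Nat.sub p.c p.a, Nat.sub p.d p.b⟩

lemma toC_nz (p : Z4) : p.nz.toC = p.toC := by
  apply Complex.ext
  · simp only [nz, toC, Nat.sub_eq]
    rcases le_total p.a p.c with h | h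
    · rw [Nat.sub_eq_zero_of_le h, Nat.cast_sub h]; push_cast; ring
    · rw [Nat.sub_eq_zero_of_le h, Nat.cast_sub h]; push_cast; ring
  · simp only [nz, toC, Nat.sub_eq]
    rcases le_total p.b p.d with h | h
    · rw [Nat.sub_eq_zero_of_le h, Nat.cast_sub h]; push_cast; ring
    · rw [Nat.sub_eq_zero_of_le h, Nat.cast_sub h]; push_cast; ring

lemma shift_bound (a c : ℕ) :
    |((a : ℝ) - c) / 1048576 - ((Nat.shiftRight (Nat.sub a c) 20 : ℕ) -
      (Nat.shiftRight (Nat.sub c a) 20 : ℕ) : ℝ)| ≤ 1 := by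
  have key : ∀ n : ℕ, (n : ℝ) / 1048576 - ((Nat.shiftRight n 20 : ℕ) : ℝ) ≤ 1 ∧
      0 ≤ (n : ℝ) / 1048576 - ((Nat.shiftRight n 20 : ℕ) : ℝ) := by
    intro n
    have e : Nat.shiftRight n 20 = n / 1048576 := by
      have := Nat.shiftRight_eq_div_pow n 20
      norm_num at this
      exact this
    rw [e]
    have h1 : n / 1048576 * 1048576 ≤ n := Nat.div_mul_le_self _ _
    have h2 : n < 1048576 * (n / 1048576 + 1) := Nat.lt_mul_div_succ n (by norm_num)
    have h1' : ((n / 1048576 : ℕ) : ℝ) * 1048576 ≤ n := by exact_mod_cast h1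
    have h2' : (n : ℝ) < 1048576 * (((n / 1048576 : ℕ) : ℝ) + 1) := by exact_mod_cast h2
    constructor
    · have : (n : ℝ) / 1048576 ≤ ((n / 1048576 : ℕ) : ℝ) + 1 := by
        rw [div_le_iff₀ (by norm_num)]; linarith
      linarith
    · have : ((n / 1048576 : ℕ) : ℝ) ≤ (n : ℝ) / 1048576 := by
        rw [le_div_iff₀ (by norm_num)]; linarith
      linarith
  simp only [Nat.sub_eq]
  rcases le_total a c with h | h
  · have hz : a - c = 0 := Nat.sub_eq_zero_of_le h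
    rw [hz]
    have h0 : Nat.shiftRight 0 20 = 0 := by simp
    rw [h0]
    obtain ⟨k1, k2⟩ := key (c - a)
    rw [Nat.cast_sub h] at k1 k2
    rw [abs_le]
    push_cast
    constructor <;> linarith
  · have hz : c - a = 0 := Nat.sub_eq_zero_of_le h
    rw [hz]
    have h0 : Nat.shiftRight 0 20 = 0 := by simp
    rw [h0]
    obtain ⟨k1, k2⟩ := key (a - c)
    rw [Nat.cast_sub h] at k1 k2
    rw [abs_le]
    push_cast
    constructor <;> linarith

lemma rd_bound (p : Z4) : ‖p.toC / 1048576 - p.rd.toC‖ ≤ 2 := by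
  have h1 := shift_bound p.a p.c
  have h2 := shift_bound p.b p.d
  have e : (1048576 : ℂ) = ((1048576 : ℝ) : ℂ) := by norm_num
  refine (Complex.norm_le_abs_re_add_abs_im _).trans ?_
  have er : (p.toC / 1048576 - p.rd.toC).re = ((p.a : ℝ) - p.c) / 1048576 -
      ((Nat.shiftRight (Nat.sub p.a p.c) 20 : ℕ) - (Nat.shiftRight (Nat.sub p.c p.a) 20 : ℕ) : ℝ) := by
    rw [e, Complex.sub_re, Complex.div_ofReal_re]
    rfl
  have ei : (p.toC / 1048576 - p.rd.toC).im = ((p.b : ℝ) - p.d) / 1048576 -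
      ((Nat.shiftRight (Nat.sub p.b p.d) 20 : ℕ) - (Nat.shiftRight (Nat.sub p.d p.b) 20 : ℕ) : ℝ) := by
    rw [e, Complex.sub_im, Complex.div_ofReal_im]
    rfl
  rw [er, ei]
  linarith

end Z4

/-- a ball with centre `c / 2 ^ 20` and radius `r / 2 ^ 20` -/
structure CB where
  c : Z4
  r : ℕ

namespace CB

/-- membership -/
def Mem (b : CB) (ζ : ℂ) : Prop := ‖1048576 * ζ - b.c.toC‖ ≤ b.r

def add (x y : CB) : CB := ⟨(x.c.add y.c).nz, Nat.add x.r y.r⟩

def neg (x : CB) : CB := ⟨x.c.neg, x.r⟩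

def mul (x y : CB) : CB :=
  ⟨(x.c.mul y.c).rd, Nat.add (Nat.shiftRight (Nat.add (Nat.add (Nat.mul x.c.ab y.r)
    (Nat.mul y.c.ab x.r)) (Nat.mul x.r y.r)) 20) 3⟩

/-- multiplication by a natural number -/
def sm (n : ℕ) (x : CB) : CB := ⟨x.c.scale n, Nat.mul n x.r⟩

/-- the error of `w` as an inverse -/
def invE (x : CB) (w : Z4) : ℕ :=
  Nat.add ((Z4.nat 1099511627776).add (x.c.mul w).neg).ab (Nat.mul x.r w.ab)

/-- inverse, with a guess `w` -/
def inv (x : CB) (w : Z4) : CB :=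
  ⟨w, Nat.add (Nat.div (Nat.mul (x.invE w) w.ab) (Nat.sub 1099511627776 (x.invE w))) 1⟩

def invOK (x : CB) (w : Z4) : Bool := Nat.blt (x.invE w) 1099511627776

def sqD (x : CB) (s : Z4) : ℕ :=
  Nat.add ((x.c.scale 1048576).add (s.mul s).neg).ab (Nat.mul x.r 1048576)

def sqX (x : CB) (s : Z4) : ℕ := Nat.add (Nat.div (x.sqD s) (Nat.sub s.a s.c)) 1

/-- square root, with a guess `s` and a lower bound `m` for the absolute value of `s` -/
def sq (x : CB) (s : Z4) (m : ℕ) : CB :=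
  ⟨s, Nat.add (Nat.div (x.sqD s) (Nat.sub (Nat.mul 2 m) (x.sqX s))) 1⟩

def sqOK (x : CB) (s : Z4) (m : ℕ) : Bool :=
  Nat.blt (x.sqX s) (Nat.sub s.a s.c) && Nat.blt (x.sqX s) (Nat.mul 2 m) &&
    Nat.ble (Nat.add (Nat.mul m m) s.sqm) s.sqp

lemma Mem.add {x y : CB} {a b : ℂ} (hx : x.Mem a) (hy : y.Mem b) : (x.add y).Mem (a + b) := by
  unfold Mem at *
  simp only [CB.add, Z4.toC_nz, Z4.toC_add, Nat.add_eq, Nat.cast_add]
  calc ‖1048576 * (a + b) - (x.c.toC + y.c.toC)‖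
      = ‖(1048576 * a - x.c.toC) + (1048576 * b - y.c.toC)‖ := by congr 1; ring
    _ ≤ _ := (norm_add_le _ _).trans (add_le_add hx hy)

lemma Mem.neg {x : CB} {a : ℂ} (hx : x.Mem a) : (x.neg).Mem (-a) := by
  unfold Mem at *
  simp only [CB.neg, Z4.toC_neg]
  have e : 1048576 * -a - -x.c.toC = -(1048576 * a - x.c.toC) := by ring
  rw [e, norm_neg]
  exact hx

lemma Mem.sm {x : CB} {a : ℂ} (n : ℕ) (hx : x.Mem a) : (x.sm n).Mem (n * a) := by
  unfold Mem at *
  simp only [CB.sm, Z4.toC_scale, Nat.mul_eq, Nat.cast_mul]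
  calc ‖1048576 * (n * a) - n * x.c.toC‖ = ‖(n : ℂ) * (1048576 * a - x.c.toC)‖ := by
        congr 1; ring
    _ = n * ‖1048576 * a - x.c.toC‖ := by rw [norm_mul, Complex.norm_natCast]
    _ ≤ _ := by gcongr

lemma Mem.mul {x y : CB} {a b : ℂ} (hx : x.Mem a) (hy : y.Mem b) : (x.mul y).Mem (a * b) := by
  unfold Mem at *
  have h0 := Z4.rd_bound (x.c.mul y.c)
  rw [Z4.toC_mul] at h0
  set A := 1048576 * a - x.c.toC with hA
  set B := 1048576 * b - y.c.toC with hB
  have e : 1048576 * (a * b) - (x.c.mul y.c).rd.toC =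
      (x.c.toC * B + y.c.toC * A + A * B) / 1048576 +
        (x.c.toC * y.c.toC / 1048576 - (x.c.mul y.c).rd.toC) := by
    rw [hA, hB]; ring
  simp only [CB.mul]
  rw [e]
  have h1 := x.c.norm_le_ab
  have h2 := y.c.norm_le_ab
  have hr : (0 : ℝ) ≤ x.r := Nat.cast_nonneg _
  have hr' : (0 : ℝ) ≤ y.r := Nat.cast_nonneg _
  have h3 : ‖(x.c.toC * B + y.c.toC * A + A * B) / 1048576‖ ≤
      (x.c.ab * y.r + y.c.ab * x.r + x.r * y.r) / 1048576 := by
    rw [norm_div]
    have e16 : ‖(1048576 : ℂ)‖ = 1048576 := by norm_num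
    rw [e16]
    gcongr
    calc ‖x.c.toC * B + y.c.toC * A + A * B‖ ≤ ‖x.c.toC * B‖ + ‖y.c.toC * A‖ + ‖A * B‖ :=
          norm_add₃_le
      _ ≤ _ := by
        rw [norm_mul, norm_mul, norm_mul]
        gcongr
  have h4 := (norm_add_le ((x.c.toC * B + y.c.toC * A + A * B) / 1048576)
    (x.c.toC * y.c.toC / 1048576 - (x.c.mul y.c).rd.toC))
  have h5 : ((x.c.ab * y.r + y.c.ab * x.r + x.r * y.r : ℕ) : ℝ) / 1048576 ≤
      ((Nat.shiftRight (x.c.ab * y.r + y.c.ab * x.r + x.r * y.r) 20 : ℕ) : ℝ) + 1 := by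
    have e2 : Nat.shiftRight (x.c.ab * y.r + y.c.ab * x.r + x.r * y.r) 20 =
        Nat.div (x.c.ab * y.r + y.c.ab * x.r + x.r * y.r) 1048576 := by
      have := Nat.shiftRight_eq_div_pow (x.c.ab * y.r + y.c.ab * x.r + x.r * y.r) 20
      norm_num at this
      exact this
    rw [e2]
    have := Z4.div_bound (x.c.ab * y.r + y.c.ab * x.r + x.r * y.r) 1048576 (by norm_num)
    exact_mod_cast this
  simp only [Nat.add_eq, Nat.mul_eq, Nat.cast_add, Nat.cast_ofNat]
  push_cast at h5 h3 ⊢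
  linarith

lemma Mem.inv {x : CB} {a : ℂ} {w : Z4} (hx : x.Mem a) (h : x.invOK w = true) :
    a ≠ 0 ∧ (x.inv w).Mem a⁻¹ := by
  unfold Mem at *
  unfold invOK at h
  have hlt : x.invE w < 1099511627776 := by simpa [Nat.blt_eq] using h
  set Z := 1048576 * a with hZ
  set η : ℝ := (x.invE w : ℝ) with hη
  have hηlt : η < 1099511627776 := by rw [hη]; exact_mod_cast hlt
  have hE : ‖(1099511627776 : ℂ) - Z * w.toC‖ ≤ η := by
    have e : (1099511627776 : ℂ) - Z * w.toC =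
        (((Z4.nat 1099511627776).add (x.c.mul w).neg).toC) - (Z - x.c.toC) * w.toC := by
      rw [Z4.toC_add, Z4.toC_nat, Z4.toC_neg, Z4.toC_mul]
      push_cast
      ring
    rw [e]
    refine (norm_sub_le _ _).trans ?_
    rw [norm_mul, hη]
    simp only [invE, Nat.add_eq, Nat.mul_eq, Nat.cast_add, Nat.cast_mul]
    have h1 := ((Z4.nat 1099511627776).add (x.c.mul w).neg).norm_le_ab
    have h2 := w.norm_le_ab
    gcongr
  have hlow : 1099511627776 - η ≤ ‖Z‖ * w.ab := by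
    have h1 : ‖(1099511627776 : ℂ)‖ ≤ ‖(1099511627776 : ℂ) - Z * w.toC‖ + ‖Z * w.toC‖ := by
      have := norm_add_le ((1099511627776 : ℂ) - Z * w.toC) (Z * w.toC)
      simpa using this
    have e16 : ‖(1099511627776 : ℂ)‖ = 1099511627776 := by norm_num
    rw [e16, norm_mul] at h1
    have h2 := w.norm_le_ab
    have h3 : ‖Z‖ * ‖w.toC‖ ≤ ‖Z‖ * w.ab := by gcongr
    linarith
  have hab : (0 : ℝ) < w.ab := by
    by_contra hcon
    have : (w.ab : ℝ) = 0 := le_antisymm (not_lt.1 hcon) (Nat.cast_nonneg _)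
    rw [this, mul_zero] at hlow
    linarith
  have hZpos : 0 < ‖Z‖ := by
    by_contra hcon
    have : ‖Z‖ = 0 := le_antisymm (not_lt.1 hcon) (norm_nonneg _)
    rw [this, zero_mul] at hlow
    linarith
  have hZ0 : Z ≠ 0 := norm_pos_iff.1 hZpos
  have ha : a ≠ 0 := by
    rintro rfl
    exact hZ0 (by rw [hZ, mul_zero])
  refine ⟨ha, ?_⟩
  simp only [CB.inv]
  have e1 : 1048576 * a⁻¹ - w.toC = ((1099511627776 : ℂ) - Z * w.toC) / Z := by
    rw [hZ]
    field_simp
    ring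
  rw [e1, norm_div]
  have h2 : ‖(1099511627776 : ℂ) - Z * w.toC‖ / ‖Z‖ ≤ η * w.ab / (1099511627776 - η) := by
    rw [div_le_div_iff₀ hZpos (by linarith)]
    have hη0 : 0 ≤ η := Nat.cast_nonneg _
    calc ‖(1099511627776 : ℂ) - Z * w.toC‖ * (1099511627776 - η)
        ≤ η * (1099511627776 - η) := by
          gcongr
      _ ≤ η * (‖Z‖ * w.ab) := by gcongr
      _ = η * w.ab * ‖Z‖ := by ring
  refine h2.trans ?_
  have hpos : 0 < Nat.sub 1099511627776 (x.invE w) := by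
    rw [Nat.sub_eq]; omega
  have h3 := Z4.div_bound (Nat.mul (x.invE w) w.ab) (Nat.sub 1099511627776 (x.invE w)) hpos
  have e3 : ((Nat.sub 1099511627776 (x.invE w) : ℕ) : ℝ) = 1099511627776 - η := by
    rw [Nat.sub_eq, Nat.cast_sub hlt.le, hη]
    norm_num
  have e4 : ((Nat.mul (x.invE w) w.ab : ℕ) : ℝ) = η * w.ab := by
    rw [Nat.mul_eq, Nat.cast_mul, hη]
  rw [e3, e4] at h3
  simpa using h3

/-- square root enclosure, together with positivity of the real part -/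
lemma Mem.sq {x : CB} {a v : ℂ} {s : Z4} {m : ℕ} (hx : x.Mem a) (hv : v * v = a)
    (hre : 0 ≤ v.re) (h : x.sqOK s m = true) : 0 < v.re ∧ (x.sq s m).Mem v := by
  unfold Mem at *
  simp only [sqOK, Bool.and_eq_true, Nat.ble_eq, Nat.blt_eq, Nat.add_eq, Nat.mul_eq] at h
  obtain ⟨⟨h1, h2⟩, h3⟩ := h
  set V := 1048576 * v with hV
  set D : ℝ := (x.sqD s : ℝ) with hD
  have hD0 : 0 ≤ D := Nat.cast_nonneg _
  have hsub : 0 < Nat.sub s.a s.c := lt_of_le_of_lt (Nat.zero_le _) h1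
  have hsa : s.c ≤ s.a := by
    rw [Nat.sub_eq] at hsub; omega
  have hm1 : ((Nat.sub s.a s.c : ℕ) : ℝ) = s.toC.re := by
    rw [Nat.sub_eq, Nat.cast_sub hsa]
    rfl
  have hm1pos : 0 < s.toC.re := by rw [← hm1]; exact_mod_cast hsub
  have hVre : 0 ≤ V.re := by
    rw [hV]
    have : (1048576 * v).re = 1048576 * v.re := by
      simp [Complex.mul_re]
    rw [this]; positivity
  have hdiff : ‖V * V - s.toC * s.toC‖ ≤ D := by
    have e : V * V - s.toC * s.toC = (((x.c.scale 1048576).add (s.mul s).neg).toC) +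
        (1048576 * a - x.c.toC) * 1048576 := by
      rw [Z4.toC_add, Z4.toC_scale, Z4.toC_neg, Z4.toC_mul, hV, ← hv]
      push_cast
      ring
    rw [e]
    refine (norm_add_le _ _).trans ?_
    rw [norm_mul, hD]
    simp only [sqD, Nat.add_eq, Nat.mul_eq, Nat.cast_add, Nat.cast_mul]
    have h4 := ((x.c.scale 1048576).add (s.mul s).neg).norm_le_ab
    have e16 : ‖(1048576 : ℂ)‖ = 1048576 := by norm_num
    rw [e16]
    push_cast
    gcongr
  have hfac : ‖V - s.toC‖ * ‖V + s.toC‖ ≤ D := by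
    rw [← norm_mul]
    convert hdiff using 2
    ring
  have hplus : s.toC.re ≤ ‖V + s.toC‖ := by
    have := Complex.re_le_norm (V + s.toC)
    rw [Complex.add_re] at this
    linarith
  set X : ℝ := (x.sqX s : ℝ) with hX
  have hX1 : D / s.toC.re ≤ X := by
    have := Z4.div_bound (x.sqD s) (Nat.sub s.a s.c) hsub
    rw [hm1] at this
    rw [hX]
    simpa [sqX] using this
  have hVs : ‖V - s.toC‖ ≤ X := by
    refine le_trans ?_ hX1
    rw [le_div_iff₀ hm1pos]
    refine le_trans ?_ hfac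
    gcongr
  have hms : (m : ℝ) ≤ ‖s.toC‖ := by
    have h4 : (m : ℝ) ^ 2 ≤ ‖s.toC‖ ^ 2 := by
      rw [← Complex.normSq_eq_norm_sq, Z4.normSq_toC]
      have : ((m * m + s.sqm : ℕ) : ℝ) ≤ s.sqp := by exact_mod_cast h3
      push_cast at this
      nlinarith
    exact (abs_le_of_sq_le_sq' h4 (norm_nonneg _)).2
  have h2' : X < 2 * m := by rw [hX]; exact_mod_cast h2
  have hplus2 : 2 * m - X ≤ ‖V + s.toC‖ := by
    have h5 : ‖(2 : ℂ) * s.toC‖ ≤ ‖V + s.toC‖ + ‖V - s.toC‖ := by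
      have h5 := norm_sub_le (V + s.toC) (V - s.toC)
      have e5 : (V + s.toC) - (V - s.toC) = 2 * s.toC := by ring
      rw [e5] at h5
      exact h5
    rw [norm_mul] at h5
    have e2 : ‖(2 : ℂ)‖ = 2 := by norm_num
    rw [e2] at h5
    linarith
  constructor
  · have h1' : X < s.toC.re := by
      rw [hX, ← hm1]; exact_mod_cast h1
    have h6 : s.toC.re - V.re ≤ ‖V - s.toC‖ := by
      have := Complex.abs_re_le_norm (V - s.toC)
      rw [Complex.sub_re] at this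
      have := (abs_le.1 this).1
      linarith
    have h7 : 0 < V.re := by linarith
    have h8 : V.re = 1048576 * v.re := by
      rw [hV]; simp [Complex.mul_re]
    rw [h8] at h7
    linarith
  · simp only [CB.sq]
    have h9 : ‖V - s.toC‖ ≤ D / (2 * m - X) := by
      rw [le_div_iff₀ (by linarith)]
      refine le_trans ?_ hfac
      gcongr
    refine h9.trans ?_
    have hpos : 0 < Nat.sub (Nat.mul 2 m) (x.sqX s) := by
      rw [Nat.sub_eq, Nat.mul_eq]; omega
    have h10 := Z4.div_bound (x.sqD s) (Nat.sub (Nat.mul 2 m) (x.sqX s)) hpos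
    have e3 : ((Nat.sub (Nat.mul 2 m) (x.sqX s) : ℕ) : ℝ) = 2 * m - X := by
      rw [Nat.sub_eq, Nat.mul_eq, Nat.cast_sub h2.le, hX]
      push_cast
      ring
    rw [e3] at h10
    simpa using h10

end CB

end Pool.Agent.Hhelper63.AnT
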