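import Pool.Agent.Hhelper63.AnT.CertC

/-!
Enclosures of the functions of the path in case (c) on small intervals.
-/

namespace Pool.Agent.Hhelper63.AnT

open Complex Matrix

/-- exact constant -/
def cst (p : Z4) : CB := ⟨p, 0⟩

lemma mem_cst {p : Z4} {z : ℂ} (h : 1048576 * z = p.toC) : (cst p).Mem z := by
  unfold CB.Mem cst
  rw [h, sub_self, norm_zero]
  exact le_of_eq (by norm_num)

lemma mem_real {c : ℕ} {x : ℝ} (h1 : (c : ℝ) ≤ 1048576 * x) (h2 : 1048576 * x ≤ c + 1) :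
    CB.Mem ⟨⟨c, 0, 0, 0⟩, 1⟩ ((x : ℝ) : ℂ) := by
  unfold CB.Mem
  have e : (1048576 : ℂ) * (x : ℂ) - (Z4.mk c 0 0 0).toC = ((1048576 * x - c : ℝ) : ℂ) := by
    apply Complex.ext
    · simp [Z4.toC]
    · simp [Z4.toC]
  rw [e, Complex.norm_real, Real.norm_eq_abs]
  have e1 : ((1 : ℕ) : ℝ) = 1 := Nat.cast_one
  rw [abs_le, e1]
  constructor <;> linarith

/-- the ball for `√2` -/
def bw2 : CB := ⟨⟨1482910, 0, 0, 0⟩, 1⟩

/-- the ball for `√3` -/
def bw3 : CB := ⟨⟨1816186, 0, 0, 0⟩, 1⟩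

lemma mem_bw2 : bw2.Mem ((√2 : ℝ) : ℂ) := by
  have h0 : (0 : ℝ) ≤ √2 := Real.sqrt_nonneg 2
  have h2 : √2 * √2 = (2 : ℝ) := Real.mul_self_sqrt (by norm_num)
  apply mem_real
  · push_cast
    have : (1482910 / 1048576 : ℝ) ≤ √2 := Real.le_sqrt_of_sq_le (by norm_num)
    linarith
  · push_cast
    have : √2 ≤ (1482911 / 1048576 : ℝ) := Real.sqrt_le_iff.2 ⟨by norm_num, by norm_num⟩
    linarith

lemma mem_bw3 : bw3.Mem ((√3 : ℝ) : ℂ) := by
  apply mem_real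
  · push_cast
    have : (1816186 / 1048576 : ℝ) ≤ √3 := Real.le_sqrt_of_sq_le (by norm_num)
    linarith
  · push_cast
    have : √3 ≤ (1816187 / 1048576 : ℝ) := Real.sqrt_le_iff.2 ⟨by norm_num, by norm_num⟩
    linarith

/-- multiplication of the centre by `i` -/
def CB.mi (x : CB) : CB := ⟨⟨x.c.d, x.c.a, x.c.b, x.c.c⟩, x.r⟩

lemma CB.Mem.mi {x : CB} {z : ℂ} (h : x.Mem z) : (x.mi).Mem (z * I) := by
  unfold CB.Mem at *
  have e : 1048576 * (z * I) - (x.mi).c.toC = (1048576 * z - x.c.toC) * I := by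
    apply Complex.ext
    · simp [CB.mi, Z4.toC]
      ring
    · simp [CB.mi, Z4.toC]
  rw [e, norm_mul, Complex.norm_I, mul_one]
  exact h

/-- the ball of the parameter -/
def bs (a len : ℕ) : CB :=
  ⟨⟨Nat.mul 64 (Nat.add (Nat.mul 2 a) len), 0, 0, 0⟩, Nat.mul 64 len⟩

lemma mem_bs {a len : ℕ} {s : ℝ} (h1 : (a : ℝ) / 8192 ≤ s) (h2 : s ≤ (a + len : ℕ) / 8192) :
    (bs a len).Mem (s : ℂ) := by
  unfold CB.Mem bs
  have e : (1048576 : ℂ) * (s : ℂ) - (Z4.mk (Nat.mul 64 (Nat.add (Nat.mul 2 a) len)) 0 0 0).toC =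
      ((1048576 * s - 64 * (2 * a + len) : ℝ) : ℂ) := by
    apply Complex.ext
    · simp only [Z4.toC, Nat.mul_eq, Nat.add_eq]
      simp
    · simp only [Z4.toC]
      simp
  rw [e, Complex.norm_real, Real.norm_eq_abs, abs_le]
  have e2 : ((Nat.mul 64 len : ℕ) : ℝ) = 64 * len := by
    rw [Nat.mul_eq]; push_cast; ring
  simp only [e2]
  rw [div_le_iff₀ (by norm_num)] at h1
  rw [le_div_iff₀ (by norm_num)] at h2
  push_cast at h2
  constructor <;> linarith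

/-- deviation from the centre of the piece -/
def dev (b : CB) (c : Z4) : ℕ :=
  Nat.add (Nat.mul (Nat.add (b.c.add (c.scale 256).neg).ar b.r)
      (Nat.add (b.c.add (c.scale 256).neg).ar b.r))
    (Nat.mul (Nat.add (b.c.add (c.scale 256).neg).ai b.r)
      (Nat.add (b.c.add (c.scale 256).neg).ai b.r))

lemma dev_ok {b : CB} {c : Z4} {z : ℂ} (h : b.Mem z) :
    65536 * normSq (4096 * z - c.toC) ≤ dev b c := by
  unfold CB.Mem at h
  set d := b.c.add (c.scale 256).neg with hd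
  have e : 256 * (4096 * z - c.toC) = d.toC + (1048576 * z - b.c.toC) := by
    rw [hd, Z4.toC_add, Z4.toC_neg, Z4.toC_scale]
    push_cast
    ring
  set E := 1048576 * z - b.c.toC with hE
  have hre : |E.re| ≤ b.r := (Complex.abs_re_le_norm E).trans h
  have him : |E.im| ≤ b.r := (Complex.abs_im_le_norm E).trans h
  have h1 : 65536 * normSq (4096 * z - c.toC) = (d.toC.re + E.re) ^ 2 + (d.toC.im + E.im) ^ 2 := by
    have e1 : (65536 : ℝ) * normSq (4096 * z - c.toC) = normSq (256 * (4096 * z - c.toC)) := by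
      rw [map_mul]
      have : normSq (256 : ℂ) = 65536 := by
        rw [← Complex.ofReal_ofNat, Complex.normSq_ofReal]
        norm_num
      rw [this]
    rw [e1, e, Complex.normSq_apply, Complex.add_re, Complex.add_im]
    ring
  rw [h1]
  have h2 : (dev b c : ℝ) = (d.ar + b.r) ^ 2 + (d.ai + b.r) ^ 2 := by
    simp only [dev, Nat.add_eq, Nat.mul_eq]
    rw [← hd]
    push_cast
    ring
  rw [h2, Z4.ar_eq, Z4.ai_eq]
  have k1 : |d.toC.re + E.re| ≤ |d.toC.re| + b.r := (abs_add_le _ _).trans (by linarith)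
  have k2 : |d.toC.im + E.im| ≤ |d.toC.im| + b.r := (abs_add_le _ _).trans (by linarith)
  have k3 : (d.toC.re + E.re) ^ 2 ≤ (|d.toC.re| + b.r) ^ 2 := by
    rw [← sq_abs]
    gcongr
  have k4 : (d.toC.im + E.im) ^ 2 ≤ (|d.toC.im| + b.r) ^ 2 := by
    rw [← sq_abs]
    gcongr
  linarith

/-! ### The balls of one cell; data: 15 digits -/

def b3 : CB := cst ⟨3145728, 0, 0, 0⟩
def b1 : CB := cst ⟨1048576, 0, 0, 0⟩
def b5 : CB := cst ⟨5242880, 0, 0, 0⟩
def b8 : CB := cst ⟨8388608, 0, 0, 0⟩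
def bI : CB := cst ⟨1048576, 1048576, 0, 0⟩

def bh1 : CB := b1.add bw2.mi

/-- `1 + 2 √2 i` -/
def bk : CB := b1.add (bw2.mi.sm 2)

def bg (s : CB) : CB := (b3.add bh1.neg).add ((b1.add (s.mul s).neg).mul bI)

def bh (s g : CB) : CB := bh1.add ((s.mul s).mul g)

def bu (h : CB) : CB := (h.mul h).add b3.neg

def bv (h : CB) : CB := (h.mul h).add b5

def bRR (iu : CB) : CB := b1.add (iu.sm 8)

def bW (g h iu : CB) : CB := (g.mul (h.add bh1)).mul (((h.mul h).add bk).mul iu)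

def bPP (u iu iv : CB) : CB := b8.add ((((u.add b8).add (iu.sm 24)).mul iv).sm 8)

/-- final comparison -/
def fin7 (n : ℕ) (T q P h U Q : CB) : Bool :=
  Nat.ble (Nat.mul 4 (Nat.add (Nat.add (Nat.add (dev bw3 (zd n 1)) (dev T (zd n 3)))
    (Nat.add (dev q (zd n 5)) (dev P (zd n 7)))) (Nat.add (Nat.add (dev h (zd n 9))
    (dev U (zd n 11))) (dev Q (zd n 13))))) (Nat.mul 65536 (Nat.mul (dgt n 0) (dgt n 0)))

def cell4 (n i : ℕ) (s h R Y P : CB) : Bool :=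
  R.invOK (zd n (Nat.add i 13)) &&
    fin7 n (h.mul R) (s.mul Y) P h (bw3.mul R) ((s.mul Y).mul (R.inv (zd n (Nat.add i 13)))).neg

def cell3 (n i : ℕ) (s g h u iu iv : CB) : Bool :=
  (bRR iu).sqOK (zd n (Nat.add i 4)) (dgt n (Nat.add i 6)) &&
  (bW g h iu).sqOK (zd n (Nat.add i 7)) (dgt n (Nat.add i 9)) &&
  (bPP u iu iv).sqOK (zd n (Nat.add i 10)) (dgt n (Nat.add i 12)) &&
  cell4 n i s h ((bRR iu).sq (zd n (Nat.add i 4)) (dgt n (Nat.add i 6)))
    ((bW g h iu).sq (zd n (Nat.add i 7)) (dgt n (Nat.add i 9)))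
    ((bPP u iu iv).sq (zd n (Nat.add i 10)) (dgt n (Nat.add i 12)))

def cell2 (n i : ℕ) (s g h u v : CB) : Bool :=
  u.invOK (zd n i) && v.invOK (zd n (Nat.add i 2)) &&
    cell3 n i s g h u (u.inv (zd n i)) (v.inv (zd n (Nat.add i 2)))

def cell1 (n i : ℕ) (s g h : CB) : Bool := cell2 n i s g h (bu h) (bv h)

def cellOK (a len n i : ℕ) : Bool :=
  cell1 n i (bs a len) (bg (bs a len)) (bh (bs a len) (bg (bs a len)))

lemma mem_b3 : b3.Mem 3 := mem_cst (by apply Complex.ext <;> simp [Z4.toC]; norm_num)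
lemma mem_b1 : b1.Mem 1 := mem_cst (by apply Complex.ext <;> simp [Z4.toC])
lemma mem_b5 : b5.Mem 5 := mem_cst (by apply Complex.ext <;> simp [Z4.toC]; norm_num)
lemma mem_b8 : b8.Mem 8 := mem_cst (by apply Complex.ext <;> simp [Z4.toC]; norm_num)
lemma mem_bI : bI.Mem (1 + I) := mem_cst (by apply Complex.ext <;> simp [Z4.toC])

lemma mem_bh1 : bh1.Mem h1C := mem_b1.add mem_bw2.mi

lemma mem_bk : bk.Mem (1 + 2 * ((√2 : ℝ) * I)) := by
  have := mem_b1.add (mem_bw2.mi.sm 2)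
  simpa [bk] using this

theorem cell_ok {a len n i : ℕ} (h : cellOK a len n i = true) {s : ℝ}
    (h1 : (a : ℝ) / 8192 ≤ s) (h2 : s ≤ (a + len : ℕ) / 8192) :
    GoodC s ∧ 4 * (normSq (4096 * ((√3 : ℝ) : ℂ) - (zd n 1).toC) +
      normSq (4096 * TC s - (zd n 3).toC) +
      normSq (4096 * qC s - (zd n 5).toC) + normSq (4096 * PC s - (zd n 7).toC) +
      normSq (4096 * hC s - (zd n 9).toC) + normSq (4096 * UC s - (zd n 11).toC) +
      normSq (4096 * QC s - (zd n 13).toC)) ≤ ((dgt n 0 : ℕ) : ℝ) ^ 2 := by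
  have ms := mem_bs h1 h2
  have mg : (bg (bs a len)).Mem (gC s) := by
    have := (mem_b3.add mem_bh1.neg).add ((mem_b1.add (ms.mul ms).neg).mul mem_bI)
    rw [← sub_eq_add_neg, ← sub_eq_add_neg] at this
    exact this
  have mh : (bh (bs a len) (bg (bs a len))).Mem (hC s) := mem_bh1.add ((ms.mul ms).mul mg)
  unfold cellOK at h
  generalize bs a len = S at *
  generalize bg S = G at *
  generalize bh S G = H at *
  unfold cell1 at h
  have mu : (bu H).Mem (uC s) := (mh.mul mh).add mem_b3.neg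
  have mv : (bv H).Mem (vC s) := (mh.mul mh).add mem_b5
  generalize bu H = U at *
  generalize bv H = V at *
  simp only [cell2, Bool.and_eq_true] at h
  obtain ⟨⟨o1, o2⟩, h⟩ := h
  obtain ⟨hu0, miu⟩ := mu.inv o1
  obtain ⟨hv0, miv⟩ := mv.inv o2
  generalize U.inv (zd n i) = iu at *
  generalize V.inv (zd n (Nat.add i 2)) = iv at *
  simp only [cell3, Bool.and_eq_true] at h
  obtain ⟨⟨⟨o3, o4⟩, o5⟩, h⟩ := h
  have mRR : (bRR iu).Mem (1 + 8 * (uC s)⁻¹) := mem_b1.add (miu.sm 8)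
  have mW : (bW G H iu).Mem (WC s) := (mg.mul (mh.add mem_bh1)).mul (((mh.mul mh).add mem_bk).mul miu)
  have mPP : (bPP U iu iv).Mem (8 + 8 * ((uC s + 8 + 24 * (uC s)⁻¹) * (vC s)⁻¹)) :=
    mem_b8.add ((((mu.add mem_b8).add (miu.sm 24)).mul miv).sm 8)
  obtain ⟨pR, mR⟩ := mRR.sq (csq_mul_self _) (csq_re_nonneg _) o3
  obtain ⟨pY, mY⟩ := mW.sq (csq_mul_self _) (csq_re_nonneg _) o4
  obtain ⟨pP, mP⟩ := mPP.sq (csq_mul_self _) (csq_re_nonneg _) o5
  refine ⟨⟨hu0, hv0, pR, pY, pP⟩, ?_⟩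
  generalize (bRR iu).sq (zd n (Nat.add i 4)) (dgt n (Nat.add i 6)) = R at *
  generalize (bW G H iu).sq (zd n (Nat.add i 7)) (dgt n (Nat.add i 9)) = Y at *
  generalize (bPP U iu iv).sq (zd n (Nat.add i 10)) (dgt n (Nat.add i 12)) = P at *
  simp only [cell4, Bool.and_eq_true] at h
  obtain ⟨o6, h⟩ := h
  obtain ⟨hR0, miR⟩ := mR.inv o6
  have k0 := dev_ok (c := zd n 1) mem_bw3
  have k1 := dev_ok (c := zd n 3) (mh.mul mR)
  have k2 := dev_ok (c := zd n 5) (ms.mul mY)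
  have k3 := dev_ok (c := zd n 7) mP
  have k4 := dev_ok (c := zd n 9) mh
  have k5 := dev_ok (c := zd n 11) (mem_bw3.mul mR)
  have k6 := dev_ok (c := zd n 13) ((ms.mul mY).mul miR).neg
  unfold fin7 at h
  generalize dev bw3 (zd n 1) = d0 at *
  generalize dev (H.mul R) (zd n 3) = d1 at *
  generalize dev (S.mul Y) (zd n 5) = d2 at *
  generalize dev P (zd n 7) = d3 at *
  generalize dev H (zd n 9) = d4 at *
  generalize dev (bw3.mul R) (zd n 11) = d5 at *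
  generalize dev ((S.mul Y).mul (R.inv (zd n (Nat.add i 13)))).neg (zd n 13) = d6 at *
  generalize dgt n 0 = ε at *
  rw [Nat.ble_eq] at h
  have h' : ((Nat.mul 4 (Nat.add (Nat.add (Nat.add d0 d1) (Nat.add d2 d3))
      (Nat.add (Nat.add d4 d5) d6)) : ℕ) : ℝ) ≤ ((Nat.mul 65536 (Nat.mul ε ε) : ℕ) : ℝ) := by
    exact_mod_cast h
  simp only [Nat.mul_eq, Nat.add_eq, Nat.cast_mul, Nat.cast_add, Nat.cast_ofNat] at h'
  have e1 : TC s = hC s * csq (1 + 8 * (uC s)⁻¹) := rfl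
  have e2 : qC s = s * csq (WC s) := rfl
  have e3 : PC s = csq (8 + 8 * ((uC s + 8 + 24 * (uC s)⁻¹) * (vC s)⁻¹)) := rfl
  have e5 : UC s = ((√3 : ℝ) : ℂ) * csq (1 + 8 * (uC s)⁻¹) := rfl
  have e6 : QC s = -(s * csq (WC s) * (csq (1 + 8 * (uC s)⁻¹))⁻¹) := rfl
  rw [e1, e2, e3, e5, e6]
  linarith

/-! ### Pieces -/

/-- all cells of a piece -/
def cellsOK (len n : ℕ) : ℕ → ℕ → ℕ → Bool
  | 0, _, _ => true
  | k + 1, a, i => cellOK a len n i && cellsOK len n k (Nat.add a len) (Nat.add i 15)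

def pieceOK (a len k n : ℕ) : Bool := checkC n && cellsOK len n k a 483

lemma cells_ok {len n : ℕ} {s : ℝ} (k : ℕ) (a i : ℕ) (h : cellsOK len n k a i = true)
    (h1 : (a : ℝ) / 8192 ≤ s) (h2 : s ≤ (a + len * k : ℕ) / 8192) (h0 : k ≠ 0) :
    ∃ a' i', cellOK a' len n i' = true ∧ (a' : ℝ) / 8192 ≤ s ∧ s ≤ (a' + len : ℕ) / 8192 := by
  induction k generalizing a i with
  | zero => exact absurd rfl h0
  | succ k ih =>
    simp only [cellsOK, Bool.and_eq_true] at h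
    rcases le_total s ((a + len : ℕ) / 8192) with h3 | h3
    · exact ⟨a, i, h.1, h1, h3⟩
    · rcases Nat.eq_zero_or_pos k with hk | hk
      · subst hk
        exact ⟨a, i, h.1, h1, by simpa using h2⟩
      · refine ih _ _ h.2 h3 ?_ hk.ne'
        have e : Nat.add a len + len * k = a + len * (k + 1) := by
          rw [Nat.add_eq]; ring
        rw [e]
        exact h2

theorem piece_ok {a len k n : ℕ} (h : pieceOK a len k n = true) (hk : k ≠ 0) {s : ℝ}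
    (h1 : (a : ℝ) / 8192 ≤ s) (h2 : s ≤ (a + len * k : ℕ) / 8192) :
    GoodC s ∧ CertAt 4 edgesC 1 (pathC s) := by
  simp only [pieceOK, Bool.and_eq_true] at h
  obtain ⟨hc, hcell⟩ := h
  obtain ⟨a', i', h3, h4, h5⟩ := cells_ok k a _ hcell h1 h2 hk
  obtain ⟨hg, hd⟩ := cell_ok h3 h4 h5
  exact ⟨hg, certC_of_check hc hd rfl rfl rfl⟩

end Pool.Agent.Hhelper63.AnT
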