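import Pool.Agent.Hhelper63.AnT.Ball

/-!
Exact integer check of the certificate inequalities.
-/

namespace Pool.Agent.Hhelper63.AnT

open Complex Matrix

/-! ### Digits -/

/-- the digit number `i` in base `2 ^ 24` -/
def dgt (n i : ℕ) : ℕ := Nat.mod (Nat.shiftRight n (Nat.mul 24 i)) 16777216

/-- two digits -/
def dgt2 (n i : ℕ) : ℕ := Nat.add (dgt n i) (Nat.mul 16777216 (dgt n (Nat.add i 1)))

/-- real number from one digit with offset -/
def zr (x : ℕ) : Z4 := ⟨Nat.sub x 8388608, 0, Nat.sub 8388608 x, 0⟩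

/-- complex number from two digits with offset -/
def zc (x y : ℕ) : Z4 :=
  ⟨Nat.sub x 8388608, Nat.sub y 8388608, Nat.sub 8388608 x, Nat.sub 8388608 y⟩

/-- complex number from the digits `i, i + 1` -/
def zd (n i : ℕ) : Z4 := zc (dgt n i) (dgt n (Nat.add i 1))

/-- Hermitian matrix from 16 digits -/
def herm (n i : ℕ) : Mt :=
  ⟨⟨zr (dgt n i), zd n (Nat.add i 4), zd n (Nat.add i 6), zd n (Nat.add i 8)⟩,
    ⟨(zd n (Nat.add i 4)).cj, zr (dgt n (Nat.add i 1)), zd n (Nat.add i 10), zd n (Nat.add i 12)⟩,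
    ⟨(zd n (Nat.add i 6)).cj, (zd n (Nat.add i 10)).cj, zr (dgt n (Nat.add i 2)),
      zd n (Nat.add i 14)⟩,
    ⟨(zd n (Nat.add i 8)).cj, (zd n (Nat.add i 12)).cj, (zd n (Nat.add i 14)).cj,
      zr (dgt n (Nat.add i 3))⟩⟩

/-- lower triangular matrix from 16 digits -/
def low (n i : ℕ) : Mt :=
  ⟨⟨zr (dgt n i), Z4.zero, Z4.zero, Z4.zero⟩,
    ⟨zd n (Nat.add i 4), zr (dgt n (Nat.add i 1)), Z4.zero, Z4.zero⟩,
    ⟨zd n (Nat.add i 6), zd n (Nat.add i 10), zr (dgt n (Nat.add i 2)), Z4.zero⟩,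
    ⟨zd n (Nat.add i 8), zd n (Nat.add i 12), zd n (Nat.add i 14), zr (dgt n (Nat.add i 3))⟩⟩

lemma toC_real (a c : ℕ) : (starRingEnd ℂ) (Z4.toC ⟨a, 0, c, 0⟩) = Z4.toC ⟨a, 0, c, 0⟩ := by
  apply Complex.ext <;> simp [Z4.toC]

lemma cj_zr (x : ℕ) : (starRingEnd ℂ) (zr x).toC = (zr x).toC := toC_real _ _

lemma herm_H (n i : ℕ) : (herm n i).toM.conjTranspose = (herm n i).toM := by
  ext a b
  fin_cases a <;> fin_cases b <;>
    simp [Mt.toM, herm, R4.toV, Matrix.conjTranspose_apply, cj_zr]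

/-! ### Quadratic forms -/

lemma Q_add (A B : M4) (v : Fin 4 → ℂ) : Q (A + B) v = Q A v + Q B v := by
  simp [Q, Matrix.add_mulVec, dotProduct_add]

lemma Q_neg (A : M4) (v : Fin 4 → ℂ) : Q (-A) v = -Q A v := by
  simp [Q, Matrix.neg_mulVec, dotProduct_neg]

lemma Q_natsmul (n : ℕ) (A : M4) (v : Fin 4 → ℂ) : Q ((n : ℂ) • A) v = n * Q A v := by
  simp [Q, Matrix.smul_mulVec, dotProduct_smul]

lemma Q_one (v : Fin 4 → ℂ) : Q 1 v = n2 v := by
  simp only [Q, Matrix.one_mulVec, dotProduct, n2, Complex.re_sum, Pi.star_apply]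
  refine Finset.sum_congr rfl fun i _ => ?_
  simp [Complex.normSq_apply]

lemma n2_nonneg (v : Fin 4 → ℂ) : 0 ≤ n2 v := Finset.sum_nonneg fun _ _ => Complex.normSq_nonneg _

lemma Q_conj (A B : M4) (v : Fin 4 → ℂ) :
    Q (B.conjTranspose * A * B) v = Q A (B.mulVec v) := by
  unfold Q
  rw [← Matrix.mulVec_mulVec, ← Matrix.mulVec_mulVec, Matrix.dotProduct_mulVec,
    Matrix.star_mulVec]

lemma Q_gram (L : M4) (v : Fin 4 → ℂ) : 0 ≤ Q (L * L.conjTranspose) v := by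
  have h : L * L.conjTranspose =
      L.conjTranspose.conjTranspose * 1 * L.conjTranspose := by
    rw [Matrix.conjTranspose_conjTranspose, mul_one]
  rw [h, Q_conj, Q_one]
  exact n2_nonneg _

/-- a matrix with small entries has a small form -/
lemma Q_small {A : M4} {e : ℝ} (h : ∀ i j, ‖A i j‖ ≤ e) (v : Fin 4 → ℂ) :
    |Q A v| ≤ 4 * e * n2 v := by
  have he : 0 ≤ e := (norm_nonneg _).trans (h 0 0)
  have h1 : |Q A v| ≤ ∑ i, ∑ j, e * (‖v i‖ * ‖v j‖) := by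
    unfold Q
    refine (Complex.abs_re_le_norm _).trans ?_
    simp only [dotProduct, Matrix.mulVec, Pi.star_apply]
    refine (norm_sum_le _ _).trans (Finset.sum_le_sum fun i _ => ?_)
    rw [norm_mul]
    calc ‖star (v i)‖ * ‖∑ j, A i j * v j‖ ≤ ‖v i‖ * ∑ j, ‖A i j‖ * ‖v j‖ := by
          rw [norm_star]
          gcongr
          refine (norm_sum_le _ _).trans (Finset.sum_le_sum fun j _ => ?_)
          rw [norm_mul]
      _ ≤ ‖v i‖ * ∑ j, e * ‖v j‖ := by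
          gcongr with j _
          exact h i j
      _ = ∑ j, e * (‖v i‖ * ‖v j‖) := by
          rw [Finset.mul_sum]
          refine Finset.sum_congr rfl fun j _ => ?_
          ring
  refine h1.trans ?_
  have e1 : ∑ i, ∑ j, e * (‖v i‖ * ‖v j‖) = e * (∑ i, ‖v i‖) ^ 2 := by
    rw [sq, Finset.sum_mul_sum, Finset.mul_sum]
    refine Finset.sum_congr rfl fun i _ => ?_
    rw [Finset.mul_sum]
  have e2 : (∑ i, ‖v i‖) ^ 2 ≤ 4 * n2 v := by
    have := sq_sum_le_card_mul_sum_sq (s := (Finset.univ : Finset (Fin 4))) (f := fun i => ‖v i‖)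
    simp only [Finset.card_univ, Fintype.card_fin, Nat.cast_ofNat] at this
    simpa [n2, Complex.normSq_eq_norm_sq] using this
  rw [e1]
  nlinarith

/-- check that `M` is almost `L L*` -/
def psd (M L : Mt) (e : ℕ) : Bool := (M.add (L.mul L.adj).neg).small e

lemma psd_ok {M L : Mt} {e : ℕ} (h : psd M L e = true) (v : Fin 4 → ℂ) :
    -(8 * e) * n2 v ≤ Q M.toM v := by
  have h1 := Q_small (fun i j => Mt.entry_of_small h i j) v
  rw [Mt.toM_add, Mt.toM_neg, Mt.toM_mul, Mt.toM_adj, Q_add, Q_neg] at h1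
  have h2 := Q_gram L.toM v
  have h3 := (abs_le.1 h1).1
  nlinarith [n2_nonneg v]

/-! ### The inequality along an edge -/

/-- squared Frobenius norm -/
noncomputable def fro2 (A : M4) : ℝ := ∑ i, ∑ j, Complex.normSq (A i j)

lemma fro2_toM (A : Mt) : fro2 A.toM = (A.sqp : ℝ) - A.sqm := Mt.fro_toM A

/-- the real inner product is bounded by the norms -/
lemma re_dot_le (u v : Fin 4 → ℂ) : |(star u ⬝ᵥ v).re| ≤ √(n2 u) * √(n2 v) := by
  have h1 : |(star u ⬝ᵥ v).re| ≤ ∑ i, ‖u i‖ * ‖v i‖ := by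
    refine (Complex.abs_re_le_norm _).trans ?_
    simp only [dotProduct, Pi.star_apply]
    refine (norm_sum_le _ _).trans (Finset.sum_le_sum fun i _ => ?_)
    rw [norm_mul, norm_star]
  refine h1.trans ?_
  have h2 := Finset.sum_mul_sq_le_sq_mul_sq (Finset.univ : Finset (Fin 4)) (fun i => ‖u i‖)
    (fun i => ‖v i‖)
  have e1 : n2 u = ∑ i, ‖u i‖ ^ 2 := by simp [n2, Complex.normSq_eq_norm_sq]
  have e2 : n2 v = ∑ i, ‖v i‖ ^ 2 := by simp [n2, Complex.normSq_eq_norm_sq]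
  rw [← Real.sqrt_mul (n2_nonneg u), e1, e2]
  exact Real.le_sqrt_of_sq_le h2

lemma n2_mulVec_le (A : M4) (v : Fin 4 → ℂ) : n2 (A.mulVec v) ≤ fro2 A * n2 v := by
  unfold n2 fro2
  rw [Finset.sum_mul]
  refine Finset.sum_le_sum fun i _ => ?_
  simp only [Matrix.mulVec, dotProduct, Complex.normSq_eq_norm_sq]
  have h1 : ‖∑ j, A i j * v j‖ ≤ ∑ j, ‖A i j‖ * ‖v j‖ := by
    refine (norm_sum_le _ _).trans (Finset.sum_le_sum fun j _ => ?_)
    rw [norm_mul]
  have h2 := Finset.sum_mul_sq_le_sq_mul_sq (Finset.univ : Finset (Fin 4)) (fun j => ‖A i j‖)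
    (fun j => ‖v j‖)
  have h3 : ‖∑ j, A i j * v j‖ ^ 2 ≤ (∑ j, ‖A i j‖ * ‖v j‖) ^ 2 := by
    gcongr
  exact h3.trans h2

lemma fro2_nonneg (A : M4) : 0 ≤ fro2 A :=
  Finset.sum_nonneg fun _ _ => Finset.sum_nonneg fun _ _ => Complex.normSq_nonneg _

/-- expansion of a Hermitian form at a nearby matrix -/
lemma Q_perturb {G A B : M4} (hG : G.conjTranspose = G) {b g ε : ℝ} (hb : 0 ≤ b) (hg : 0 ≤ g)
    (hε : 0 ≤ ε) (hT : fro2 (G * A) ≤ b ^ 2) (hG2 : fro2 G ≤ g ^ 2) (hB : fro2 (B - A) ≤ ε ^ 2)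
    (v : Fin 4 → ℂ) :
    Q G (A.mulVec v) - (2 * b * ε + g * ε ^ 2) * n2 v ≤ Q G (B.mulVec v) := by
  set D := B - A with hD
  have hBA : B.mulVec v = A.mulVec v + D.mulVec v := by
    rw [← Matrix.add_mulVec, hD]
    congr 1
    abel
  have hsym : ∀ x y : Fin 4 → ℂ, (star x ⬝ᵥ G.mulVec y).re = (star y ⬝ᵥ G.mulVec x).re := by
    intro x y
    have h1 : star x ⬝ᵥ G.mulVec y = star (star y ⬝ᵥ G.mulVec x) := by
      rw [← Matrix.star_dotProduct, Matrix.star_mulVec, hG, ← Matrix.dotProduct_mulVec]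
    rw [h1]
    simp
  have hexp : Q G (B.mulVec v) = Q G (A.mulVec v) +
      2 * (star (D.mulVec v) ⬝ᵥ (G * A).mulVec v).re + Q G (D.mulVec v) := by
    rw [hBA]
    unfold Q
    rw [Matrix.mulVec_add, star_add, add_dotProduct, dotProduct_add, dotProduct_add]
    simp only [Complex.add_re]
    rw [hsym (A.mulVec v) (D.mulVec v), ← Matrix.mulVec_mulVec]
    ring
  have hn := n2_nonneg v
  have hDv : √(n2 (D.mulVec v)) ≤ ε * √(n2 v) := by
    have h1 := n2_mulVec_le D v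
    have h2 : n2 (D.mulVec v) ≤ (ε * √(n2 v)) ^ 2 := by
      rw [mul_pow, Real.sq_sqrt hn]
      nlinarith
    exact (Real.sqrt_le_left (by positivity)).2 h2
  have hTv : √(n2 ((G * A).mulVec v)) ≤ b * √(n2 v) := by
    have h1 := n2_mulVec_le (G * A) v
    have h2 : n2 ((G * A).mulVec v) ≤ (b * √(n2 v)) ^ 2 := by
      rw [mul_pow, Real.sq_sqrt hn]
      nlinarith
    exact (Real.sqrt_le_left (by positivity)).2 h2
  have hGD : √(n2 (G.mulVec (D.mulVec v))) ≤ g * (ε * √(n2 v)) := by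
    have h1 := n2_mulVec_le G (D.mulVec v)
    have h2 : √(n2 (G.mulVec (D.mulVec v))) ≤ g * √(n2 (D.mulVec v)) := by
      have h3 : n2 (G.mulVec (D.mulVec v)) ≤ (g * √(n2 (D.mulVec v))) ^ 2 := by
        rw [mul_pow, Real.sq_sqrt (n2_nonneg _)]
        nlinarith [n2_nonneg (D.mulVec v)]
      exact (Real.sqrt_le_left (by positivity)).2 h3
    exact h2.trans (by gcongr)
  have h1 := (abs_le.1 (re_dot_le (D.mulVec v) ((G * A).mulVec v))).1
  have h2 : -(g * ε ^ 2 * n2 v) ≤ Q G (D.mulVec v) := by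
    have h3 := (abs_le.1 (re_dot_le (D.mulVec v) (G.mulVec (D.mulVec v)))).1
    have h4 : √(n2 (D.mulVec v)) * √(n2 (G.mulVec (D.mulVec v))) ≤
        (ε * √(n2 v)) * (g * (ε * √(n2 v))) := by
      gcongr
    have h5 : (ε * √(n2 v)) * (g * (ε * √(n2 v))) = g * ε ^ 2 * n2 v := by
      have := Real.mul_self_sqrt hn
      calc (ε * √(n2 v)) * (g * (ε * √(n2 v))) = g * ε ^ 2 * (√(n2 v) * √(n2 v)) := by ring
        _ = _ := by rw [this]
    unfold Q
    linarith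
  have h6 : √(n2 (D.mulVec v)) * √(n2 ((G * A).mulVec v)) ≤ b * ε * n2 v := by
    have h4 : √(n2 (D.mulVec v)) * √(n2 ((G * A).mulVec v)) ≤
        (ε * √(n2 v)) * (b * √(n2 v)) := by
      gcongr
    have h5 : (ε * √(n2 v)) * (b * √(n2 v)) = b * ε * n2 v := by
      have := Real.mul_self_sqrt hn
      calc (ε * √(n2 v)) * (b * √(n2 v)) = b * ε * (√(n2 v) * √(n2 v)) := by ring
        _ = _ := by rw [this]
    linarith
  rw [hexp]
  nlinarith

/-- check of one edge; the data start at the digit `i` of `n`: `μ, κ, b, e` (two digits each), `g`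
(one digit), `L` (16 digits) -/
def edgeOK (n i ε : ℕ) (G Ht X : Mt) : Bool :=
  psd (((X.adj.mul (G.mul X)).add (Ht.scale (dgt2 n i)).neg).add
      (Mt.one.scale (dgt2 n (Nat.add i 2))).neg) (low n (Nat.add i 9)) (dgt2 n (Nat.add i 6)) &&
    Nat.ble (G.mul X).sqp
      (Nat.add (Nat.mul (dgt2 n (Nat.add i 4)) (dgt2 n (Nat.add i 4))) (G.mul X).sqm) &&
    Nat.ble G.sqp (Nat.add (Nat.mul (dgt n (Nat.add i 8)) (dgt n (Nat.add i 8))) G.sqm) &&
    Nat.ble (Nat.add (Nat.add (Nat.mul 8 (dgt2 n (Nat.add i 6)))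
      (Nat.mul (Nat.mul 2 (dgt2 n (Nat.add i 4))) ε))
      (Nat.add (Nat.mul (dgt n (Nat.add i 8)) (Nat.mul ε ε)) 1)) (dgt2 n (Nat.add i 2)) &&
    Nat.ble 1 (dgt2 n i)

lemma edge_ok {n i ε : ℕ} {G Ht X : Mt} (hG : G.toM.conjTranspose = G.toM)
    (h : edgeOK n i ε G Ht X = true) {X' : M4} (hX : fro2 (X' - X.toM) ≤ (ε : ℝ) ^ 2) :
    1 ≤ dgt2 n i ∧ ∀ v, n2 v ≤ Q G.toM (X'.mulVec v) - (dgt2 n i : ℕ) * Q Ht.toM v := by
  simp only [edgeOK, Bool.and_eq_true] at h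
  obtain ⟨⟨⟨⟨h1, h2⟩, h3⟩, h4⟩, h5⟩ := h
  generalize dgt2 n (Nat.add i 2) = κ at *
  generalize dgt2 n (Nat.add i 4) = b at *
  generalize dgt2 n (Nat.add i 6) = e at *
  generalize dgt n (Nat.add i 8) = g at *
  generalize dgt2 n i = μ at *
  generalize low n (Nat.add i 9) = L at *
  rw [Nat.ble_eq] at h2 h3 h4 h5
  refine ⟨h5, fun v => ?_⟩
  have k1 := psd_ok h1 v
  rw [Mt.toM_add, Mt.toM_add, Mt.toM_neg, Mt.toM_neg, Mt.toM_scale, Mt.toM_scale, Mt.toM_one,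
    Mt.toM_mul, Mt.toM_mul, Mt.toM_adj, ← Matrix.mul_assoc, Q_add, Q_add, Q_neg, Q_neg, Q_natsmul,
    Q_natsmul, Q_one, Q_conj] at k1
  have k2 : fro2 (G.toM * X.toM) ≤ (b : ℝ) ^ 2 := by
    rw [← Mt.toM_mul, fro2_toM]
    have : (((G.mul X).sqp : ℕ) : ℝ) ≤ ((Nat.add (Nat.mul b b) (G.mul X).sqm : ℕ) : ℝ) := by
      exact_mod_cast h2
    simp only [Nat.add_eq, Nat.mul_eq, Nat.cast_add, Nat.cast_mul] at this
    linarith
  have k3 : fro2 G.toM ≤ (g : ℝ) ^ 2 := by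
    rw [fro2_toM]
    have : ((G.sqp : ℕ) : ℝ) ≤ ((Nat.add (Nat.mul g g) G.sqm : ℕ) : ℝ) := by
      exact_mod_cast h3
    simp only [Nat.add_eq, Nat.mul_eq, Nat.cast_add, Nat.cast_mul] at this
    linarith
  have k4 := Q_perturb hG (Nat.cast_nonneg b) (Nat.cast_nonneg g) (Nat.cast_nonneg ε) k2 k3 hX v
  have k5 : (8 : ℝ) * e + 2 * b * ε + g * ε ^ 2 + 1 ≤ κ := by
    have : ((Nat.add (Nat.add (Nat.mul 8 e) (Nat.mul (Nat.mul 2 b) ε))
      (Nat.add (Nat.mul g (Nat.mul ε ε)) 1) : ℕ) : ℝ) ≤ (κ : ℝ) := by exact_mod_cast h4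
    simp only [Nat.add_eq, Nat.mul_eq, Nat.cast_add, Nat.cast_mul, Nat.cast_ofNat,
      Nat.cast_one] at this
    linarith
  have k6 := n2_nonneg v
  nlinarith

/-! ### Subspaces -/

/-- the linear functional given by a vector -/
noncomputable def funl (b : Fin 4 → ℂ) : (Fin 4 → ℂ) →ₗ[ℂ] ℂ where
  toFun v := star b ⬝ᵥ v
  map_add' u v := by rw [dotProduct_add]
  map_smul' c v := by rw [dotProduct_smul]; rfl

/-- the common kernel of the functionals of a list of vectors -/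
noncomputable def kerL (bs : List R4) : Submodule ℂ (Fin 4 → ℂ) :=
  LinearMap.ker (LinearMap.pi fun i : Fin bs.length => funl (bs.get i).toV)

lemma kerL_finrank (bs : List R4) : 4 ≤ Module.finrank ℂ (kerL bs) + bs.length := by
  have h := LinearMap.finrank_range_add_finrank_ker
    (LinearMap.pi fun i : Fin bs.length => funl (bs.get i).toV)
  have h1 : Module.finrank ℂ (Fin 4 → ℂ) = 4 := by simp
  have h2 : Module.finrank ℂ (LinearMap.range
      (LinearMap.pi fun i : Fin bs.length => funl (bs.get i).toV)) ≤ bs.length := by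
    refine (Submodule.finrank_le _).trans ?_
    simp
  rw [h1] at h
  unfold kerL
  omega

/-- `b b*` -/
def R4.out (b : R4) : Mt :=
  ⟨⟨b.p.mul b.p.cj, b.p.mul b.q.cj, b.p.mul b.r.cj, b.p.mul b.s.cj⟩,
    ⟨b.q.mul b.p.cj, b.q.mul b.q.cj, b.q.mul b.r.cj, b.q.mul b.s.cj⟩,
    ⟨b.r.mul b.p.cj, b.r.mul b.q.cj, b.r.mul b.r.cj, b.r.mul b.s.cj⟩,
    ⟨b.s.mul b.p.cj, b.s.mul b.q.cj, b.s.mul b.r.cj, b.s.mul b.s.cj⟩⟩

/-- add the matrices `b b*` -/
def addOut : List R4 → Mt → Mt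
  | [], M => M
  | b :: l, M => (addOut l M).add b.out

lemma Q_out {b : R4} {v : Fin 4 → ℂ} (h : star b.toV ⬝ᵥ v = 0) : Q b.out.toM v = 0 := by
  have e : b.out.toM.mulVec v = (star b.toV ⬝ᵥ v) • b.toV := by
    ext i
    fin_cases i <;>
      simp [Mt.toM, R4.out, R4.toV, Matrix.mulVec, dotProduct, Fin.sum_univ_four] <;> ring
  unfold Q
  rw [e, h, zero_smul, dotProduct_zero]
  simp

lemma Q_addOut {bs : List R4} {M : Mt} {v : Fin 4 → ℂ} (h : ∀ b ∈ bs, star b.toV ⬝ᵥ v = 0) :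
    Q (addOut bs M).toM v = Q M.toM v := by
  induction bs with
  | nil => rfl
  | cons b l ih =>
    simp only [addOut]
    rw [Mt.toM_add, Q_add, ih (fun x hx => h x (List.mem_cons_of_mem _ hx)),
      Q_out (h b List.mem_cons_self), add_zero]

/-- check that `m H` is positive on the common kernel of the vectors; data: `c, e` (two digits
each), `L` (16 digits) -/
def kerOK (n i : ℕ) (bs : List R4) (H : Mt) : Bool :=
  psd ((addOut bs (H.scale 1024)).add (Mt.one.scale (dgt2 n i)).neg) (low n (Nat.add i 4))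
    (dgt2 n (Nat.add i 2)) && Nat.ble (Nat.add (Nat.mul 8 (dgt2 n (Nat.add i 2))) 1) (dgt2 n i)

lemma ker_ok {n i : ℕ} {bs : List R4} {H : Mt} (h : kerOK n i bs H = true) (v : Fin 4 → ℂ)
    (hv : v ∈ kerL bs) : (1 / 1024 : ℝ) * n2 v ≤ Q H.toM v := by
  simp only [kerOK, Bool.and_eq_true] at h
  obtain ⟨h1, h2⟩ := h
  generalize dgt2 n (Nat.add i 2) = e at *
  generalize dgt2 n i = c at *
  have k1 := psd_ok h1 v
  have hv' : ∀ b ∈ bs, star b.toV ⬝ᵥ v = 0 := by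
    intro b hb
    obtain ⟨j, hj⟩ := List.get_of_mem hb
    have h3 : (LinearMap.pi fun i : Fin bs.length => funl (bs.get i).toV) v = 0 := hv
    have h4 := congrFun h3 j
    simp only [LinearMap.pi_apply, Pi.zero_apply, funl, LinearMap.coe_mk, AddHom.coe_mk] at h4
    rw [hj] at h4
    exact h4
  rw [Mt.toM_add, Mt.toM_neg, Mt.toM_scale, Mt.toM_one, Q_add, Q_neg, Q_natsmul, Q_one,
    Q_addOut hv', Mt.toM_scale, Q_natsmul] at k1
  rw [Nat.ble_eq] at h2
  have k2 : (8 : ℝ) * e + 1 ≤ c := by exact_mod_cast h2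
  have k3 := n2_nonneg v
  have k4 : 1 * n2 v ≤ ((c : ℝ) - 8 * e) * n2 v :=
    mul_le_mul_of_nonneg_right (by linarith) k3
  have k5 : ((1024 : ℕ) : ℝ) = 1024 := by norm_num
  rw [k5] at k1
  linarith

end Pool.Agent.Hhelper63.AnT
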