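import Pool.Agent.Hhelper63.AnT.Surf

/-!
The path of representations of `Tri 2 4 6` in `Sp(4, ℂ)` extended by a sign.

PROOF. `csq`: `z ^ (1/2)` is `exp (log z / 2)`, `|arg z / 2| ≤ π / 2`; if the real part of the root is
positive then `arg z ≠ π` and `z ≠ 0`, so `z` is in the slit plane, where the function is continuous.

Identities. Write `h = hC s`, `u = h² - 3`, `v = h² + 5 = u + 8`, `q2 = u + 8 + 24 / u`. Since
`s² gC s = h - h1C`, `h1C² = -1 + 2 √2 i`, `(h² - h1C²) (h² + 1 + 2 √2 i) = h⁴ + 2 h² + 9 =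
u² + 8 u + 24`, we get `qC² = q2`. `RC² = v / u`, `TC² = h² v / u = q2 + 3`, `PC² = 8 + 8 q2 / v`,
`QC² = q2 u / v`, `UC² = 3 v / u`. With `w = √3`, `R = RC`: `T = h R`, `U = w R`, `Q R = -q`,
`T² = q² + 3`, `q² = h² + 3 R² + 2`, `P² + Q² = q² + 8`.

Relations, with `N = matC w T q P h U Q`, `S₂ = N / 4`:
`N² = 16`: the diagonal entries of `N² - 16` are combinations of `P² + Q² - q² - 8`,
`T² - q² - 3`, `q² - h² - U² - 2`, `w² - 3` and `(1 - R²)(w² - 3)`, the other entries are multiples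
of `q + Q R` (after substituting `T = h R`, `U = w R`).
`(S₀ S₁)² = -1`: numbers.
`Y = S₁ S₂ + S₂ S₁` satisfies `Y² = 2`, since `S₁ N + N S₁` has the blocks
`2 (P, Q; Q, -P)` (diagonal) and `2 (0, q; -q, 0)` (off diagonal). As `Y = x + x⁻¹` with
`x = S₁ S₂`, `x⁻¹ = S₂ S₁`, this gives `x² + x⁻² = 0`, `x⁴ = -1`.
`Y = S₀ S₂ + S₂ S₀` satisfies `Y² = w Y`: it is half of the block diagonal matrix with blocks
`w + (T, q; -q, -T)` and `w + (T, -q; q, -T)`, and `(T, q; -q, -T)² = T² - q² = 3 = w²`. With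
`x = S₀ S₂`: `(x² + 1) (x² - w x + 1) = 0`, so
`x⁶ + 1 = (x² + 1) (x² - w x + 1) (x² + w x + 1) = 0`.
Form: `JT S₂` is symmetric, so `S₂ᵀ JT S₂ = - JT S₂ S₂ = - JT`; the same for `S₀, S₁`.
Determinant: `det S₂ = 1`: `det N = 256` from the same relations (or: `S₂ᵀ JT S₂ = - JT` gives
`det² = 1`, and the Pfaffian; or expand `det N` and use `linear_combination`; or use the identities
for `N` in blocks).
Continuity: all the functions are compositions of continuous ones at the points where `GoodC` holds.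
-/

namespace Pool.Agent.Hhelper63.AnT

open Complex

/-- principal square root -/
noncomputable def csq (z : ℂ) : ℂ := z ^ (1 / 2 : ℂ)

theorem csq_mul_self (z : ℂ) : csq z * csq z = z := by
  have h := Complex.cpow_nat_inv_pow z (two_ne_zero)
  rw [pow_two] at h
  unfold csq
  have e : (1 / 2 : ℂ) = ((2 : ℕ) : ℂ)⁻¹ := by norm_num
  rw [e]
  exact h

private theorem csq_re {z : ℂ} (h : z ≠ 0) :
    (csq z).re = Real.exp (Real.log ‖z‖ / 2) * Real.cos (arg z / 2) := by
  unfold csq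
  rw [cpow_def_of_ne_zero h, exp_re]
  have e1 : (log z * (1 / 2)).re = Real.log ‖z‖ / 2 := by
    rw [mul_re, log_re]
    norm_num
    ring
  have e2 : (log z * (1 / 2)).im = arg z / 2 := by
    rw [mul_im, log_im]
    norm_num
    ring
  rw [e1, e2]

theorem csq_re_nonneg (z : ℂ) : 0 ≤ (csq z).re := by
  by_cases hz : z = 0
  · subst hz
    unfold csq
    rw [zero_cpow (by norm_num)]
    simp
  · rw [csq_re hz]
    have h1 := neg_pi_lt_arg z
    have h2 := arg_le_pi z
    exact mul_nonneg (Real.exp_pos _).le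
      (Real.cos_nonneg_of_neg_pi_div_two_le_of_le (by linarith) (by linarith))

theorem csq_continuousAt {z : ℂ} (h : 0 < (csq z).re) : ContinuousAt csq z := by
  have hz : z ≠ 0 := by
    rintro rfl
    unfold csq at h
    rw [zero_cpow (by norm_num)] at h
    simp at h
  have harg : arg z ≠ Real.pi := by
    intro ha
    rw [csq_re hz, ha, Real.cos_pi_div_two, mul_zero] at h
    exact lt_irrefl _ h
  have hs : z ∈ slitPlane := mem_slitPlane_iff_arg.2 ⟨harg, hz⟩
  exact continuousAt_cpow_const hs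

/-- the matrix `4 S₂` -/
def matC (w T q P h U Q : ℂ) : M4 :=
  !![w + T, q, P + h + U, Q;
     -q, w - T, Q, -P + h - U;
     P - h - U, Q, -w - T, q;
     Q, -P - h + U, -q, -w + T]

/-- the matrix `S₀` -/
def S0C : M4 := !![1, 0, 0, 0; 0, 1, 0, 0; 0, 0, -1, 0; 0, 0, 0, -1]

/-- the matrix `S₁` -/
def S1C : M4 := !![0, 0, 1, 0; 0, 0, 0, 1; 1, 0, 0, 0; 0, 1, 0, 0]

/-- the alternating form in tensor coordinates -/
def JT : M4 := !![0, 0, 1, 0; 0, 0, 0, 1; -1, 0, 0, 0; 0, -1, 0, 0]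

noncomputable def h1C : ℂ := 1 + (√2 : ℝ) * I

noncomputable def gC (s : ℝ) : ℂ := 3 - h1C + (1 - (s : ℂ) * s) * (1 + I)

noncomputable def hC (s : ℝ) : ℂ := h1C + (s : ℂ) * s * gC s

noncomputable def uC (s : ℝ) : ℂ := hC s * hC s + -3

noncomputable def vC (s : ℝ) : ℂ := hC s * hC s + 5

noncomputable def RC (s : ℝ) : ℂ := csq (1 + 8 * (uC s)⁻¹)

/-- `(qC s / s)²` -/
noncomputable def WC (s : ℝ) : ℂ :=
  gC s * (hC s + h1C) * ((hC s * hC s + (1 + 2 * ((√2 : ℝ) * I))) * (uC s)⁻¹)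

noncomputable def YC (s : ℝ) : ℂ := csq (WC s)

noncomputable def qC (s : ℝ) : ℂ := s * YC s

noncomputable def PC (s : ℝ) : ℂ := csq (8 + 8 * ((uC s + 8 + 24 * (uC s)⁻¹) * (vC s)⁻¹))

noncomputable def TC (s : ℝ) : ℂ := hC s * RC s

noncomputable def UC (s : ℝ) : ℂ := (√3 : ℝ) * RC s

noncomputable def QC (s : ℝ) : ℂ := -(qC s * (RC s)⁻¹)

/-- the path: the images of the three generators -/
noncomputable def pathC (s : ℝ) : Fin 3 → M4 :=
  ![S0C, S1C, (1 / 4 : ℂ) • matC (√3 : ℝ) (TC s) (qC s) (PC s) (hC s) (UC s) (QC s)]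

/-- no denominator vanishes and no square root is near its cut -/
def GoodC (s : ℝ) : Prop :=
  uC s ≠ 0 ∧ vC s ≠ 0 ∧ 0 < (RC s).re ∧ 0 < (YC s).re ∧ 0 < (PC s).re

/-! ### Polynomial identities -/

private lemma pc_ext {A B : M4} (h : ∀ i j, A i j = B i j) : A = B := Matrix.ext h

/-- the scalar `N²` -/
private def pcD (w h R P Q : ℂ) : ℂ :=
  w ^ 2 - w ^ 2 * R ^ 2 + h ^ 2 * R ^ 2 - Q ^ 2 * R ^ 2 + P ^ 2 + Q ^ 2 - h ^ 2

/-- the matrix `N` after elimination of `T`, `q`, `U` -/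
private def pcN (w h R P Q : ℂ) : M4 := matC w (h * R) (-(Q * R)) P h (w * R) Q

private lemma pc_sq (w h R P Q : ℂ) :
    pcN w h R P Q * pcN w h R P Q = pcD w h R P Q • (1 : M4) := by
  apply pc_ext
  intro i j
  fin_cases i <;> fin_cases j <;>
    simp [pcN, matC, pcD, Matrix.mul_apply, Fin.sum_univ_four] <;> ring

private lemma pc_det (w h R P Q : ℂ) : (pcN w h R P Q).det = pcD w h R P Q ^ 2 := by
  rw [Matrix.det_succ_row_zero]
  simp [Fin.sum_univ_four, Matrix.det_fin_three, Fin.succAbove, pcN, matC, pcD]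
  ring

private lemma pc_sym (w h R P Q : ℂ) :
    (pcN w h R P Q).transpose * JT = -(JT * pcN w h R P Q) := by
  apply pc_ext
  intro i j
  fin_cases i <;> fin_cases j <;>
    simp [pcN, matC, JT, Matrix.mul_apply, Fin.sum_univ_four] <;> ring

private lemma pc_Y12 (w h R P Q : ℂ) :
    (S1C * pcN w h R P Q + pcN w h R P Q * S1C) * (S1C * pcN w h R P Q + pcN w h R P Q * S1C) =
      (4 * (P ^ 2 + Q ^ 2 - Q ^ 2 * R ^ 2)) • (1 : M4) := by
  apply pc_ext
  intro i j
  fin_cases i <;> fin_cases j <;>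
    simp [pcN, matC, S1C, Matrix.mul_apply, Fin.sum_univ_four] <;> ring

private lemma pc_Y02 (w h R P Q : ℂ) :
    (S0C * pcN w h R P Q + pcN w h R P Q * S0C) * (S0C * pcN w h R P Q + pcN w h R P Q * S0C) =
      (4 * w) • (S0C * pcN w h R P Q + pcN w h R P Q * S0C) +
        (4 * (h ^ 2 * R ^ 2 - Q ^ 2 * R ^ 2 - w ^ 2)) • (1 : M4) := by
  apply pc_ext
  intro i j
  fin_cases i <;> fin_cases j <;>
    simp [pcN, matC, S0C, Matrix.mul_apply, Fin.sum_univ_four] <;> first | ring1 | (ring_nf; simp)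

private lemma pc_S0 : S0C * S0C = 1 := by
  apply pc_ext
  intro i j
  fin_cases i <;> fin_cases j <;> simp [S0C, Matrix.mul_apply, Fin.sum_univ_four]

private lemma pc_S1 : S1C * S1C = 1 := by
  apply pc_ext
  intro i j
  fin_cases i <;> fin_cases j <;> simp [S1C, Matrix.mul_apply, Fin.sum_univ_four]

/-! ### Involutions -/

private lemma pc_pow4 {A : Type*} [Ring A] {a b : A} (ha : a * a = 1) (hb : b * b = 1)
    (h : (a * b + b * a) * (a * b + b * a) = 2) : (a * b) ^ 4 = -1 := by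
  have e1 : a * b * (b * a) = 1 := by
    rw [mul_assoc, ← mul_assoc b b a, hb, one_mul, ha]
  have e2 : b * a * (a * b) = 1 := by
    rw [mul_assoc, ← mul_assoc a a b, ha, one_mul, hb]
  have e3 : a * b * (a * b) + b * a * (b * a) = 0 := by
    have e4 : (a * b + b * a) * (a * b + b * a) =
        a * b * (a * b) + a * b * (b * a) + (b * a * (a * b) + b * a * (b * a)) := by
      rw [add_mul, mul_add, mul_add]
    rw [e4, e1, e2] at h
    have e5 : a * b * (a * b) + 1 + (1 + b * a * (b * a)) =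
        (a * b * (a * b) + b * a * (b * a)) + 2 := by
      rw [← one_add_one_eq_two]
      abel
    rw [e5] at h
    exact add_eq_right.1 h
  have e6 : a * b * (a * b) = -(b * a * (b * a)) := eq_neg_of_add_eq_zero_left e3
  have e7 : (a * b) ^ 4 = a * b * (a * b) * (a * b * (a * b)) := by
    rw [show (4 : ℕ) = 2 + 2 from rfl, pow_add, pow_two]
  rw [e7]
  nth_rewrite 2 [e6]
  rw [mul_neg, mul_assoc (a * b) (a * b), ← mul_assoc (a * b) (b * a) (b * a), e1, one_mul, e1]

private lemma pc_pow6 {a b : M4} {w : ℂ} (hw : w * w = 3) (ha : a * a = 1) (hb : b * b = 1)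
    (h : (a * b + b * a) * (a * b + b * a) = w • (a * b + b * a)) : (a * b) ^ 6 = -1 := by
  have e1 : a * b * (b * a) = 1 := by
    rw [mul_assoc, ← mul_assoc b b a, hb, one_mul, ha]
  have e2 : b * a * (a * b) = 1 := by
    rw [mul_assoc, ← mul_assoc a a b, ha, one_mul, hb]
  generalize a * b = x at *
  generalize b * a = y at *
  -- `x ^ 4 = w (x ^ 3 + x) - 2 x ^ 2 - 1`
  have h1 : x * x + 2 + y * y = w • (x + y) := by
    rw [← h, add_mul, mul_add, mul_add, e1, e2, ← one_add_one_eq_two]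
    abel
  have h2 : x ^ 4 + 2 * x ^ 2 + 1 = w • (x ^ 3 + x) := by
    have h3 : x ^ 2 * (x * x + 2 + y * y) = x ^ 2 * (w • (x + y)) := by rw [h1]
    have h4 : x ^ 2 * (y * y) = 1 := by
      rw [pow_two, mul_assoc, ← mul_assoc x y y, e1, one_mul, e1]
    have h5 : x ^ 2 * y = x := by rw [pow_two, mul_assoc, e1, mul_one]
    rw [mul_add, mul_add, h4, Algebra.mul_smul_comm, mul_add, h5] at h3
    rw [← pow_succ, show x ^ 2 * (x * x) = x ^ 4 by
      rw [← pow_two, ← pow_add], show x ^ 2 * 2 = 2 * x ^ 2 from (Commute.ofNat_right _ 2)] at h3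
    exact h3
  have key : Polynomial.aeval x ((Polynomial.X ^ 4 + 2 * Polynomial.X ^ 2 + 1 -
      Polynomial.C w * (Polynomial.X ^ 3 + Polynomial.X) : Polynomial ℂ)) = 0 := by
    simp only [map_sub, map_add, map_mul, map_pow, Polynomial.aeval_X, Polynomial.aeval_C,
      map_one, map_ofNat]
    rw [h2, Algebra.smul_def, sub_self]
  have hpoly : (Polynomial.X ^ 6 + 1 : Polynomial ℂ) =
      (Polynomial.X ^ 4 + 2 * Polynomial.X ^ 2 + 1 -
      Polynomial.C w * (Polynomial.X ^ 3 + Polynomial.X)) *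
        (Polynomial.X ^ 2 + Polynomial.C w * Polynomial.X + 1) := by
    have hC : Polynomial.C w * Polynomial.C w = (3 : Polynomial ℂ) := by
      rw [← Polynomial.C_mul, hw]
      rfl
    linear_combination (Polynomial.X ^ 4 + Polynomial.X ^ 2) * hC
  have h6 : Polynomial.aeval x (Polynomial.X ^ 6 + 1 : Polynomial ℂ) = 0 := by
    rw [hpoly, map_mul, key, zero_mul]
  simp only [map_add, map_pow, Polynomial.aeval_X, map_one] at h6
  exact eq_neg_of_add_eq_zero_left h6

/-! ### The relations between the functions -/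

private lemma pc_sqrt2 : ((√2 : ℝ) : ℂ) * ((√2 : ℝ) : ℂ) = 2 := by
  rw [← ofReal_mul, Real.mul_self_sqrt (by norm_num)]
  norm_num

private lemma pc_sqrt3 : ((√3 : ℝ) : ℂ) * ((√3 : ℝ) : ℂ) = 3 := by
  rw [← ofReal_mul, Real.mul_self_sqrt (by norm_num)]
  norm_num

private lemma pc_R {s : ℝ} : RC s * RC s = 1 + 8 * (uC s)⁻¹ := csq_mul_self _

private lemma pc_q {s : ℝ} (h : GoodC s) :
    qC s * qC s = uC s + 8 + 24 * (uC s)⁻¹ := by
  have hu := h.1
  have hY : YC s * YC s = WC s := csq_mul_self _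
  have hg : (s : ℂ) * s * gC s = hC s - h1C := by
    rw [hC]
    ring
  have h1 : qC s * qC s = (s : ℂ) * s * gC s * (hC s + h1C) *
      ((hC s * hC s + (1 + 2 * ((√2 : ℝ) * I))) * (uC s)⁻¹) := by
    rw [qC, mul_mul_mul_comm, hY, WC]
    ring
  rw [h1, hg]
  have hI : I * I = -1 := I_mul_I
  have h2 := pc_sqrt2
  have h3 : (hC s - h1C) * (hC s + h1C) * (hC s * hC s + (1 + 2 * ((√2 : ℝ) * I))) =
      uC s * uC s + 8 * uC s + 24 := by
    rw [uC, h1C]
    generalize ((√2 : ℝ) : ℂ) = r at *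
    generalize hC s = x
    linear_combination (-(x * x + 5 + 2 * r * I) * (I * I)) * h2 -
      2 * (x * x + 5 + 2 * r * I) * hI
  field_simp
  linear_combination h3

private lemma pc_ne {s : ℝ} (h : GoodC s) : RC s ≠ 0 := by
  intro h0
  have h1 := h.2.2.1
  rw [h0] at h1
  simp at h1

private lemma pc_QR {s : ℝ} (h : GoodC s) : qC s = -(QC s * RC s) := by
  have hR := pc_ne h
  rw [QC]
  field_simp

private lemma pc_H5 {s : ℝ} (h : GoodC s) :
    QC s ^ 2 * RC s ^ 2 = hC s ^ 2 + 3 * RC s ^ 2 + 2 := by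
  have hu := h.1
  have h1 := pc_q h
  have h2 := pc_R (s := s)
  have h3 : QC s ^ 2 * RC s ^ 2 = qC s * qC s := by
    rw [pc_QR h]
    ring
  have h4 : hC s ^ 2 = uC s + 3 := by
    rw [uC]
    ring
  rw [h3, h1, h4, pow_two, h2]
  ring

private lemma pc_H4 {s : ℝ} (h : GoodC s) :
    hC s ^ 2 * RC s ^ 2 = QC s ^ 2 * RC s ^ 2 + 3 := by
  have hu := h.1
  have h1 := pc_q h
  have h2 := pc_R (s := s)
  have h3 : QC s ^ 2 * RC s ^ 2 = qC s * qC s := by
    rw [pc_QR h]
    ring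
  have h4 : hC s ^ 2 = uC s + 3 := by
    rw [uC]
    ring
  rw [h3, h1, h4, pow_two, h2]
  field_simp
  ring

private lemma pc_H6 {s : ℝ} (h : GoodC s) :
    PC s ^ 2 + QC s ^ 2 = QC s ^ 2 * RC s ^ 2 + 8 := by
  have hu := h.1
  have hv := h.2.1
  have hR := pc_ne h
  have h1 := pc_q h
  have h2 := pc_R (s := s)
  have h3 : QC s ^ 2 * RC s ^ 2 = qC s * qC s := by
    rw [pc_QR h]
    ring
  have h4 : vC s = uC s + 8 := by
    rw [uC, vC]
    ring
  have hP : PC s ^ 2 = 8 + 8 * ((uC s + 8 + 24 * (uC s)⁻¹) * (vC s)⁻¹) := by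
    rw [pow_two]
    exact csq_mul_self _
  have h5 : QC s ^ 2 * (1 + 8 * (uC s)⁻¹) = uC s + 8 + 24 * (uC s)⁻¹ := by
    rw [← h2, ← h1, ← h3]
    ring
  have h6 : QC s ^ 2 = (uC s + 8 + 24 * (uC s)⁻¹) * (uC s * (vC s)⁻¹) := by
    rw [← h5, h4]
    rw [h4] at hv
    field_simp
  rw [h3, h1, hP, h6, h4]
  rw [h4] at hv
  field_simp
  ring

private lemma pc_D {s : ℝ} (h : GoodC s) :
    pcD (√3 : ℝ) (hC s) (RC s) (PC s) (QC s) = 16 := by
  have h4 := pc_H4 h
  have h5 := pc_H5 h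
  have h6 := pc_H6 h
  have h7 := pc_sqrt3
  rw [pcD]
  linear_combination (1 - RC s ^ 2) * h7 + h4 + h5 + h6

private lemma pc_path2 {s : ℝ} (h : GoodC s) :
    pathC s 2 = (1 / 4 : ℂ) • pcN (√3 : ℝ) (hC s) (RC s) (PC s) (QC s) := by
  show (1 / 4 : ℂ) • matC (√3 : ℝ) (TC s) (qC s) (PC s) (hC s) (UC s) (QC s) = _
  rw [pcN, ← pc_QR h]
  rfl

private lemma pc_N2 {s : ℝ} (h : GoodC s) : pathC s 2 * pathC s 2 = 1 := by
  rw [pc_path2 h, Matrix.smul_mul, Matrix.mul_smul, pc_sq, pc_D h, smul_smul, smul_smul]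
  norm_num

theorem pathC_sq {s : ℝ} (h : GoodC s) (i : Fin 3) : pathC s i * pathC s i = 1 := by
  fin_cases i
  · exact pc_S0
  · exact pc_S1
  · exact pc_N2 h

theorem pathC_01 (s : ℝ) : (pathC s 0 * pathC s 1) ^ 2 = -1 := by
  show (S0C * S1C) ^ 2 = -1
  rw [pow_two]
  apply pc_ext
  intro i j
  fin_cases i <;> fin_cases j <;> simp [S0C, S1C, Matrix.mul_apply, Fin.sum_univ_four]

theorem pathC_12 {s : ℝ} (h : GoodC s) : (pathC s 1 * pathC s 2) ^ 4 = -1 := by
  refine pc_pow4 pc_S1 (pc_N2 h) ?_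
  show (S1C * pathC s 2 + pathC s 2 * S1C) * (S1C * pathC s 2 + pathC s 2 * S1C) = 2
  rw [pc_path2 h]
  set N := pcN (√3 : ℝ) (hC s) (RC s) (PC s) (QC s) with hN
  have e : S1C * (1 / 4 : ℂ) • N + (1 / 4 : ℂ) • N * S1C = (1 / 4 : ℂ) • (S1C * N + N * S1C) := by
    rw [Matrix.mul_smul, Matrix.smul_mul, smul_add]
  have h6 := pc_H6 h
  rw [e, Matrix.smul_mul, Matrix.mul_smul, hN, pc_Y12, smul_smul, smul_smul]
  have e2 : (1 / 4 * (1 / 4) * (4 * (PC s ^ 2 + QC s ^ 2 - QC s ^ 2 * RC s ^ 2)) : ℂ) = 2 := by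
    rw [h6]
    ring
  rw [e2, ofNat_smul_eq_nsmul, nsmul_one]
  rfl

theorem pathC_02 {s : ℝ} (h : GoodC s) : (pathC s 0 * pathC s 2) ^ 6 = -1 := by
  refine pc_pow6 pc_sqrt3 pc_S0 (pc_N2 h) ?_
  show (S0C * pathC s 2 + pathC s 2 * S0C) * (S0C * pathC s 2 + pathC s 2 * S0C) =
    ((√3 : ℝ) : ℂ) • (S0C * pathC s 2 + pathC s 2 * S0C)
  rw [pc_path2 h]
  set N := pcN (√3 : ℝ) (hC s) (RC s) (PC s) (QC s) with hN
  have e : S0C * (1 / 4 : ℂ) • N + (1 / 4 : ℂ) • N * S0C = (1 / 4 : ℂ) • (S0C * N + N * S0C) := by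
    rw [Matrix.mul_smul, Matrix.smul_mul, smul_add]
  have h4 := pc_H4 h
  have h7 := pc_sqrt3
  have e0 : (4 * (hC s ^ 2 * RC s ^ 2 - QC s ^ 2 * RC s ^ 2 - ((√3 : ℝ) : ℂ) ^ 2) : ℂ) = 0 := by
    linear_combination 4 * h4 - 4 * h7
  rw [e, Matrix.smul_mul, Matrix.mul_smul, hN, pc_Y02, e0, zero_smul, add_zero, smul_smul,
    smul_smul, smul_smul]
  congr 1
  ring

theorem pathC_form {s : ℝ} (h : GoodC s) (i : Fin 3) :
    (pathC s i).transpose * JT * pathC s i = -JT := by
  fin_cases i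
  · show S0C.transpose * JT * S0C = -JT
    apply pc_ext
    intro i j
    fin_cases i <;> fin_cases j <;>
      simp [S0C, JT, Matrix.mul_apply, Fin.sum_univ_four]
  · show S1C.transpose * JT * S1C = -JT
    apply pc_ext
    intro i j
    fin_cases i <;> fin_cases j <;>
      simp [S1C, JT, Matrix.mul_apply, Fin.sum_univ_four]
  · show (pathC s 2).transpose * JT * pathC s 2 = -JT
    have h2 := pc_N2 h
    have h3 : (pathC s 2).transpose * JT = -(JT * pathC s 2) := by
      rw [pc_path2 h, Matrix.transpose_smul, Matrix.smul_mul, pc_sym, Matrix.mul_smul, smul_neg]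
    rw [h3, Matrix.neg_mul, Matrix.mul_assoc, h2, Matrix.mul_one]

theorem pathC_det {s : ℝ} (h : GoodC s) (i : Fin 3) : (pathC s i).det = 1 := by
  fin_cases i
  · show S0C.det = 1
    rw [Matrix.det_succ_row_zero]
    simp [Fin.sum_univ_four, Matrix.det_fin_three, Fin.succAbove, S0C]
  · show S1C.det = 1
    rw [Matrix.det_succ_row_zero]
    simp [Fin.sum_univ_four, Matrix.det_fin_three, Fin.succAbove, S1C]
  · show (pathC s 2).det = 1
    rw [pc_path2 h, Matrix.det_smul, pc_det, pc_D h]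
    norm_num

/-! ### Continuity -/

private lemma pc_contg : Continuous gC := by
  unfold gC
  fun_prop

private lemma pc_conth : Continuous hC := by
  unfold hC
  have := pc_contg
  fun_prop

private lemma pc_contu : Continuous uC := by
  unfold uC
  have := pc_conth
  fun_prop

private lemma pc_contv : Continuous vC := by
  unfold vC
  have := pc_conth
  fun_prop

private lemma pc_contR {s : ℝ} (h : GoodC s) : ContinuousAt RC s := by
  have h1 : ContinuousAt (fun s => 1 + 8 * (uC s)⁻¹) s :=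
    continuousAt_const.add (continuousAt_const.mul (pc_contu.continuousAt.inv₀ h.1))
  exact ContinuousAt.comp (g := csq) (csq_continuousAt h.2.2.1) h1

private lemma pc_contW {s : ℝ} (h : GoodC s) : ContinuousAt WC s := by
  have h1 := pc_contg.continuousAt (x := s)
  have h2 := pc_conth.continuousAt (x := s)
  have h3 : ContinuousAt (fun s => (uC s)⁻¹) s := pc_contu.continuousAt.inv₀ h.1
  unfold WC
  fun_prop

private lemma pc_contY {s : ℝ} (h : GoodC s) : ContinuousAt YC s :=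
  ContinuousAt.comp (g := csq) (csq_continuousAt h.2.2.2.1) (pc_contW h)

private lemma pc_contP {s : ℝ} (h : GoodC s) : ContinuousAt PC s := by
  have h1 := pc_contu.continuousAt (x := s)
  have h3 : ContinuousAt (fun s => (uC s)⁻¹) s := pc_contu.continuousAt.inv₀ h.1
  have h4 : ContinuousAt (fun s => (vC s)⁻¹) s := pc_contv.continuousAt.inv₀ h.2.1
  have h5 : ContinuousAt (fun s => 8 + 8 * ((uC s + 8 + 24 * (uC s)⁻¹) * (vC s)⁻¹)) s := by
    fun_prop
  exact ContinuousAt.comp (g := csq) (csq_continuousAt h.2.2.2.2) h5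

theorem pathC_cont (h : ∀ s ∈ Set.Icc (0 : ℝ) 1, GoodC s) (i : Fin 3) :
    ContinuousOn (fun s => pathC s i) (Set.Icc (0 : ℝ) 1) := by
  intro s hs
  have hg := h s hs
  refine ContinuousAt.continuousWithinAt ?_
  fin_cases i
  · exact continuousAt_const
  · exact continuousAt_const
  · show ContinuousAt (fun s => (1 / 4 : ℂ) •
      matC (√3 : ℝ) (TC s) (qC s) (PC s) (hC s) (UC s) (QC s)) s
    have h1 := pc_contR hg
    have h2 := pc_contY hg
    have h3 := pc_contP hg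
    have h4 := pc_conth.continuousAt (x := s)
    have h5 : ContinuousAt (fun s => (RC s)⁻¹) s := h1.inv₀ (pc_ne hg)
    have hT : ContinuousAt TC s := by
      unfold TC
      fun_prop
    have hU : ContinuousAt UC s := by
      unfold UC
      fun_prop
    have hq : ContinuousAt qC s := by
      unfold qC
      fun_prop
    have hQ : ContinuousAt QC s := by
      unfold QC
      fun_prop
    have key : ∀ a b, ContinuousAt (fun s => ((1 / 4 : ℂ) •
        matC (√3 : ℝ) (TC s) (qC s) (PC s) (hC s) (UC s) (QC s)) a b) s := by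
      intro a b
      fin_cases a <;> fin_cases b <;> simp [matC] <;> fun_prop
    exact continuousAt_pi.2 fun a => continuousAt_pi.2 fun b => key a b

end Pool.Agent.Hhelper63.AnT
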