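import Pool.Agent.Hhelper63.AnT.Cert
import Pool.Agent.Hhelper63.AnT.PathC

/-!
The certificate check for one piece of the path in case (c).
-/

namespace Pool.Agent.Hhelper63.AnT

open Complex Matrix

/-- conjugation by `S0C` -/
def cj0 (H : Mt) : Mt :=
  ⟨⟨H.p.p, H.p.q, H.p.r.neg, H.p.s.neg⟩, ⟨H.q.p, H.q.q, H.q.r.neg, H.q.s.neg⟩,
    ⟨H.r.p.neg, H.r.q.neg, H.r.r, H.r.s⟩, ⟨H.s.p.neg, H.s.q.neg, H.s.r, H.s.s⟩⟩

/-- conjugation by `S1C` -/
def cj1 (H : Mt) : Mt :=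
  ⟨⟨H.r.r, H.r.s, H.r.p, H.r.q⟩, ⟨H.s.r, H.s.s, H.s.p, H.s.q⟩,
    ⟨H.p.r, H.p.s, H.p.p, H.p.q⟩, ⟨H.q.r, H.q.s, H.q.p, H.q.q⟩⟩

lemma cj0_toM (H : Mt) : (cj0 H).toM = S0C.conjTranspose * H.toM * S0C := by
  ext i j
  fin_cases i <;> fin_cases j <;>
    simp [Mt.toM, cj0, S0C, R4.toV, Matrix.mul_apply, Fin.sum_univ_four,
      Matrix.conjTranspose_apply]

lemma cj1_toM (H : Mt) : (cj1 H).toM = S1C.conjTranspose * H.toM * S1C := by
  ext i j
  fin_cases i <;> fin_cases j <;>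
    simp [Mt.toM, cj1, S1C, R4.toV, Matrix.mul_apply, Fin.sum_univ_four,
      Matrix.conjTranspose_apply]

/-- the matrix `matC` with integer entries -/
def mkX (w T q P h U Q : Z4) : Mt :=
  ⟨⟨w.add T, q, (P.add h).add U, Q⟩, ⟨q.neg, w.add T.neg, Q, (P.neg.add h).add U.neg⟩,
    ⟨(P.add h.neg).add U.neg, Q, w.neg.add T.neg, q⟩,
    ⟨Q, (P.neg.add h.neg).add U, q.neg, w.neg.add T⟩⟩

lemma mkX_toM (w T q P h U Q : Z4) :
    (mkX w T q P h U Q).toM = matC w.toC T.toC q.toC P.toC h.toC U.toC Q.toC := by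
  ext i j
  fin_cases i <;> fin_cases j <;> simp [Mt.toM, mkX, matC, R4.toV] <;> ring

lemma fro2_matC (w T q P h U Q : ℂ) :
    fro2 (matC w T q P h U Q) = 4 * (normSq w + normSq T + normSq q + normSq P + normSq h +
      normSq U + normSq Q) := by
  simp only [fro2, Fin.sum_univ_four, matC, Matrix.of_apply, Matrix.cons_val', Matrix.cons_val_zero,
    Matrix.cons_val_one, Matrix.cons_val_two, Matrix.cons_val_three, Matrix.head_cons,
    Matrix.tail_cons, Complex.normSq_apply, Complex.add_re, Complex.add_im, Complex.sub_re,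
    Complex.sub_im, Complex.neg_re, Complex.neg_im]
  ring

lemma matC_sub (w T q P h U Q w' T' q' P' h' U' Q' : ℂ) :
    matC w T q P h U Q - matC w' T' q' P' h' U' Q' =
      matC (w - w') (T - T') (q - q') (P - P') (h - h') (U - U') (Q - Q') := by
  ext i j
  fin_cases i <;> fin_cases j <;> simp [matC] <;> ring

lemma matC_smul (c w T q P h U Q : ℂ) :
    c • matC w T q P h U Q = matC (c * w) (c * T) (c * q) (c * P) (c * h) (c * U) (c * Q) := by
  ext i j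
  fin_cases i <;> fin_cases j <;> simp [matC] <;> ring

/-- the row vector given by 8 digits -/
def rvec (n i : ℕ) : R4 :=
  ⟨zd n i, zd n (Nat.add i 2), zd n (Nat.add i 4), zd n (Nat.add i 6)⟩

/-- the centre of the piece -/
def ctr (n : ℕ) : Mt :=
  mkX (zd n 1) (zd n 3) (zd n 5) (zd n 7) (zd n 9) (zd n 11) (zd n 13)

/-- the certificate check -/
def checkC (n : ℕ) : Bool :=
  edgeOK n 283 (dgt n 0) (cj0 (herm n 15)) (herm n 31) (ctr n) &&
  edgeOK n 308 (dgt n 0) (cj1 (cj0 (herm n 15))) (herm n 15) (ctr n) &&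
  edgeOK n 333 (dgt n 0) (cj1 (herm n 15)) (herm n 63) (ctr n) &&
  edgeOK n 358 (dgt n 0) (cj0 (herm n 31)) (herm n 47) (ctr n) &&
  edgeOK n 383 (dgt n 0) (cj1 (cj0 (herm n 31))) (herm n 15) (ctr n) &&
  edgeOK n 408 (dgt n 0) (cj1 (herm n 31)) (herm n 63) (ctr n) &&
  edgeOK n 433 (dgt n 0) (cj1 (herm n 47)) (herm n 63) (ctr n) &&
  edgeOK n 458 (dgt n 0) (cj0 (herm n 63)) (herm n 31) (ctr n) &&
  kerOK n 103 [rvec n 79, rvec n 87, rvec n 95] (herm n 15) &&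
  kerOK n 147 [rvec n 123, rvec n 131, rvec n 139] (herm n 31) &&
  kerOK n 191 [rvec n 167, rvec n 175, rvec n 183] (herm n 47) &&
  kerOK n 235 [rvec n 211, rvec n 219, rvec n 227] (herm n 63) &&
  kerOK n 263 [rvec n 255] (herm n 15).neg

lemma cj0_H {H : Mt} (h : H.toM.conjTranspose = H.toM) :
    (cj0 H).toM.conjTranspose = (cj0 H).toM := by
  rw [cj0_toM, Matrix.conjTranspose_mul, Matrix.conjTranspose_mul,
    Matrix.conjTranspose_conjTranspose, h, Matrix.mul_assoc]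

lemma cj1_H {H : Mt} (h : H.toM.conjTranspose = H.toM) :
    (cj1 H).toM.conjTranspose = (cj1 H).toM := by
  rw [cj1_toM, Matrix.conjTranspose_mul, Matrix.conjTranspose_mul,
    Matrix.conjTranspose_conjTranspose, h, Matrix.mul_assoc]

lemma Q_smul_vec (A : M4) (c : ℝ) (v : Fin 4 → ℂ) :
    Q A (((c : ℂ)) • v) = c ^ 2 * Q A v := by
  unfold Q
  rw [Matrix.mulVec_smul, star_smul, smul_dotProduct, dotProduct_smul]
  simp only [smul_eq_mul, Complex.star_def, Complex.conj_ofReal]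
  rw [← mul_assoc, ← Complex.ofReal_mul, Complex.re_ofReal_mul, sq]

lemma edge_cert {n i ε : ℕ} {G Ht X : Mt} (hG : G.toM.conjTranspose = G.toM)
    (h : edgeOK n i ε G Ht X = true) {X' S2 D Hs : M4} (hX : fro2 (X' - X.toM) ≤ (ε : ℝ) ^ 2)
    (hS : S2 = ((1 / 16384 : ℝ) : ℂ) • X') (hD : G.toM = D.conjTranspose * Hs * D) :
    ∃ μ > (0 : ℝ), ∃ κ > (0 : ℝ), ∀ v, κ * n2 v ≤
      Q Hs ((D * S2).mulVec v) - μ * Q Ht.toM v := by
  obtain ⟨h1, h2⟩ := edge_ok hG h hX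
  generalize dgt2 n i = μ at h1 h2
  have hc : (0 : ℝ) < (1 / 16384) ^ 2 := by positivity
  have h3 : ∀ v, Q Hs ((D * S2).mulVec v) = (1 / 16384) ^ 2 * Q G.toM (X'.mulVec v) := by
    intro v
    rw [← Matrix.mulVec_mulVec, ← Q_conj, ← hD, hS, Matrix.smul_mulVec, Q_smul_vec]
  generalize ((1 : ℝ) / 16384) ^ 2 = c at hc h3
  have hμ : (0 : ℝ) < μ := by exact_mod_cast h1
  refine ⟨c * μ, mul_pos hc hμ, c, hc, fun v => ?_⟩
  rw [h3]
  have h4 := mul_le_mul_of_nonneg_left (h2 v) hc.le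
  rw [mul_sub] at h4
  rw [mul_assoc]
  exact h4

theorem certC_of_check {n : ℕ} (h : checkC n = true) {w T q P h' U Q' : ℂ}
    (hd : 4 * (normSq (4096 * w - (zd n 1).toC) + normSq (4096 * T - (zd n 3).toC) +
      normSq (4096 * q - (zd n 5).toC) + normSq (4096 * P - (zd n 7).toC) +
      normSq (4096 * h' - (zd n 9).toC) + normSq (4096 * U - (zd n 11).toC) +
      normSq (4096 * Q' - (zd n 13).toC)) ≤ ((dgt n 0 : ℕ) : ℝ) ^ 2)
    {S : Fin 3 → M4} (hS0 : S 0 = S0C) (hS1 : S 1 = S1C)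
    (hS2 : S 2 = (1 / 4 : ℂ) • matC w T q P h' U Q') : CertAt 4 edgesC 1 S := by
  simp only [checkC, Bool.and_eq_true] at h
  obtain ⟨⟨⟨⟨⟨⟨⟨⟨⟨⟨⟨⟨e1, e2⟩, e3⟩, e4⟩, e5⟩, e6⟩, e7⟩, e8⟩, p0⟩, p1⟩, p2⟩, p3⟩, m0⟩ := h
  have hX : fro2 ((4096 : ℂ) • matC w T q P h' U Q' - (ctr n).toM) ≤ ((dgt n 0 : ℕ) : ℝ) ^ 2 := by
    rw [ctr, mkX_toM, matC_smul, matC_sub, fro2_matC]
    exact hd
  have hS2' : S 2 = ((1 / 16384 : ℝ) : ℂ) • ((4096 : ℂ) • matC w T q P h' U Q') := by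
    rw [hS2, smul_smul]
    have e : ((1 / 16384 : ℝ) : ℂ) * 4096 = 1 / 4 := by
      rw [← Complex.ofReal_ofNat 4096, ← Complex.ofReal_mul]
      norm_num
    rw [e]
  have k0 := herm_H n 15
  have k1 := herm_H n 31
  have k2 := herm_H n 47
  have k3 := herm_H n 63
  have d0 : ∀ H : Mt, (cj0 H).toM = (ev S [0]).conjTranspose * H.toM * ev S [0] := by
    intro H
    rw [cj0_toM, ← hS0]
    simp [ev]
  have d1 : ∀ H : Mt, (cj1 H).toM = (ev S [1]).conjTranspose * H.toM * ev S [1] := by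
    intro H
    rw [cj1_toM, ← hS1]
    simp [ev]
  have d01 : ∀ H : Mt, (cj1 (cj0 H)).toM =
      (ev S [0, 1]).conjTranspose * H.toM * ev S [0, 1] := by
    intro H
    rw [cj1_toM, cj0_toM, ← hS0, ← hS1]
    simp [ev, Matrix.mul_assoc]
  refine ⟨fun q => if q = 0 then (herm n 15).toM else if q = 1 then (herm n 31).toM else
    if q = 2 then (herm n 47).toM else (herm n 63).toM, 1 / 1024, by norm_num, ?_, ?_, ?_⟩
  · intro e he
    simp only [edgesC, List.mem_cons, List.not_mem_nil, or_false] at he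
    rcases he with rfl | rfl | rfl | rfl | rfl | rfl | rfl | rfl
    · exact ⟨by norm_num, by norm_num, by simpa using edge_cert (cj0_H k0) e1 hX hS2' (d0 _)⟩
    · exact ⟨by norm_num, by norm_num, by simpa using edge_cert (cj1_H (cj0_H k0)) e2 hX hS2' (d01 _)⟩
    · exact ⟨by norm_num, by norm_num, by simpa using edge_cert (cj1_H k0) e3 hX hS2' (d1 _)⟩
    · exact ⟨by norm_num, by norm_num, by simpa using edge_cert (cj0_H k1) e4 hX hS2' (d0 _)⟩
    · exact ⟨by norm_num, by norm_num, by simpa using edge_cert (cj1_H (cj0_H k1)) e5 hX hS2' (d01 _)⟩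
    · exact ⟨by norm_num, by norm_num, by simpa using edge_cert (cj1_H k1) e6 hX hS2' (d1 _)⟩
    · exact ⟨by norm_num, by norm_num, by simpa using edge_cert (cj1_H k2) e7 hX hS2' (d1 _)⟩
    · exact ⟨by norm_num, by norm_num, by simpa using edge_cert (cj0_H k3) e8 hX hS2' (d0 _)⟩
  · intro q hq
    have hdim : ∀ a b c : R4, 1 ≤ Module.finrank ℂ (kerL [a, b, c]) := by
      intro a b c
      have := kerL_finrank [a, b, c]
      simp only [List.length_cons, List.length_nil] at this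
      omega
    interval_cases q
    · exact ⟨_, hdim _ _ _, fun v hv => by simpa using ker_ok p0 v hv⟩
    · exact ⟨_, hdim _ _ _, fun v hv => by simpa using ker_ok p1 v hv⟩
    · exact ⟨_, hdim _ _ _, fun v hv => by simpa using ker_ok p2 v hv⟩
    · exact ⟨_, hdim _ _ _, fun v hv => by simpa using ker_ok p3 v hv⟩
  · refine ⟨kerL [rvec n 255], ?_, fun v hv => ?_⟩
    · have := kerL_finrank [rvec n 255]
      simpa using this
    · have := ker_ok m0 v hv
      rw [Mt.toM_neg, Q_neg] at this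
      simp only [if_true]
      linarith

end Pool.Agent.Hhelper63.AnT
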