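import Pool.Agent.Hhelper63.AnT.Defs

/-!
Exact integer checks for certificates: data types and operations (written with `Nat.add` and
`Nat.mul` so that the kernel evaluates them fast).
-/

namespace Pool.Agent.Hhelper63.AnT

open Complex

/-- Gaussian integer `(a - c) + (b - d) i` -/
structure Z4 where
  a : ℕ
  b : ℕ
  c : ℕ
  d : ℕ

namespace Z4

/-- value -/
noncomputable def toC (p : Z4) : ℂ := ⟨(p.a : ℝ) - p.c, (p.b : ℝ) - p.d⟩

def add (p q : Z4) : Z4 :=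
  ⟨Nat.add p.a q.a, Nat.add p.b q.b, Nat.add p.c q.c, Nat.add p.d q.d⟩

def mul (p q : Z4) : Z4 :=
  ⟨Nat.add (Nat.add (Nat.mul p.a q.a) (Nat.mul p.b q.d)) (Nat.add (Nat.mul p.c q.c) (Nat.mul p.d q.b)),
   Nat.add (Nat.add (Nat.mul p.a q.b) (Nat.mul p.b q.a)) (Nat.add (Nat.mul p.c q.d) (Nat.mul p.d q.c)),
   Nat.add (Nat.add (Nat.mul p.a q.c) (Nat.mul p.b q.b)) (Nat.add (Nat.mul p.c q.a) (Nat.mul p.d q.d)),
   Nat.add (Nat.add (Nat.mul p.a q.d) (Nat.mul p.b q.c)) (Nat.add (Nat.mul p.c q.b) (Nat.mul p.d q.a))⟩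

def cj (p : Z4) : Z4 := ⟨p.a, p.d, p.c, p.b⟩

def neg (p : Z4) : Z4 := ⟨p.c, p.d, p.a, p.b⟩

def zero : Z4 := ⟨0, 0, 0, 0⟩

def nat (n : ℕ) : Z4 := ⟨n, 0, 0, 0⟩

def scale (n : ℕ) (p : Z4) : Z4 := ⟨Nat.mul n p.a, Nat.mul n p.b, Nat.mul n p.c, Nat.mul n p.d⟩

/-- real and imaginary part of absolute value at most `e` -/
def small (p : Z4) (e : ℕ) : Bool :=
  Nat.ble p.a (Nat.add p.c e) && Nat.ble p.c (Nat.add p.a e) &&
    Nat.ble p.b (Nat.add p.d e) && Nat.ble p.d (Nat.add p.b e)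

/-- sum of squares and twice the products: `|p|² = sqp p - sqm p` -/
def sqp (p : Z4) : ℕ := Nat.add (Nat.add (Nat.mul p.a p.a) (Nat.mul p.b p.b))
  (Nat.add (Nat.mul p.c p.c) (Nat.mul p.d p.d))

def sqm (p : Z4) : ℕ := Nat.mul 2 (Nat.add (Nat.mul p.a p.c) (Nat.mul p.b p.d))

@[simp] lemma toC_add (p q : Z4) : (p.add q).toC = p.toC + q.toC := by
  apply Complex.ext
  · simp only [toC, add, Complex.add_re, Nat.add_eq, Nat.cast_add]
    ring
  · simp only [toC, add, Complex.add_im, Nat.add_eq, Nat.cast_add]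
    ring

@[simp] lemma toC_mul (p q : Z4) : (p.mul q).toC = p.toC * q.toC := by
  apply Complex.ext
  · simp only [toC, mul, Complex.mul_re, Nat.add_eq, Nat.mul_eq, Nat.cast_add, Nat.cast_mul]
    ring
  · simp only [toC, mul, Complex.mul_im, Nat.add_eq, Nat.mul_eq, Nat.cast_add, Nat.cast_mul]
    ring

@[simp] lemma toC_cj (p : Z4) : p.cj.toC = (starRingEnd ℂ) p.toC := by
  apply Complex.ext
  · simp [toC, cj]
  · simp [toC, cj]

@[simp] lemma toC_neg (p : Z4) : p.neg.toC = -p.toC := by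
  apply Complex.ext
  · simp [toC, neg]
  · simp [toC, neg]

@[simp] lemma toC_zero : zero.toC = 0 := by
  apply Complex.ext <;> simp [toC, zero]

@[simp] lemma toC_nat (n : ℕ) : (nat n).toC = n := by
  apply Complex.ext <;> simp [toC, nat]

@[simp] lemma toC_scale (n : ℕ) (p : Z4) : (scale n p).toC = n * p.toC := by
  apply Complex.ext
  · simp only [toC, scale, Nat.mul_eq, Nat.cast_mul, Complex.mul_re, Complex.natCast_re,
      Complex.natCast_im]
    ring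
  · simp only [toC, scale, Nat.mul_eq, Nat.cast_mul, Complex.mul_im, Complex.natCast_re,
      Complex.natCast_im]
    ring

lemma norm_of_small {p : Z4} {e : ℕ} (h : p.small e = true) : ‖p.toC‖ ≤ 2 * e := by
  simp only [small, Bool.and_eq_true, Nat.ble_eq, Nat.add_eq] at h
  obtain ⟨⟨⟨h1, h2⟩, h3⟩, h4⟩ := h
  have h1' : (p.a : ℝ) ≤ p.c + e := by exact_mod_cast h1
  have h2' : (p.c : ℝ) ≤ p.a + e := by exact_mod_cast h2
  have h3' : (p.b : ℝ) ≤ p.d + e := by exact_mod_cast h3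
  have h4' : (p.d : ℝ) ≤ p.b + e := by exact_mod_cast h4
  have hre : |p.toC.re| ≤ e := by
    rw [abs_le]
    constructor <;> simp only [toC] <;> linarith
  have him : |p.toC.im| ≤ e := by
    rw [abs_le]
    constructor <;> simp only [toC] <;> linarith
  calc ‖p.toC‖ ≤ |p.toC.re| + |p.toC.im| := Complex.norm_le_abs_re_add_abs_im _
    _ ≤ 2 * e := by linarith

lemma normSq_toC (p : Z4) : Complex.normSq p.toC = (p.sqp : ℝ) - p.sqm := by
  simp only [Complex.normSq_apply, toC, sqp, sqm, Nat.add_eq, Nat.mul_eq, Nat.cast_add,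
    Nat.cast_mul, Nat.cast_ofNat]
  ring

end Z4

/-- a row of four -/
structure R4 where
  p : Z4
  q : Z4
  r : Z4
  s : Z4

/-- a 4 by 4 matrix -/
structure Mt where
  p : R4
  q : R4
  r : R4
  s : R4

namespace R4

def add (u v : R4) : R4 := ⟨u.p.add v.p, u.q.add v.q, u.r.add v.r, u.s.add v.s⟩

def smul (z : Z4) (v : R4) : R4 := ⟨z.mul v.p, z.mul v.q, z.mul v.r, z.mul v.s⟩

def neg (u : R4) : R4 := ⟨u.p.neg, u.q.neg, u.r.neg, u.s.neg⟩

def scale (n : ℕ) (u : R4) : R4 := ⟨u.p.scale n, u.q.scale n, u.r.scale n, u.s.scale n⟩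

def small (u : R4) (e : ℕ) : Bool := u.p.small e && u.q.small e && u.r.small e && u.s.small e

def sqp (u : R4) : ℕ := Nat.add (Nat.add u.p.sqp u.q.sqp) (Nat.add u.r.sqp u.s.sqp)

def sqm (u : R4) : ℕ := Nat.add (Nat.add u.p.sqm u.q.sqm) (Nat.add u.r.sqm u.s.sqm)

/-- the row as a vector -/
noncomputable def toV (u : R4) : Fin 4 → ℂ := ![u.p.toC, u.q.toC, u.r.toC, u.s.toC]

end R4

namespace Mt

def add (A B : Mt) : Mt := ⟨A.p.add B.p, A.q.add B.q, A.r.add B.r, A.s.add B.s⟩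

def neg (A : Mt) : Mt := ⟨A.p.neg, A.q.neg, A.r.neg, A.s.neg⟩

def scale (n : ℕ) (A : Mt) : Mt := ⟨A.p.scale n, A.q.scale n, A.r.scale n, A.s.scale n⟩

def row (u : R4) (B : Mt) : R4 :=
  (((R4.smul u.p B.p).add (R4.smul u.q B.q)).add (R4.smul u.r B.r)).add (R4.smul u.s B.s)

def mul (A B : Mt) : Mt := ⟨row A.p B, row A.q B, row A.r B, row A.s B⟩

def adj (A : Mt) : Mt :=
  ⟨⟨A.p.p.cj, A.q.p.cj, A.r.p.cj, A.s.p.cj⟩, ⟨A.p.q.cj, A.q.q.cj, A.r.q.cj, A.s.q.cj⟩,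
    ⟨A.p.r.cj, A.q.r.cj, A.r.r.cj, A.s.r.cj⟩, ⟨A.p.s.cj, A.q.s.cj, A.r.s.cj, A.s.s.cj⟩⟩

def one : Mt :=
  ⟨⟨Z4.nat 1, Z4.zero, Z4.zero, Z4.zero⟩, ⟨Z4.zero, Z4.nat 1, Z4.zero, Z4.zero⟩,
    ⟨Z4.zero, Z4.zero, Z4.nat 1, Z4.zero⟩, ⟨Z4.zero, Z4.zero, Z4.zero, Z4.nat 1⟩⟩

def small (A : Mt) (e : ℕ) : Bool := A.p.small e && A.q.small e && A.r.small e && A.s.small e

def sqp (A : Mt) : ℕ := Nat.add (Nat.add A.p.sqp A.q.sqp) (Nat.add A.r.sqp A.s.sqp)

def sqm (A : Mt) : ℕ := Nat.add (Nat.add A.p.sqm A.q.sqm) (Nat.add A.r.sqm A.s.sqm)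

/-- the matrix with complex entries -/
noncomputable def toM (A : Mt) : M4 := Matrix.of ![A.p.toV, A.q.toV, A.r.toV, A.s.toV]

lemma toM_add (A B : Mt) : (A.add B).toM = A.toM + B.toM := by
  ext i j
  fin_cases i <;> fin_cases j <;> simp [toM, add, R4.add, R4.toV]

lemma toM_neg (A : Mt) : A.neg.toM = -A.toM := by
  ext i j
  fin_cases i <;> fin_cases j <;> simp [toM, neg, R4.neg, R4.toV]

lemma toM_scale (n : ℕ) (A : Mt) : (A.scale n).toM = (n : ℂ) • A.toM := by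
  ext i j
  fin_cases i <;> fin_cases j <;> simp [toM, scale, R4.scale, R4.toV]

lemma toM_mul (A B : Mt) : (A.mul B).toM = A.toM * B.toM := by
  ext i j
  fin_cases i <;> fin_cases j <;>
    simp [toM, mul, row, R4.add, R4.smul, R4.toV, Matrix.mul_apply, Fin.sum_univ_four]

lemma toM_adj (A : Mt) : A.adj.toM = A.toM.conjTranspose := by
  ext i j
  fin_cases i <;> fin_cases j <;> simp [toM, adj, R4.toV, Matrix.conjTranspose_apply]

lemma toM_one : one.toM = 1 := by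
  ext i j
  fin_cases i <;> fin_cases j <;> simp [toM, one, R4.toV]

lemma entry_of_small {A : Mt} {e : ℕ} (h : A.small e = true) (i j : Fin 4) :
    ‖A.toM i j‖ ≤ 2 * e := by
  simp only [small, R4.small, Bool.and_eq_true] at h
  obtain ⟨⟨⟨⟨⟨⟨h1, h2⟩, h3⟩, h4⟩, ⟨⟨⟨h5, h6⟩, h7⟩, h8⟩⟩, ⟨⟨⟨h9, h10⟩, h11⟩, h12⟩⟩,
    ⟨⟨⟨h13, h14⟩, h15⟩, h16⟩⟩ := h
  fin_cases i <;> fin_cases j
  · exact Z4.norm_of_small h1
  · exact Z4.norm_of_small h2
  · exact Z4.norm_of_small h3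
  · exact Z4.norm_of_small h4
  · exact Z4.norm_of_small h5
  · exact Z4.norm_of_small h6
  · exact Z4.norm_of_small h7
  · exact Z4.norm_of_small h8
  · exact Z4.norm_of_small h9
  · exact Z4.norm_of_small h10
  · exact Z4.norm_of_small h11
  · exact Z4.norm_of_small h12
  · exact Z4.norm_of_small h13
  · exact Z4.norm_of_small h14
  · exact Z4.norm_of_small h15
  · exact Z4.norm_of_small h16

/-- squared Frobenius norm -/
lemma fro_toM (A : Mt) : ∑ i, ∑ j, Complex.normSq (A.toM i j) = (A.sqp : ℝ) - A.sqm := by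
  have e : ∀ i j, A.toM i j = (![A.p.toV, A.q.toV, A.r.toV, A.s.toV] i) j := fun _ _ => rfl
  simp only [Fin.sum_univ_four, e, R4.toV, Matrix.cons_val_zero, Matrix.cons_val_one,
    Matrix.cons_val_two, Matrix.cons_val_three, Matrix.head_cons, Matrix.tail_cons, Z4.normSq_toC,
    sqp, sqm, R4.sqp, R4.sqm, Nat.add_eq, Nat.cast_add]
  ring

end Mt

end Pool.Agent.Hhelper63.AnT
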