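import Pool.Agent.Hhelper63.AnT.Surf

/-!
Cocompactness of the Fuchsian representations of the triangle groups.

PROOF. Let `Φ` be `PhiC` or `PhiB`, `R i = reflC i` (or `reflB i`). Work with symmetric matrices:
`H = {M symmetric positive definite, det M = 1}`, `g` acts by `M ↦ gᵀ M g`.
The three linear functionals `α_i` on symmetric 2 by 2 matrices: `α_i (M) = tr (M N) - tr (M R_i N R_iᵀ)`
up to sign, where `N` is an interior point of the triangle (positive definite, not fixed by any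
reflection); `R_i N R_iᵀ - N` is a multiple of a fixed symmetric matrix `W_i`, so `α_i` is a multiple
of `M ↦ tr (M W_i)`. The chamber `{M | ∀ i, tr (M R_i N R_iᵀ) ≥ tr (M N)}` is the cone spanned by
the three vertices `U_0, U_1, U_2` (positive definite matrices: the dual basis of the three
functionals `M ↦ tr (M R_i N R_iᵀ) - tr (M N)` up to positive factors): `M = ∑ c_j U_j`, `c_j ≥ 0`,
and `1 = det M ≥ ∑ c_j² det U_j` (the mixed terms are positive), so `c_j ≤ 1 / sqrt (det U_j)` and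
`M` is bounded.
Given `x : X`, the numbers `tr ((x Φ(w))ᵀ (x Φ(w)) N)`, `w ∈ Tri`, attain their minimum (by `hfin`
only finitely many `w` have value below a given bound, as `N` is positive definite and `x` is
invertible). For a minimal `w`, `M = (x Φ(w))ᵀ (x Φ(w))` satisfies the three inequalities (compare
`w` and `w * s i`), so `x Φ(w)` is bounded. Write `w⁻¹ = f * ι γ`, so
`w = ι γ⁻¹ * f⁻¹` and `x φ(γ⁻¹) = (x Φ(w)) Φ(f)` lies in a compact subset `Z` of `X` which does not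
depend on `x`. So the compact set `Z` maps onto `X ⧸ φ.range`.
-/

set_option linter.all false

namespace Pool.Agent.Hhelper63.AnT

open Pool.Agent.Hhelper67.Anosov


/-! ### auxiliary material -/

/-- the entries of `Aᵀ A` -/
def cP (A : Matrix (Fin 2) (Fin 2) ℝ) : ℝ := A 0 0 ^ 2 + A 1 0 ^ 2

/-- the entries of `Aᵀ A` -/
def cQ (A : Matrix (Fin 2) (Fin 2) ℝ) : ℝ := A 0 0 * A 0 1 + A 1 0 * A 1 1

/-- the entries of `Aᵀ A` -/
def cR (A : Matrix (Fin 2) (Fin 2) ℝ) : ℝ := A 0 1 ^ 2 + A 1 1 ^ 2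

/-- the weighted norm -/
def cF (p0 q0 r0 : ℝ) (A : Matrix (Fin 2) (Fin 2) ℝ) : ℝ :=
  r0 * cP A + p0 * cR A - 2 * q0 * cQ A

/-- the linear functional attached to a reflection -/
def cL (R : Matrix (Fin 2) (Fin 2) ℝ) (p q r : ℝ) : ℝ :=
  -(R 0 1) * p + 2 * R 0 0 * q + R 1 0 * r

theorem cF_mul (p0 q0 r0 : ℝ) (A R : Matrix (Fin 2) (Fin 2) ℝ) (h1 : R 1 1 = -(R 0 0))
    (h2 : R 0 0 ^ 2 + R 0 1 * R 1 0 = 1) :
    cF p0 q0 r0 (A * R) = cF p0 q0 r0 A + cL R p0 q0 r0 * cL R (cP A) (cQ A) (cR A) := by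
  simp only [cF, cL, cP, cQ, cR, Matrix.mul_apply, Fin.sum_univ_two, h1]
  linear_combination (r0 * (A 0 0 ^ 2 + A 1 0 ^ 2) + p0 * (A 0 1 ^ 2 + A 1 1 ^ 2) -
    2 * q0 * (A 0 0 * A 0 1 + A 1 0 * A 1 1)) * h2

theorem c_det (A : Matrix (Fin 2) (Fin 2) ℝ) : cP A * cR A - cQ A ^ 2 = A.det ^ 2 := by
  rw [Matrix.det_fin_two]
  simp only [cP, cQ, cR]
  ring

theorem c_entry {A : Matrix (Fin 2) (Fin 2) ℝ} {C : ℝ} (hC : 0 ≤ C) (h : cP A + cR A ≤ C ^ 2)
    (i j : Fin 2) : |A i j| ≤ C := by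
  apply abs_le_of_sq_le_sq _ hC
  simp only [cP, cR] at h
  have h00 := sq_nonneg (A 0 0)
  have h01 := sq_nonneg (A 0 1)
  have h10 := sq_nonneg (A 1 0)
  have h11 := sq_nonneg (A 1 1)
  fin_cases i <;> fin_cases j
  · show A 0 0 ^ 2 ≤ C ^ 2
    linarith
  · show A 0 1 ^ 2 ≤ C ^ 2
    linarith
  · show A 1 0 ^ 2 ≤ C ^ 2
    linarith
  · show A 1 1 ^ 2 ≤ C ^ 2
    linarith

theorem c_mul {A B : Matrix (Fin 2) (Fin 2) ℝ} {a b : ℝ} (ha : ∀ i j, |A i j| ≤ a)
    (hb : ∀ i j, |B i j| ≤ b) (i j : Fin 2) : |(A * B) i j| ≤ 2 * a * b := by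
  have ha0 : 0 ≤ a := (abs_nonneg _).trans (ha 0 0)
  have hb0 : 0 ≤ b := (abs_nonneg _).trans (hb 0 0)
  rw [Matrix.mul_apply, Fin.sum_univ_two]
  have h1 := abs_add_le (A i 0 * B 0 j) (A i 1 * B 1 j)
  rw [abs_mul, abs_mul] at h1
  have h2 : |A i 0| * |B 0 j| ≤ a * b := mul_le_mul (ha _ _) (hb _ _) (abs_nonneg _) ha0
  have h3 : |A i 1| * |B 1 j| ≤ a * b := mul_le_mul (ha _ _) (hb _ _) (abs_nonneg _) ha0
  linarith

theorem c_compact (K : ℝ) : IsCompact {y : X | ∀ i j, |y.1 i j| ≤ K} := by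
  have h1 : IsCompact {m : Matrix (Fin 2) (Fin 2) ℝ | ∀ i j, |m i j| ≤ K} := by
    have h2 : IsCompact (Set.pi (Set.univ : Set (Fin 2)) fun _ =>
        (Set.pi (Set.univ : Set (Fin 2)) fun _ => Set.Icc (-K) K)) :=
      isCompact_univ_pi fun _ => isCompact_univ_pi fun _ => isCompact_Icc
    have h3 : {m : Matrix (Fin 2) (Fin 2) ℝ | ∀ i j, |m i j| ≤ K} =
        (Set.pi (Set.univ : Set (Fin 2)) fun _ =>
        (Set.pi (Set.univ : Set (Fin 2)) fun _ => Set.Icc (-K) K)) := by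
      ext m
      constructor
      · intro h i _ j _
        exact abs_le.mp (h i j)
      · intro h i j
        exact abs_le.mpr (h i trivial j trivial)
    rw [h3]
    exact h2
  exact Matrix.SpecialLinearGroup.isClosedEmbedding_val.isCompact_preimage h1

theorem c_bdd (A : Matrix (Fin 2) (Fin 2) ℝ) : ∃ a, ∀ i j, |A i j| ≤ a := by
  refine ⟨|A 0 0| + |A 0 1| + |A 1 0| + |A 1 1|, fun i j => ?_⟩
  have h00 := abs_nonneg (A 0 0)
  have h01 := abs_nonneg (A 0 1)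
  have h10 := abs_nonneg (A 1 0)
  have h11 := abs_nonneg (A 1 1)
  fin_cases i <;> fin_cases j
  · show |A 0 0| ≤ _
    linarith
  · show |A 0 1| ≤ _
    linarith
  · show |A 1 0| ≤ _
    linarith
  · show |A 1 1| ≤ _
    linarith

/-- the general cocompactness criterion -/
theorem coc_gen {G Γ : Type*} [Group G] [Group Γ] (Φ : G →* GL (Fin 2) ℝ)
    (hfin : ∀ K : ℝ, {g : G | ∀ i j, |(Φ g).1 i j| ≤ K}.Finite)
    (hdet : ∀ g, (Φ g).1.det ^ 2 = 1) (s : Fin 3 → G) (R : Fin 3 → Matrix (Fin 2) (Fin 2) ℝ)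
    (hR : ∀ i, (Φ (s i)).1 = R i) (p0 q0 r0 lam C : ℝ) (hlam : 0 < lam)
    (hpos : ∀ A, lam * (cP A + cR A) ≤ cF p0 q0 r0 A)
    (hcham : ∀ A : Matrix (Fin 2) (Fin 2) ℝ, A.det ^ 2 = 1 →
      (∀ i, cF p0 q0 r0 A ≤ cF p0 q0 r0 (A * R i)) → cP A + cR A ≤ C ^ 2) (hC : 0 ≤ C)
    (ι : Γ →* G) (φ : Γ →* X) (hφ : ∀ γ, (φ γ).1 = (Φ (ι γ)).1)
    (hF : ∃ F : Finset G, ∀ g, ∃ f ∈ F, ∃ γ, g = f * ι γ) :
    CompactSpace (X ⧸ φ.range) := by
  obtain ⟨F, hF⟩ := hF
  -- a common bound for the finitely many matrices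
  obtain ⟨b, hb⟩ : ∃ b, ∀ f ∈ F, ∀ i j, |(Φ f).1 i j| ≤ b := by
    choose a ha using fun f => c_bdd (Φ f).1
    obtain ⟨b, hb⟩ := (F.finite_toSet.image a).bddAbove
    exact ⟨b, fun f hf i j => (ha f i j).trans (hb ⟨f, hf, rfl⟩)⟩
  set Z : Set X := {y : X | ∀ i j, |y.1 i j| ≤ 2 * C * b} with hZ
  have hZc : IsCompact Z := c_compact _
  -- every coset meets `Z`
  have key : ∀ x : X, ∃ γ : Γ, x * φ γ ∈ Z := by
    intro x
    have hfin2 : ∀ c : ℝ, {w : G | cF p0 q0 r0 (x.1 * (Φ w).1) ≤ c}.Finite := by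
      intro c
      obtain ⟨a, ha⟩ := c_bdd (x⁻¹).1
      refine (hfin (2 * a * Real.sqrt (c / lam))).subset ?_
      intro w hw
      have hw' : cF p0 q0 r0 (x.1 * (Φ w).1) ≤ c := hw
      have h1 := (hpos (x.1 * (Φ w).1)).trans hw'
      have h2 : cP (x.1 * (Φ w).1) + cR (x.1 * (Φ w).1) ≤ c / lam := by
        rw [le_div_iff₀ hlam]
        linarith
      have h0 : 0 ≤ cP (x.1 * (Φ w).1) + cR (x.1 * (Φ w).1) := by
        simp only [cP, cR]
        positivity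
      have h3 := c_entry (Real.sqrt_nonneg (c / lam))
        (by rw [Real.sq_sqrt (h0.trans h2)]; exact h2)
      have h4 := c_mul ha h3
      intro i j
      have h5 : (x⁻¹).1 * (x.1 * (Φ w).1) = (Φ w).1 := by
        rw [← mul_assoc]
        have h6 : (x⁻¹).1 * x.1 = 1 := congrArg Subtype.val (inv_mul_cancel x)
        rw [h6, one_mul]
      have h6 := h4 i j
      rw [h5] at h6
      exact h6
    obtain ⟨w, -, hmin⟩ := Set.exists_min_image _ (fun w : G => cF p0 q0 r0 (x.1 * (Φ w).1))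
      (hfin2 (cF p0 q0 r0 (x.1 * (Φ 1).1)))
      ⟨1, le_refl (cF p0 q0 r0 (x.1 * (Φ 1).1))⟩
    have hmin2 : ∀ v : G, cF p0 q0 r0 (x.1 * (Φ w).1) ≤ cF p0 q0 r0 (x.1 * (Φ v).1) := by
      intro v
      by_cases hv : cF p0 q0 r0 (x.1 * (Φ v).1) ≤ cF p0 q0 r0 (x.1 * (Φ 1).1)
      · exact hmin v hv
      · have h1 := hmin 1 (le_refl (cF p0 q0 r0 (x.1 * (Φ 1).1)))
        push Not at hv
        exact h1.trans hv.le
    have h1 : cP (x.1 * (Φ w).1) + cR (x.1 * (Φ w).1) ≤ C ^ 2 := by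
      apply hcham
      · rw [Matrix.det_mul, x.2, one_mul, hdet]
      · intro i
        have h2 := hmin2 (w * s i)
        rw [map_mul, Units.val_mul, hR, ← mul_assoc] at h2
        exact h2
    have h2 := c_entry hC h1
    obtain ⟨f, hf, γ, hγ⟩ := hF w⁻¹
    refine ⟨γ⁻¹, ?_⟩
    have h3 := c_mul h2 (hb f hf)
    have h4 : (x * φ γ⁻¹).1 = x.1 * (Φ w).1 * (Φ f).1 := by
      have h5 : w * f = (ι γ)⁻¹ := by
        have h6 : w = (f * ι γ)⁻¹ := by rw [← hγ, inv_inv]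
        rw [h6]
        group
      rw [mul_assoc, ← Units.val_mul, ← map_mul, h5, ← map_inv, ← hφ]
      rfl
    intro i j
    rw [h4]
    exact h3 i j
  have hcont : Continuous (QuotientGroup.mk : X → X ⧸ φ.range) := continuous_quotient_mk'
  have himg : (QuotientGroup.mk : X → X ⧸ φ.range) '' Z = Set.univ := by
    rw [Set.eq_univ_iff_forall]
    intro q
    obtain ⟨x, rfl⟩ := QuotientGroup.mk_surjective q
    obtain ⟨γ, hγ⟩ := key x
    refine ⟨x * φ γ, hγ, ?_⟩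
    rw [eq_comm, QuotientGroup.eq]
    exact ⟨γ, by group⟩
  rw [← isCompact_univ_iff, ← himg]
  exact hZc.image hcont

theorem det_sq_tri {k l m : ℕ} (Φ : Tri k l m →* GL (Fin 2) ℝ)
    (hs : ∀ i, (Φ (Tri.s i)).1.det ^ 2 = 1) (hz : (Φ Tri.z).1.det ^ 2 = 1) (g : Tri k l m) :
    (Φ g).1.det ^ 2 = 1 := by
  have h1 : ((Matrix.GeneralLinearGroup.det.comp Φ) ^ 2 : Tri k l m →* ℝˣ) = 1 := by
    apply Tri.hom_ext
    · intro i
      apply Units.ext
      simpa using hs i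
    · apply Units.ext
      simpa using hz
  have h2 := congrArg (fun f : Tri k l m →* ℝˣ => ((f g : ℝˣ) : ℝ)) h1
  simpa using h2

theorem coc_c {Γ : Type*} [Group Γ]
    (hfin : ∀ K : ℝ, {g : Tri 2 4 6 | ∀ i j, |(PhiC g).1 i j| ≤ K}.Finite)
    (ι : Γ →* Tri 2 4 6) (φ : Γ →* X) (hφ : ∀ γ, (φ γ).1 = (PhiC (ι γ)).1)
    (hF : ∃ F : Finset (Tri 2 4 6), ∀ g, ∃ f ∈ F, ∃ γ, g = f * ι γ) :
    CompactSpace (X ⧸ φ.range) := by
  have e2 := sqrt2_sq
  have e3 := sqrt3_sq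
  have p2 : (0 : ℝ) ≤ √2 := Real.sqrt_nonneg _
  have p3 : (0 : ℝ) ≤ √3 := Real.sqrt_nonneg _
  have l2 : (1.41 : ℝ) ≤ √2 := Real.le_sqrt_of_sq_le (by norm_num)
  have l3 : (1.73 : ℝ) ≤ √3 := Real.le_sqrt_of_sq_le (by norm_num)
  have u2 : √2 ≤ 1.42 := by
    rw [Real.sqrt_le_left (by norm_num)]
    norm_num
  have u3 : √3 ≤ 1.74 := by
    rw [Real.sqrt_le_left (by norm_num)]
    norm_num
  have hR : ∀ i, (PhiC (Tri.s i)).1 = reflC i := by
    intro i
    rw [PhiC, Tri.lift_s]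
  have hdet : ∀ g, (PhiC g).1.det ^ 2 = 1 := by
    apply det_sq_tri
    · intro i
      rw [hR, reflC_det]
      norm_num
    · rw [PhiC, Tri.lift_z]
      simp [Matrix.det_fin_two]
  refine coc_gen PhiC hfin hdet Tri.s reflC hR 4 1 8 3 4 (by norm_num) ?_ ?_ (by norm_num)
    ι φ hφ hF
  · intro A
    simp only [cF, cP, cQ, cR]
    nlinarith [sq_nonneg (A 0 0 - A 0 1), sq_nonneg (A 1 0 - A 1 1), sq_nonneg (A 0 0),
      sq_nonneg (A 0 1), sq_nonneg (A 1 0), sq_nonneg (A 1 1)]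
  · intro A hA hi
    have d0 := c_det A
    rw [hA] at d0
    have hP : 0 ≤ cP A := by simp only [cP]; positivity
    have hRr : 0 ≤ cR A := by simp only [cR]; positivity
    have i0 := hi 0
    have i1 := hi 1
    have i2 := hi 2
    rw [cF_mul _ _ _ _ _ (by simp [reflC]) (by simp [reflC])] at i0 i1
    rw [cF_mul _ _ _ _ _ (by simp [reflC]) (by simp [reflC]; nlinarith)] at i2
    simp only [cL, reflC] at i0 i1 i2
    simp at i0 i1 i2
    set p := cP A with hp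
    set q := cQ A with hq
    set r := cR A with hr
    have j0 : 0 ≤ q := by linarith
    have j1 : p ≤ r := by linarith
    have j2 : (√2 - 1) * r + 2 * √3 * q ≤ (√2 + 1) * p := by
      by_contra hcon
      push Not at hcon
      nlinarith
    have k1 : √3 * q ≤ p := by nlinarith
    have k2 : 3 * q ^ 2 ≤ p ^ 2 := by
      have : (√3 * q) ^ 2 ≤ p ^ 2 := by
        apply pow_le_pow_left₀ _ k1
        positivity
      rw [mul_pow, e3] at this
      exact this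
    have k3 : p ^ 2 ≤ p * r := by nlinarith
    have k4 : p * r ≤ 3 / 2 := by nlinarith
    have k5 : r ≤ 6 * p := by nlinarith
    have k6 : p ^ 2 ≤ 3 / 2 := k3.trans k4
    have k7 : p ≤ 5 / 4 := by nlinarith
    nlinarith

theorem coc_b {Γ : Type*} [Group Γ]
    (hfin : ∀ K : ℝ, {g : Tri 4 3 3 | ∀ i j, |(PhiB g).1 i j| ≤ K}.Finite)
    (ι : Γ →* Tri 4 3 3) (φ : Γ →* X) (hφ : ∀ γ, (φ γ).1 = (PhiB (ι γ)).1)
    (hF : ∃ F : Finset (Tri 4 3 3), ∀ g, ∃ f ∈ F, ∃ γ, g = f * ι γ) :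
    CompactSpace (X ⧸ φ.range) := by
  have e2 := sqrt2_sq
  have e3 := cB_sq
  have p2 : (0 : ℝ) ≤ √2 := Real.sqrt_nonneg _
  have p3 : (0 : ℝ) ≤ cB := Real.sqrt_nonneg _
  have l2 : (1.41 : ℝ) ≤ √2 := Real.le_sqrt_of_sq_le (by norm_num)
  have u2 : √2 ≤ 1.42 := by
    rw [Real.sqrt_le_left (by norm_num)]
    norm_num
  have l3 : (0.8 : ℝ) ≤ cB := by nlinarith
  have u3 : cB ≤ 0.85 := by nlinarith
  have hR : ∀ i, (PhiB (Tri.s i)).1 = reflB i := by
    intro i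
    rw [PhiB, Tri.lift_s]
  have hdet : ∀ g, (PhiB g).1.det ^ 2 = 1 := by
    apply det_sq_tri
    · intro i
      rw [hR, reflB_det]
      norm_num
    · rw [PhiB, Tri.lift_z]
      simp [Matrix.det_fin_two]
  refine coc_gen PhiB hfin hdet Tri.s reflB hR 12 1 4 3 3 (by norm_num) ?_ ?_ (by norm_num)
    ι φ hφ hF
  · intro A
    simp only [cF, cP, cQ, cR]
    nlinarith [sq_nonneg (A 0 0 - A 0 1), sq_nonneg (A 1 0 - A 1 1), sq_nonneg (A 0 0),
      sq_nonneg (A 0 1), sq_nonneg (A 1 0), sq_nonneg (A 1 1)]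
  · intro A hA hi
    have d0 := c_det A
    rw [hA] at d0
    have hP : 0 ≤ cP A := by simp only [cP]; positivity
    have hRr : 0 ≤ cR A := by simp only [cR]; positivity
    have i0 := hi 0
    have i1 := hi 1
    have i2 := hi 2
    rw [cF_mul _ _ _ _ _ (by simp [reflB]) (by simp [reflB])] at i0
    rw [cF_mul _ _ _ _ _ (by simp [reflB]) (by simp [reflB]; nlinarith)] at i1 i2
    simp only [cL, reflB] at i0 i1 i2
    simp at i0 i1 i2
    set p := cP A with hp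
    set q := cQ A with hq
    set r := cR A with hr
    have j0 : 0 ≤ q := by linarith
    have j1 : 2 * q + r ≤ p := by
      by_contra hcon
      push Not at hcon
      nlinarith
    have j2 : ((1 + √2) / 2 - cB) * p + q ≤ ((1 + √2) / 2 + cB) * r := by
      by_contra hcon
      push Not at hcon
      nlinarith
    have k0 : r ≤ p := by linarith
    have k1 : q ≤ 2 * r := by
      have h1 : ((1 + √2) / 2 - cB) * r ≤ ((1 + √2) / 2 - cB) * p := by
        apply mul_le_mul_of_nonneg_left k0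
        linarith
      nlinarith
    have k2 : q ^ 2 ≤ r * (p - r) := by nlinarith
    have k3 : r ^ 2 ≤ 1 := by nlinarith
    have k4 : r ≤ 1 := by nlinarith
    have k5 : 35 * p ≤ 207 * r := by
      have h1 : (35 / 100 : ℝ) * p ≤ ((1 + √2) / 2 - cB) * p := by
        apply mul_le_mul_of_nonneg_right _ hP
        linarith
      have h2 : ((1 + √2) / 2 + cB) * r ≤ (207 / 100 : ℝ) * r := by
        apply mul_le_mul_of_nonneg_right _ hRr
        linarith
      linarith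
    linarith

end Pool.Agent.Hhelper63.AnT
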