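import Pool.Agent.Hhelper63.AnT.Defs
import Pool.Agent.Hhelper63.Anosov.Singular

/-!
Conjugation by a fixed matrix does not change the component of the space of Anosov representations
in `SL(4, ℂ)`.

PROOF. (1) If `ρ'` is conjugate to `ρ` by `A ∈ GL(4, ℂ)` then `sv (ρ' γ) k ≥ sv (ρ γ) k / K` and
`sv (ρ' γ) (k + 1) ≤ K sv (ρ γ) (k + 1)` with `K` the product of the operator norms of `A` and `A⁻¹`
(min-max: `le_singularValue`, `singularValue_le` in `Hhelper63.Anosov.Singular`), for `1 ≤ k ≤ 3`;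
so `IsAnosov` is invariant.
(2) `p(x) = det (1 + x (A - 1))` is a polynomial in `x : ℂ` with `p(0) = 1` and `p(1) = det A ≠ 0`.
Its zero set is finite, so its complement in `ℂ` is path connected
(`Set.Countable.isPathConnected_compl_of_one_lt_rank`): there is a path `x(t)` from `0` to `1` with
`A_t = 1 + x(t) (A - 1)` invertible. The path `γ ↦ A_t ρ(γ) A_t⁻¹` is continuous in `t` (for the
product topology on `Γ → SL4`, whose factors carry the subspace topology of matrices) and stays in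
`anosovSet` by (1), so the two ends are in one connected component.
-/

namespace Pool.Agent.Hhelper63.AnT

open Pool.Agent.Hhelper67.Anosov

open Module
open scoped InnerProductSpace

/-- composing with bounded maps on both sides -/
theorem singularValue_comp_le {E : Type*} [NormedAddCommGroup E] [InnerProductSpace ℂ E]
    [FiniteDimensional ℂ E] (T P : E →ₗ[ℂ] E) (Q : E ≃ₗ[ℂ] E) {a b : ℝ} (ha : 0 ≤ a)
    (hP : ∀ x, ‖P x‖ ≤ a * ‖x‖) (hQ : ∀ x, ‖Q x‖ ≤ b * ‖x‖) {k : ℕ} (hk : k < finrank ℂ E) :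
    (P ∘ₗ T ∘ₗ (Q : E →ₗ[ℂ] E)).singularValues k ≤ a * b * T.singularValues k := by
  classical
  set b' := Pool.Agent.Hhelper63.Anosov.svb T (rfl : finrank ℂ E = finrank ℂ E) with hb'
  let V : Submodule ℂ E :=
    Submodule.span ℂ (Set.range fun i : {i : Fin (finrank ℂ E) // (i : ℕ) < k} => b' i.1)
  have hV : finrank ℂ V ≤ k := by
    have h1 : finrank ℂ V ≤ Fintype.card {i : Fin (finrank ℂ E) // (i : ℕ) < k} :=
      finrank_range_le_card _
    refine h1.trans ?_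
    have hinj : Function.Injective
        (fun i : {i : Fin (finrank ℂ E) // (i : ℕ) < k} => (⟨i.1.1, i.2⟩ : Fin k)) := by
      intro i j hij
      have h1 := congrArg Fin.val hij
      have : i.1.1 = j.1.1 := h1
      exact Subtype.ext (Fin.ext this)
    simpa using Fintype.card_le_of_injective _ hinj
  have hVo := Submodule.finrank_add_finrank_orthogonal V
  let W : Submodule ℂ E := Vᗮ.map (Q.symm : E →ₗ[ℂ] E)
  have hW : finrank ℂ W = finrank ℂ Vᗮ :=
    (Q.symm.submoduleMap Vᗮ).finrank_eq.symm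
  refine Pool.Agent.Hhelper63.Anosov.singularValue_le _ W hk (by omega) ?_
  rintro _ ⟨y, hy, rfl⟩
  have h1 : ‖T y‖ ≤ T.singularValues k * ‖y‖ := by
    apply Pool.Agent.Hhelper63.Anosov.norm_map_le_of_orthogonal T rfl
    intro i hi
    have h2 : b' i ∈ V := Submodule.subset_span ⟨⟨i, hi⟩, rfl⟩
    exact (Submodule.mem_orthogonal V y).mp hy _ h2
  have h2 := T.singularValues_nonneg k
  have h3 := hQ (Q.symm y)
  rw [LinearEquiv.apply_symm_apply] at h3
  have h4 : (P ∘ₗ T ∘ₗ (Q : E →ₗ[ℂ] E)) ((Q.symm : E →ₗ[ℂ] E) y) = P (T y) := by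
    simp
  rw [h4]
  calc ‖P (T y)‖ ≤ a * ‖T y‖ := hP _
    _ ≤ a * (T.singularValues k * ‖y‖) := by gcongr
    _ ≤ a * (T.singularValues k * (b * ‖Q.symm y‖)) := by gcongr
    _ = a * b * T.singularValues k * ‖(Q.symm : E →ₗ[ℂ] E) y‖ := by
      rw [LinearEquiv.coe_coe]; ring

/-- a bound for the norm of a matrix -/
noncomputable def nb (A : M4) : ℝ :=
  ‖LinearMap.toContinuousLinearMap (Matrix.toEuclideanLin A)‖ + 1

theorem nb_pos (A : M4) : 0 < nb A := by
  unfold nb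
  positivity

theorem nb_bound (A : M4) (x : EuclideanSpace ℂ (Fin 4)) :
    ‖Matrix.toEuclideanLin A x‖ ≤ nb A * ‖x‖ := by
  have h1 := (LinearMap.toContinuousLinearMap (Matrix.toEuclideanLin A)).le_opNorm x
  have h2 : (LinearMap.toContinuousLinearMap (Matrix.toEuclideanLin A)) x =
      Matrix.toEuclideanLin A x := rfl
  rw [h2] at h1
  unfold nb
  have := norm_nonneg x
  linarith

theorem toEuclideanLin_mul (A B : M4) : Matrix.toEuclideanLin (A * B) =
    Matrix.toEuclideanLin A ∘ₗ Matrix.toEuclideanLin B := by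
  apply LinearMap.ext
  intro x
  simp [Matrix.toEuclideanLin]

theorem toEuclideanLin_one : Matrix.toEuclideanLin (1 : M4) = LinearMap.id := by
  apply LinearMap.ext
  intro x
  simp [Matrix.toEuclideanLin]

/-- the linear equivalence of an invertible matrix -/
noncomputable def glE (A : GL (Fin 4) ℂ) : EuclideanSpace ℂ (Fin 4) ≃ₗ[ℂ] EuclideanSpace ℂ (Fin 4) :=
  LinearEquiv.ofLinearMap (Matrix.toEuclideanLin A.1) (Matrix.toEuclideanLin (A⁻¹).1)
    (by rw [← toEuclideanLin_mul, ← Units.val_mul, mul_inv_cancel, Units.val_one,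
      toEuclideanLin_one])
    (by rw [← toEuclideanLin_mul, ← Units.val_mul, inv_mul_cancel, Units.val_one,
      toEuclideanLin_one])

theorem sv_conj_le {M M' : SL4} (A : GL (Fin 4) ℂ) (h : M'.1 = A.1 * M.1 * (A⁻¹).1) {k : ℕ}
    (hk : k ≤ 4) : sv M' k ≤ nb A.1 * nb (A⁻¹).1 * sv M k := by
  have h1 := singularValue_comp_le (Matrix.toEuclideanLin M.1) (Matrix.toEuclideanLin A.1)
    (glE A⁻¹) (nb_pos _).le (nb_bound A.1) (b := nb (A⁻¹).1) (fun x => nb_bound (A⁻¹).1 x)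
    (k := k - 1) (by rw [finrank_euclideanSpace, Fintype.card_fin]; omega)
  have h2 : (Matrix.toEuclideanLin A.1 ∘ₗ Matrix.toEuclideanLin M.1 ∘ₗ
      ((glE A⁻¹ : EuclideanSpace ℂ (Fin 4) ≃ₗ[ℂ] EuclideanSpace ℂ (Fin 4)) :
        EuclideanSpace ℂ (Fin 4) →ₗ[ℂ] EuclideanSpace ℂ (Fin 4))) =
      Matrix.toEuclideanLin M'.1 := by
    rw [h, toEuclideanLin_mul, toEuclideanLin_mul, LinearMap.comp_assoc]
    rfl
  rw [h2] at h1
  exact h1

/-- the Anosov property is invariant under conjugation -/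
theorem anosov_conj {Γ : Type*} [Group Γ] {S : Finset Γ} {θ : Set ℕ} (hθ : θ ⊆ {1, 2, 3})
    {ρ ρ' : Γ →* SL4} (A : GL (Fin 4) ℂ)
    (h : ∀ γ, (ρ' γ).1 = A.1 * (ρ γ).1 * (A⁻¹).1) (hρ : IsAnosov S θ ρ) : IsAnosov S θ ρ' := by
  obtain ⟨C, c, hC, hc, hgap⟩ := hρ
  set K : ℝ := nb A.1 * nb (A⁻¹).1 with hK
  have hK0 : 0 < K := mul_pos (nb_pos _) (nb_pos _)
  refine ⟨C / K ^ 2, c, by positivity, hc, ?_⟩
  intro γ k hk
  have hk3 : k ≤ 3 := by
    have h1 := hθ hk
    simp only [Set.mem_insert_iff, Set.mem_singleton_iff] at h1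
    omega
  have h1 := hgap γ k hk
  have hinv : (ρ γ).1 = (A⁻¹).1 * (ρ' γ).1 * ((A⁻¹)⁻¹).1 := by
    have e1 : (A⁻¹).1 * A.1 = 1 := by rw [← Units.val_mul, inv_mul_cancel, Units.val_one]
    rw [h, inv_inv]
    rw [show (A⁻¹).1 * (A.1 * (ρ γ).1 * (A⁻¹).1) * A.1 =
      ((A⁻¹).1 * A.1) * (ρ γ).1 * ((A⁻¹).1 * A.1) by simp only [Matrix.mul_assoc], e1,
      Matrix.one_mul, Matrix.mul_one]
  have hK' : nb (A⁻¹).1 * nb ((A⁻¹)⁻¹).1 = K := by rw [inv_inv, mul_comm]
  have a1 := sv_conj_le A⁻¹ hinv (k := k) (by omega)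
  have a2 := sv_conj_le A⁻¹ hinv (k := k + 1) (by omega)
  have a3 := sv_conj_le A (h γ) (k := k + 1) (by omega)
  rw [hK'] at a1 a2
  rw [← hK] at a3
  have hn1 : 0 ≤ sv (ρ γ) (k + 1) := LinearMap.singularValues_nonneg _ _
  have hpos : 0 < C * Real.exp (c * wordLen S γ) := mul_pos hC (Real.exp_pos _)
  have hs : 0 < sv (ρ γ) (k + 1) := by
    rcases hn1.lt_or_eq with h2 | h2
    · exact h2
    · rw [← h2, div_zero] at h1
      linarith
  have hs' : 0 < sv (ρ' γ) (k + 1) := by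
    by_contra hcon
    have h2 : K * sv (ρ' γ) (k + 1) ≤ 0 := mul_nonpos_of_nonneg_of_nonpos hK0.le (not_lt.mp hcon)
    linarith
  rw [le_div_iff₀ hs] at h1
  rw [le_div_iff₀ hs', div_mul_eq_mul_div, div_mul_eq_mul_div, div_le_iff₀ (by positivity)]
  calc C * Real.exp (c * wordLen S γ) * sv (ρ' γ) (k + 1)
      ≤ C * Real.exp (c * wordLen S γ) * (K * sv (ρ γ) (k + 1)) := by gcongr
    _ = K * (C * Real.exp (c * wordLen S γ) * sv (ρ γ) (k + 1)) := by ring
    _ ≤ K * sv (ρ γ) k := by gcongr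
    _ ≤ K * (K * sv (ρ' γ) k) := by gcongr
    _ = sv (ρ' γ) k * K ^ 2 := by ring

/-- the conjugate representation -/
noncomputable def conjHom {Γ : Type*} [Group Γ] (A : GL (Fin 4) ℂ) (ρ : Γ →* SL4) : Γ →* SL4 where
  toFun γ := ⟨A.1 * (ρ γ).1 * (A⁻¹).1, by
    rw [Matrix.det_mul, Matrix.det_mul, (ρ γ).2, mul_one, ← Matrix.det_mul, ← Units.val_mul,
      mul_inv_cancel, Units.val_one, Matrix.det_one]⟩
  map_one' := by
    apply Subtype.ext
    change A.1 * (ρ 1).1 * (A⁻¹).1 = (1 : SL4).1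
    rw [map_one]
    change A.1 * 1 * (A⁻¹).1 = 1
    rw [Matrix.mul_one, ← Units.val_mul, mul_inv_cancel, Units.val_one]
  map_mul' γ δ := by
    apply Subtype.ext
    change A.1 * (ρ (γ * δ)).1 * (A⁻¹).1 =
      (A.1 * (ρ γ).1 * (A⁻¹).1) * (A.1 * (ρ δ).1 * (A⁻¹).1)
    have e1 : (A⁻¹).1 * A.1 = 1 := by rw [← Units.val_mul, inv_mul_cancel, Units.val_one]
    rw [map_mul]
    change A.1 * ((ρ γ).1 * (ρ δ).1) * (A⁻¹).1 = _
    calc A.1 * ((ρ γ).1 * (ρ δ).1) * (A⁻¹).1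
        = A.1 * (ρ γ).1 * 1 * ((ρ δ).1 * (A⁻¹).1) := by
          rw [Matrix.mul_one]; simp only [Matrix.mul_assoc]
      _ = A.1 * (ρ γ).1 * ((A⁻¹).1 * A.1) * ((ρ δ).1 * (A⁻¹).1) := by rw [e1]
      _ = _ := by simp only [Matrix.mul_assoc]

/-- the matrices `1 + x (A - 1)` -/
noncomputable def lineM (A : M4) (x : ℂ) : M4 := 1 + x • (A - 1)

theorem lineM_finite (A : M4) : {x : ℂ | (lineM A x).det = 0}.Finite := by
  let P : Polynomial ℂ := ((1 : Matrix (Fin 4) (Fin 4) (Polynomial ℂ)) +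
    (Polynomial.X : Polynomial ℂ) • (A - 1).map Polynomial.C).det
  have hP : ∀ x, P.eval x = (lineM A x).det := by
    intro x
    rw [← Polynomial.coe_evalRingHom, RingHom.map_det]
    congr 1
    ext i j
    by_cases hij : i = j
    · subst hij
      simp [lineM]
    · simp [lineM, hij]
      ring
  have hP0 : P ≠ 0 := by
    intro h0
    have h1 := hP 0
    rw [h0] at h1
    simp [lineM] at h1
  refine (Polynomial.finite_setOfPred_isRoot hP0).subset ?_
  intro x hx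
  change P.eval x = 0
  rw [hP]
  exact hx

theorem continuous_lineM (A : M4) : Continuous (lineM A) := by
  unfold lineM
  fun_prop

/-- conjugate representations lie in one component -/
theorem conj_component {Γ : Type*} [Group Γ] {S : Finset Γ} {θ : Set ℕ} (hθ : θ ⊆ {1, 2, 3})
    {ρ ρ' : Γ →* SL4} (A : GL (Fin 4) ℂ)
    (h : ∀ γ, (ρ' γ).1 = A.1 * (ρ γ).1 * (A⁻¹).1) (hρ : IsAnosov S θ ρ) :
    ⇑ρ' ∈ connectedComponentIn (anosovSet 4 S θ) ⇑ρ := by
  set Z : Set ℂ := {x : ℂ | (lineM A.1 x).det = 0} with hZ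
  have hU : IsPathConnected Zᶜ :=
    (lineM_finite A.1).countable.isPathConnected_compl_of_one_lt_rank (by
      rw [Complex.rank_real_complex]; norm_num)
  let g : (Zᶜ : Set ℂ) → GL (Fin 4) ℂ := fun x =>
    Matrix.GeneralLinearGroup.mkOfDetNeZero (lineM A.1 x.1) x.2
  have hg1 : ∀ x, (g x).1 = lineM A.1 x.1 := fun x => rfl
  have hg2 : ∀ x, ((g x)⁻¹).1 = ((lineM A.1 x.1).det)⁻¹ • (lineM A.1 x.1).adjugate := by
    intro x
    rw [Matrix.coe_units_inv, hg1, Matrix.inv_def, Ring.inverse_eq_inv']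
  let Φ : (Zᶜ : Set ℂ) → (Γ → SL4) := fun x => ⇑(conjHom (g x) ρ)
  have hΦ : Continuous Φ := by
    rw [continuous_pi_iff]
    intro γ
    refine continuous_induced_rng.mpr ?_
    have h1 : Continuous fun x : (Zᶜ : Set ℂ) => (g x).1 * (ρ γ).1 * ((g x)⁻¹).1 := by
      simp only [hg1, hg2]
      have hc : Continuous fun x : (Zᶜ : Set ℂ) => lineM A.1 x.1 :=
        (continuous_lineM A.1).comp continuous_subtype_val
      refine (hc.matrix_mul continuous_const).matrix_mul ?_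
      have hd : Continuous fun x : (Zᶜ : Set ℂ) => ((lineM A.1 x.1).det)⁻¹ :=
        (hc.matrix_det).inv₀ fun x => x.2
      exact hd.smul hc.matrix_adjugate
    exact h1
  have hpre : IsPreconnected (Set.range Φ) := by
    have h1 : PreconnectedSpace (Zᶜ : Set ℂ) :=
      isPreconnected_iff_preconnectedSpace.mp hU.isConnected.isPreconnected
    exact isPreconnected_range hΦ
  have h0 : (0 : ℂ) ∈ Zᶜ := by
    intro h0
    have h1 : (lineM A.1 0).det = 0 := h0
    simp [lineM] at h1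
  have hA0 : (1 : ℂ) ∈ Zᶜ := by
    intro h0
    have h1 : (lineM A.1 1).det = 0 := h0
    have h2 : lineM A.1 1 = A.1 := by simp [lineM]
    rw [h2] at h1
    have h3 : IsUnit (A.1).det := (Matrix.isUnit_iff_isUnit_det A.1).mp A.isUnit
    exact h3.ne_zero h1
  have e0 : Φ ⟨0, h0⟩ = ⇑ρ := by
    funext γ
    apply Subtype.ext
    change (g ⟨0, h0⟩).1 * (ρ γ).1 * ((g ⟨0, h0⟩)⁻¹).1 = (ρ γ).1
    rw [hg1, hg2]
    simp [lineM]
  have e1 : Φ ⟨1, hA0⟩ = ⇑ρ' := by
    funext γ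
    apply Subtype.ext
    change (g ⟨1, hA0⟩).1 * (ρ γ).1 * ((g ⟨1, hA0⟩)⁻¹).1 = (ρ' γ).1
    have h2 : g ⟨1, hA0⟩ = A := by
      apply Units.ext
      rw [hg1]
      simp [lineM]
    rw [h2, h]
  have hsub : Set.range Φ ⊆ anosovSet 4 S θ := by
    rintro _ ⟨x, rfl⟩
    exact ⟨conjHom (g x) ρ, anosov_conj hθ (g x) (fun γ => rfl) hρ, rfl⟩
  have h1 := hpre.subset_connectedComponentIn (x := ⇑ρ) ⟨⟨0, h0⟩, e0⟩ hsub
  exact h1 ⟨⟨1, hA0⟩, e1⟩

end Pool.Agent.Hhelper63.AnT
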