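import Pool.Agent.Hhelper63.AnT.CellC

/-!
Covering the parameter interval by pieces, case (c).
-/

namespace Pool.Agent.Hhelper63.AnT

/-- the certificate holds on `[0, b / 8192]` -/
def CovC (b : ℕ) : Prop :=
  ∀ s : ℝ, 0 ≤ s → s ≤ (b : ℝ) / 8192 → GoodC s ∧ CertAt 4 edgesC 1 (pathC s)

theorem covC_first {len k n b : ℕ} (h : pieceOK 0 len k n = true) (hk : k ≠ 0)
    (hb : 0 + len * k = b) : CovC b := by
  intro s h1 h2
  refine piece_ok h hk (by simpa using h1) ?_
  rw [hb]
  exact h2

theorem covC_step {a len k n b : ℕ} (hP : CovC a) (h : pieceOK a len k n = true) (hk : k ≠ 0)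
    (hb : a + len * k = b) : CovC b := by
  intro s h1 h2
  rcases le_total s ((a : ℝ) / 8192) with h3 | h3
  · exact hP s h1 h3
  · refine piece_ok h hk h3 ?_
    rw [hb]
    exact h2

end Pool.Agent.Hhelper63.AnT
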