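import Pool.Agent.Hhelper63.AnT.Surf

/-!
The surface group of genus `g ≥ 2` as a subgroup of index `g - 1` of the surface group of genus 2.

PROOF. Write `a, b, c, d` for the generators of `Surf 2`, `[a, b] [c, d] = 1`, where
`[x, y] = x y x⁻¹ y⁻¹`, and `n = g - 1`. Then `b a b⁻¹ = [c, d] a`, so with `c_k = b^k c b^(-k)`,
`d_k = b^k d b^(-k)`: `b^n a b^(-n) = [c_{n-1}, d_{n-1}] ⋯ [c_0, d_0] a`, that is, with `A = a`,
`B = b^n`: `[A, B] [c_{n-1}, d_{n-1}] ⋯ [c_0, d_0] = 1`. This defines
`κ : Surf g → Surf 2`, `A, B` the images of the first pair of generators and `c_{n-1}, d_{n-1}`,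
..., `c_0, d_0` the images of the others.
Finite index: every `x : Surf 2` is `b^k κ(γ)` with `0 ≤ k < n` (check stability under left
multiplication by `a, b, c, d` and their inverses:
`a b^k = b^k (b^(-k) a b^k)` and `b^(-k) a b^k` is a product of `a` and conjugates by negative powers
of `b` of `[c, d]`, `b^(-j) c b^j = B⁻¹ c_{n-j} B` for `0 < j ≤ n`).
Injectivity: `Surf 2` acts on `ZMod n × Surf g` (or `Fin n × Surf g`) by
`b (j, x) = (j + 1, x)` for `j ≠ n - 1`, `b (n - 1, x) = (0, B x)`,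
`c (j, x) = (j, c'_j x)`, `d (j, x) = (j, d'_j x)`, `a (j, x) = (j, a'_j x)` where
`c'_j = b^(-j) c b^j`, ... expressed in the generators of `Surf g` (for `j = 0`: `c_0, d_0, A`; for
`0 < j < n`: `c'_j = B⁻¹ c_{n-j} B`, `d'_j = B⁻¹ d_{n-j} B`, and `a'_j` determined by
`a'_j = [c'_{j+1}, d'_{j+1}] a'_{j+1}` (from `b a b⁻¹ = [c, d] a`), the relation of `Surf 2` holds).
Then `κ(γ) (0, x) = (0, γ x)` for the generators `γ` of `Surf g`, hence for all `γ`, and `κ` is
injective. (For `n = 1` one can take the identity, up to the identification of `g` with `2`.)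
-/

namespace Pool.Agent.Hhelper63.AnT

/-! ### Partial products and the relation -/

section pp

variable {K : Type*} [Group K]

/-- partial products -/
def pp (f : ℕ → K) (n : ℕ) : K := (List.ofFn fun i : Fin n => f i).prod

lemma pp_zero (f : ℕ → K) : pp f 0 = 1 := by simp [pp]

lemma pp_succ (f : ℕ → K) (n : ℕ) : pp f (n + 1) = pp f n * f n := by
  simp only [pp]
  rw [List.ofFn_succ', List.concat_eq_append, List.prod_append]
  simp

/-- the relation satisfied by the generators of the cover -/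
lemma cov_rel {p q c d : K} (h : cm p q * cm c d = 1) (n : ℕ) :
    cm (p ^ n) q * pp (fun i => cm (p ^ i * c * (p ^ i)⁻¹) (p ^ i * d * (p ^ i)⁻¹)) n = 1 := by
  have h1 : q * p * q⁻¹ = cm c d * p := by
    have : cm c d = (cm p q)⁻¹ := by
      rw [eq_inv_iff_mul_eq_one, ← mul_eq_one_iff_eq_inv.2 (eq_inv_of_mul_eq_one_left h)]
      have := mul_eq_one_iff_eq_inv.1 h
      rw [this]
      group
    rw [this]
    simp only [cm]
    group
  have h2 : ∀ n : ℕ, q * p ^ n * q⁻¹ =
      pp (fun i => cm (p ^ i * c * (p ^ i)⁻¹) (p ^ i * d * (p ^ i)⁻¹)) n * p ^ n := by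
    intro n
    induction n with
    | zero => simp [pp_zero]
    | succ n ih =>
      rw [pp_succ]
      have e : q * p ^ (n + 1) * q⁻¹ = (q * p ^ n * q⁻¹) * (q * p * q⁻¹) := by
        rw [pow_succ]
        group
      rw [e, ih, h1]
      simp only [cm]
      rw [pow_succ]
      group
  have h3 := h2 n
  have h4 : pp (fun i => cm (p ^ i * c * (p ^ i)⁻¹) (p ^ i * d * (p ^ i)⁻¹)) n =
      q * p ^ n * q⁻¹ * (p ^ n)⁻¹ := by
    rw [h3]
    group
  rw [h4]
  simp only [cm]
  group

end pp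

/-- the generators of the surface group of genus `n + 1` with number at least one -/
def gg (n : ℕ) (i : ℕ) (b : Bool) : Surf (n + 1) :=
  if h : i < n then Surf.gen (Fin.succ ⟨i, h⟩) b else 1

lemma gg_of_lt {n : ℕ} (i : Fin n) (b : Bool) : gg n i b = Surf.gen i.succ b := by
  simp [gg]

lemma gg_of_le {n i : ℕ} (h : n ≤ i) (b : Bool) : gg n i b = 1 := by
  simp [gg, not_lt.2 h]

/-- commutators of the generators -/
def gc (n : ℕ) (i : ℕ) : Surf (n + 1) := cm (gg n i false) (gg n i true)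

lemma rel_pp (n : ℕ) :
    cm (Surf.gen (0 : Fin (n + 1)) false) (Surf.gen 0 true) * pp (gc n) n = 1 := by
  have h := Surf.rel (n + 1)
  rw [List.ofFn_succ, List.prod_cons] at h
  have e : pp (gc n) n = (List.ofFn fun i : Fin n =>
      cm (Surf.gen i.succ false) (Surf.gen i.succ true)).prod := by
    simp only [pp]
    congr 2
    funext i
    simp only [gc, gg_of_lt]
  rw [e]
  exact h

/-- relation in genus two -/
lemma rel_two : cm (Surf.gen (0 : Fin 2) false) (Surf.gen 0 true) *
    cm (Surf.gen (1 : Fin 2) false) (Surf.gen 1 true) = 1 := by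
  have h := Surf.rel 2
  simpa [List.ofFn_succ] using h

/-- images of the generators -/
def kf {K : Type*} [Group K] (n : ℕ) (p q c d : K) (i : Fin (n + 1)) (b : Bool) : K :=
  Fin.cases (motive := fun _ => K) (bif b then q else p ^ n)
    (fun j => p ^ (j : ℕ) * (bif b then d else c) * (p ^ (j : ℕ))⁻¹) i

lemma kf_rel {K : Type*} [Group K] (n : ℕ) {p q c d : K} (h : cm p q * cm c d = 1) :
    (List.ofFn fun i : Fin (n + 1) => cm (kf n p q c d i false) (kf n p q c d i true)).prod = 1 := by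
  rw [List.ofFn_succ, List.prod_cons]
  have := cov_rel h n
  simpa [kf, pp] using this

/-- the homomorphism from the group of genus `n + 1` to the group of genus two -/
def kap (n : ℕ) : Surf (n + 1) →* Surf 2 :=
  Surf.lift (kf n (Surf.gen 0 false) (Surf.gen 0 true) (Surf.gen 1 false) (Surf.gen 1 true))
    (kf_rel n rel_two)

lemma kap_a (n : ℕ) : kap n (Surf.gen 0 false) = Surf.gen 0 false ^ n := by
  rw [kap, Surf.lift_gen]
  rfl

lemma kap_b (n : ℕ) : kap n (Surf.gen 0 true) = Surf.gen 0 true := by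
  rw [kap, Surf.lift_gen]
  rfl

lemma kap_c (n : ℕ) (i : Fin n) (b : Bool) : kap n (Surf.gen i.succ b) =
    Surf.gen 0 false ^ (i : ℕ) * Surf.gen 1 b * (Surf.gen 0 false ^ (i : ℕ))⁻¹ := by
  rw [kap, Surf.lift_gen]
  cases b <;> rfl

/-! ### The action on `ℕ × Surf (n + 1)` -/

section act

variable {S : Type*} [Group S]

/-- diagonal permutations -/
def dg (φ : ℕ → S) : Equiv.Perm (ℕ × S) where
  toFun y := (y.1, φ y.1 * y.2)
  invFun y := (y.1, (φ y.1)⁻¹ * y.2)
  left_inv y := by simp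
  right_inv y := by simp

lemma dg_apply (φ : ℕ → S) (k : ℕ) (x : S) : dg φ (k, x) = (k, φ k * x) := rfl

lemma dg_symm_apply (φ : ℕ → S) (k : ℕ) (x : S) : (dg φ)⁻¹ (k, x) = (k, (φ k)⁻¹ * x) := rfl

lemma cm_dg (φ ψ : ℕ → S) : cm (dg φ) (dg ψ) = dg (fun k => cm (φ k) (ψ k)) := by
  ext1 y
  obtain ⟨k, x⟩ := y
  simp only [cm, Equiv.Perm.mul_apply, dg_symm_apply, dg_apply]
  simp only [mul_assoc]

/-- the shift: `(k + 1, x) ↦ (k, x)` for `k < m`, and `(0, x) ↦ (m, A x)` -/
def sh (m : ℕ) (A : S) : Equiv.Perm (ℕ × S) where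
  toFun y := match y with
    | (0, x) => (m, A * x)
    | (k + 1, x) => if k < m then (k, x) else (k + 1, x)
  invFun y := match y with
    | (k, x) => if k < m then (k + 1, x) else if k = m then (0, A⁻¹ * x) else (k, x)
  left_inv y := by
    obtain ⟨k, x⟩ := y
    rcases k with _ | k
    · simp
    · by_cases h : k < m
      · simp [h]
      · have h1 : ¬ (k + 1 < m) := by omega
        have h2 : ¬ (k + 1 = m) := by omega
        simp [h, h1, h2]
  right_inv y := by
    obtain ⟨k, x⟩ := y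
    by_cases h : k < m
    · simp [h]
    · by_cases h' : k = m
      · subst h'
        simp
      · rcases k with _ | k
        · omega
        · have h1 : ¬ (k < m) := by omega
          simp [h, h', h1]

lemma sh_zero (m : ℕ) (A : S) (x : S) : sh m A (0, x) = (m, A * x) := rfl

lemma sh_succ_lt {m : ℕ} (A : S) {k : ℕ} (h : k < m) (x : S) : sh m A (k + 1, x) = (k, x) := by
  change (if k < m then (k, x) else (k + 1, x)) = _
  rw [if_pos h]

lemma sh_succ_ge {m : ℕ} (A : S) {k : ℕ} (h : ¬ k < m) (x : S) :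
    sh m A (k + 1, x) = (k + 1, x) := by
  change (if k < m then (k, x) else (k + 1, x)) = _
  rw [if_neg h]

lemma sh_pow {m : ℕ} (A : S) {k : ℕ} (h : k ≤ m) (x : S) : (sh m A ^ k) (k, x) = (0, x) := by
  induction k with
  | zero => simp
  | succ k ih =>
    rw [pow_succ, Equiv.Perm.mul_apply, sh_succ_lt A (by omega), ih (by omega)]

lemma sh_pow_inv {m : ℕ} (A : S) {k : ℕ} (h : k ≤ m) (x : S) :
    (sh m A ^ k)⁻¹ (0, x) = (k, x) := by
  rw [Equiv.Perm.inv_eq_iff_eq, sh_pow A h x]

lemma sh_pow_last (m : ℕ) (A : S) (x : S) : (sh m A ^ (m + 1)) (0, x) = (0, A * x) := by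
  rw [pow_succ, Equiv.Perm.mul_apply, sh_zero, sh_pow A le_rfl]

end act

/-- the diagonal permutation for the second generator -/
def qf (n : ℕ) (k : ℕ) : Surf (n + 1) := if k < n then (pp (gc n) k)⁻¹ * Surf.gen 0 true else 1

lemma act_rel (m : ℕ) : cm (sh m (Surf.gen (0 : Fin (m + 1 + 1)) false)) (dg (qf (m + 1))) *
    cm (dg fun k => gg (m + 1) k false) (dg fun k => gg (m + 1) k true) = 1 := by
  rw [cm_dg]
  set A : Surf (m + 1 + 1) := Surf.gen 0 false with hA
  have key : dg (qf (m + 1)) * sh m A =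
      dg (fun k => cm (gg (m + 1) k false) (gg (m + 1) k true)) * (sh m A * dg (qf (m + 1))) := by
    ext1 y
    obtain ⟨k, x⟩ := y
    simp only [Equiv.Perm.mul_apply]
    rcases k with _ | k
    · simp only [sh_zero, dg_apply]
      have h := rel_pp (m + 1)
      rw [pp_succ] at h
      have e1 : qf (m + 1) m = (pp (gc (m + 1)) m)⁻¹ * Surf.gen 0 true := by
        rw [qf, if_pos (by omega)]
      have e2 : qf (m + 1) 0 = Surf.gen 0 true := by
        rw [qf, if_pos (by omega), pp_zero]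
        simp
      rw [e1, e2]
      have e3 : cm (gg (m + 1) m false) (gg (m + 1) m true) = gc (m + 1) m := rfl
      rw [e3]
      have e4 : gc (m + 1) m = (pp (gc (m + 1)) m)⁻¹ *
          (cm (Surf.gen (0 : Fin (m + 1 + 1)) false) (Surf.gen 0 true))⁻¹ := by
        rw [eq_inv_mul_iff_mul_eq]
        exact (inv_eq_of_mul_eq_one_right h).symm
      rw [e4]
      simp only [cm, ← hA]
      congr 1
      group
    · by_cases h : k < m
      · simp only [sh_succ_lt A h, dg_apply]
        have e1 : qf (m + 1) k = (pp (gc (m + 1)) k)⁻¹ * Surf.gen 0 true := by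
          rw [qf, if_pos (by omega)]
        have e2 : qf (m + 1) (k + 1) = (pp (gc (m + 1)) (k + 1))⁻¹ * Surf.gen 0 true := by
          rw [qf, if_pos (by omega)]
        have e3 : cm (gg (m + 1) k false) (gg (m + 1) k true) = gc (m + 1) k := rfl
        rw [e1, e2, e3, pp_succ]
        congr 1
        group
      · simp only [sh_succ_ge A h, dg_apply]
        rw [gg_of_le (by omega), gg_of_le (by omega)]
        simp [cm]
  have e : cm (sh m A) (dg (qf (m + 1))) =
      sh m A * dg (qf (m + 1)) * (dg (qf (m + 1)) * sh m A)⁻¹ := by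
    simp only [cm]
    group
  rw [e, key]
  group

/-- the action of the group of genus two -/
def act (m : ℕ) : Surf 2 →* Equiv.Perm (ℕ × Surf (m + 1 + 1)) :=
  Surf.lift (fun i b => if i = 0 then (bif b then dg (qf (m + 1)) else sh m (Surf.gen 0 false))
    else dg fun k => gg (m + 1) k b) (by
      have := act_rel m
      simpa [List.ofFn_succ] using this)

lemma act_p (m : ℕ) : act m (Surf.gen 0 false) = sh m (Surf.gen 0 false) := by
  rw [act, Surf.lift_gen]
  rfl

lemma act_q (m : ℕ) : act m (Surf.gen 0 true) = dg (qf (m + 1)) := by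
  rw [act, Surf.lift_gen]
  rfl

lemma act_c (m : ℕ) (b : Bool) : act m (Surf.gen 1 b) = dg fun k => gg (m + 1) k b := by
  rw [act, Surf.lift_gen]
  rfl

lemma act_kap (m : ℕ) (γ : Surf (m + 1 + 1)) :
    ∀ x, act m (kap (m + 1) γ) (0, x) = (0, γ * x) := by
  let H : Subgroup (Surf (m + 1 + 1)) :=
    { carrier := {γ | ∀ x, act m (kap (m + 1) γ) (0, x) = (0, γ * x)}
      one_mem' := by
        intro x
        simp
      mul_mem' := by
        intro a b ha hb x
        rw [map_mul, map_mul, Equiv.Perm.mul_apply, hb, ha, mul_assoc]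
      inv_mem' := by
        intro a ha x
        rw [map_inv, map_inv, Equiv.Perm.inv_eq_iff_eq, ha, mul_inv_cancel_left] }
  have hH : H = ⊤ := by
    rw [eq_top_iff, ← PresentedGroup.closure_range_of (surfRels (m + 1 + 1)), Subgroup.closure_le]
    rintro _ ⟨⟨i, b⟩, rfl⟩
    change ∀ x, act m (kap (m + 1) (Surf.gen i b)) (0, x) = (0, Surf.gen i b * x)
    intro x
    refine Fin.cases ?_ (fun i => ?_) i
    · cases b
      · rw [kap_a, map_pow, act_p, sh_pow_last]
      · rw [kap_b, act_q, dg_apply, qf, if_pos (by omega), pp_zero]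
        simp
    · rw [kap_c, map_mul, map_mul, map_inv, map_pow, act_p, act_c, Equiv.Perm.mul_apply,
        Equiv.Perm.mul_apply, sh_pow_inv _ (by omega), dg_apply, sh_pow _ (by omega), gg_of_lt]
  have : γ ∈ H := by
    rw [hH]
    trivial
  exact this

/-! ### The finite index -/

lemma kap_q (m : ℕ) {k : ℕ} (hk : k ≤ m) : ∃ γ : Surf (m + 1 + 1),
    Surf.gen 0 false ^ k * Surf.gen 0 true * (Surf.gen 0 false ^ k)⁻¹ = kap (m + 1) γ := by
  induction k with
  | zero => exact ⟨Surf.gen 0 true, by rw [kap_b]; simp⟩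
  | succ k ih =>
    obtain ⟨γ, hγ⟩ := ih (by omega)
    refine ⟨(gc (m + 1) k)⁻¹ * γ, ?_⟩
    have e : gc (m + 1) k = cm (Surf.gen (Fin.succ ⟨k, by omega⟩) false)
        (Surf.gen (Fin.succ ⟨k, by omega⟩) true) := by
      rw [gc, gg, gg, dif_pos (by omega), dif_pos (by omega)]
    rw [map_mul, map_inv, e, map_cm, kap_c, kap_c, ← hγ]
    have h := rel_two
    have h1 : cm (Surf.gen (1 : Fin 2) false) (Surf.gen 1 true) =
        (cm (Surf.gen (0 : Fin 2) false) (Surf.gen 0 true))⁻¹ := by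
      rw [eq_comm]
      exact inv_eq_of_mul_eq_one_right h
    have h2 : cm (Surf.gen (0 : Fin 2) false ^ k * Surf.gen 1 false * (Surf.gen 0 false ^ k)⁻¹)
        (Surf.gen (0 : Fin 2) false ^ k * Surf.gen 1 true * (Surf.gen 0 false ^ k)⁻¹) =
        Surf.gen (0 : Fin 2) false ^ k * cm (Surf.gen (1 : Fin 2) false) (Surf.gen 1 true) *
        (Surf.gen 0 false ^ k)⁻¹ := by
      simp only [cm]
      group
    rw [h2, h1]
    simp only [cm]
    rw [pow_succ]
    group

lemma kap_fin (m : ℕ) (x : Surf 2) :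
    ∀ y : Surf 2, (∃ k ≤ m, ∃ γ, y = (Surf.gen 0 false ^ k)⁻¹ * kap (m + 1) γ) →
      ∃ k ≤ m, ∃ γ, x * y = (Surf.gen 0 false ^ k)⁻¹ * kap (m + 1) γ := by
  let P : Surf 2 := Surf.gen 0 false
  let H : Subgroup (Surf 2) :=
    { carrier := {x | ∀ y : Surf 2, (∃ k ≤ m, ∃ γ, y = (P ^ k)⁻¹ * kap (m + 1) γ) ↔
      ∃ k ≤ m, ∃ γ, x * y = (P ^ k)⁻¹ * kap (m + 1) γ}
      one_mem' := by
        intro x
        simp
      mul_mem' := by
        intro a b ha hb y
        rw [hb y, ha (b * y), mul_assoc]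
      inv_mem' := by
        intro a ha y
        rw [ha (a⁻¹ * y), mul_inv_cancel_left] }
  have hH : H = ⊤ := by
    rw [eq_top_iff, ← PresentedGroup.closure_range_of (surfRels 2), Subgroup.closure_le]
    have hconj : ∀ s : Surf 2, (∀ k ≤ m, ∃ γ, P ^ k * s * (P ^ k)⁻¹ = kap (m + 1) γ) → s ∈ H := by
      intro s hs y
      constructor
      · rintro ⟨k, hk, γ, rfl⟩
        obtain ⟨δ, hδ⟩ := hs k hk
        refine ⟨k, hk, δ * γ, ?_⟩
        rw [map_mul, ← hδ]
        group
      · rintro ⟨k, hk, γ, h⟩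
        obtain ⟨δ, hδ⟩ := hs k hk
        refine ⟨k, hk, δ⁻¹ * γ, ?_⟩
        rw [map_mul, map_inv, ← hδ]
        rw [← eq_inv_mul_iff_mul_eq] at h
        rw [h]
        group
    rintro _ ⟨⟨i, b⟩, rfl⟩
    change Surf.gen i b ∈ H
    fin_cases i
    · cases b
      · intro y
        constructor
        · rintro ⟨k, hk, γ, rfl⟩
          rcases k with _ | k
          · refine ⟨m, le_rfl, Surf.gen 0 false * γ, ?_⟩
            rw [map_mul, kap_a, pow_succ]
            change P * ((P ^ 0)⁻¹ * _) = (P ^ m)⁻¹ * ((P ^ m * P) * _)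
            group
          · refine ⟨k, by omega, γ, ?_⟩
            change P * ((P ^ (k + 1))⁻¹ * _) = _
            rw [pow_succ]
            group
        · rintro ⟨k, hk, γ, h⟩
          change P * y = _ at h
          rw [← eq_inv_mul_iff_mul_eq] at h
          rw [h]
          by_cases hkm : k = m
          · refine ⟨0, by omega, (Surf.gen 0 false)⁻¹ * γ, ?_⟩
            rw [map_mul, map_inv, kap_a, hkm, pow_succ]
            change P⁻¹ * ((P ^ m)⁻¹ * _) = (P ^ 0)⁻¹ * ((P ^ m * P)⁻¹ * _)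
            group
          · refine ⟨k + 1, by omega, γ, ?_⟩
            rw [pow_succ]
            group
      · exact hconj _ fun k hk => kap_q m hk
    · refine hconj _ fun k hk => ⟨Surf.gen (Fin.succ ⟨k, by omega⟩) b, ?_⟩
      rw [kap_c]
      rfl
  have hx : x ∈ H := by
    rw [hH]
    trivial
  exact fun y hy => (hx y).1 hy

theorem surf_cover (g : ℕ) (hg : 2 ≤ g) : ∃ κ : Surf g →* Surf 2, Function.Injective κ ∧
    ∃ F : Finset (Surf 2), ∀ x, ∃ f ∈ F, ∃ γ, x = f * κ γ := by
  obtain ⟨m, rfl⟩ : ∃ m, g = m + 1 + 1 := ⟨g - 2, by omega⟩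
  refine ⟨kap (m + 1), ?_, ?_⟩
  · intro γ δ h
    have h1 := act_kap m γ 1
    rw [h, act_kap m δ 1] at h1
    simpa using (congrArg Prod.snd h1).symm
  · classical
    refine ⟨(Finset.range (m + 1)).image fun k => (Surf.gen 0 false ^ k)⁻¹, fun x => ?_⟩
    obtain ⟨k, hk, γ, h⟩ := kap_fin m x 1 ⟨0, by omega, 1, by simp⟩
    refine ⟨_, Finset.mem_image.2 ⟨k, Finset.mem_range.2 (by omega), rfl⟩, γ, ?_⟩
    rw [← h, mul_one]

end Pool.Agent.Hhelper63.AnT
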