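import Pool.Agent.Hhelper67.Anosov.Defs

/-!
Cases (b) and (c): triangle reflection groups, Fuchsian representations, Anosov sets.
-/

namespace Pool.Agent.Hhelper63.AnT

open Pool.Agent.Hhelper67.Anosov

/-- complex 4 by 4 matrices -/
abbrev M4 := Matrix (Fin 4) (Fin 4) ℂ

/-- `SL(4, ℂ)` -/
abbrev SL4 := Matrix.SpecialLinearGroup (Fin 4) ℂ

/-! ### Fuchsian representations and the representations `ρ₄`, `ρ₂ ⊕ ρ₂`, `ρ₂ ⊕ ρ₁ ⊕ ρ₁` -/

/-- The space of Fuchsian representations: injective homomorphisms `Γ → SL(2, ℝ)` with discrete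
image and compact quotient, as a subset of the space of all maps. -/
def fuchs (Γ : Type*) [Group Γ] : Set (Γ → X) :=
  {f | ∃ φ : Γ →* X, (Function.Injective φ ∧ DiscreteTopology φ.range ∧
    CompactSpace (X ⧸ φ.range)) ∧ ⇑φ = f}

/-- the matrix of `Sym³ g` in the basis `x³, x²y, xy², y³`, for a 2 by 2 matrix `g` acting by
`x ↦ a x + c y`, `y ↦ b x + d y`, where `g = !![a, b; c, d]` -/
def sym3 {R : Type*} [CommRing R] (g : Matrix (Fin 2) (Fin 2) R) : Matrix (Fin 4) (Fin 4) R :=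
  !![g 0 0 ^ 3, g 0 0 ^ 2 * g 0 1, g 0 0 * g 0 1 ^ 2, g 0 1 ^ 3;
     3 * g 0 0 ^ 2 * g 1 0, g 0 0 ^ 2 * g 1 1 + 2 * g 0 0 * g 0 1 * g 1 0,
       g 0 1 ^ 2 * g 1 0 + 2 * g 0 0 * g 0 1 * g 1 1, 3 * g 0 1 ^ 2 * g 1 1;
     3 * g 0 0 * g 1 0 ^ 2, g 0 1 * g 1 0 ^ 2 + 2 * g 0 0 * g 1 0 * g 1 1,
       g 0 0 * g 1 1 ^ 2 + 2 * g 0 1 * g 1 0 * g 1 1, 3 * g 0 1 * g 1 1 ^ 2;
     g 1 0 ^ 3, g 1 0 ^ 2 * g 1 1, g 1 0 * g 1 1 ^ 2, g 1 1 ^ 3]

/-- `g ⊕ g` -/
def dbl {R : Type*} [CommRing R] (g : Matrix (Fin 2) (Fin 2) R) : Matrix (Fin 4) (Fin 4) R :=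
  !![g 0 0, g 0 1, 0, 0;
     g 1 0, g 1 1, 0, 0;
     0, 0, g 0 0, g 0 1;
     0, 0, g 1 0, g 1 1]

/-- `g` acting on the first and the last basis vector, and the identity on the two others -/
def outer {R : Type*} [CommRing R] (g : Matrix (Fin 2) (Fin 2) R) : Matrix (Fin 4) (Fin 4) R :=
  !![g 0 0, 0, 0, g 0 1;
     0, 1, 0, 0;
     0, 0, 1, 0;
     g 1 0, 0, 0, g 1 1]

/-- the matrix of the alternating form preserved by `Sym³` in the basis `x³, x²y, xy², y³` -/
noncomputable def J4 : M4 :=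
  !![0, 0, 0, 1;
     0, 0, -1/3, 0;
     0, 1/3, 0, 0;
     -1, 0, 0, 0]

lemma sym3_one {R : Type*} [CommRing R] : sym3 (1 : Matrix (Fin 2) (Fin 2) R) = 1 := by
  ext i j
  fin_cases i <;> fin_cases j <;> simp [sym3]

lemma sym3_mul {R : Type*} [CommRing R] (g h : Matrix (Fin 2) (Fin 2) R) :
    sym3 (g * h) = sym3 g * sym3 h := by
  simp only [sym3, Matrix.mul_apply, Fin.sum_univ_two]
  ext i j
  fin_cases i <;> fin_cases j <;>
    simp [Matrix.mul_apply, Fin.sum_univ_four] <;> ring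

lemma dbl_one {R : Type*} [CommRing R] : dbl (1 : Matrix (Fin 2) (Fin 2) R) = 1 := by
  ext i j
  fin_cases i <;> fin_cases j <;> simp [dbl]

lemma dbl_mul {R : Type*} [CommRing R] (g h : Matrix (Fin 2) (Fin 2) R) :
    dbl (g * h) = dbl g * dbl h := by
  simp only [dbl, Matrix.mul_apply, Fin.sum_univ_two]
  ext i j
  fin_cases i <;> fin_cases j <;>
    simp [Matrix.mul_apply, Fin.sum_univ_four]

lemma outer_one {R : Type*} [CommRing R] : outer (1 : Matrix (Fin 2) (Fin 2) R) = 1 := by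
  ext i j
  fin_cases i <;> fin_cases j <;> simp [outer]

lemma outer_mul {R : Type*} [CommRing R] (g h : Matrix (Fin 2) (Fin 2) R) :
    outer (g * h) = outer g * outer h := by
  simp only [outer, Matrix.mul_apply, Fin.sum_univ_two]
  ext i j
  fin_cases i <;> fin_cases j <;>
    simp [Matrix.mul_apply, Fin.sum_univ_four]

lemma det_four {R : Type*} [CommRing R] (A : Matrix (Fin 4) (Fin 4) R) :
    A.det = A 0 0 * (A 1 1 * (A 2 2 * A 3 3 - A 2 3 * A 3 2) - A 1 2 * (A 2 1 * A 3 3 - A 2 3 * A 3 1)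
        + A 1 3 * (A 2 1 * A 3 2 - A 2 2 * A 3 1))
      - A 0 1 * (A 1 0 * (A 2 2 * A 3 3 - A 2 3 * A 3 2) - A 1 2 * (A 2 0 * A 3 3 - A 2 3 * A 3 0)
        + A 1 3 * (A 2 0 * A 3 2 - A 2 2 * A 3 0))
      + A 0 2 * (A 1 0 * (A 2 1 * A 3 3 - A 2 3 * A 3 1) - A 1 1 * (A 2 0 * A 3 3 - A 2 3 * A 3 0)
        + A 1 3 * (A 2 0 * A 3 1 - A 2 1 * A 3 0))
      - A 0 3 * (A 1 0 * (A 2 1 * A 3 2 - A 2 2 * A 3 1) - A 1 1 * (A 2 0 * A 3 2 - A 2 2 * A 3 0)
        + A 1 2 * (A 2 0 * A 3 1 - A 2 1 * A 3 0)) := by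
  rw [Matrix.det_succ_row_zero]
  simp [Fin.sum_univ_succ, Matrix.det_succ_row_zero, Fin.succAbove, Matrix.submatrix_apply]
  ring

lemma sym3_det {R : Type*} [CommRing R] (g : Matrix (Fin 2) (Fin 2) R) :
    (sym3 g).det = g.det ^ 6 := by
  rw [det_four, Matrix.det_fin_two]
  simp only [sym3, Matrix.of_apply, Matrix.cons_val', Matrix.cons_val_zero, Matrix.cons_val_one,
    Matrix.cons_val_two, Matrix.cons_val_three, Matrix.head_cons, Matrix.tail_cons]
  ring

lemma dbl_det {R : Type*} [CommRing R] (g : Matrix (Fin 2) (Fin 2) R) :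
    (dbl g).det = g.det ^ 2 := by
  rw [det_four, Matrix.det_fin_two]
  simp only [dbl, Matrix.of_apply, Matrix.cons_val', Matrix.cons_val_zero, Matrix.cons_val_one,
    Matrix.cons_val_two, Matrix.cons_val_three, Matrix.head_cons, Matrix.tail_cons]
  ring

lemma outer_det {R : Type*} [CommRing R] (g : Matrix (Fin 2) (Fin 2) R) :
    (outer g).det = g.det := by
  rw [det_four, Matrix.det_fin_two]
  simp only [outer, Matrix.of_apply, Matrix.cons_val', Matrix.cons_val_zero, Matrix.cons_val_one,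
    Matrix.cons_val_two, Matrix.cons_val_three, Matrix.head_cons, Matrix.tail_cons]
  ring

/-- `Sym³ g` as an element of `SL(4, ℝ)` -/
def sym3X : X →* Matrix.SpecialLinearGroup (Fin 4) ℝ where
  toFun g := ⟨sym3 g.1, by rw [sym3_det, g.2, one_pow]⟩
  map_one' := Subtype.ext (by simp [sym3_one])
  map_mul' g h := Subtype.ext (by simp [sym3_mul])

/-- `g ⊕ g` as an element of `SL(4, ℝ)` -/
def dblX : X →* Matrix.SpecialLinearGroup (Fin 4) ℝ where
  toFun g := ⟨dbl g.1, by rw [dbl_det, g.2, one_pow]⟩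
  map_one' := Subtype.ext (by simp [dbl_one])
  map_mul' g h := Subtype.ext (by simp [dbl_mul])

/-- `g` on the outer basis vectors as an element of `SL(4, ℝ)` -/
def outerX : X →* Matrix.SpecialLinearGroup (Fin 4) ℝ where
  toFun g := ⟨outer g.1, by rw [outer_det, g.2]⟩
  map_one' := Subtype.ext (by simp [outer_one])
  map_mul' g h := Subtype.ext (by simp [outer_mul])

/-- the inclusion of `SL(4, ℝ)` in `SL(4, ℂ)` -/
noncomputable def toC4 : Matrix.SpecialLinearGroup (Fin 4) ℝ →* SL4 :=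
  Matrix.SpecialLinearGroup.map Complex.ofRealHom

/-- `ρ₄ ∘ φ`, as a representation in `SL(4, ℂ)` -/
noncomputable def rho4 {Γ : Type*} [Group Γ] (φ : Γ →* X) : Γ →* SL4 := toC4.comp (sym3X.comp φ)

/-- `(ρ₂ ∘ φ) ⊕ (ρ₂ ∘ φ)`, as a representation in `SL(4, ℂ)` -/
noncomputable def rho22 {Γ : Type*} [Group Γ] (φ : Γ →* X) : Γ →* SL4 := toC4.comp (dblX.comp φ)

/-- `(ρ₂ ∘ φ) ⊕ ρ₁ ⊕ ρ₁`, as a representation in `SL(4, ℂ)`: `φ` acts on the span of the first
and the last basis vector -/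
noncomputable def rho211 {Γ : Type*} [Group Γ] (φ : Γ →* X) : Γ →* SL4 :=
  toC4.comp (outerX.comp φ)

/-- The space of `θ`-Anosov representations `Γ → Sp(4, ℂ)`, where `Sp(4, ℂ)` is the group of the
matrices preserving the alternating form `J4`. -/
def anosovSp {Γ : Type*} [Group Γ] (S : Finset Γ) (θ : Set ℕ) : Set (Γ → SL4) :=
  {f | ∃ ρ : Γ →* SL4, IsAnosov S θ ρ ∧ (∀ γ, (ρ γ).1.transpose * J4 * (ρ γ).1 = J4) ∧ ⇑ρ = f}

/-! ### Triangle groups -/

/-- `s 0, s 1, s 2` are involutions, `z` is a central involution, and the products `s 0 s 1`,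
`s 1 s 2`, `s 0 s 2` raised to the powers `k, l, m` are equal to `z`. -/
structure TriRel {K : Type*} [Group K] (k l m : ℕ) (s : Fin 3 → K) (z : K) : Prop where
  sq : ∀ i, s i * s i = 1
  zz : z * z = 1
  comm : ∀ i, z * s i = s i * z
  r01 : (s 0 * s 1) ^ k = z
  r12 : (s 1 * s 2) ^ l = z
  r02 : (s 0 * s 2) ^ m = z

open FreeGroup in
/-- relations of the triangle group, generators `0, 1, 2` and the central involution `3` -/
def triRels (k l m : ℕ) : Set (FreeGroup (Fin 4)) :=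
  {of 0 * of 0, of 1 * of 1, of 2 * of 2, of 3 * of 3,
    of 3 * of 0 * (of 3)⁻¹ * (of 0)⁻¹, of 3 * of 1 * (of 3)⁻¹ * (of 1)⁻¹,
    of 3 * of 2 * (of 3)⁻¹ * (of 2)⁻¹,
    (of 0 * of 1) ^ k * (of 3)⁻¹, (of 1 * of 2) ^ l * (of 3)⁻¹, (of 0 * of 2) ^ m * (of 3)⁻¹}

/-- the triangle reflection group, extended by a central involution -/
abbrev Tri (k l m : ℕ) := PresentedGroup (triRels k l m)

/-- the three reflections -/
def Tri.s {k l m : ℕ} (i : Fin 3) : Tri k l m := PresentedGroup.of i.castSucc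

/-- the central involution -/
def Tri.z {k l m : ℕ} : Tri k l m := PresentedGroup.of 3

theorem Tri.rel (k l m : ℕ) : TriRel k l m (Tri.s (k := k) (l := l) (m := m)) Tri.z := by
  have key : ∀ r ∈ triRels k l m, (PresentedGroup.mk (triRels k l m) r) = 1 := fun r hr =>
    PresentedGroup.one_of_mem hr
  constructor
  · intro i
    fin_cases i
    · exact key (FreeGroup.of 0 * FreeGroup.of 0) (by simp [triRels])
    · exact key (FreeGroup.of 1 * FreeGroup.of 1) (by simp [triRels])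
    · exact key (FreeGroup.of 2 * FreeGroup.of 2) (by simp [triRels])
  · exact key (FreeGroup.of 3 * FreeGroup.of 3) (by simp [triRels])
  · intro i
    fin_cases i
    · have := key (FreeGroup.of 3 * FreeGroup.of 0 * (FreeGroup.of 3)⁻¹ * (FreeGroup.of 0)⁻¹)
        (by simp [triRels])
      rw [map_mul, map_mul, map_inv, map_inv, mul_inv_eq_one, mul_inv_eq_iff_eq_mul] at this
      exact this
    · have := key (FreeGroup.of 3 * FreeGroup.of 1 * (FreeGroup.of 3)⁻¹ * (FreeGroup.of 1)⁻¹)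
        (by simp [triRels])
      rw [map_mul, map_mul, map_inv, map_inv, mul_inv_eq_one, mul_inv_eq_iff_eq_mul] at this
      exact this
    · have := key (FreeGroup.of 3 * FreeGroup.of 2 * (FreeGroup.of 3)⁻¹ * (FreeGroup.of 2)⁻¹)
        (by simp [triRels])
      rw [map_mul, map_mul, map_inv, map_inv, mul_inv_eq_one, mul_inv_eq_iff_eq_mul] at this
      exact this
  · have := key ((FreeGroup.of 0 * FreeGroup.of 1) ^ k * (FreeGroup.of 3)⁻¹) (by simp [triRels])
    rw [map_mul, map_inv, mul_inv_eq_one] at this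
    exact this
  · have := key ((FreeGroup.of 1 * FreeGroup.of 2) ^ l * (FreeGroup.of 3)⁻¹) (by simp [triRels])
    rw [map_mul, map_inv, mul_inv_eq_one] at this
    exact this
  · have := key ((FreeGroup.of 0 * FreeGroup.of 2) ^ m * (FreeGroup.of 3)⁻¹) (by simp [triRels])
    rw [map_mul, map_inv, mul_inv_eq_one] at this
    exact this

/-- images of the generators -/
def Tri.gens {K : Type*} (s : Fin 3 → K) (z : K) : Fin 4 → K := ![s 0, s 1, s 2, z]

/-- the universal property of the triangle group -/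
def Tri.lift {K : Type*} [Group K] {k l m : ℕ} {s : Fin 3 → K} {z : K} (h : TriRel k l m s z) :
    Tri k l m →* K :=
  PresentedGroup.toGroup (f := Tri.gens s z) (by
    intro r hr
    simp only [triRels, Set.mem_insert_iff, Set.mem_singleton_iff] at hr
    have h0 : Tri.gens s z 0 = s 0 := rfl
    have h1 : Tri.gens s z 1 = s 1 := rfl
    have h2 : Tri.gens s z 2 = s 2 := rfl
    have h3 : Tri.gens s z 3 = z := rfl
    rcases hr with rfl | rfl | rfl | rfl | rfl | rfl | rfl | rfl | rfl | rfl <;>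
      simp only [map_mul, map_inv, map_pow, FreeGroup.lift_apply_of, h0, h1, h2, h3]
    · exact h.sq 0
    · exact h.sq 1
    · exact h.sq 2
    · exact h.zz
    · rw [h.comm 0]; group
    · rw [h.comm 1]; group
    · rw [h.comm 2]; group
    · rw [h.r01]; group
    · rw [h.r12]; group
    · rw [h.r02]; group)

@[simp] theorem Tri.lift_s {K : Type*} [Group K] {k l m : ℕ} {s : Fin 3 → K} {z : K}
    (h : TriRel k l m s z) (i : Fin 3) : Tri.lift h (Tri.s i) = s i := by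
  unfold Tri.lift Tri.s
  rw [PresentedGroup.toGroup.of]
  fin_cases i <;> rfl

@[simp] theorem Tri.lift_z {K : Type*} [Group K] {k l m : ℕ} {s : Fin 3 → K} {z : K}
    (h : TriRel k l m s z) : Tri.lift h Tri.z = z := by
  unfold Tri.lift Tri.z
  rw [PresentedGroup.toGroup.of]
  rfl

/-- two homomorphisms from a triangle group agree if they agree on the generators -/
theorem Tri.hom_ext {K : Type*} [Group K] {k l m : ℕ} {f g : Tri k l m →* K}
    (hs : ∀ i, f (Tri.s i) = g (Tri.s i)) (hz : f Tri.z = g Tri.z) : f = g := by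
  apply PresentedGroup.ext
  intro i
  have : i = 0 ∨ i = 1 ∨ i = 2 ∨ i = 3 := by fin_cases i <;> simp
  rcases this with rfl | rfl | rfl | rfl
  · exact hs 0
  · exact hs 1
  · exact hs 2
  · exact hz

/-- product of a word in the letters `0, 1, 2` -/
def ev {K : Type*} [Monoid K] (s : Fin 3 → K) (w : List (Fin 3)) : K := (w.map s).prod

/-! ### Syllable automata and certificates -/

/-- An edge of a syllable automaton: from the state `src` read the word `d` in the letters `0, 1`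
and then the letter `2`, and go to the state `tgt`. -/
structure Edge where
  src : ℕ
  d : List (Fin 3)
  tgt : ℕ

/-- `Syl E q w q' n`: the word `w` is the label of a path with `n` edges from `q` to `q'` -/
inductive Syl (E : List Edge) : ℕ → List (Fin 3) → ℕ → ℕ → Prop
  | nil (q : ℕ) : Syl E q [] q 0
  | cons (e : Edge) (he : e ∈ E) (w : List (Fin 3)) (q' n : ℕ) (h : Syl E e.tgt w q' n) :
      Syl E e.src (e.d ++ 2 :: w) q' (n + 1)

/-- `g` or `z g` is given by a word `w0 u d`, with `w0` and `d` short, `d` without the letter `2`,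
and `u` the label of a path starting at the state `0` -/
def HasWord {k l m : ℕ} (E : List Edge) (N : ℕ) (g : Tri k l m) : Prop :=
  ∃ (w0 u d : List (Fin 3)) (q n : ℕ), w0.length ≤ 5 ∧ d.length ≤ 5 ∧ (∀ x ∈ d, x ≠ 2) ∧
    Syl E 0 u q n ∧ q < N ∧
    (g = ev Tri.s (w0 ++ u ++ d) ∨ g = Tri.z * ev Tri.s (w0 ++ u ++ d))

/-- the quadratic form of a matrix -/
noncomputable def Q (H : M4) (v : Fin 4 → ℂ) : ℝ := (star v ⬝ᵥ (H.mulVec v)).re

/-- the squared Hermitian norm -/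
noncomputable def n2 (v : Fin 4 → ℂ) : ℝ := ∑ i, Complex.normSq (v i)

/-- A certificate: Hermitian forms `H q` at the states `q < N`, positive on subspaces of dimension
`≥ k`, the form `H 0` negative on a subspace of dimension `≥ 4 - k`, with strict inequalities
along the edges. -/
def CertAt (N : ℕ) (E : List Edge) (k : ℕ) (S : Fin 3 → M4) : Prop :=
  ∃ (H : ℕ → M4) (c : ℝ), 0 < c ∧
    (∀ e ∈ E, e.src < N ∧ e.tgt < N ∧ ∃ μ > (0 : ℝ), ∃ κ > (0 : ℝ), ∀ v, κ * n2 v ≤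
      Q (H e.src) ((ev S e.d * S 2).mulVec v) - μ * Q (H e.tgt) v) ∧
    (∀ q < N, ∃ W : Submodule ℂ (Fin 4 → ℂ), k ≤ Module.finrank ℂ W ∧
      ∀ v ∈ W, c * n2 v ≤ Q (H q) v) ∧
    (∃ W : Submodule ℂ (Fin 4 → ℂ), 4 ≤ Module.finrank ℂ W + k ∧
      ∀ v ∈ W, Q (H 0) v ≤ -c * n2 v)

/-- the automaton of the `(2, 4, 6)` group: states `3, 313, 31313, 323` -/
def edgesC : List Edge :=
  [⟨0, [0], 1⟩, ⟨0, [0, 1], 0⟩, ⟨0, [1], 3⟩, ⟨1, [0], 2⟩, ⟨1, [0, 1], 0⟩, ⟨1, [1], 3⟩,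
    ⟨2, [1], 3⟩, ⟨3, [0], 1⟩]

/-- the automaton of the `(4, 3, 3)` group -/
def edgesB : List Edge :=
  [⟨0, [0, 1, 0], 0⟩, ⟨0, [0, 1, 0, 1], 0⟩, ⟨0, [0, 1], 1⟩, ⟨0, [1, 0], 2⟩, ⟨0, [1, 0, 1], 0⟩,
    ⟨1, [0, 1, 0], 0⟩, ⟨1, [0, 1], 1⟩, ⟨2, [1, 0], 2⟩, ⟨2, [1, 0, 1], 0⟩]

end Pool.Agent.Hhelper63.AnT
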