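import Pool.Agent.Hhelper63.AnT.Defs

/-!
Surface groups, the Fuchsian representations of the triangle groups, and the finite
representations `eta`.
-/

namespace Pool.Agent.Hhelper63.AnT

open Pool.Agent.Hhelper67.Anosov

/-- the commutator -/
def cm {K : Type*} [Group K] (a b : K) : K := a * b * a⁻¹ * b⁻¹

theorem map_cm {K L : Type*} [Group K] [Group L] (f : K →* L) (a b : K) :
    f (cm a b) = cm (f a) (f b) := by
  simp [cm]

/-- the relator `[a₀, b₀] [a₁, b₁] ⋯` of the surface group of genus `g` -/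
def surfRels (g : ℕ) : Set (FreeGroup (Fin g × Bool)) :=
  {(List.ofFn fun i : Fin g => cm (FreeGroup.of (i, false)) (FreeGroup.of (i, true))).prod}

/-- the fundamental group of the closed orientable surface of genus `g` -/
abbrev Surf (g : ℕ) := PresentedGroup (surfRels g)

/-- the generator `a_i` (for `false`) or `b_i` (for `true`) of the surface group -/
def Surf.gen {g : ℕ} (i : Fin g) (b : Bool) : Surf g := PresentedGroup.of (i, b)

theorem Surf.rel (g : ℕ) :
    (List.ofFn fun i : Fin g => cm (Surf.gen i false) (Surf.gen i true)).prod = 1 := by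
  have h : PresentedGroup.mk (surfRels g) (List.ofFn fun i : Fin g =>
      cm (FreeGroup.of (i, false)) (FreeGroup.of (i, true))).prod = 1 :=
    PresentedGroup.one_of_mem rfl
  rw [map_list_prod, List.map_ofFn] at h
  rw [← h]
  congr 2

/-- the universal property of the surface group -/
def Surf.lift {K : Type*} [Group K] {g : ℕ} (f : Fin g → Bool → K)
    (h : (List.ofFn fun i : Fin g => cm (f i false) (f i true)).prod = 1) : Surf g →* K :=
  PresentedGroup.toGroup (f := fun p => f p.1 p.2) (by
    intro r hr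
    rw [surfRels, Set.mem_singleton_iff] at hr
    rw [hr, map_list_prod, List.map_ofFn, ← h]
    congr 2
    funext i
    simp [Function.comp, map_cm])

@[simp] theorem Surf.lift_gen {K : Type*} [Group K] {g : ℕ} (f : Fin g → Bool → K)
    (h : (List.ofFn fun i : Fin g => cm (f i false) (f i true)).prod = 1) (i : Fin g) (b : Bool) :
    Surf.lift f h (Surf.gen i b) = f i b := by
  unfold Surf.lift Surf.gen
  rw [PresentedGroup.toGroup.of]

theorem Surf.hom_ext {K : Type*} [Group K] {g : ℕ} {f f' : Surf g →* K}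
    (h : ∀ i b, f (Surf.gen i b) = f' (Surf.gen i b)) : f = f' := by
  apply PresentedGroup.ext
  rintro ⟨i, b⟩
  exact h i b

/-- units with square one satisfying the relations of the triangle group -/
theorem triRel_units {R : Type*} [Ring R] {k l m : ℕ} (S : Fin 3 → R) (hS : ∀ i, S i * S i = 1)
    (ζ : Rˣ) (hζ : ζ * ζ = 1) (hc : ∀ i, (ζ : R) * S i = S i * ζ)
    (h01 : (S 0 * S 1) ^ k = ζ) (h12 : (S 1 * S 2) ^ l = ζ) (h02 : (S 0 * S 2) ^ m = ζ) :
    TriRel k l m (fun i => (⟨S i, S i, hS i, hS i⟩ : Rˣ)) ζ where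
  sq i := Units.ext (hS i)
  zz := hζ
  comm i := Units.ext (hc i)
  r01 := Units.ext (by simpa using h01)
  r12 := Units.ext (by simpa using h12)
  r02 := Units.ext (by simpa using h02)

/-! ### The group `Tri 2 4 6` -/

/-- the three reflections of the hyperbolic triangle with angles `π/2, π/4, π/6` -/
noncomputable def reflC : Fin 3 → Matrix (Fin 2) (Fin 2) ℝ :=
  ![!![1, 0; 0, -1], !![0, 1; 1, 0],
    !![√3 / 2, (√2 + 1) / 2; (√2 - 1) / 2, -(√3 / 2)]]

/-- three reflections generating a finite group -/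
noncomputable def finC : Fin 3 → Matrix (Fin 2) (Fin 2) ℂ :=
  ![!![1, 0; 0, -1], !![0, 1; 1, 0],
    !![0, (-(√2 : ℝ) + (√2 : ℝ) * Complex.I) / 2; (-(√2 : ℝ) - (√2 : ℝ) * Complex.I) / 2, 0]]

/-! ### The group `Tri 4 3 3` -/

/-- the constant `2 ^ (-1 / 4)` -/
noncomputable def cB : ℝ := √(√2 / 2)

/-- the three reflections of the hyperbolic triangle with angles `π/4, π/3, π/3` -/
noncomputable def reflB : Fin 3 → Matrix (Fin 2) (Fin 2) ℝ :=
  ![!![1, 0; 0, -1], !![-(√2 / 2), -(√2 / 2); -(√2 / 2), √2 / 2],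
    !![1 / 2, -((1 + √2) / 2) + cB; -((1 + √2) / 2) - cB, -(1 / 2)]]

/-- three reflections generating a finite group -/
noncomputable def finB : Fin 3 → Matrix (Fin 2) (Fin 2) ℂ :=
  ![!![1, 0; 0, -1], !![0, 1; 1, 0],
    !![-(1 / 2), -(1 / 2) - (√2 / 2 : ℝ) * Complex.I; -(1 / 2) + (√2 / 2 : ℝ) * Complex.I, 1 / 2]]

lemma two_ext {R : Type*} {A B : Matrix (Fin 2) (Fin 2) R} (h00 : A 0 0 = B 0 0)
    (h01 : A 0 1 = B 0 1) (h10 : A 1 0 = B 1 0) (h11 : A 1 1 = B 1 1) : A = B := by
  ext i j
  fin_cases i <;> fin_cases j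
  · exact h00
  · exact h01
  · exact h10
  · exact h11

lemma sqrt2_sq : (√2 : ℝ) ^ 2 = 2 := Real.sq_sqrt (by norm_num)

lemma sqrt3_sq : (√3 : ℝ) ^ 2 = 3 := Real.sq_sqrt (by norm_num)

lemma cB_sq : cB ^ 2 = √2 / 2 := Real.sq_sqrt (by positivity)

section quad

variable {R : Type*} [CommRing R] {M : Matrix (Fin 2) (Fin 2) R}

lemma quad_cube {t : R} (h : M * M = t • M - 1) : M ^ 3 = (t * t - 1) • M - t • 1 := by
  rw [pow_succ, pow_two, h, sub_mul, Matrix.smul_mul, h, one_mul, smul_sub, smul_smul, sub_smul,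
    one_smul]
  abel

lemma quad_pow2 (h : M * M = -1) : M ^ 2 = -1 := by rw [pow_two, h]

lemma quad_pow3 {t : R} (ht : t * t = 1) (h : M * M = t • M - 1) : M ^ 3 = -(t • 1) := by
  rw [quad_cube h, ht]
  simp

lemma quad_pow4 {t : R} (ht : t * t = 2) (h : M * M = t • M - 1) : M ^ 4 = -1 := by
  have h4 : M ^ 4 = (M * M) * (M * M) := by rw [pow_succ, pow_succ, pow_two, mul_assoc, mul_assoc]
  rw [h4]
  nth_rewrite 1 [h]
  rw [sub_mul, Matrix.smul_mul, one_mul]
  have h3 : M * (M * M) = (t * t - 1) • M - t • 1 := by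
    rw [← quad_cube h, pow_succ, pow_two, mul_assoc]
  rw [h3, h, smul_sub, smul_smul, smul_smul, ht]
  have e1 : t * (2 - 1) = t := by ring
  rw [e1]
  have e2 : (2 : R) • (1 : Matrix (Fin 2) (Fin 2) R) = 1 + 1 := by
    rw [two_smul]
  rw [e2]
  abel

lemma quad_pow6 {t : R} (ht : t * t = 3) (h : M * M = t • M - 1) : M ^ 6 = -1 := by
  have h3 := quad_cube h
  have h6 : M ^ 6 = M ^ 3 * M ^ 3 := by rw [← pow_add]
  rw [h6, h3, ht]
  simp only [sub_mul, mul_sub, Matrix.smul_mul, Matrix.mul_smul, h, one_mul, mul_one, smul_sub,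
    smul_smul, ht]
  module

lemma quad_mul {A B : Matrix (Fin 2) (Fin 2) R} {t : R} (hA : A.det = -1) (hB : B.det = -1)
    (ht : A 0 0 * B 0 0 + A 0 1 * B 1 0 + (A 1 0 * B 0 1 + A 1 1 * B 1 1) = t) :
    (A * B) * (A * B) = t • (A * B) - 1 := by
  have hd : (A * B).det = 1 := by rw [Matrix.det_mul, hA, hB]; ring
  rw [Matrix.det_fin_two] at hd
  have e : (A * B) 0 0 + (A * B) 1 1 = t := by
    rw [Matrix.mul_apply, Matrix.mul_apply, Fin.sum_univ_two, Fin.sum_univ_two]
    exact ht
  generalize A * B = M at hd e ⊢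
  apply two_ext <;>
    simp only [Matrix.mul_apply, Fin.sum_univ_two, Matrix.sub_apply, Matrix.smul_apply,
      smul_eq_mul, Matrix.one_apply_eq]
  · linear_combination M 0 0 * e - hd
  · rw [Matrix.one_apply_ne (by decide)]
    linear_combination M 0 1 * e
  · rw [Matrix.one_apply_ne (by decide)]
    linear_combination M 1 0 * e
  · linear_combination M 1 1 * e - hd

end quad

lemma reflC_sq (i : Fin 3) : reflC i * reflC i = 1 := by
  have h2 := sqrt2_sq
  have h3 := sqrt3_sq
  fin_cases i <;> apply two_ext <;>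
    simp [reflC, Matrix.mul_apply, Fin.sum_univ_two] <;> nlinarith

lemma reflB_sq (i : Fin 3) : reflB i * reflB i = 1 := by
  have h2 := sqrt2_sq
  have h3 := cB_sq
  fin_cases i <;> apply two_ext <;>
    simp [reflB, Matrix.mul_apply, Fin.sum_univ_two] <;> nlinarith

lemma csqrt2_sq : ((√2 : ℝ) : ℂ) * ((√2 : ℝ) : ℂ) = 2 := by
  rw [← Complex.ofReal_mul, Real.mul_self_sqrt (by norm_num)]
  norm_num

lemma finC_sq (i : Fin 3) : finC i * finC i = 1 := by
  have h2 := csqrt2_sq
  have hI := Complex.I_mul_I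
  fin_cases i
  · apply two_ext <;> simp [finC, Matrix.mul_apply, Fin.sum_univ_two]
  · apply two_ext <;> simp [finC, Matrix.mul_apply, Fin.sum_univ_two]
  · apply two_ext <;> simp only [finC, Matrix.mul_apply, Fin.sum_univ_two]
    · simp
      linear_combination (1 / 4 : ℂ) * (1 - Complex.I * Complex.I) * h2 - (1 / 2 : ℂ) * hI
    · simp
    · simp
    · simp
      linear_combination (1 / 4 : ℂ) * (1 - Complex.I * Complex.I) * h2 - (1 / 2 : ℂ) * hI

lemma finB_sq (i : Fin 3) : finB i * finB i = 1 := by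
  have h2 := csqrt2_sq
  have hI := Complex.I_mul_I
  fin_cases i
  · apply two_ext <;> simp [finB, Matrix.mul_apply, Fin.sum_univ_two]
  · apply two_ext <;> simp [finB, Matrix.mul_apply, Fin.sum_univ_two]
  · apply two_ext <;> simp only [finB, Matrix.mul_apply, Fin.sum_univ_two]
    · simp
      linear_combination (-1 / 4 : ℂ) * Complex.I * Complex.I * h2 - (1 / 2 : ℂ) * hI
    · simp
      ring
    · simp
      ring
    · simp
      linear_combination (-1 / 4 : ℂ) * Complex.I * Complex.I * h2 - (1 / 2 : ℂ) * hI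

lemma reflC_det (i : Fin 3) : (reflC i).det = -1 := by
  have h2 := sqrt2_sq
  have h3 := sqrt3_sq
  rw [Matrix.det_fin_two]
  fin_cases i
  · simp [reflC]
  · simp [reflC]
  · simp [reflC]
    nlinarith

lemma reflB_det (i : Fin 3) : (reflB i).det = -1 := by
  have h2 := sqrt2_sq
  have h3 := cB_sq
  rw [Matrix.det_fin_two]
  fin_cases i <;> simp [reflB] <;> nlinarith

lemma finC_det (i : Fin 3) : (finC i).det = -1 := by
  have h2 := csqrt2_sq
  have hI := Complex.I_mul_I
  rw [Matrix.det_fin_two]
  fin_cases i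
  · simp [finC]
  · simp [finC]
  · simp [finC]
    linear_combination (1 / 4 : ℂ) * (1 - Complex.I * Complex.I) * h2 - (1 / 2 : ℂ) * hI

lemma finB_det (i : Fin 3) : (finB i).det = -1 := by
  have h2 := csqrt2_sq
  have hI := Complex.I_mul_I
  rw [Matrix.det_fin_two]
  fin_cases i <;> simp [finB]
  linear_combination (1 / 4 : ℂ) * Complex.I * Complex.I * h2 + (1 / 2 : ℂ) * hI

/-- the Fuchsian representation of `Tri 2 4 6` -/
noncomputable def PhiC : Tri 2 4 6 →* GL (Fin 2) ℝ :=
  Tri.lift (s := fun i => (⟨reflC i, reflC i, reflC_sq i, reflC_sq i⟩ : GL (Fin 2) ℝ)) (z := -1)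
    (triRel_units reflC reflC_sq (-1) (by simp) (by simp)
      (by
        rw [quad_pow2]
        · simp
        · apply two_ext <;> simp [reflC, Matrix.mul_apply, Fin.sum_univ_two])
      (by
        rw [quad_pow4 (t := √2)]
        · simp
        · nlinarith [sqrt2_sq]
        · apply quad_mul (reflC_det 1) (reflC_det 2)
          simp [reflC]
          ring)
      (by
        rw [quad_pow6 (t := √3)]
        · simp
        · nlinarith [sqrt3_sq]
        · apply quad_mul (reflC_det 0) (reflC_det 2)
          simp [reflC]))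

/-- the Fuchsian representation of `Tri 4 3 3` -/
noncomputable def PhiB : Tri 4 3 3 →* GL (Fin 2) ℝ :=
  Tri.lift (s := fun i => (⟨reflB i, reflB i, reflB_sq i, reflB_sq i⟩ : GL (Fin 2) ℝ)) (z := -1)
    (triRel_units reflB reflB_sq (-1) (by simp) (by simp)
      (by
        rw [quad_pow4 (t := -√2)]
        · simp
        · nlinarith [sqrt2_sq]
        · apply quad_mul (reflB_det 0) (reflB_det 1)
          simp [reflB]
          ring)
      (by
        rw [quad_pow3 (t := 1)]
        · simp
        · norm_num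
        · apply quad_mul (reflB_det 1) (reflB_det 2)
          simp [reflB]
          nlinarith [sqrt2_sq])
      (by
        rw [quad_pow3 (t := 1)]
        · simp
        · norm_num
        · apply quad_mul (reflB_det 0) (reflB_det 2)
          simp [reflB]
          norm_num))

/-- a finite representation of `Tri 2 4 6` -/
noncomputable def EtaC : Tri 2 4 6 →* GL (Fin 2) ℂ :=
  Tri.lift (s := fun i => (⟨finC i, finC i, finC_sq i, finC_sq i⟩ : GL (Fin 2) ℂ)) (z := -1)
    (triRel_units finC finC_sq (-1) (by simp) (by simp)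
      (by
        rw [quad_pow2]
        · simp
        · apply two_ext <;> simp [finC, Matrix.mul_apply, Fin.sum_univ_two])
      (by
        rw [quad_pow4 (t := -((√2 : ℝ) : ℂ))]
        · simp
        · linear_combination csqrt2_sq
        · apply quad_mul (finC_det 1) (finC_det 2)
          simp [finC]
          ring)
      (by
        have h2' : (finC 0 * finC 2) ^ 2 = -1 := by
          rw [quad_pow2]
          have := quad_mul (t := 0) (finC_det 0) (finC_det 2) (by simp [finC])
          rw [this]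
          simp
        have h6 : (finC 0 * finC 2) ^ 6 = ((finC 0 * finC 2) ^ 2) ^ 3 := by rw [← pow_mul]
        rw [h6, h2', Odd.neg_one_pow (by decide)]
        simp))

/-- a finite representation of `Tri 4 3 3` -/
noncomputable def EtaB : Tri 4 3 3 →* GL (Fin 2) ℂ :=
  Tri.lift (s := fun i => (⟨finB i, finB i, finB_sq i, finB_sq i⟩ : GL (Fin 2) ℂ)) (z := 1)
    (triRel_units finB finB_sq 1 (by simp) (by simp)
      (by
        have h2' : (finB 0 * finB 1) ^ 2 = -1 := by
          rw [quad_pow2]
          apply two_ext <;> simp [finB, Matrix.mul_apply, Fin.sum_univ_two]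
        have h6 : (finB 0 * finB 1) ^ 4 = ((finB 0 * finB 1) ^ 2) ^ 2 := by rw [← pow_mul]
        rw [h6, h2', Even.neg_one_pow (by decide)]
        simp)
      (by
        rw [quad_pow3 (t := -1)]
        · simp
        · norm_num
        · apply quad_mul (finB_det 1) (finB_det 2)
          simp [finB]
          ring)
      (by
        rw [quad_pow3 (t := -1)]
        · simp
        · norm_num
        · apply quad_mul (finB_det 0) (finB_det 2)
          simp [finB]
          norm_num))

end Pool.Agent.Hhelper63.AnT
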