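import Pool.Agent.Hhelper63.AnT.Gap
import Pool.Agent.Hhelper63.AnT.Surf

/-!
Finiteness and discreteness from a certificate.

PROOF. `fin_of_cert`: if the entries of `Φ g` are bounded by `K` then those of `P g` are bounded by
`K'`; as `det (P g) = 1`, also the entries of the inverse are bounded (adjugate), so all singular
values of `P g` lie between two positive constants and `sv (P g) k / sv (P g) (k + 1) ≤ K''`.
With `gap_of_cert` and `HasWord`, `C r ^ m ≤ K''`, so `m` is bounded, and so is the length of the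
word `w0 ++ u ++ d` (edge labels have bounded length), so `g` lies in a finite set.
`disc_of_fin`: a subgroup of `SL(2, ℝ)` whose intersection with every bounded set is finite is
discrete: the identity is isolated in the range.
-/

namespace Pool.Agent.Hhelper63.AnT

open Pool.Agent.Hhelper67.Anosov

/-- a matrix with bounded entries is bounded on Euclidean space -/
theorem lat_norm_le {A : M4} {K : ℝ} (hA : ∀ i j, ‖A i j‖ ≤ K) (x : EuclideanSpace ℂ (Fin 4)) :
    ‖Matrix.toEuclideanLin A x‖ ≤ 8 * K * ‖x‖ := by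
  have hK : 0 ≤ K := (norm_nonneg _).trans (hA 0 0)
  have h1 := gap_n2_mulVec_le A x.ofLp
  have h2 : ∑ i, (∑ j, ‖A i j‖) ^ 2 ≤ 64 * K ^ 2 := by
    have h3 : ∀ i, (∑ j, ‖A i j‖) ^ 2 ≤ (4 * K) ^ 2 := by
      intro i
      have h4 : ∑ j, ‖A i j‖ ≤ ∑ _j : Fin 4, K := Finset.sum_le_sum fun j _ => hA i j
      simp only [Finset.sum_const, Finset.card_univ, Fintype.card_fin, nsmul_eq_mul] at h4
      exact pow_le_pow_left₀ (Finset.sum_nonneg fun j _ => norm_nonneg _) (by exact_mod_cast h4) 2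
    calc ∑ i, (∑ j, ‖A i j‖) ^ 2 ≤ ∑ _i : Fin 4, (4 * K) ^ 2 := Finset.sum_le_sum fun i _ => h3 i
      _ = 64 * K ^ 2 := by
        simp only [Finset.sum_const, Finset.card_univ, Fintype.card_fin, nsmul_eq_mul]
        push_cast
        ring
  refine abs_le_of_sq_le_sq' ?_ (by positivity) |>.2
  rw [mul_pow, gap_norm_map_sq, gap_norm_sq]
  have h5 := h1.trans (mul_le_mul_of_nonneg_right h2 (gap_n2_nonneg x.ofLp))
  linarith

/-- the entries of the adjugate are bounded -/
theorem lat_adj_le {A : M4} {K : ℝ} (hK : 1 ≤ K) (hA : ∀ i j, ‖A i j‖ ≤ K) (i j : Fin 4) :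
    ‖A.adjugate i j‖ ≤ 24 * K ^ 4 := by
  rw [Matrix.adjugate_apply]
  have h1 := Matrix.det_le (A := A.updateRow j (Pi.single i 1))
    (abv := (NormedField.toAbsoluteValue ℂ)) (x := K) (by
      intro k l
      show ‖A.updateRow j (Pi.single i 1) k l‖ ≤ K
      rw [Matrix.updateRow_apply]
      split_ifs with h
      · by_cases hl : l = i
        · subst hl
          simpa using hK
        · rw [Pi.single_eq_of_ne hl]
          simp only [norm_zero]
          linarith
      · exact hA k l)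
  have h2 : ‖(A.updateRow j (Pi.single i 1)).det‖ ≤
      Nat.factorial (Fintype.card (Fin 4)) • K ^ Fintype.card (Fin 4) := h1
  simpa [Nat.factorial] using h2

/-- the ratio of singular values is bounded -/
theorem lat_ratio {k : ℕ} (hk : 1 ≤ k) (hk3 : k ≤ 3) (K : ℝ) (hK : 1 ≤ K) : ∃ M : ℝ, ∀ A : SL4,
    (∀ i j, ‖A.1 i j‖ ≤ K) → sv A k / sv A (k + 1) ≤ M := by
  refine ⟨8 * K * (8 * (24 * K ^ 4)), fun A hA => ?_⟩
  have hfin : Module.finrank ℂ (EuclideanSpace ℂ (Fin 4)) = 4 := by simp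
  have h1 : sv A k ≤ 8 * K :=
    Pool.Agent.Hhelper63.Anosov.singularValue_le _ ⊤ (by rw [hfin]; omega)
      (by rw [finrank_top, hfin]; omega) fun x _ => lat_norm_le hA x
  have hM : 0 < 8 * (24 * K ^ 4) := by positivity
  have h2 : 1 / (8 * (24 * K ^ 4)) ≤ sv A (k + 1) := by
    refine Pool.Agent.Hhelper63.Anosov.le_singularValue _ ⊤ (by
      rw [finrank_top, hfin]; omega) fun x _ => ?_
    have h3 := lat_norm_le (fun i j => lat_adj_le hK hA i j) (Matrix.toEuclideanLin A.1 x)
    have h4 : Matrix.toEuclideanLin A.1.adjugate (Matrix.toEuclideanLin A.1 x) = x := by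
      apply (WithLp.linearEquiv 2 ℂ (Fin 4 → ℂ)).injective
      show A.1.adjugate.mulVec (A.1.mulVec x.ofLp) = x.ofLp
      rw [Matrix.mulVec_mulVec, Matrix.adjugate_mul, A.2, one_smul, Matrix.one_mulVec]
    rw [h4] at h3
    rw [one_div, inv_mul_le_iff₀ hM]
    exact h3
  have h5 : 0 < sv A (k + 1) := lt_of_lt_of_le (by positivity) h2
  rw [div_le_iff₀ h5]
  have h6 : 1 ≤ 8 * (24 * K ^ 4) * sv A (k + 1) := by
    rw [div_le_iff₀ hM] at h2
    linarith
  calc sv A k ≤ 8 * K * 1 := by linarith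
    _ ≤ 8 * K * (8 * (24 * K ^ 4) * sv A (k + 1)) :=
        mul_le_mul_of_nonneg_left h6 (by positivity)
    _ = _ := by ring

theorem lat_syl_length {E : List Edge} {L : ℕ} (hL : ∀ e ∈ E, e.d.length ≤ L)
    {q : ℕ} {u : List (Fin 3)} {q' m : ℕ} (h : Syl E q u q' m) : u.length ≤ m * (L + 1) := by
  induction h with
  | nil q => simp
  | cons e he w q' n _ ih =>
    have := hL e he
    simp only [List.length_append, List.length_cons]
    nlinarith

theorem lat_map_ev {a b c : ℕ} (P : Tri a b c →* SL4) (w : List (Fin 3)) :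
    (P (ev Tri.s w)).1 = ev (fun i => (P (Tri.s i)).1) w := by
  induction w with
  | nil => simp [ev]
  | cons i w ih =>
    have h1 : ev (Tri.s (k := a) (l := b) (m := c)) (i :: w) = Tri.s i * ev Tri.s w := by
      simp [ev]
    rw [h1, map_mul, gap_ev_cons, ← ih]
    rfl

theorem fin_of_cert {a b c N k : ℕ} {E : List Edge} (hk : 1 ≤ k)
    (hk3 : k ≤ 3) (hw : ∀ g : Tri a b c, HasWord E N g)
    (Φ : Tri a b c →* GL (Fin 2) ℝ) (P : Tri a b c →* SL4) (hz : (P Tri.z).1 = -1)
    (hu : ∀ i : Fin 3, i ≠ 2 → (P (Tri.s i)).1.conjTranspose * (P (Tri.s i)).1 = 1)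
    (hc : CertAt N E k (fun i => (P (Tri.s i)).1))
    (hb : ∀ K : ℝ, ∃ K' : ℝ, ∀ g, (∀ i j, |(Φ g).1 i j| ≤ K) → ∀ i j, ‖(P g).1 i j‖ ≤ K')
    (K : ℝ) : {g : Tri a b c | ∀ i j, |(Φ g).1 i j| ≤ K}.Finite := by
  obtain ⟨K', hK'⟩ := hb K
  have hS : ∀ i, (P (Tri.s i)).1 * (P (Tri.s i)).1 = 1 := by
    intro i
    have h1 := congrArg P ((Tri.rel a b c).sq i)
    rw [map_mul, map_one] at h1
    exact congrArg Subtype.val h1
  obtain ⟨C, r, hC, hr, hgap⟩ := gap_of_cert hk hk3 hS hu hc
  obtain ⟨M, hM⟩ := lat_ratio hk hk3 (max K' 1) (le_max_right _ _)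
  obtain ⟨m0, hm0⟩ := pow_unbounded_of_one_lt (M / C) hr
  set L : ℕ := (E.map fun e => e.d.length).sum with hLdef
  have hL : ∀ e ∈ E, e.d.length ≤ L := fun e he =>
    List.single_le_sum (by intro x _; exact Nat.zero_le x) _ (List.mem_map.2 ⟨e, he, rfl⟩)
  set T : Set (List (Fin 3)) := {w | w.length ≤ 5 + m0 * (L + 1) + 5} with hT
  have hTf : T.Finite := List.finite_length_le (Fin 3) _
  refine ((hTf.image fun w => ev (Tri.s (k := a) (l := b) (m := c)) w).union
    (hTf.image fun w => Tri.z * ev (Tri.s (k := a) (l := b) (m := c)) w)).subset ?_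
  intro g hg
  obtain ⟨w0, u, d, q, m, hw0, hd, hd2, hsyl, hq, hgw⟩ := hw g
  have hA : (P g).1 = ev (fun i => (P (Tri.s i)).1) (w0 ++ u ++ d) ∨
      (P g).1 = -ev (fun i => (P (Tri.s i)).1) (w0 ++ u ++ d) := by
    rcases hgw with h | h
    · left
      rw [h, lat_map_ev]
    · right
      rw [h, map_mul]
      show (P Tri.z).1 * (P (ev Tri.s (w0 ++ u ++ d))).1 = _
      rw [hz, lat_map_ev, neg_mul, one_mul]
  have h1 := hgap w0 u d q m hw0 hd hd2 hsyl hq (P g) hA
  have h2 := hM (P g) fun i j => (hK' g hg i j).trans (le_max_left _ _)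
  have h3 : r ^ m < r ^ m0 := by
    refine lt_of_le_of_lt ?_ hm0
    rw [le_div_iff₀ hC]
    linarith
  have h4 : m < m0 := (pow_lt_pow_iff_right₀ hr).1 h3
  have hlen : (w0 ++ u ++ d) ∈ T := by
    have h5 := lat_syl_length hL hsyl
    have h6 : m * (L + 1) ≤ m0 * (L + 1) := Nat.mul_le_mul_right _ h4.le
    simp only [hT, Set.mem_ofPred_eq, List.length_append]
    omega
  rcases hgw with h | h
  · exact Or.inl ⟨_, hlen, h.symm⟩
  · exact Or.inr ⟨_, hlen, h.symm⟩

theorem disc_of_fin {Γ G : Type*} [Group Γ] [Group G] (Φ : G →* GL (Fin 2) ℝ)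
    (hfin : ∀ K : ℝ, {g : G | ∀ i j, |(Φ g).1 i j| ≤ K}.Finite)
    (ι : Γ →* G) (φ : Γ →* X) (hφ : ∀ γ, (φ γ).1 = (Φ (ι γ)).1) :
    DiscreteTopology φ.range := by
  classical
  have hcont : ∀ i j, Continuous fun x : φ.range => ((x : X).1 i j : ℝ) := by
    intro i j
    have h1 : Continuous fun x : X => x.1 := continuous_subtype_val
    have h2 : Continuous fun x : X => x.1 i j := (continuous_apply j).comp ((continuous_apply i).comp h1)
    exact h2.comp continuous_subtype_val
  set U : Set φ.range := {x | ∀ i j, |((x : X).1 i j : ℝ)| < 2} with hU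
  have hUo : IsOpen U := by
    have : U = ⋂ i, ⋂ j, {x : φ.range | |((x : X).1 i j : ℝ)| < 2} := by
      ext x
      simp [hU]
    rw [this]
    refine isOpen_iInter_of_finite fun i => isOpen_iInter_of_finite fun j => ?_
    exact isOpen_lt (continuous_abs.comp (hcont i j)) continuous_const
  have hUf : U.Finite := by
    have hF := hfin 2
    have h1 : (Set.range fun g : {g : G | ∀ i j, |(Φ g).1 i j| ≤ 2} => (Φ g.1).1).Finite := by
      have := hF.to_subtype
      exact Set.finite_range _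
    refine Set.Finite.of_finite_image (f := fun x : φ.range => (x : X).1) (h1.subset ?_) ?_
    · rintro _ ⟨x, hx, rfl⟩
      obtain ⟨γ, hγ⟩ := x.2
      refine ⟨⟨ι γ, fun i j => ?_⟩, ?_⟩
      · rw [← hφ, hγ]
        exact (hx i j).le
      · show (Φ (ι γ)).1 = (x : X).1
        rw [← hφ, hγ]
    · intro x _ y _ hxy
      exact Subtype.ext (Subtype.ext hxy)
  have h1U : (1 : φ.range) ∈ U := by
    intro i j
    show |((1 : X).1 i j : ℝ)| < 2
    rw [Matrix.SpecialLinearGroup.coe_one, Matrix.one_apply]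
    split_ifs <;> norm_num
  have hsing : IsOpen ({1} : Set φ.range) := by
    have h2 : ({1} : Set φ.range) = U \ (U \ {1}) := by
      ext x
      simp only [Set.mem_singleton_iff, Set.mem_sdiff, not_and, not_not]
      constructor
      · rintro rfl
        exact ⟨h1U, fun _ => rfl⟩
      · rintro ⟨h3, h4⟩
        exact h4 h3
    rw [h2]
    exact hUo.sdiff (hUf.subset Set.sdiff_subset).isClosed
  exact discreteTopology_of_isOpen_singleton_one hsing

end Pool.Agent.Hhelper63.AnT
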