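import Pool.Agent.Hhelper63.AnT.Conj
import Pool.Agent.Hhelper67.Anosov.Milnor

/-!
The Fuchsian points are Anosov, and the property of lying in one component only depends on the
component of the Fuchsian representation.

PROOF. `rho4_anosov` etc.: as `rho3_anosov` in `Hhelper67.Anosov.Member`. For `g ∈ SL(2, ℝ)` use the
Cartan decomposition `g = k₁ diag(t, 1/t) k₂` with `t ≥ 1` (or compare norms: with
`n = nm g = t² + t⁻²`) to see that the singular values of `Sym³ g` in the given basis are, up to a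
constant factor, `t³, t, t⁻¹, t⁻³`; those of `g ⊕ g` are `t, t, t⁻¹, t⁻¹`; those of the third one
are `t, 1, 1, t⁻¹`; then use `milnor` (`C exp (c |γ|) ≤ nm (φ γ)`). (For the Cartan decomposition
see `Milnor.exists_chain`, or use min-max with explicit subspaces: for `Sym³`, `Sym³ k` for a
rotation `k` lies in a bounded set of matrices, and `Sym³ (diag (t, 1/t))` is diagonal.)

Transport: the map `F φ = rho4 φ` from `fuchs Γ` to the Anosov set is continuous (entries are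
polynomials in the entries of `φ γ`), so it maps the connected component of `φ₀` in `fuchs Γ` into
the connected component of `rho4 φ₀`; the same for the other one. Note that elements of
`connectedComponentIn (fuchs Γ) φ₀` are homomorphisms.
-/

namespace Pool.Agent.Hhelper63.AnT

open Pool.Agent.Hhelper67.Anosov

variable {Γ : Type*} [Group Γ]

/-! ### Cartan decomposition in `SL(2, ℝ)` -/

/-- rotation -/
noncomputable def mK (α : ℝ) : X := ⟨!![Real.cos α, -Real.sin α; Real.sin α, Real.cos α], by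
  rw [Matrix.det_fin_two_of]
  have := Real.cos_sq_add_sin_sq α
  linarith⟩

/-- diagonal matrix -/
noncomputable def mD (t : ℝ) (h : t ≠ 0) : X := ⟨!![t, 0; 0, t⁻¹], by
  rw [Matrix.det_fin_two_of, mul_zero, sub_zero, mul_inv_cancel₀ h]⟩

lemma mK_inv (α : ℝ) : (mK α)⁻¹ = mK (-α) := by
  apply Subtype.ext
  rw [Matrix.SpecialLinearGroup.coe_inv, Matrix.adjugate_fin_two]
  simp [mK]

lemma cartan (g : X) : ∃ (α β t : ℝ) (h : t ≠ 0), 1 ≤ t ∧ nm g ≤ 2 * t ^ 2 ∧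
    g = mK α * mD t h * mK β := by
  have hdet := det_X g
  set a := g 0 0 with ha
  set b := g 0 1 with hb
  set c := g 1 0 with hc
  set d := g 1 1 with hd
  set u : ℂ := ⟨a + d, c - b⟩ with hu
  set v : ℂ := ⟨a - d, c + b⟩ with hv
  have e1 : a + d = ‖u‖ * Real.cos u.arg := (Complex.norm_mul_cos_arg u).symm
  have e2 : c - b = ‖u‖ * Real.sin u.arg := (Complex.norm_mul_sin_arg u).symm
  have e3 : a - d = ‖v‖ * Real.cos v.arg := (Complex.norm_mul_cos_arg v).symm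
  have e4 : c + b = ‖v‖ * Real.sin v.arg := (Complex.norm_mul_sin_arg v).symm
  have n1 : ‖u‖ ^ 2 = (a + d) ^ 2 + (c - b) ^ 2 := by
    rw [Complex.sq_norm, Complex.normSq_mk]
    ring
  have n2 : ‖v‖ ^ 2 = (a - d) ^ 2 + (c + b) ^ 2 := by
    rw [Complex.sq_norm, Complex.normSq_mk]
    ring
  have hv0 : 0 ≤ ‖v‖ := norm_nonneg v
  have hu0 : 0 ≤ ‖u‖ := norm_nonneg u
  have hprod : (‖u‖ + ‖v‖) / 2 * ((‖u‖ - ‖v‖) / 2) = 1 := by
    nlinarith
  have ht0 : (‖u‖ + ‖v‖) / 2 ≠ 0 := by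
    intro h0
    rw [h0, zero_mul] at hprod
    exact zero_ne_one hprod
  have htinv : ((‖u‖ + ‖v‖) / 2)⁻¹ = (‖u‖ - ‖v‖) / 2 := by
    exact inv_eq_of_mul_eq_one_right hprod
  set α := (u.arg + v.arg) / 2 with hα
  set β := (u.arg - v.arg) / 2 with hβ
  have a1 : u.arg = α + β := by rw [hα, hβ]; ring
  have a2 : v.arg = α - β := by rw [hα, hβ]; ring
  rw [a1, Real.cos_add] at e1
  rw [a1, Real.sin_add] at e2
  rw [a2, Real.cos_sub] at e3
  rw [a2, Real.sin_sub] at e4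
  refine ⟨α, β, (‖u‖ + ‖v‖) / 2, ht0, ?_, ?_, ?_⟩
  · by_contra hlt
    push Not at hlt
    have h1 : 0 < (‖u‖ + ‖v‖) / 2 := lt_of_le_of_ne (by positivity) (Ne.symm ht0)
    nlinarith
  · have h1 : nm g = (‖u‖ ^ 2 + ‖v‖ ^ 2) / 2 := by
      unfold nm
      rw [n1, n2]
      ring
    rw [h1]
    nlinarith
  · apply Subtype.ext
    have hg : g.1 = !![a, b; c, d] := by
      ext i j
      fin_cases i <;> fin_cases j <;> rfl
    rw [hg, Matrix.SpecialLinearGroup.coe_mul, Matrix.SpecialLinearGroup.coe_mul]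
    simp only [mK, mD, Matrix.mul_fin_two, htinv]
    ext i j
    fin_cases i <;> fin_cases j
    · show a = _
      simp
      linarith
    · show b = _
      simp
      linarith
    · show c = _
      simp
      linarith
    · show d = _
      simp
      linarith

/-! ### Norms in dimension four -/

/-- `ℂ⁴` -/
abbrev V4 := EuclideanSpace ℂ (Fin 4)

/-- the linear map of a matrix -/
noncomputable def mL (A : M4) : V4 →ₗ[ℂ] V4 := Matrix.toEuclideanLin A

lemma mL_apply (A : M4) (x : V4) : mL A x = WithLp.toLp 2 (A.mulVec (WithLp.ofLp x)) := rfl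

lemma mL_mul (A B : M4) (x : V4) : mL (A * B) x = mL A (mL B x) := by
  rw [mL_apply, mL_apply, mL_apply, ← Matrix.mulVec_mulVec]

lemma mL_one (x : V4) : mL 1 x = x := by
  rw [mL_apply, Matrix.one_mulVec]

lemma mL_coord (A : M4) (x : V4) (i : Fin 4) : mL A x i = ∑ j, A i j * x j := rfl

lemma norm_mL_le {A : M4} {m : ℝ} (hm : ∀ i j, ‖A i j‖ ≤ m) (x : V4) :
    ‖mL A x‖ ≤ 8 * m * ‖x‖ := by
  have hm0 : 0 ≤ m := (norm_nonneg _).trans (hm 0 0)
  have h1 : ∀ i, ‖mL A x i‖ ≤ 4 * m * ‖x‖ := by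
    intro i
    rw [mL_coord]
    refine (norm_sum_le _ _).trans ?_
    have h2 : ∀ j ∈ (Finset.univ : Finset (Fin 4)), ‖A i j * x j‖ ≤ m * ‖x‖ := fun j _ => by
      rw [norm_mul]
      exact mul_le_mul (hm i j) (PiLp.norm_apply_le x j) (norm_nonneg _) hm0
    refine (Finset.sum_le_sum h2).trans ?_
    rw [Finset.sum_const, Finset.card_univ, Fintype.card_fin, nsmul_eq_mul]
    push_cast
    linarith
  have h2 : ‖mL A x‖ ^ 2 ≤ (8 * m * ‖x‖) ^ 2 := by
    rw [EuclideanSpace.norm_sq_eq]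
    have h3 : ∀ i ∈ (Finset.univ : Finset (Fin 4)), ‖mL A x i‖ ^ 2 ≤ (4 * m * ‖x‖) ^ 2 :=
      fun i _ => pow_le_pow_left₀ (norm_nonneg _) (h1 i) 2
    refine (Finset.sum_le_sum h3).trans ?_
    rw [Finset.sum_const, Finset.card_univ, Fintype.card_fin, nsmul_eq_mul]
    push_cast
    apply le_of_eq
    ring
  exact le_of_sq_le_sq h2 (by positivity)

/-- bounded matrices with bounded inverses -/
structure Bd (K : SL4) : Prop where
  le : ∀ x, ‖mL K.1 x‖ ≤ 24 * ‖x‖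
  ge : ∀ x, ‖mL K⁻¹.1 x‖ ≤ 24 * ‖x‖

lemma mL_inv_apply (K : SL4) (x : V4) : mL K⁻¹.1 (mL K.1 x) = x := by
  rw [← mL_mul, ← Matrix.SpecialLinearGroup.coe_mul, inv_mul_cancel,
    Matrix.SpecialLinearGroup.coe_one, mL_one]

lemma mL_apply_inv (K : SL4) (x : V4) : mL K.1 (mL K⁻¹.1 x) = x := by
  rw [← mL_mul, ← Matrix.SpecialLinearGroup.coe_mul, mul_inv_cancel,
    Matrix.SpecialLinearGroup.coe_one, mL_one]

/-- coordinate subspaces -/
noncomputable def ext4 (I : Finset (Fin 4)) : (I → ℂ) →ₗ[ℂ] V4 where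
  toFun c := WithLp.toLp 2 (fun i => if h : i ∈ I then c ⟨i, h⟩ else 0)
  map_add' c c' := by
    ext i
    by_cases h : i ∈ I
    · simp [h]
    · simp [h]
  map_smul' r c := by
    ext i
    by_cases h : i ∈ I
    · simp [h]
    · simp [h]

lemma ext4_apply (I : Finset (Fin 4)) (c : I → ℂ) (i : Fin 4) :
    ext4 I c i = if h : i ∈ I then c ⟨i, h⟩ else 0 := rfl

lemma ext4_inj (I : Finset (Fin 4)) : Function.Injective (ext4 I) := by
  intro c c' h
  funext i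
  have h1 := congrArg (fun y : V4 => y i.1) h
  simp only [ext4_apply] at h1
  rw [dif_pos i.2, dif_pos i.2] at h1
  exact h1

/-- the subspace -/
noncomputable def sub4 (K : SL4) (I : Finset (Fin 4)) : Submodule ℂ V4 :=
  LinearMap.range ((mL K⁻¹.1).comp (ext4 I))

lemma finrank_sub4 (K : SL4) (I : Finset (Fin 4)) : Module.finrank ℂ (sub4 K I) = I.card := by
  have hinj : Function.Injective ((mL K⁻¹.1).comp (ext4 I)) := by
    rw [LinearMap.coe_comp]
    refine Function.Injective.comp ?_ (ext4_inj I)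
    intro x y h
    have := congrArg (mL K.1) h
    rwa [mL_apply_inv, mL_apply_inv] at this
  unfold sub4
  rw [LinearMap.finrank_range_of_inj hinj, Module.finrank_fintype_fun_eq_card, Fintype.card_coe]

lemma norm_diag_ge {d : Fin 4 → ℂ} {I : Finset (Fin 4)} {m : ℝ} (hm0 : 0 ≤ m)
    (hm : ∀ i ∈ I, m ≤ ‖d i‖) (c : I → ℂ) :
    m * ‖ext4 I c‖ ≤ ‖mL (Matrix.diagonal d) (ext4 I c)‖ := by
  refine le_of_sq_le_sq ?_ (norm_nonneg _)
  rw [mul_pow, EuclideanSpace.norm_sq_eq, EuclideanSpace.norm_sq_eq, Finset.mul_sum]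
  refine Finset.sum_le_sum fun i _ => ?_
  have h1 : mL (Matrix.diagonal d) (ext4 I c) i = d i * ext4 I c i := by
    rw [mL_apply]
    show (Matrix.diagonal d).mulVec _ i = _
    rw [Matrix.mulVec_diagonal]
  rw [h1, norm_mul, mul_pow]
  by_cases hi : i ∈ I
  · exact mul_le_mul_of_nonneg_right (pow_le_pow_left₀ hm0 (hm i hi) 2) (by positivity)
  · rw [ext4_apply, dif_neg hi]
    simp

lemma norm_diag_le {d : Fin 4 → ℂ} {I : Finset (Fin 4)} {m : ℝ} (hm0 : 0 ≤ m)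
    (hm : ∀ i ∈ I, ‖d i‖ ≤ m) (c : I → ℂ) :
    ‖mL (Matrix.diagonal d) (ext4 I c)‖ ≤ m * ‖ext4 I c‖ := by
  refine le_of_sq_le_sq ?_ (by positivity)
  rw [mul_pow, EuclideanSpace.norm_sq_eq, EuclideanSpace.norm_sq_eq, Finset.mul_sum]
  refine Finset.sum_le_sum fun i _ => ?_
  have h1 : mL (Matrix.diagonal d) (ext4 I c) i = d i * ext4 I c i := by
    rw [mL_apply]
    show (Matrix.diagonal d).mulVec _ i = _
    rw [Matrix.mulVec_diagonal]
  rw [h1, norm_mul, mul_pow]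
  by_cases hi : i ∈ I
  · exact mul_le_mul_of_nonneg_right (pow_le_pow_left₀ (norm_nonneg _) (hm i hi) 2) (by positivity)
  · rw [ext4_apply, dif_neg hi]
    simp

lemma finrank_V4 : Module.finrank ℂ V4 = 4 := by simp

lemma sv_lower {K₁ D K₂ : SL4} (h₁ : Bd K₁) (h₂ : Bd K₂) {d : Fin 4 → ℂ}
    (hD : D.1 = Matrix.diagonal d) {I : Finset (Fin 4)} {k : ℕ} (hk : k < I.card) {m : ℝ}
    (hm0 : 0 ≤ m) (hm : ∀ i ∈ I, m ≤ ‖d i‖) :
    m / 576 ≤ (Matrix.toEuclideanLin (K₁ * D * K₂).1).singularValues k := by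
  apply Pool.Agent.Hhelper63.Anosov.le_singularValue _ (sub4 K₂ I)
  · rw [finrank_sub4]
    exact hk
  · rintro _ ⟨c, rfl⟩
    set y := ext4 I c with hy
    have e1 : ((mL K₂⁻¹.1).comp (ext4 I)) c = mL K₂⁻¹.1 y := rfl
    rw [e1]
    have e2 : (Matrix.toEuclideanLin (K₁ * D * K₂).1) (mL K₂⁻¹.1 y) =
        mL K₁.1 (mL (Matrix.diagonal d) y) := by
      show mL (K₁ * D * K₂).1 (mL K₂⁻¹.1 y) = _
      rw [Matrix.SpecialLinearGroup.coe_mul, Matrix.SpecialLinearGroup.coe_mul, mL_mul,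
        mL_apply_inv, mL_mul, hD]
    rw [e2]
    have h3 := h₂.ge y
    have h4 := norm_diag_ge hm0 hm c
    have h5 := h₁.ge (mL K₁.1 (mL (Matrix.diagonal d) y))
    rw [mL_inv_apply] at h5
    rw [← hy] at h4
    nlinarith [mul_le_mul_of_nonneg_left h3 hm0]

lemma sv_upper {K₁ D K₂ : SL4} (h₁ : Bd K₁) (h₂ : Bd K₂) {d : Fin 4 → ℂ}
    (hD : D.1 = Matrix.diagonal d) {I : Finset (Fin 4)} {k : ℕ} (hk4 : k < 4)
    (hk : 4 ≤ I.card + k) {m : ℝ}
    (hm0 : 0 ≤ m) (hm : ∀ i ∈ I, ‖d i‖ ≤ m) :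
    (Matrix.toEuclideanLin (K₁ * D * K₂).1).singularValues k ≤ 576 * m := by
  apply Pool.Agent.Hhelper63.Anosov.singularValue_le _ (sub4 K₂ I)
  · rw [finrank_V4]
    exact hk4
  · rw [finrank_V4, finrank_sub4]
    exact hk
  · rintro _ ⟨c, rfl⟩
    set y := ext4 I c with hy
    have e1 : ((mL K₂⁻¹.1).comp (ext4 I)) c = mL K₂⁻¹.1 y := rfl
    rw [e1]
    have e2 : (Matrix.toEuclideanLin (K₁ * D * K₂).1) (mL K₂⁻¹.1 y) =
        mL K₁.1 (mL (Matrix.diagonal d) y) := by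
      show mL (K₁ * D * K₂).1 (mL K₂⁻¹.1 y) = _
      rw [Matrix.SpecialLinearGroup.coe_mul, Matrix.SpecialLinearGroup.coe_mul, mL_mul,
        mL_apply_inv, mL_mul, hD]
    rw [e2]
    have h3 := h₂.le (mL K₂⁻¹.1 y)
    rw [mL_apply_inv] at h3
    have h4 := norm_diag_le hm0 hm c
    have h5 := h₁.le (mL (Matrix.diagonal d) y)
    rw [← hy] at h4
    nlinarith [mul_le_mul_of_nonneg_left h3 hm0]

/-- the gap -/
lemma gap4 {K₁ D K₂ : SL4} (h₁ : Bd K₁) (h₂ : Bd K₂) {d : Fin 4 → ℂ}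
    (hD : D.1 = Matrix.diagonal d) {I J : Finset (Fin 4)} {k : ℕ} (hk0 : 1 ≤ k) (hk4 : k < 4)
    (hI : k ≤ I.card) (hJ : 4 ≤ J.card + k) {m₀ m₁ m₂ : ℝ} (hm₀ : 0 < m₀) (hm₁ : 0 ≤ m₁)
    (hm₂ : 0 < m₂) (hd₀ : ∀ i, m₀ ≤ ‖d i‖) (hd₁ : ∀ i ∈ I, m₁ ≤ ‖d i‖)
    (hd₂ : ∀ i ∈ J, ‖d i‖ ≤ m₂) :
    m₁ / m₂ / 331776 ≤ sv (K₁ * D * K₂) k / sv (K₁ * D * K₂) (k + 1) := by
  have e1 : sv (K₁ * D * K₂) k =
      (Matrix.toEuclideanLin (K₁ * D * K₂).1).singularValues (k - 1) := rfl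
  have e2 : sv (K₁ * D * K₂) (k + 1) =
      (Matrix.toEuclideanLin (K₁ * D * K₂).1).singularValues k := rfl
  have l1 := sv_lower h₁ h₂ hD (I := I) (k := k - 1) (by omega) hm₁ hd₁
  have l0 := sv_lower h₁ h₂ hD (I := Finset.univ) (k := k) (by simpa using hk4) hm₀.le
    (fun i _ => hd₀ i)
  have l2 := sv_upper h₁ h₂ hD (I := J) hk4 hJ hm₂.le hd₂
  rw [← e1] at l1
  rw [← e2] at l0 l2
  have hpos : 0 < sv (K₁ * D * K₂) (k + 1) := lt_of_lt_of_le (by positivity) l0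
  rw [le_div_iff₀ hpos]
  refine le_trans ?_ l1
  calc m₁ / m₂ / 331776 * sv (K₁ * D * K₂) (k + 1) ≤ m₁ / m₂ / 331776 * (576 * m₂) := by
        apply mul_le_mul_of_nonneg_left l2
        positivity
    _ = m₁ / 576 := by
        field_simp
        norm_num

lemma norm_toC4 (A : Matrix.SpecialLinearGroup (Fin 4) ℝ) (i j : Fin 4) :
    ‖(toC4 A).1 i j‖ = |A.1 i j| := by
  change ‖((A.1 i j : ℝ) : ℂ)‖ = _
  rw [Complex.norm_real, Real.norm_eq_abs]

lemma bd_of {R : X →* Matrix.SpecialLinearGroup (Fin 4) ℝ}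
    (hR : ∀ α i j, |(R (mK α)).1 i j| ≤ 3) (α : ℝ) : Bd (toC4 (R (mK α))) := by
  constructor
  · intro x
    have := norm_mL_le (A := (toC4 (R (mK α))).1) (m := 3)
      (fun i j => by rw [norm_toC4]; exact hR α i j) x
    linarith
  · intro x
    rw [← map_inv, ← map_inv, mK_inv]
    have := norm_mL_le (A := (toC4 (R (mK (-α)))).1) (m := 3)
      (fun i j => by rw [norm_toC4]; exact hR (-α) i j) x
    linarith

lemma abs3 {x y z : ℝ} (hx : |x| ≤ 1) (hy : |y| ≤ 1) (hz : |z| ≤ 1) : |x * y * z| ≤ 1 := by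
  rw [abs_mul, abs_mul]
  calc |x| * |y| * |z| ≤ 1 * 1 * 1 := by gcongr
    _ = 1 := by norm_num

lemma sym3_bd (α : ℝ) (i j : Fin 4) : |(sym3X (mK α)).1 i j| ≤ 3 := by
  have hc : |Real.cos α| ≤ 1 := Real.abs_cos_le_one α
  have hs : |Real.sin α| ≤ 1 := Real.abs_sin_le_one α
  have e1 := abs_le.1 (abs3 hc hc hc)
  have e2 := abs_le.1 (abs3 hc hc hs)
  have e3 := abs_le.1 (abs3 hc hs hs)
  have e4 := abs_le.1 (abs3 hs hs hs)
  have h : (sym3X (mK α)).1 = sym3 (mK α).1 := rfl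
  rw [h, abs_le]
  fin_cases i <;> fin_cases j <;> simp [sym3, mK] <;> constructor <;> nlinarith

lemma dbl_bd (α : ℝ) (i j : Fin 4) : |(dblX (mK α)).1 i j| ≤ 3 := by
  have hc := abs_le.1 (Real.abs_cos_le_one α)
  have hs := abs_le.1 (Real.abs_sin_le_one α)
  have h : (dblX (mK α)).1 = dbl (mK α).1 := rfl
  rw [h, abs_le]
  fin_cases i <;> fin_cases j <;> simp [dbl, mK] <;> constructor <;> linarith

lemma outer_bd (α : ℝ) (i j : Fin 4) : |(outerX (mK α)).1 i j| ≤ 3 := by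
  have hc := abs_le.1 (Real.abs_cos_le_one α)
  have hs := abs_le.1 (Real.abs_sin_le_one α)
  have h : (outerX (mK α)).1 = outer (mK α).1 := rfl
  rw [h, abs_le]
  fin_cases i <;> fin_cases j <;> simp [outer, mK] <;>
    (try constructor) <;> linarith

lemma sym3_diag (t : ℝ) (ht : t ≠ 0) : (toC4 (sym3X (mD t ht))).1 =
    Matrix.diagonal ![((t ^ 3 : ℝ) : ℂ), ((t : ℝ) : ℂ), ((t⁻¹ : ℝ) : ℂ), ((t⁻¹ ^ 3 : ℝ) : ℂ)] := by
  have h : (toC4 (sym3X (mD t ht))).1 = (sym3 (mD t ht).1).map Complex.ofRealHom := rfl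
  rw [h]
  have e1 : t ^ 2 * t⁻¹ = t := by field_simp
  ext i j
  have ht' : (t : ℂ) ≠ 0 := by exact_mod_cast ht
  fin_cases i <;> fin_cases j <;> simp [sym3, mD, e1]
  field_simp

lemma dbl_diag (t : ℝ) (ht : t ≠ 0) : (toC4 (dblX (mD t ht))).1 =
    Matrix.diagonal ![((t : ℝ) : ℂ), ((t⁻¹ : ℝ) : ℂ), ((t : ℝ) : ℂ), ((t⁻¹ : ℝ) : ℂ)] := by
  have h : (toC4 (dblX (mD t ht))).1 = (dbl (mD t ht).1).map Complex.ofRealHom := rfl
  rw [h]
  ext i j
  fin_cases i <;> fin_cases j <;> simp [dbl, mD]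

lemma outer_diag (t : ℝ) (ht : t ≠ 0) : (toC4 (outerX (mD t ht))).1 =
    Matrix.diagonal ![((t : ℝ) : ℂ), 1, 1, ((t⁻¹ : ℝ) : ℂ)] := by
  have h : (toC4 (outerX (mD t ht))).1 = (outer (mD t ht).1).map Complex.ofRealHom := rfl
  rw [h]
  ext i j
  fin_cases i <;> fin_cases j <;> simp [outer, mD]

lemma cosh_bd {t x : ℝ} (ht : 1 ≤ t) (hx : x ≤ 2 * t ^ 2) : x / 2 ≤ t / t⁻¹ := by
  have h0 : t ≠ 0 := by linarith
  rw [div_inv_eq_mul]
  linarith

lemma gaps_sym3 (g : X) (k : ℕ) (hk : k ∈ ({1, 2, 3} : Set ℕ)) :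
    nm g / 663552 ≤ sv (toC4 (sym3X g)) k / sv (toC4 (sym3X g)) (k + 1) := by
  obtain ⟨α, β, t, ht0, ht, hnm, hg⟩ := cartan g
  have hpos : 0 < t := by linarith
  have hi : 0 < t⁻¹ := inv_pos.2 hpos
  have hi1 : t⁻¹ ≤ 1 := inv_le_one_of_one_le₀ ht
  have hi3 : t⁻¹ ^ 3 ≤ t⁻¹ := by
    calc t⁻¹ ^ 3 ≤ t⁻¹ ^ 1 := pow_le_pow_of_le_one hi.le hi1 (by norm_num)
      _ = t⁻¹ := pow_one _
  have ht3 : t ≤ t ^ 3 := by
    calc t = t ^ 1 := (pow_one _).symm
      _ ≤ t ^ 3 := pow_le_pow_right₀ ht (by norm_num)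
  have n0 : ‖((t ^ 3 : ℝ) : ℂ)‖ = t ^ 3 := by
    rw [Complex.norm_real, Real.norm_of_nonneg (by positivity)]
  have n1 : ‖((t : ℝ) : ℂ)‖ = t := by
    rw [Complex.norm_real, Real.norm_of_nonneg (by positivity)]
  have n2 : ‖((t⁻¹ : ℝ) : ℂ)‖ = t⁻¹ := by
    rw [Complex.norm_real, Real.norm_of_nonneg (by positivity)]
  have n3 : ‖((t⁻¹ ^ 3 : ℝ) : ℂ)‖ = t⁻¹ ^ 3 := by
    rw [Complex.norm_real, Real.norm_of_nonneg (by positivity)]
  have hR : toC4 (sym3X g) = toC4 (sym3X (mK α)) * toC4 (sym3X (mD t ht0)) *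
      toC4 (sym3X (mK β)) := by
    rw [hg]
    simp only [map_mul]
  rw [hR]
  have hb := bd_of sym3_bd
  have hd₀ : ∀ i, t⁻¹ ^ 3 ≤ ‖(![((t ^ 3 : ℝ) : ℂ), ((t : ℝ) : ℂ), ((t⁻¹ : ℝ) : ℂ),
      ((t⁻¹ ^ 3 : ℝ) : ℂ)] : Fin 4 → ℂ) i‖ := by
    intro i
    fin_cases i
    · show _ ≤ ‖((t ^ 3 : ℝ) : ℂ)‖
      rw [n0]
      linarith
    · show _ ≤ ‖((t : ℝ) : ℂ)‖
      rw [n1]
      linarith
    · show _ ≤ ‖((t⁻¹ : ℝ) : ℂ)‖
      rw [n2]
      linarith
    · show _ ≤ ‖((t⁻¹ ^ 3 : ℝ) : ℂ)‖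
      rw [n3]
  have hm₀ : 0 < t⁻¹ ^ 3 := by positivity
  simp only [Set.mem_insert_iff, Set.mem_singleton_iff] at hk
  rcases hk with rfl | rfl | rfl
  · have h := gap4 (hb α) (hb β) (sym3_diag t ht0) (I := {0}) (J := {1, 2, 3}) (k := 1)
      (m₁ := t ^ 3) (m₂ := t) le_rfl (by norm_num) (by decide) (by decide) hm₀ (by positivity)
      hpos hd₀ (by
        intro i hi'
        rw [Finset.mem_singleton] at hi'
        subst hi'
        show _ ≤ ‖((t ^ 3 : ℝ) : ℂ)‖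
        rw [n0]) (by
        intro i hi'
        fin_cases i
        · exact absurd hi' (by decide)
        · show ‖((t : ℝ) : ℂ)‖ ≤ _
          rw [n1]
        · show ‖((t⁻¹ : ℝ) : ℂ)‖ ≤ _
          rw [n2]
          linarith
        · show ‖((t⁻¹ ^ 3 : ℝ) : ℂ)‖ ≤ _
          rw [n3]
          linarith)
    refine le_trans ?_ h
    have : t ^ 3 / t = t ^ 2 := by field_simp
    rw [this]
    linarith
  · have h := gap4 (hb α) (hb β) (sym3_diag t ht0) (I := {0, 1}) (J := {2, 3}) (k := 2)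
      (m₁ := t) (m₂ := t⁻¹) (by norm_num) (by norm_num) (by decide) (by decide) hm₀
      (by positivity) hi hd₀ (by
        intro i hi'
        fin_cases i
        · show _ ≤ ‖((t ^ 3 : ℝ) : ℂ)‖
          rw [n0]
          linarith
        · show _ ≤ ‖((t : ℝ) : ℂ)‖
          rw [n1]
        · exact absurd hi' (by decide)
        · exact absurd hi' (by decide)) (by
        intro i hi'
        fin_cases i
        · exact absurd hi' (by decide)
        · exact absurd hi' (by decide)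
        · show ‖((t⁻¹ : ℝ) : ℂ)‖ ≤ _
          rw [n2]
        · show ‖((t⁻¹ ^ 3 : ℝ) : ℂ)‖ ≤ _
          rw [n3]
          linarith)
    refine le_trans ?_ h
    have := cosh_bd ht hnm
    linarith
  · have h := gap4 (hb α) (hb β) (sym3_diag t ht0) (I := {0, 1, 2}) (J := {3}) (k := 3)
      (m₁ := t⁻¹) (m₂ := t⁻¹ ^ 3) (by norm_num) (by norm_num) (by decide) (by decide) hm₀
      (by positivity) hm₀ hd₀ (by
        intro i hi'
        fin_cases i
        · show _ ≤ ‖((t ^ 3 : ℝ) : ℂ)‖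
          rw [n0]
          linarith
        · show _ ≤ ‖((t : ℝ) : ℂ)‖
          rw [n1]
          linarith
        · show _ ≤ ‖((t⁻¹ : ℝ) : ℂ)‖
          rw [n2]
        · exact absurd hi' (by decide)) (by
        intro i hi'
        rw [Finset.mem_singleton] at hi'
        subst hi'
        show ‖((t⁻¹ ^ 3 : ℝ) : ℂ)‖ ≤ _
        rw [n3])
    refine le_trans ?_ h
    have : t⁻¹ / t⁻¹ ^ 3 = t ^ 2 := by field_simp
    rw [this]
    linarith

lemma gaps_dbl (g : X) (k : ℕ) (hk : k ∈ ({2} : Set ℕ)) :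
    nm g / 663552 ≤ sv (toC4 (dblX g)) k / sv (toC4 (dblX g)) (k + 1) := by
  obtain ⟨α, β, t, ht0, ht, hnm, hg⟩ := cartan g
  have hpos : 0 < t := by linarith
  have hi : 0 < t⁻¹ := inv_pos.2 hpos
  have hi1 : t⁻¹ ≤ 1 := inv_le_one_of_one_le₀ ht
  have n1 : ‖((t : ℝ) : ℂ)‖ = t := by
    rw [Complex.norm_real, Real.norm_of_nonneg (by positivity)]
  have n2 : ‖((t⁻¹ : ℝ) : ℂ)‖ = t⁻¹ := by
    rw [Complex.norm_real, Real.norm_of_nonneg (by positivity)]
  have hR : toC4 (dblX g) = toC4 (dblX (mK α)) * toC4 (dblX (mD t ht0)) *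
      toC4 (dblX (mK β)) := by
    rw [hg]
    simp only [map_mul]
  rw [hR]
  have hb := bd_of dbl_bd
  rw [Set.mem_singleton_iff] at hk
  subst hk
  have h := gap4 (hb α) (hb β) (dbl_diag t ht0) (I := {0, 2}) (J := {1, 3}) (k := 2)
    (m₀ := t⁻¹) (m₁ := t) (m₂ := t⁻¹) (by norm_num) (by norm_num) (by decide) (by decide) hi
    (by positivity) hi (by
      intro i
      fin_cases i
      · show _ ≤ ‖((t : ℝ) : ℂ)‖
        rw [n1]
        linarith
      · show _ ≤ ‖((t⁻¹ : ℝ) : ℂ)‖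
        rw [n2]
      · show _ ≤ ‖((t : ℝ) : ℂ)‖
        rw [n1]
        linarith
      · show _ ≤ ‖((t⁻¹ : ℝ) : ℂ)‖
        rw [n2]) (by
      intro i hi'
      fin_cases i
      · show _ ≤ ‖((t : ℝ) : ℂ)‖
        rw [n1]
      · exact absurd hi' (by decide)
      · show _ ≤ ‖((t : ℝ) : ℂ)‖
        rw [n1]
      · exact absurd hi' (by decide)) (by
      intro i hi'
      fin_cases i
      · exact absurd hi' (by decide)
      · show ‖((t⁻¹ : ℝ) : ℂ)‖ ≤ _
        rw [n2]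
      · exact absurd hi' (by decide)
      · show ‖((t⁻¹ : ℝ) : ℂ)‖ ≤ _
        rw [n2])
  refine le_trans ?_ h
  have := cosh_bd ht hnm
  linarith

lemma sqrt_bd {t x : ℝ} (ht : 1 ≤ t) (hx : x ≤ 2 * t ^ 2) : Real.sqrt x / 2 ≤ t := by
  have h1 : Real.sqrt x ≤ 2 * t := by
    rw [Real.sqrt_le_left (by linarith)]
    nlinarith
  linarith

lemma gaps_outer (g : X) (k : ℕ) (hk : k ∈ ({1, 3} : Set ℕ)) :
    Real.sqrt (nm g) / 663552 ≤ sv (toC4 (outerX g)) k / sv (toC4 (outerX g)) (k + 1) := by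
  obtain ⟨α, β, t, ht0, ht, hnm, hg⟩ := cartan g
  have hpos : 0 < t := by linarith
  have hi : 0 < t⁻¹ := inv_pos.2 hpos
  have hi1 : t⁻¹ ≤ 1 := inv_le_one_of_one_le₀ ht
  have n1 : ‖((t : ℝ) : ℂ)‖ = t := by
    rw [Complex.norm_real, Real.norm_of_nonneg (by positivity)]
  have n2 : ‖((t⁻¹ : ℝ) : ℂ)‖ = t⁻¹ := by
    rw [Complex.norm_real, Real.norm_of_nonneg (by positivity)]
  have n3 : ‖(1 : ℂ)‖ = 1 := norm_one
  have hR : toC4 (outerX g) = toC4 (outerX (mK α)) * toC4 (outerX (mD t ht0)) *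
      toC4 (outerX (mK β)) := by
    rw [hg]
    simp only [map_mul]
  rw [hR]
  have hb := bd_of outer_bd
  have hs := sqrt_bd ht hnm
  have hd₀ : ∀ i, t⁻¹ ≤ ‖(![((t : ℝ) : ℂ), 1, 1, ((t⁻¹ : ℝ) : ℂ)] : Fin 4 → ℂ) i‖ := by
    intro i
    fin_cases i
    · show _ ≤ ‖((t : ℝ) : ℂ)‖
      rw [n1]
      linarith
    · show _ ≤ ‖(1 : ℂ)‖
      rw [n3]
      exact hi1
    · show _ ≤ ‖(1 : ℂ)‖
      rw [n3]
      exact hi1
    · show _ ≤ ‖((t⁻¹ : ℝ) : ℂ)‖
      rw [n2]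
  simp only [Set.mem_insert_iff, Set.mem_singleton_iff] at hk
  rcases hk with rfl | rfl
  · have h := gap4 (hb α) (hb β) (outer_diag t ht0) (I := {0}) (J := {1, 2, 3}) (k := 1)
      (m₁ := t) (m₂ := 1) le_rfl (by norm_num) (by decide) (by decide) hi (by positivity)
      one_pos hd₀ (by
        intro i hi'
        rw [Finset.mem_singleton] at hi'
        subst hi'
        show _ ≤ ‖((t : ℝ) : ℂ)‖
        rw [n1]) (by
        intro i hi'
        fin_cases i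
        · exact absurd hi' (by decide)
        · show ‖(1 : ℂ)‖ ≤ _
          rw [n3]
        · show ‖(1 : ℂ)‖ ≤ _
          rw [n3]
        · show ‖((t⁻¹ : ℝ) : ℂ)‖ ≤ _
          rw [n2]
          exact hi1)
    refine le_trans ?_ h
    rw [div_one]
    linarith
  · have h := gap4 (hb α) (hb β) (outer_diag t ht0) (I := {0, 1, 2}) (J := {3}) (k := 3)
      (m₁ := 1) (m₂ := t⁻¹) (by norm_num) (by norm_num) (by decide) (by decide) hi
      zero_le_one hi hd₀ (by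
        intro i hi'
        fin_cases i
        · show _ ≤ ‖((t : ℝ) : ℂ)‖
          rw [n1]
          exact ht
        · show _ ≤ ‖(1 : ℂ)‖
          rw [n3]
        · show _ ≤ ‖(1 : ℂ)‖
          rw [n3]
        · exact absurd hi' (by decide)) (by
        intro i hi'
        rw [Finset.mem_singleton] at hi'
        subst hi'
        show ‖((t⁻¹ : ℝ) : ℂ)‖ ≤ _
        rw [n2])
    refine le_trans ?_ h
    rw [one_div, inv_inv]
    linarith

theorem rho4_anosov {φ : Γ →* X} (S : Finset Γ) (hS : Subgroup.closure (S : Set Γ) = ⊤)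
    (hφ : ⇑φ ∈ fuchs Γ) : IsAnosov S {1, 2, 3} (rho4 φ) := by
  obtain ⟨φ', ⟨hinj, hdisc, hcoc⟩, he⟩ := hφ
  have he' : φ' = φ := DFunLike.coe_injective he
  subst he'
  obtain ⟨C, c, hC, hc, h⟩ := milnor hinj hdisc hcoc hS
  refine ⟨C / 663552, c, by positivity, hc, fun γ k hk => ?_⟩
  refine le_trans ?_ (gaps_sym3 (φ' γ) k hk)
  have := h γ
  rw [div_mul_eq_mul_div]
  gcongr

theorem rho22_anosov {φ : Γ →* X} (S : Finset Γ) (hS : Subgroup.closure (S : Set Γ) = ⊤)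
    (hφ : ⇑φ ∈ fuchs Γ) : IsAnosov S {2} (rho22 φ) := by
  obtain ⟨φ', ⟨hinj, hdisc, hcoc⟩, he⟩ := hφ
  have he' : φ' = φ := DFunLike.coe_injective he
  subst he'
  obtain ⟨C, c, hC, hc, h⟩ := milnor hinj hdisc hcoc hS
  refine ⟨C / 663552, c, by positivity, hc, fun γ k hk => ?_⟩
  refine le_trans ?_ (gaps_dbl (φ' γ) k hk)
  have := h γ
  rw [div_mul_eq_mul_div]
  gcongr

theorem rho211_anosov {φ : Γ →* X} (S : Finset Γ) (hS : Subgroup.closure (S : Set Γ) = ⊤)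
    (hφ : ⇑φ ∈ fuchs Γ) : IsAnosov S {1, 3} (rho211 φ) := by
  obtain ⟨φ', ⟨hinj, hdisc, hcoc⟩, he⟩ := hφ
  have he' : φ' = φ := DFunLike.coe_injective he
  subst he'
  obtain ⟨C, c, hC, hc, h⟩ := milnor hinj hdisc hcoc hS
  refine ⟨Real.sqrt C / 663552, c / 2, by positivity, by positivity, fun γ k hk => ?_⟩
  refine le_trans ?_ (gaps_outer (φ' γ) k hk)
  have h1 := Real.sqrt_le_sqrt (h γ)
  rw [Real.sqrt_mul hC.le] at h1
  have h2 : Real.sqrt (Real.exp (c * wordLen S γ)) = Real.exp (c / 2 * wordLen S γ) := by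
    rw [← Real.exp_half]
    congr 1
    ring
  rw [h2] at h1
  rw [div_mul_eq_mul_div]
  gcongr

lemma sym3_J (g : Matrix (Fin 2) (Fin 2) ℂ) :
    (sym3 g).transpose * J4 * sym3 g = (g 0 0 * g 1 1 - g 0 1 * g 1 0) ^ 3 • J4 := by
  ext i j
  fin_cases i <;> fin_cases j <;>
    simp [sym3, J4, Matrix.mul_apply, Fin.sum_univ_four] <;> ring

lemma outer_J (g : Matrix (Fin 2) (Fin 2) ℂ) (hg : g 0 0 * g 1 1 - g 0 1 * g 1 0 = 1) :
    (outer g).transpose * J4 * outer g = J4 := by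
  ext i j
  fin_cases i <;> fin_cases j <;>
    simp [outer, J4, Matrix.mul_apply, Fin.sum_univ_four] <;>
    first | linear_combination hg | linear_combination (-1 : ℂ) * hg | ring

lemma sym3_map (g : Matrix (Fin 2) (Fin 2) ℝ) :
    (sym3 g).map Complex.ofRealHom = sym3 (g.map Complex.ofRealHom) := by
  ext i j
  fin_cases i <;> fin_cases j <;> simp [sym3]

lemma outer_map (g : Matrix (Fin 2) (Fin 2) ℝ) :
    (outer g).map Complex.ofRealHom = outer (g.map Complex.ofRealHom) := by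
  ext i j
  fin_cases i <;> fin_cases j <;> simp [outer]

lemma det_map_X (g : X) : (g.1.map Complex.ofRealHom) 0 0 * (g.1.map Complex.ofRealHom) 1 1 -
    (g.1.map Complex.ofRealHom) 0 1 * (g.1.map Complex.ofRealHom) 1 0 = 1 := by
  have h := congrArg (fun x : ℝ => (x : ℂ)) (det_X g)
  simpa using h

theorem rho4_sp (φ : Γ →* X) (γ : Γ) : (rho4 φ γ).1.transpose * J4 * (rho4 φ γ).1 = J4 := by
  have h : (rho4 φ γ).1 = sym3 ((φ γ).1.map Complex.ofRealHom) := sym3_map (φ γ).1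
  rw [h, sym3_J, det_map_X, one_pow, one_smul]

theorem rho211_sp (φ : Γ →* X) (γ : Γ) :
    (rho211 φ γ).1.transpose * J4 * (rho211 φ γ).1 = J4 := by
  have h : (rho211 φ γ).1 = outer ((φ γ).1.map Complex.ofRealHom) := outer_map (φ γ).1
  rw [h]
  exact outer_J _ (det_map_X _)

lemma cont_rep {R : X → SL4} (h : ∀ i j, Continuous fun g => (R g).1 i j) : Continuous R := by
  apply Continuous.subtype_mk
  exact continuous_matrix h

lemma cont_entry (i j : Fin 2) : Continuous fun g : X => g.1 i j :=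
  (continuous_subtype_val).matrix_elem i j

lemma cont_sym3 : Continuous fun g : X => toC4 (sym3X g) := by
  apply cont_rep
  intro i j
  have h : (fun g : X => (toC4 (sym3X g)).1 i j) = fun g : X => ((sym3 g.1 i j : ℝ) : ℂ) := rfl
  rw [h]
  apply Complex.continuous_ofReal.comp
  have c00 := cont_entry 0 0
  have c01 := cont_entry 0 1
  have c10 := cont_entry 1 0
  have c11 := cont_entry 1 1
  fin_cases i <;> fin_cases j <;> simp only [sym3] <;> simp <;> fun_prop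

lemma cont_dbl : Continuous fun g : X => toC4 (dblX g) := by
  apply cont_rep
  intro i j
  have h : (fun g : X => (toC4 (dblX g)).1 i j) = fun g : X => ((dbl g.1 i j : ℝ) : ℂ) := rfl
  rw [h]
  apply Complex.continuous_ofReal.comp
  have c00 := cont_entry 0 0
  have c01 := cont_entry 0 1
  have c10 := cont_entry 1 0
  have c11 := cont_entry 1 1
  fin_cases i <;> fin_cases j <;> simp only [dbl] <;> simp <;> fun_prop

lemma cont_outer : Continuous fun g : X => toC4 (outerX g) := by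
  apply cont_rep
  intro i j
  have h : (fun g : X => (toC4 (outerX g)).1 i j) = fun g : X => ((outer g.1 i j : ℝ) : ℂ) := rfl
  rw [h]
  apply Complex.continuous_ofReal.comp
  have c00 := cont_entry 0 0
  have c01 := cont_entry 0 1
  have c10 := cont_entry 1 0
  have c11 := cont_entry 1 1
  fin_cases i <;> fin_cases j <;> simp only [outer] <;> simp <;> fun_prop

/-- the image of a component under a continuous map of representations -/
lemma comp_image {R : X →* SL4} (hR : Continuous R) {A : Set (Γ → SL4)}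
    (hA : ∀ φ : Γ →* X, ⇑φ ∈ fuchs Γ → ⇑(R.comp φ) ∈ A) {φ₀ φ : Γ →* X}
    (hφ : ⇑φ ∈ connectedComponentIn (fuchs Γ) ⇑φ₀) :
    ⇑(R.comp φ) ∈ connectedComponentIn A ⇑(R.comp φ₀) := by
  have h0 : ⇑φ₀ ∈ fuchs Γ := by
    by_contra h
    rw [connectedComponentIn_eq_empty h] at hφ
    exact hφ
  let F : (Γ → X) → (Γ → SL4) := fun f γ => R (f γ)
  have hF : Continuous F := continuous_pi fun γ => hR.comp (continuous_apply γ)
  have h1 : IsPreconnected (F '' connectedComponentIn (fuchs Γ) ⇑φ₀) :=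
    isPreconnected_connectedComponentIn.image F hF.continuousOn
  have h2 : F '' connectedComponentIn (fuchs Γ) ⇑φ₀ ⊆ A := by
    rintro _ ⟨f, hf, rfl⟩
    obtain ⟨ψ, hψ, rfl⟩ := connectedComponentIn_subset _ _ hf
    exact hA ψ ⟨ψ, hψ, rfl⟩
  exact h1.subset_connectedComponentIn ⟨⇑φ₀, mem_connectedComponentIn h0, rfl⟩ h2
    ⟨⇑φ, hφ, rfl⟩

lemma anosov_mono {d : ℕ} {S : Finset Γ} {θ θ' : Set ℕ}
    {ρ : Γ →* Matrix.SpecialLinearGroup (Fin d) ℂ} (h : IsAnosov S θ ρ) (hθ : θ' ⊆ θ) :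
    IsAnosov S θ' ρ := by
  obtain ⟨C, c, hC, hc, h⟩ := h
  exact ⟨C, c, hC, hc, fun γ k hk => h γ k (hθ hk)⟩

/-- case (b) for one Fuchsian representation implies case (b) in its component -/
theorem transport_b {S : Finset Γ} (hS : Subgroup.closure (S : Set Γ) = ⊤) {φ₀ φ : Γ →* X}
    (h : ⇑(rho22 φ₀) ∈ connectedComponentIn (anosovSet 4 S {2}) ⇑(rho4 φ₀))
    (hφ : ⇑φ ∈ connectedComponentIn (fuchs Γ) ⇑φ₀) :
    ⇑(rho22 φ) ∈ connectedComponentIn (anosovSet 4 S {2}) ⇑(rho4 φ) := by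
  have h4 := comp_image (R := toC4.comp sym3X) cont_sym3 (A := anosovSet 4 S {2})
    (fun ψ hψ => ⟨rho4 ψ, anosov_mono (rho4_anosov S hS hψ) (by simp), rfl⟩) hφ
  have h22 := comp_image (R := toC4.comp dblX) cont_dbl (A := anosovSet 4 S {2})
    (fun ψ hψ => ⟨rho22 ψ, rho22_anosov S hS hψ, rfl⟩) hφ
  have h4' : ⇑(rho4 φ) ∈ connectedComponentIn (anosovSet 4 S {2}) ⇑(rho4 φ₀) := h4
  have h22' : ⇑(rho22 φ) ∈ connectedComponentIn (anosovSet 4 S {2}) ⇑(rho22 φ₀) := h22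
  rw [← connectedComponentIn_eq h] at h22'
  rw [← connectedComponentIn_eq h4']
  exact h22'

/-- case (c) for one Fuchsian representation implies case (c) in its component -/
theorem transport_c {S : Finset Γ} (hS : Subgroup.closure (S : Set Γ) = ⊤) {φ₀ φ : Γ →* X}
    (h : ⇑(rho211 φ₀) ∈ connectedComponentIn (anosovSp S {1}) ⇑(rho4 φ₀))
    (hφ : ⇑φ ∈ connectedComponentIn (fuchs Γ) ⇑φ₀) :
    ⇑(rho211 φ) ∈ connectedComponentIn (anosovSp S {1}) ⇑(rho4 φ) := by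
  have h4 := comp_image (R := toC4.comp sym3X) cont_sym3 (A := anosovSp S {1})
    (fun ψ hψ => ⟨rho4 ψ, anosov_mono (rho4_anosov S hS hψ) (by simp), rho4_sp ψ, rfl⟩) hφ
  have h22 := comp_image (R := toC4.comp outerX) cont_outer (A := anosovSp S {1})
    (fun ψ hψ => ⟨rho211 ψ, anosov_mono (rho211_anosov S hS hψ) (by simp), rho211_sp ψ, rfl⟩) hφ
  have h4' : ⇑(rho4 φ) ∈ connectedComponentIn (anosovSp S {1}) ⇑(rho4 φ₀) := h4
  have h22' : ⇑(rho211 φ) ∈ connectedComponentIn (anosovSp S {1}) ⇑(rho211 φ₀) := h22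
  rw [← connectedComponentIn_eq h] at h22'
  rw [← connectedComponentIn_eq h4']
  exact h22'

end Pool.Agent.Hhelper63.AnT
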