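import Pool.Agent.Hhelper63.AnT.Gap
import Pool.Agent.Hhelper67.Anosov.Milnor

/-!
From a certificate to the Anosov property.

PROOF. For `γ : Γ` write `ι γ = ev s (w0 u d)` or `z * ev s (w0 u d)` (`HasWord`), `u` the label of
a path with `m` edges. All edge labels in `E` have bounded length (say `≤ L`), so
`(w0 u d).length ≤ 10 + (L + 1) m`. Then `(P (ι γ)).1 = ± ev S (w0 u d)` with
`S i = (P (Tri.s i)).1`, so by `gap_of_cert` the gap is at least `C r^m`. On the other hand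
`(φ γ).1 = (Φ (ι γ)).1` is a product of `(w0 u d).length` matrices from `Φ (s 0), Φ (s 1), Φ (s 2)`
and possibly `Φ z`, so `nm (φ γ) ≤ K^(m + 1)` for some `K > 1` (the squared Frobenius norm is
submultiplicative). By `milnor`, `C' exp (c' |γ|) ≤ nm (φ γ) ≤ K^(m + 1)`, so
`m + 1 ≥ (c' |γ| + log C') / log K`, and `C r^m ≥ C'' exp (c'' |γ|)`.
-/

namespace Pool.Agent.Hhelper63.AnT

open Pool.Agent.Hhelper67.Anosov

namespace OfCertAux

/-- squared Frobenius norm -/
def fro (M : Matrix (Fin 2) (Fin 2) ℝ) : ℝ := M 0 0 ^ 2 + M 0 1 ^ 2 + (M 1 0 ^ 2 + M 1 1 ^ 2)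

lemma fro_nonneg (M : Matrix (Fin 2) (Fin 2) ℝ) : 0 ≤ fro M := by
  unfold fro; positivity

lemma fro_one : fro 1 = 2 := by
  unfold fro
  norm_num

lemma fro_mul (M N : Matrix (Fin 2) (Fin 2) ℝ) : fro (M * N) ≤ fro M * fro N := by
  have cs : ∀ a b c d : ℝ, (a * c + b * d) ^ 2 ≤ (a ^ 2 + b ^ 2) * (c ^ 2 + d ^ 2) := by
    intro a b c d
    nlinarith [sq_nonneg (a * d - b * c)]
  unfold fro
  simp only [Matrix.mul_apply, Fin.sum_univ_two]
  have h1 := cs (M 0 0) (M 0 1) (N 0 0) (N 1 0)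
  have h2 := cs (M 0 0) (M 0 1) (N 0 1) (N 1 1)
  have h3 := cs (M 1 0) (M 1 1) (N 0 0) (N 1 0)
  have h4 := cs (M 1 0) (M 1 1) (N 0 1) (N 1 1)
  linarith

lemma map_ev {G K : Type*} [Group G] [Monoid K] (f : G →* K) (s : Fin 3 → G) (w : List (Fin 3)) :
    f (ev s w) = ev (fun i => f (s i)) w := by
  unfold ev
  rw [map_list_prod, List.map_map]
  rfl

lemma ev_val (P : Fin 3 → SL4) (w : List (Fin 3)) : (ev P w).1 = ev (fun i => (P i).1) w := by
  induction w with
  | nil => simp [ev]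
  | cons a w ih =>
    have h1 : ev P (a :: w) = P a * ev P w := by simp [ev]
    have h2 : ev (fun i => (P i).1) (a :: w) = (P a).1 * ev (fun i => (P i).1) w := by simp [ev]
    rw [h1, h2, ← ih]
    rfl

lemma fro_ev (Φ : Fin 3 → GL (Fin 2) ℝ) {K : ℝ} (hK : ∀ i, fro (Φ i).1 ≤ K) (hK0 : 0 ≤ K)
    (w : List (Fin 3)) : fro (ev Φ w).1 ≤ 2 * K ^ w.length := by
  induction w with
  | nil => simp [ev, fro_one]
  | cons a w ih =>
    have h1 : (ev Φ (a :: w)).1 = (Φ a).1 * (ev Φ w).1 := by simp [ev]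
    rw [h1, List.length_cons, pow_succ]
    refine (fro_mul _ _).trans ((mul_le_mul (hK a) ih (fro_nonneg _) hK0).trans (le_of_eq ?_))
    ring

lemma syl_length {E : List Edge} {L : ℕ} (hL : ∀ e ∈ E, e.d.length ≤ L) {q : ℕ}
    {u : List (Fin 3)} {q' m : ℕ} (h : Syl E q u q' m) : u.length ≤ (L + 1) * m := by
  induction h with
  | nil q => simp
  | cons e he w q' n h ih =>
    have := hL e he
    rw [List.length_append, List.length_cons]
    nlinarith

lemma exists_L (E : List Edge) : ∃ L : ℕ, ∀ e ∈ E, e.d.length ≤ L := by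
  induction E with
  | nil => exact ⟨0, by simp⟩
  | cons e E ih =>
    obtain ⟨L, hL⟩ := ih
    refine ⟨max e.d.length L, ?_⟩
    intro f hf
    rcases List.mem_cons.1 hf with rfl | hf
    · exact le_max_left _ _
    · exact (hL f hf).trans (le_max_right _ _)

end OfCertAux

open OfCertAux

theorem anosov_of_cert {Γ : Type*} [Group Γ] {a b c N k : ℕ} {E : List Edge} (hk : 1 ≤ k)
    (hk3 : k ≤ 3) (hw : ∀ g : Tri a b c, HasWord E N g)
    (Φ : Tri a b c →* GL (Fin 2) ℝ) (P : Tri a b c →* SL4) (hz : (P Tri.z).1 = -1)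
    (hu : ∀ i : Fin 3, i ≠ 2 → (P (Tri.s i)).1.conjTranspose * (P (Tri.s i)).1 = 1)
    (hc : CertAt N E k (fun i => (P (Tri.s i)).1))
    (ι : Γ →* Tri a b c) (φ : Γ →* X)
    (hφ : ∀ γ, (φ γ).1 = (Φ (ι γ)).1)
    (hinj : Function.Injective φ) (hdisc : DiscreteTopology φ.range)
    (hcoc : CompactSpace (X ⧸ φ.range))
    (S : Finset Γ) (hS : Subgroup.closure (S : Set Γ) = ⊤) :
    IsAnosov S {k} (P.comp ι) := by
  have hsq : ∀ i : Fin 3, (P (Tri.s i)).1 * (P (Tri.s i)).1 = 1 := by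
    intro i
    have h1 : P (Tri.s i) * P (Tri.s i) = 1 := by
      rw [← map_mul, (Tri.rel a b c).sq i, map_one]
    have h2 := congrArg Subtype.val h1
    exact h2
  obtain ⟨C, r, hC, hr, hgap⟩ := gap_of_cert hk hk3 hsq hu hc
  obtain ⟨C', c', hC', hc', hmil⟩ := milnor hinj hdisc hcoc hS
  obtain ⟨L, hL⟩ := exists_L E
  set K : ℝ := 2 + ∑ i : Fin 3, fro (Φ (Tri.s i)).1 + fro (Φ Tri.z).1 with hK
  have hsum : 0 ≤ ∑ i : Fin 3, fro (Φ (Tri.s i)).1 := Finset.sum_nonneg fun i _ => fro_nonneg _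
  have hz0 := fro_nonneg (Φ (Tri.z (k := a) (l := b) (m := c))).1
  have hK2 : 2 ≤ K := by rw [hK]; linarith
  have hKi : ∀ i, fro (Φ (Tri.s i)).1 ≤ K := by
    intro i
    have h1 : fro (Φ (Tri.s (k := a) (l := b) (m := c) i)).1 ≤
        ∑ i : Fin 3, fro (Φ (Tri.s i)).1 :=
      Finset.single_le_sum (f := fun i : Fin 3 => fro (Φ (Tri.s i)).1)
        (fun i _ => fro_nonneg _) (Finset.mem_univ i)
    rw [hK]; linarith
  have hKz : fro (Φ (Tri.z (k := a) (l := b) (m := c))).1 ≤ K := by rw [hK]; linarith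
  set A0 : ℝ := 2 * K ^ 11 with hA0
  set B0 : ℝ := K ^ (L + 1) with hB0
  have hA0p : 0 < A0 := by positivity
  have hB01 : 1 < B0 := one_lt_pow₀ (by linarith) (Nat.succ_ne_zero L)
  have hlogB : 0 < Real.log B0 := Real.log_pos hB01
  have hlogr : 0 < Real.log r := Real.log_pos hr
  set β : ℝ := Real.log r / Real.log B0 with hβ
  have hβ0 : 0 < β := div_pos hlogr hlogB
  refine ⟨C * Real.exp (β * Real.log (C' / A0)), β * c', by positivity, by positivity, ?_⟩
  intro γ k' hk'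
  rw [Set.mem_singleton_iff] at hk'
  subst hk'
  obtain ⟨w0, u, d, q, m, hw0, hd, hd2, hsyl, hq, hword⟩ := hw (ι γ)
  have hev : (P (ev Tri.s (w0 ++ u ++ d))).1 =
      ev (fun i => (P (Tri.s i)).1) (w0 ++ u ++ d) := by
    rw [map_ev, ev_val]
  have hA : ((P.comp ι) γ).1 = ev (fun i => (P (Tri.s i)).1) (w0 ++ u ++ d) ∨
      ((P.comp ι) γ).1 = -ev (fun i => (P (Tri.s i)).1) (w0 ++ u ++ d) := by
    rcases hword with h | h
    · left
      rw [MonoidHom.comp_apply, h, hev]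
    · right
      rw [MonoidHom.comp_apply, h, map_mul]
      change (P Tri.z).1 * (P (ev Tri.s (w0 ++ u ++ d))).1 = _
      rw [hz, hev, neg_one_mul]
  have h1 := hgap w0 u d q m hw0 hd hd2 hsyl hq _ hA
  refine le_trans ?_ h1
  -- the norm
  have hlen : (w0 ++ u ++ d).length ≤ 10 + (L + 1) * m := by
    have := syl_length hL hsyl
    rw [List.length_append, List.length_append]
    omega
  have hfro : fro (Φ (ev Tri.s (w0 ++ u ++ d))).1 ≤ 2 * K ^ (10 + (L + 1) * m) := by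
    rw [map_ev]
    refine (fro_ev (fun i => Φ (Tri.s i)) hKi (by linarith) _).trans ?_
    exact mul_le_mul_of_nonneg_left (pow_le_pow_right₀ (by linarith) hlen) (by norm_num)
  have hAB : 2 * K ^ (10 + (L + 1) * m) * K = A0 * B0 ^ m := by
    rw [hA0, hB0, ← pow_mul, pow_add]
    ring
  have hpos10 : 0 ≤ 2 * K ^ (10 + (L + 1) * m) := by positivity
  have hnm : nm (φ γ) ≤ A0 * B0 ^ m := by
    have h2 : nm (φ γ) = fro (Φ (ι γ)).1 := by
      rw [← hφ γ]
      rfl
    rw [h2, ← hAB]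
    rcases hword with h | h
    · rw [h]
      refine hfro.trans ?_
      nlinarith
    · rw [h, map_mul]
      change fro ((Φ Tri.z).1 * (Φ (ev Tri.s (w0 ++ u ++ d))).1) ≤ _
      refine (fro_mul _ _).trans ?_
      rw [mul_comm]
      exact mul_le_mul hfro hKz hz0 hpos10
  have h3 : C' / A0 * Real.exp (c' * wordLen S γ) ≤ B0 ^ m := by
    rw [div_mul_eq_mul_div, div_le_iff₀ hA0p, mul_comm (B0 ^ m)]
    exact (hmil γ).trans hnm
  have h4 : Real.log (C' / A0) + c' * wordLen S γ ≤ m * Real.log B0 := by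
    have h5 := Real.log_le_log (by positivity) h3
    rwa [Real.log_mul (by positivity) (by positivity), Real.log_exp, Real.log_pow] at h5
  have h6 : Real.exp (β * Real.log (C' / A0)) * Real.exp (β * c' * wordLen S γ) ≤ r ^ m := by
    have h7 : r ^ m = Real.exp (m * Real.log r) := by
      rw [← Real.log_pow, Real.exp_log (by positivity)]
    rw [← Real.exp_add, h7]
    refine Real.exp_le_exp.2 ?_
    have h8 : (m : ℝ) * Real.log r = β * (m * Real.log B0) := by
      rw [hβ]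
      field_simp
    rw [h8]
    have h9 := mul_le_mul_of_nonneg_left h4 hβ0.le
    linarith
  calc C * Real.exp (β * Real.log (C' / A0)) * Real.exp (β * c' * wordLen S γ)
      = C * (Real.exp (β * Real.log (C' / A0)) * Real.exp (β * c' * wordLen S γ)) := by ring
    _ ≤ C * r ^ m := mul_le_mul_of_nonneg_left h6 hC.le

end Pool.Agent.Hhelper63.AnT
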