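import Pool.Agent.Hhelper63.AnT.Defs

/-!
Reduced words in the triangle groups `Tri 2 4 6` and `Tri 4 3 3`.

PROOF. Order words by the number `code w` obtained by reading `1 w` in base 3 (this is the shortlex
order). For `g` take a word `w` with `g = ev w` or `g = z * ev w` and with `code w` minimal (the set
of such words is not empty: `g` lies in the closure of the generators, inverses of generators are
generators, and `z` is central). If a factor `x` of `w` can be replaced by `y` with `ev x = ev y` or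
`ev x = z * ev y` and `y` shortlex smaller than `x`, then `code` decreases: contradiction. The rules
`x -> y` (all follow from the relations) are, for `Tri 2 4 6`:
`00 -> e`, `11 -> e`, `22 -> e`, `10 -> z 01`, `2121 -> z 1212`, `21201 -> 12120`,
`202020 -> z 020202`,
and for `Tri 4 3 3`:
`00 -> e`, `11 -> e`, `22 -> e`, `202 -> z 020`, `212 -> z 121`, `1010 -> z 0101`,
`20121 -> 02012`, `21020 -> 12102`, `20120101 -> z 02012010`.
So `w` contains no left-hand side as a factor. If `2` does not occur in `w` then `w` is short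
(length at most 2, respectively at most 4): take `w0 = w`, `u = d = []`. Otherwise `w = w0 2 w'`
with `2` not in `w0`, and `w0` is short. Read `w'` with the automaton whose states are pairs `(q, d)`
of a state `q` and the word `d` read since the last `2`; the state `q` carries the information that
the word read so far has a given suffix, namely, for `Tri 2 4 6`:
state 0: `2`, state 1: `202`, state 2: `20202`, state 3: `212`, and for `Tri 4 3 3`:
state 0: `2`, state 1: `2012`, state 2: `2102`.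
For each state and each letter either the transition exists and the new suffix information follows
from the old one, or a left-hand side of a rule occurs as a suffix: finite check by `decide`.
So `w' = u d` with `Syl E 0 u q n` and `d` a proper beginning of an edge label (length at most 5).
-/

namespace Pool.Agent.Hhelper63.AnT

/-- the word read in base 3, after a leading digit `c` -/
def codeFrom (c : ℕ) (w : List (Fin 3)) : ℕ := w.foldl (fun acc a => 3 * acc + a.val) c

lemma codeFrom_append (c : ℕ) (u v : List (Fin 3)) :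
    codeFrom c (u ++ v) = codeFrom (codeFrom c u) v := by
  simp [codeFrom, List.foldl_append]

lemma codeFrom_lt {c c' : ℕ} (h : c < c') (w : List (Fin 3)) : codeFrom c w < codeFrom c' w := by
  induction w generalizing c c' with
  | nil => simpa [codeFrom] using h
  | cons a w ih =>
    have h1 : 3 * c + a.val < 3 * c' + a.val := by omega
    have := ih h1
    simpa [codeFrom] using this

lemma le_codeFrom {c : ℕ} (h : 1 ≤ c) (w : List (Fin 3)) : 1 ≤ codeFrom c w := by
  induction w generalizing c with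
  | nil => simpa [codeFrom] using h
  | cons a w ih =>
    have h1 : 1 ≤ 3 * c + a.val := by omega
    have := ih h1
    simpa [codeFrom] using this

section Group

variable {k l m : ℕ}

lemma ev_append {K : Type*} [Monoid K] (s : Fin 3 → K) (u v : List (Fin 3)) :
    ev s (u ++ v) = ev s u * ev s v := by
  simp [ev]

lemma z_comm_ev (w : List (Fin 3)) :
    (Tri.z : Tri k l m) * ev Tri.s w = ev Tri.s w * Tri.z := by
  induction w with
  | nil => simp [ev]
  | cons a w ih =>
    have h : ev (Tri.s : Fin 3 → Tri k l m) (a :: w) = Tri.s a * ev Tri.s w := by simp [ev]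
    rw [h, ← mul_assoc, (Tri.rel k l m).comm a, mul_assoc, ih, mul_assoc]

/-- `g` is given by the word `w` up to the central involution -/
def Rep (g : Tri k l m) (w : List (Fin 3)) : Prop :=
  g = ev Tri.s w ∨ g = Tri.z * ev Tri.s w

lemma zz_cancel (x : Tri k l m) : Tri.z * (Tri.z * x) = x := by
  rw [← mul_assoc, (Tri.rel k l m).zz, one_mul]

lemma Rep.mul {g h : Tri k l m} {u v : List (Fin 3)} (hg : Rep g u) (hh : Rep h v) :
    Rep (g * h) (u ++ v) := by
  unfold Rep
  rw [ev_append]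
  rcases hg with rfl | rfl <;> rcases hh with rfl | rfl
  · left; rfl
  · right
    rw [← mul_assoc, ← z_comm_ev, mul_assoc]
  · right
    rw [mul_assoc]
  · left
    rw [← mul_assoc, mul_assoc Tri.z, ← z_comm_ev, ← mul_assoc, (Tri.rel k l m).zz, one_mul]

lemma z_inv : (Tri.z : Tri k l m)⁻¹ = Tri.z := by
  rw [inv_eq_iff_mul_eq_one]
  exact (Tri.rel k l m).zz

lemma s_inv (i : Fin 3) : (Tri.s i : Tri k l m)⁻¹ = Tri.s i := by
  rw [inv_eq_iff_mul_eq_one]
  exact (Tri.rel k l m).sq i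

lemma ev_inv (w : List (Fin 3)) : (ev Tri.s w : Tri k l m)⁻¹ = ev Tri.s w.reverse := by
  induction w with
  | nil => simp [ev]
  | cons a w ih =>
    have h : ev (Tri.s : Fin 3 → Tri k l m) (a :: w) = Tri.s a * ev Tri.s w := by simp [ev]
    rw [h, mul_inv_rev, ih, s_inv, List.reverse_cons, ev_append]
    simp [ev]

lemma exists_rep (g : Tri k l m) : ∃ w, Rep g w := by
  have hg : g ∈ Subgroup.closure (Set.range (PresentedGroup.of (rels := triRels k l m))) := by
    rw [PresentedGroup.closure_range_of]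
    trivial
  refine Subgroup.closure_induction (p := fun g _ => ∃ w, Rep g w) ?_ ?_ ?_ ?_ hg
  · rintro x ⟨i, rfl⟩
    have : i = 0 ∨ i = 1 ∨ i = 2 ∨ i = 3 := by fin_cases i <;> simp
    rcases this with rfl | rfl | rfl | rfl
    · exact ⟨[0], Or.inl (by simp [ev, Tri.s])⟩
    · exact ⟨[1], Or.inl (by simp [ev, Tri.s])⟩
    · exact ⟨[2], Or.inl (by simp [ev, Tri.s])⟩
    · exact ⟨[], Or.inr (by simp [ev, Tri.z])⟩
  · exact ⟨[], Or.inl (by simp [ev])⟩
  · rintro x y _ _ ⟨u, hu⟩ ⟨v, hv⟩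
    exact ⟨u ++ v, hu.mul hv⟩
  · rintro x _ ⟨u, hu⟩
    refine ⟨u.reverse, ?_⟩
    rcases hu with rfl | rfl
    · left
      exact ev_inv u
    · right
      rw [mul_inv_rev, ev_inv, z_inv, z_comm_ev]

end Group

/-- the word `w` has no factor in the list `L` -/
def Avoid (L : List (List (Fin 3))) (w : List (Fin 3)) : Prop := ∀ x ∈ L, ¬ x <:+: w

lemma Avoid.sub {L : List (List (Fin 3))} {w v : List (Fin 3)} (h : Avoid L w)
    (hv : v <:+: w) : Avoid L v := fun x hx hxv => h x hx (hxv.trans hv)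

/-- a rewriting rule -/
def Rule (k l m : ℕ) (x y : List (Fin 3)) : Prop :=
  (∀ c, 1 ≤ c → codeFrom c y < codeFrom c x) ∧ Rep (ev Tri.s x : Tri k l m) y

lemma Rep.trans {k l m : ℕ} {g : Tri k l m} {x y : List (Fin 3)} (h : Rep g x)
    (hx : Rep (ev Tri.s x : Tri k l m) y) : Rep g y := by
  unfold Rep at *
  rcases h with h | h <;> rcases hx with hx | hx
  · left; rw [h, hx]
  · right; rw [h, hx]
  · right; rw [h, hx]
  · left; rw [h, hx, zz_cancel]

lemma exists_avoid {k l m : ℕ} (L : List (List (Fin 3)))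
    (hL : ∀ x ∈ L, ∃ y, Rule k l m x y) (g : Tri k l m) : ∃ w, Rep g w ∧ Avoid L w := by
  obtain ⟨w, hw⟩ := exists_rep g
  induction hn : codeFrom 1 w using Nat.strong_induction_on generalizing w with
  | _ n ih =>
    by_cases hA : Avoid L w
    · exact ⟨w, hw, hA⟩
    · unfold Avoid at hA
      push Not at hA
      obtain ⟨x, hxL, p, q, hpq⟩ := hA
      obtain ⟨y, hy1, hy2⟩ := hL x hxL
      have hrep : Rep g (p ++ y ++ q) := by
        refine Rep.trans hw ?_
        rw [← hpq, ev_append, ev_append]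
        exact (Rep.mul (Or.inl rfl) hy2).mul (Or.inl rfl)
      refine ih (codeFrom 1 (p ++ y ++ q)) ?_ _ hrep rfl
      rw [← hn, ← hpq, codeFrom_append, codeFrom_append, codeFrom_append, codeFrom_append]
      exact codeFrom_lt (hy1 _ (le_codeFrom le_rfl _)) _

/-- reading a word with the automaton -/
lemma syl_of_avoid (L : List (List (Fin 3))) (E : List Edge) (N : ℕ) (c : ℕ → List (Fin 3))
    (D : List (List (Fin 3)))
    (hD : ∀ d, (∀ x ∈ d, x ≠ 2) → Avoid L d → d ∈ D) (hlen : ∀ d ∈ D, d.length ≤ 5)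
    (hstep : ∀ q < N, ∀ d ∈ D, (∃ e ∈ E, e.src = q ∧ e.d = d ∧ e.tgt < N ∧
      c e.tgt <:+ c q ++ (d ++ [2])) ∨ (∃ x ∈ L, x <:+: c q ++ (d ++ [2]))) :
    ∀ (n : ℕ) (v : List (Fin 3)), v.length ≤ n → ∀ q < N, Avoid L (c q ++ v) →
      ∃ (u d : List (Fin 3)) (q' n : ℕ), v = u ++ d ∧ d.length ≤ 5 ∧ (∀ x ∈ d, x ≠ 2) ∧
        Syl E q u q' n ∧ q' < N := by
  intro n
  induction n with
  | zero =>
    intro v hv q hq _
    have hv0 : v = [] := List.length_eq_zero_iff.mp (by omega)
    subst hv0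
    exact ⟨[], [], q, 0, rfl, by simp, by simp, Syl.nil q, hq⟩
  | succ n ih =>
    intro v hv q hq hA
    by_cases h2 : (2 : Fin 3) ∈ v
    · obtain ⟨d, v', hdv, hd2⟩ : ∃ d v', v = d ++ 2 :: v' ∧ (2 : Fin 3) ∉ d := by
        obtain ⟨d, v', h1, h2⟩ := List.eq_append_cons_of_mem h2
        exact ⟨d, v', h1, h2⟩
      have hd2' : ∀ x ∈ d, x ≠ 2 := fun x hx h => hd2 (h ▸ hx)
      have hdD : d ∈ D := hD d hd2' (hA.sub ⟨c q, 2 :: v', by rw [hdv]; simp⟩)
      rcases hstep q hq d hdD with ⟨e, heE, hsrc, hed, htgt, hsuf⟩ | ⟨x, hx, hxi⟩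
      · have hA' : Avoid L (c e.tgt ++ v') := by
          obtain ⟨t, ht⟩ := hsuf
          refine hA.sub ⟨t, [], ?_⟩
          rw [hdv, List.append_nil, ← List.append_assoc, ht]
          simp
        have hlt : v'.length ≤ n := by
          rw [hdv] at hv
          simp at hv
          omega
        obtain ⟨u, d', q', n', h1, h2, h3, h4, h5⟩ := ih v' hlt e.tgt htgt hA'
        refine ⟨d ++ 2 :: u, d', q', n' + 1, ?_, h2, h3, ?_, h5⟩
        · rw [hdv, h1]; simp
        · have := Syl.cons e heE u q' n' h4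
          rw [hsrc, hed] at this
          exact this
      · exfalso
        refine hA x hx (hxi.trans ⟨[], v', ?_⟩)
        rw [hdv]; simp
    · have h2' : ∀ x ∈ v, x ≠ 2 := fun x hx h => h2 (h ▸ hx)
      have hvD : v ∈ D := hD v h2' (hA.sub ⟨c q, [], by simp⟩)
      exact ⟨[], v, q, 0, rfl, hlen v hvD, h2', Syl.nil q, hq⟩

lemma hasWord_of {k l m : ℕ} (L : List (List (Fin 3))) (E : List Edge) (N : ℕ)
    (c : ℕ → List (Fin 3)) (D : List (List (Fin 3)))
    (hL : ∀ x ∈ L, ∃ y, Rule k l m x y) (hN : 0 < N) (hc0 : c 0 = [2])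
    (hD : ∀ d, (∀ x ∈ d, x ≠ 2) → Avoid L d → d ∈ D) (hlen : ∀ d ∈ D, d.length ≤ 4)
    (hstep : ∀ q < N, ∀ d ∈ D, (∃ e ∈ E, e.src = q ∧ e.d = d ∧ e.tgt < N ∧
      c e.tgt <:+ c q ++ (d ++ [2])) ∨ (∃ x ∈ L, x <:+: c q ++ (d ++ [2])))
    (g : Tri k l m) : HasWord E N g := by
  obtain ⟨w, hw, hA⟩ := exists_avoid L hL g
  by_cases h2 : (2 : Fin 3) ∈ w
  · obtain ⟨d, v', hdv, hd2⟩ := List.eq_append_cons_of_mem h2
    have hd2' : ∀ x ∈ d, x ≠ 2 := fun x hx h => hd2 (h ▸ hx)
    have hdD : d ∈ D := hD d hd2' (hA.sub ⟨[], 2 :: v', by rw [hdv]; simp⟩)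
    have hA' : Avoid L (c 0 ++ v') := hA.sub ⟨d, [], by rw [hdv, hc0]; simp⟩
    obtain ⟨u, d', q', n', h1, h2, h3, h4, h5⟩ :=
      syl_of_avoid L E N c D hD (fun d hd => (hlen d hd).trans (by norm_num)) hstep
        v'.length v' le_rfl 0 hN hA'
    refine ⟨d ++ [2], u, d', q', n', ?_, h2, h3, h4, h5, ?_⟩
    · have := hlen d hdD
      simp
      omega
    · have : w = d ++ [2] ++ u ++ d' := by rw [hdv, h1]; simp
      rw [← this]
      exact hw
  · have h2' : ∀ x ∈ w, x ≠ 2 := fun x hx h => h2 (h ▸ hx)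
    have hwD : w ∈ D := hD w h2' hA
    refine ⟨w, [], [], 0, 0, (hlen w hwD).trans (by norm_num), by simp, by simp, Syl.nil 0, hN, ?_⟩
    simpa [Rep] using hw

section Rules

variable {k l m : ℕ}

/-- equality of words up to the central involution -/
def Eqz (k l m : ℕ) (x y : List (Fin 3)) : Prop := Rep (ev Tri.s x : Tri k l m) y

lemma Eqz.refl (x : List (Fin 3)) : Eqz k l m x x := Or.inl rfl

lemma Eqz.trans {x y w : List (Fin 3)} (h : Eqz k l m x y) (h' : Eqz k l m y w) :
    Eqz k l m x w := Rep.trans h h'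

lemma Eqz.symm {x y : List (Fin 3)} (h : Eqz k l m x y) : Eqz k l m y x := by
  rcases h with h | h
  · left; exact h.symm
  · right; rw [h, zz_cancel]

lemma Eqz.congr {x y : List (Fin 3)} (h : Eqz k l m x y) (p q : List (Fin 3)) :
    Eqz k l m (p ++ x ++ q) (p ++ y ++ q) := by
  unfold Eqz
  rw [ev_append, ev_append]
  exact (Rep.mul (Or.inl rfl) h).mul (Or.inl rfl)

lemma eqz_sq (i : Fin 3) : Eqz k l m [i, i] [] := by
  left
  simp [ev, (Tri.rel k l m).sq i]

/-- if `(a b)^(2j) = z` then `(b a)^j = z (a b)^j` -/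
lemma swap_even {i i' : Fin 3} {j : ℕ}
    (h : ((Tri.s i : Tri k l m) * Tri.s i') ^ (2 * j) = Tri.z) :
    ((Tri.s i' : Tri k l m) * Tri.s i) ^ j = Tri.z * (Tri.s i * Tri.s i') ^ j := by
  have h1 : (Tri.s i' : Tri k l m) * Tri.s i = (Tri.s i * Tri.s i')⁻¹ := by
    rw [mul_inv_rev, s_inv, s_inv]
  rw [h1, inv_pow, inv_eq_iff_mul_eq_one]
  have h2 : (Tri.s i * Tri.s i' : Tri k l m) ^ j * (Tri.s i * Tri.s i') ^ j = Tri.z := by
    rw [← pow_add, ← two_mul, h]
  have h3 : (Tri.s i * Tri.s i' : Tri k l m) ^ j * Tri.z = Tri.z * (Tri.s i * Tri.s i') ^ j := by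
    rw [← h, ← pow_add, ← pow_add, add_comm]
  rw [← mul_assoc, h3, mul_assoc, h2, (Tri.rel k l m).zz]

/-- if `(a b)^3 = z` then `b a b = z (a b a)` -/
lemma swap_three {i i' : Fin 3}
    (h : ((Tri.s i : Tri k l m) * Tri.s i') ^ 3 = Tri.z) :
    (Tri.s i' : Tri k l m) * (Tri.s i * Tri.s i') = Tri.z * (Tri.s i * (Tri.s i' * Tri.s i)) := by
  have ha := (Tri.rel k l m).sq i
  have hb := (Tri.rel k l m).sq i'
  have h1 : (Tri.s i * (Tri.s i' * Tri.s i) : Tri k l m) * (Tri.s i' * (Tri.s i * Tri.s i'))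
      = Tri.z := by
    rw [← h]; simp only [pow_succ, pow_zero, one_mul, mul_assoc]
  have h2 : (Tri.s i * (Tri.s i' * Tri.s i) : Tri k l m) * (Tri.s i * (Tri.s i' * Tri.s i)) = 1 := by
    calc (Tri.s i * (Tri.s i' * Tri.s i) : Tri k l m) * (Tri.s i * (Tri.s i' * Tri.s i))
        = Tri.s i * (Tri.s i' * (Tri.s i * Tri.s i) * (Tri.s i' * Tri.s i)) := by group
      _ = Tri.s i * ((Tri.s i' * Tri.s i') * Tri.s i) := by rw [ha]; group
      _ = 1 := by rw [hb, one_mul, ha]
  have h4 : Tri.z * (Tri.s i * (Tri.s i' * Tri.s i) : Tri k l m)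
      = (Tri.s i * (Tri.s i' * Tri.s i)) * Tri.z := by
    have := z_comm_ev (k := k) (l := l) (m := m) [i, i', i]
    simpa [ev] using this
  rw [h4, ← h1, ← mul_assoc (Tri.s i * (Tri.s i' * Tri.s i)), h2, one_mul]

end Rules

/-! ### The (2, 4, 6) group -/

section C

lemma c10 : Eqz 2 4 6 [1, 0] [0, 1] := by
  right
  have := swap_even (k := 2) (l := 4) (m := 6) (i := 0) (i' := 1) (j := 1) (Tri.rel 2 4 6).r01
  simpa [ev] using this

lemma c21 : Eqz 2 4 6 [2, 1, 2, 1] [1, 2, 1, 2] := by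
  right
  have := swap_even (k := 2) (l := 4) (m := 6) (i := 1) (i' := 2) (j := 2) (Tri.rel 2 4 6).r12
  simpa [ev, pow_succ, mul_assoc] using this

lemma c20 : Eqz 2 4 6 [2, 0, 2, 0, 2, 0] [0, 2, 0, 2, 0, 2] := by
  right
  have := swap_even (k := 2) (l := 4) (m := 6) (i := 0) (i' := 2) (j := 3) (Tri.rel 2 4 6).r02
  simpa [ev, pow_succ, mul_assoc] using this

def LC : List (List (Fin 3)) :=
  [[0, 0], [1, 1], [2, 2], [1, 0], [2, 1, 2, 1], [2, 1, 2, 0, 1], [2, 0, 2, 0, 2, 0]]

def sufC : ℕ → List (Fin 3)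
  | 0 => [2]
  | 1 => [2, 0, 2]
  | 2 => [2, 0, 2, 0, 2]
  | _ => [2, 1, 2]

lemma ruleC : ∀ x ∈ LC, ∃ y, Rule 2 4 6 x y := by
  intro x hx
  simp only [LC, List.mem_cons, List.not_mem_nil, or_false] at hx
  rcases hx with rfl | rfl | rfl | rfl | rfl | rfl | rfl
  · exact ⟨[], by intro c hc; (simp [codeFrom] <;> omega), eqz_sq 0⟩
  · exact ⟨[], by intro c hc; (simp [codeFrom] <;> omega), eqz_sq 1⟩
  · exact ⟨[], by intro c hc; (simp [codeFrom] <;> omega), eqz_sq 2⟩
  · exact ⟨_, by intro c hc; (simp [codeFrom] <;> omega), c10⟩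
  · exact ⟨_, by intro c hc; (simp [codeFrom] <;> omega), c21⟩
  · exact ⟨[1, 2, 1, 2, 0], by intro c hc; (simp [codeFrom] <;> omega),
      (c10.symm.congr [2, 1, 2] []).trans (c21.congr [] [0])⟩
  · exact ⟨_, by intro c hc; (simp [codeFrom] <;> omega), c20⟩

def DC : List (List (Fin 3)) := [[], [0], [1], [0, 1]]

instance (L : List (List (Fin 3))) (w : List (Fin 3)) : Decidable (Avoid L w) :=
  inferInstanceAs (Decidable (∀ x ∈ L, ¬ x <:+: w))

lemma hDC : ∀ d, (∀ x ∈ d, x ≠ 2) → Avoid LC d → d ∈ DC := by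
  intro d h1 h2
  match d, h1, h2 with
  | [], _, _ => decide
  | [a], h1, _ =>
    have ha := h1 a (by simp)
    revert a; decide
  | [a, b], h1, h2 =>
    have ha := h1 a (by simp)
    have hb := h1 b (by simp)
    clear h1
    revert a b; decide
  | a :: b :: c :: t, h1, h2 =>
    exfalso
    have ha := h1 a (by simp)
    have hb := h1 b (by simp)
    have hc := h1 c (by simp)
    have h3 : Avoid LC [a, b, c] := h2.sub ⟨[], t, by simp⟩
    clear h1 h2
    revert a b c; decide

lemma hstepC : ∀ q < 4, ∀ d ∈ DC, (∃ e ∈ edgesC, e.src = q ∧ e.d = d ∧ e.tgt < 4 ∧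
      sufC e.tgt <:+ sufC q ++ (d ++ [2])) ∨ (∃ x ∈ LC, x <:+: sufC q ++ (d ++ [2])) := by
  decide

end C

theorem hasWord_c (g : Tri 2 4 6) : HasWord edgesC 4 g :=
  hasWord_of LC edgesC 4 sufC DC ruleC (by norm_num) rfl hDC (by decide) hstepC g

/-! ### The (4, 3, 3) group -/

section B

lemma b20 : Eqz 4 3 3 [2, 0, 2] [0, 2, 0] := by
  right
  have := swap_three (k := 4) (l := 3) (m := 3) (i := 0) (i' := 2) (Tri.rel 4 3 3).r02
  simpa [ev] using this

lemma b21 : Eqz 4 3 3 [2, 1, 2] [1, 2, 1] := by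
  right
  have := swap_three (k := 4) (l := 3) (m := 3) (i := 1) (i' := 2) (Tri.rel 4 3 3).r12
  simpa [ev] using this

lemma b10 : Eqz 4 3 3 [1, 0, 1, 0] [0, 1, 0, 1] := by
  right
  have := swap_even (k := 4) (l := 3) (m := 3) (i := 0) (i' := 1) (j := 2) (Tri.rel 4 3 3).r01
  simpa [ev, pow_succ, mul_assoc] using this

def LB : List (List (Fin 3)) :=
  [[0, 0], [1, 1], [2, 2], [2, 0, 2], [2, 1, 2], [1, 0, 1, 0], [2, 0, 1, 2, 1], [2, 1, 0, 2, 0],
    [2, 0, 1, 2, 0, 1, 0, 1]]

def sufB : ℕ → List (Fin 3)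
  | 0 => [2]
  | 1 => [2, 0, 1, 2]
  | _ => [2, 1, 0, 2]

lemma b20121 : Eqz 4 3 3 [2, 0, 1, 2, 1] [0, 2, 0, 1, 2] :=
  (b21.symm.congr [2, 0] []).trans (b20.congr [] [1, 2])

lemma b21020 : Eqz 4 3 3 [2, 1, 0, 2, 0] [1, 2, 1, 0, 2] :=
  (b20.symm.congr [2, 1] []).trans (b21.congr [] [0, 2])

lemma ruleB : ∀ x ∈ LB, ∃ y, Rule 4 3 3 x y := by
  intro x hx
  simp only [LB, List.mem_cons, List.not_mem_nil, or_false] at hx
  rcases hx with rfl | rfl | rfl | rfl | rfl | rfl | rfl | rfl | rfl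
  · exact ⟨[], by intro c hc; (simp [codeFrom] <;> omega), eqz_sq 0⟩
  · exact ⟨[], by intro c hc; (simp [codeFrom] <;> omega), eqz_sq 1⟩
  · exact ⟨[], by intro c hc; (simp [codeFrom] <;> omega), eqz_sq 2⟩
  · exact ⟨_, by intro c hc; (simp [codeFrom] <;> omega), b20⟩
  · exact ⟨_, by intro c hc; (simp [codeFrom] <;> omega), b21⟩
  · exact ⟨_, by intro c hc; (simp [codeFrom] <;> omega), b10⟩
  · exact ⟨_, by intro c hc; (simp [codeFrom] <;> omega), b20121⟩
  · exact ⟨_, by intro c hc; (simp [codeFrom] <;> omega), b21020⟩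
  · exact ⟨[0, 2, 0, 1, 2, 0, 1, 0], by intro c hc; (simp [codeFrom] <;> omega),
      (b10.symm.congr [2, 0, 1, 2] []).trans (b20121.congr [] [0, 1, 0])⟩

def DB : List (List (Fin 3)) :=
  [[], [0], [1], [0, 1], [1, 0], [0, 1, 0], [1, 0, 1], [0, 1, 0, 1]]

lemma hDB : ∀ d, (∀ x ∈ d, x ≠ 2) → Avoid LB d → d ∈ DB := by
  intro d h1 h2
  match d, h1, h2 with
  | [], _, _ => decide
  | [a], h1, _ =>
    have ha := h1 a (by simp)
    revert a; decide
  | [a, b], h1, h2 =>
    have ha := h1 a (by simp)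
    have hb := h1 b (by simp)
    clear h1
    revert a b; decide
  | [a, b, c], h1, h2 =>
    have ha := h1 a (by simp)
    have hb := h1 b (by simp)
    have hc := h1 c (by simp)
    clear h1
    revert a b c; decide
  | [a, b, c, d], h1, h2 =>
    have ha := h1 a (by simp)
    have hb := h1 b (by simp)
    have hc := h1 c (by simp)
    have hd := h1 d (by simp)
    clear h1
    revert a b c d; decide
  | a :: b :: c :: d :: e :: t, h1, h2 =>
    exfalso
    have ha := h1 a (by simp)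
    have hb := h1 b (by simp)
    have hc := h1 c (by simp)
    have hd := h1 d (by simp)
    have he := h1 e (by simp)
    have h3 : Avoid LB [a, b, c, d, e] := h2.sub ⟨[], t, by simp⟩
    clear h1 h2
    revert a b c d e; decide

lemma hstepB : ∀ q < 3, ∀ d ∈ DB, (∃ e ∈ edgesB, e.src = q ∧ e.d = d ∧ e.tgt < 3 ∧
      sufB e.tgt <:+ sufB q ++ (d ++ [2])) ∨ (∃ x ∈ LB, x <:+: sufB q ++ (d ++ [2])) := by
  decide

end B

theorem hasWord_b (g : Tri 4 3 3) : HasWord edgesB 3 g :=
  hasWord_of LB edgesB 3 sufB DB ruleB (by norm_num) rfl hDB (by decide) hstepB g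

end Pool.Agent.Hhelper63.AnT
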