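import Pool.Agent.Hhelper63.AnT.PathC
import Pool.Agent.Hhelper63.AnT.Words
import Pool.Agent.Hhelper63.AnT.OfCert
import Pool.Agent.Hhelper63.AnT.Lat
import Pool.Agent.Hhelper63.AnT.Members

/-!
Case (c) for the triangle group, given the certificates.

PROOF. Let `P_s : Tri 2 4 6 →* SL4` be given by `pathC s`, `z ↦ -1` (`pathC_sq`, ..., `pathC_det`).
Let `P0 : M4` be the matrix with columns `(1,0,0,0), (0,0,√3,0), (0,0,0,1), (0,√3,0,0)`; then
`P0ᵀ J4 P0 = JT`. Let `rot θ = !![cos θ, -sin θ, 0, 0; sin θ, cos θ, 0, 0; 0, 0, cos θ, -sin θ;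
0, 0, sin θ, cos θ]`; it commutes with `S0C, S1C`, is orthogonal and preserves `JT`.

Value at `s = 0`: `q = 0`, `h = 1 + √2 i`, `R = (1 - √2 i) / √3` (check the square, and the sign by the
real part: two square roots with nonnegative real part, one of them positive, are equal),
`T = √3`, `U = 1 - √2 i`, `P = 2 √2`, `Q = 0`, so `pathC 0 i` is `reflC i` on the coordinates `0, 2`
and `finC i` on the coordinates `1, 3` (rows and columns), for `i = 0, 1, 2`. So for
`EtaC (ι γ) = 1`, `P0 (P_0 (ι γ)) P0⁻¹ = rho211 φ γ` (both sides are homomorphisms of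
`Tri 2 4 6` before restricting: the block decomposition is multiplicative).
Value at `s = 1`: `g = 3 - h1C`, `h = 3`, `u = 6`, `v = 14`, `R = √(7/3)`, `T = √21`, `WC = 18`,
`q = 3 √2`, `P = 8 √(2/7)`, `Q = -√(54/7)`, `U = √7`. With `cos 2φ₀ = 1 / (2 √7)`,
`sin 2φ₀ = 3 √3 / (2 √7)`: `P0 (rot φ₀) (pathC 1 i) (rot φ₀)⁻¹ P0⁻¹ = sym3 (reflC i)` (complexified)
for `i = 0, 1, 2`: conjugation by `rot φ₀` replaces `(T, 0)`, `(P, Q)`, `(U, 0)` (coefficients of
`diag (1, -1)` and `!![0, 1; 1, 0]` in the blocks) by the rotated vectors `(√3/2, 9/2)`,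
`(5 √2 / 2, 3 √6 / 2)`, `(1/2, 3 √3 / 2)`. So `P0 rot φ₀ P_1 (ι γ) (P0 rot φ₀)⁻¹ = rho4 φ γ`.
The path: `s ↦ P0 P_s (ι γ) P0⁻¹`, `s ∈ [0, 1]`, followed by
`t ↦ P0 (rot (t φ₀)) P_1 (ι γ) (rot (t φ₀))⁻¹ P0⁻¹`. All points are `{1}`-Anosov (`anosov_of_cert`
with `hasWord_c`, and `anosov_conj`), and preserve `J4` (for `g` in `Tri 2 4 6`,
`(P_s g)ᵀ JT (P_s g) = det (PhiC g) JT`, by the universal property or by induction, and
`det (PhiC (ι γ)) = det (φ γ) = 1`). Continuity in the product topology: every `ι γ` is a word in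
the generators. The image of the path is connected, contains both points and lies in `anosovSp`.

`fin_c`: `fin_of_cert` with `P_1`: `P_1 g = A⁻¹ sym3 (PhiC g) A`, whose entries are bounded in terms
of those of `PhiC g`.
-/

namespace Pool.Agent.Hhelper63.AnT

open Pool.Agent.Hhelper67.Anosov

namespace EndCAux

open Complex

theorem csq_eq {z r : ℂ} (h : r * r = z) (hr : 0 < r.re) : csq z = r := by
  have h1 : csq z * csq z = r * r := by rw [csq_mul_self, h]
  have h2 := csq_re_nonneg z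
  have h3 : (csq z - r) * (csq z + r) = 0 := by linear_combination h1
  rcases mul_eq_zero.mp h3 with h4 | h4
  · exact sub_eq_zero.mp h4
  · exfalso
    have h5 : csq z = -r := by linear_combination h4
    rw [h5, Complex.neg_re] at h2
    linarith

/-- `√2` -/
noncomputable def ra : ℂ := ((√2 : ℝ) : ℂ)

/-- `√3` -/
noncomputable def rw3 : ℂ := ((√3 : ℝ) : ℂ)

/-- `√7` -/
noncomputable def rb : ℂ := ((√7 : ℝ) : ℂ)

theorem ra_sq : ra * ra = 2 := by
  rw [ra, ← Complex.ofReal_mul, Real.mul_self_sqrt (by norm_num)]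
  norm_num

theorem rw_sq : rw3 * rw3 = 3 := by
  rw [rw3, ← Complex.ofReal_mul, Real.mul_self_sqrt (by norm_num)]
  norm_num

theorem rb_sq : rb * rb = 7 := by
  rw [rb, ← Complex.ofReal_mul, Real.mul_self_sqrt (by norm_num)]
  norm_num

theorem inv_of {x y : ℂ} (h : x * y = 1) : x⁻¹ = y := inv_eq_of_mul_eq_one_right h

theorem h1C_eq : h1C = 1 + ra * I := rfl

theorem hC0 : hC 0 = 1 + ra * I := by
  simp [hC, h1C_eq]

theorem uC0 : uC 0 = -4 + 2 * (ra * I) := by
  rw [uC, hC0]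
  linear_combination (I * I) * ra_sq + 2 * I_mul_I

theorem uC0_inv : (uC 0)⁻¹ = (-4 - 2 * (ra * I)) / 24 := by
  apply inv_of
  rw [uC0]
  linear_combination (-(I * I) / 6) * ra_sq - (1 / 3) * I_mul_I

theorem RC0 : RC 0 = (1 - ra * I) * rw3 / 3 := by
  rw [RC, uC0_inv]
  apply csq_eq
  · linear_combination (1 / 9) * (1 - 2 * (ra * I) + (ra * ra) * (I * I)) * rw_sq +
      (1 / 3) * (I * I) * ra_sq + (2 / 3) * I_mul_I
  · have h : ((1 - ra * I) * rw3 / 3).re = √3 / 3 := by
      simp [ra, rw3]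
    rw [h]
    positivity

theorem TC0 : TC 0 = rw3 := by
  rw [TC, hC0, RC0]
  linear_combination (-(I * I) * rw3 / 3) * ra_sq - (2 * rw3 / 3) * I_mul_I

theorem UC0 : UC 0 = 1 - ra * I := by
  rw [UC, RC0]
  change rw3 * ((1 - ra * I) * rw3 / 3) = 1 - ra * I
  linear_combination ((1 - ra * I) / 3) * rw_sq

theorem qC0 : qC 0 = 0 := by
  simp [qC]

theorem QC0 : QC 0 = 0 := by
  simp [QC, qC0]

theorem PC0 : PC 0 = 2 * ra := by
  rw [PC, uC0_inv, uC0]
  apply csq_eq
  · linear_combination 4 * ra_sq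
  · have h : (2 * ra).re = 2 * √2 := by
      simp [ra]
    rw [h]
    positivity

theorem hC1 : hC 1 = 3 := by
  simp [hC, gC]

theorem uC1 : uC 1 = 6 := by
  rw [uC, hC1]
  norm_num

theorem vC1 : vC 1 = 14 := by
  rw [vC, hC1]
  norm_num

theorem RC1 : RC 1 = rb * rw3 / 3 := by
  rw [RC, uC1]
  apply csq_eq
  · linear_combination (1 / 9) * (rw3 * rw3) * rb_sq + (7 / 9) * rw_sq
  · have h : (rb * rw3 / 3).re = √7 * √3 / 3 := by
      simp [rb, rw3]
    rw [h]
    positivity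

theorem RC1_inv : (RC 1)⁻¹ = rb * rw3 / 7 := by
  apply inv_of
  rw [RC1]
  linear_combination (1 / 21) * (rw3 * rw3) * rb_sq + (1 / 3) * rw_sq

theorem WC1 : WC 1 = 18 := by
  have hg : gC 1 = 3 - h1C := by simp [gC]
  rw [WC, hg, uC1, hC1, h1C_eq]
  change (3 - (1 + ra * I)) * (3 + (1 + ra * I)) * ((3 * 3 + (1 + 2 * (ra * I))) * 6⁻¹) = 18
  linear_combination (-(10 + 2 * (ra * I)) / 6 * (I * I) - (2 / 3) * (I * I)) * ra_sq +
    (-(10 + 2 * (ra * I)) / 3 - 4 / 3) * I_mul_I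

theorem YC1 : YC 1 = 3 * ra := by
  rw [YC, WC1]
  apply csq_eq
  · linear_combination 9 * ra_sq
  · have h : (3 * ra).re = 3 * √2 := by
      simp [ra]
    rw [h]
    positivity

theorem qC1 : qC 1 = 3 * ra := by
  rw [qC, YC1]
  simp

theorem PC1 : PC 1 = 8 * ra * rb / 7 := by
  rw [PC, uC1, vC1]
  apply csq_eq
  · linear_combination (64 / 49) * (rb * rb) * ra_sq + (128 / 49) * rb_sq
  · have h : (8 * ra * rb / 7).re = 8 * √2 * √7 / 7 := by
      simp [ra, rb]
    rw [h]
    positivity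

theorem TC1 : TC 1 = rb * rw3 := by
  rw [TC, hC1, RC1]
  ring

theorem UC1 : UC 1 = rb := by
  rw [UC, RC1]
  change rw3 * (rb * rw3 / 3) = rb
  linear_combination (rb / 3) * rw_sq

theorem QC1 : QC 1 = -(3 * ra * rb * rw3 / 7) := by
  rw [QC, qC1, RC1_inv]
  ring

theorem path02 : pathC 0 2 = (1 / 4 : ℂ) • matC rw3 rw3 0 (2 * ra) (1 + ra * I) (1 - ra * I) 0 := by
  show (1 / 4 : ℂ) • matC (√3 : ℝ) (TC 0) (qC 0) (PC 0) (hC 0) (UC 0) (QC 0) = _
  rw [TC0, qC0, PC0, hC0, UC0, QC0]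
  rfl

theorem path12 : pathC 1 2 = (1 / 4 : ℂ) • matC rw3 (rb * rw3) (3 * ra) (8 * ra * rb / 7) 3 rb
    (-(3 * ra * rb * rw3 / 7)) := by
  show (1 / 4 : ℂ) • matC (√3 : ℝ) (TC 1) (qC 1) (PC 1) (hC 1) (UC 1) (QC 1) = _
  rw [TC1, qC1, PC1, hC1, UC1, QC1]
  rfl

/-! ### block matrices -/

/-- `A` on the coordinates `0, 2`, `B` on the coordinates `1, 3` -/
def blk (A B : Matrix (Fin 2) (Fin 2) ℂ) : M4 :=
  !![A 0 0, 0, A 0 1, 0;
     0, B 0 0, 0, B 0 1;
     A 1 0, 0, A 1 1, 0;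
     0, B 1 0, 0, B 1 1]

theorem blk_mul (A B A' B' : Matrix (Fin 2) (Fin 2) ℂ) :
    blk A B * blk A' B' = blk (A * A') (B * B') := by
  ext i j
  fin_cases i <;> fin_cases j <;>
    simp [blk, Matrix.mul_apply, Fin.sum_univ_four, Fin.sum_univ_two]

theorem blk_one : blk 1 1 = 1 := by
  ext i j
  fin_cases i <;> fin_cases j <;> simp [blk]

theorem blk_neg_one : blk (-1) (-1) = -1 := by
  ext i j
  fin_cases i <;> fin_cases j <;> simp [blk]

/-- complexification -/
noncomputable def cx (A : Matrix (Fin 2) (Fin 2) ℝ) : Matrix (Fin 2) (Fin 2) ℂ :=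
  A.map Complex.ofRealHom

theorem cx_mul (A B : Matrix (Fin 2) (Fin 2) ℝ) : cx (A * B) = cx A * cx B := by
  simp [cx, Matrix.map_mul]

theorem path0 (i : Fin 3) : pathC 0 i = blk (cx (reflC i)) (finC i) := by
  have h : i = 0 ∨ i = 1 ∨ i = 2 := by fin_cases i <;> simp
  rcases h with rfl | rfl | rfl
  · show S0C = _
    ext i j
    fin_cases i <;> fin_cases j <;> simp [blk, cx, reflC, finC, S0C]
  · show S1C = _
    ext i j
    fin_cases i <;> fin_cases j <;> simp [blk, cx, reflC, finC, S1C]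
  · rw [path02]
    ext i j
    fin_cases i <;> fin_cases j <;> simp [blk, cx, reflC, finC, matC, ra, rw3] <;> ring

/-- rotation of both planes -/
noncomputable def rotM (θ : ℝ) : M4 :=
  !![(Real.cos θ : ℂ), -(Real.sin θ : ℂ), 0, 0;
     (Real.sin θ : ℂ), (Real.cos θ : ℂ), 0, 0;
     0, 0, (Real.cos θ : ℂ), -(Real.sin θ : ℂ);
     0, 0, (Real.sin θ : ℂ), (Real.cos θ : ℂ)]

/-- the matrix `P0` -/
noncomputable def P0 : M4 := !![1, 0, 0, 0; 0, 0, 0, rw3; 0, rw3, 0, 0; 0, 0, 1, 0]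

/-- its inverse -/
noncomputable def P0i : M4 := !![1, 0, 0, 0; 0, 0, rw3 / 3, 0; 0, 0, 0, 1; 0, rw3 / 3, 0, 0]

theorem P0_mul : P0 * P0i = 1 := by
  have h := rw_sq
  ext i j
  fin_cases i <;> fin_cases j <;> simp [P0, P0i, Matrix.mul_apply, Fin.sum_univ_four] <;>
    linear_combination (1 / 3) * h

theorem P0i_mul : P0i * P0 = 1 := by
  have h := rw_sq
  ext i j
  fin_cases i <;> fin_cases j <;> simp [P0, P0i, Matrix.mul_apply, Fin.sum_univ_four] <;>
    linear_combination (1 / 3) * h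

theorem rot_mul (θ : ℝ) : rotM θ * rotM (-θ) = 1 := by
  have h : (Real.cos θ : ℂ) * Real.cos θ + (Real.sin θ : ℂ) * Real.sin θ = 1 := by
    have h1 := Real.cos_sq_add_sin_sq θ
    have h2 : ((Real.cos θ ^ 2 + Real.sin θ ^ 2 : ℝ) : ℂ) = 1 := by rw [h1]; simp
    push_cast at h2 ⊢
    linear_combination h2
  ext i j
  fin_cases i <;> fin_cases j <;>
    simp [rotM, Matrix.mul_apply, Fin.sum_univ_four, -Complex.ofReal_cos, -Complex.ofReal_sin] <;>
    first | ring1 | linear_combination h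

theorem P0_J : P0.transpose * J4 * P0 = JT := by
  have h := rw_sq
  ext i j
  fin_cases i <;> fin_cases j <;>
    simp [P0, J4, JT, Matrix.mul_apply, Fin.sum_univ_four] <;>
    first | linear_combination (1 / 3) * h | linear_combination (-1 / 3) * h

theorem rot_J (θ : ℝ) : (rotM θ).transpose * JT * rotM θ = JT := by
  have h : (Real.cos θ : ℂ) * Real.cos θ + (Real.sin θ : ℂ) * Real.sin θ = 1 := by
    have h1 := Real.cos_sq_add_sin_sq θ
    have h2 : ((Real.cos θ ^ 2 + Real.sin θ ^ 2 : ℝ) : ℂ) = 1 := by rw [h1]; simp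
    push_cast at h2 ⊢
    linear_combination h2
  ext i j
  fin_cases i <;> fin_cases j <;>
    simp [rotM, JT, Matrix.mul_apply, Fin.sum_univ_four, -Complex.ofReal_cos,
      -Complex.ofReal_sin] <;>
    first | ring1 | linear_combination h | linear_combination -h

/-- the angle of the rotation -/
noncomputable def ph : ℝ := Real.arccos (1 / (2 * √7)) / 2

theorem s7_sq : √7 * √7 = 7 := Real.mul_self_sqrt (by norm_num)

theorem cos_ph : 2 * √7 * Real.cos (2 * ph) = 1 := by
  have h7 : 0 < √7 := by positivity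
  have h71 : 1 ≤ √7 := by
    rw [Real.one_le_sqrt]
    norm_num
  have e : 2 * ph = Real.arccos (1 / (2 * √7)) := by unfold ph; ring
  rw [e, Real.cos_arccos]
  · field_simp
  · have : 0 < 1 / (2 * √7) := by positivity
    linarith
  · rw [div_le_one (by positivity)]
    linarith

theorem sin_ph : 2 * √7 * Real.sin (2 * ph) = 3 * √3 := by
  have h7 : 0 < √7 := by positivity
  have hs := s7_sq
  have e : 2 * ph = Real.arccos (1 / (2 * √7)) := by unfold ph; ring
  rw [e, Real.sin_arccos]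
  have e2 : 1 - (1 / (2 * √7)) ^ 2 = (3 * √3 / (2 * √7)) ^ 2 := by
    have h3 : √3 ^ 2 = 3 := Real.sq_sqrt (by norm_num)
    have h72 : √7 ^ 2 = 7 := Real.sq_sqrt (by norm_num)
    rw [div_pow, div_pow, mul_pow, mul_pow, h3, h72]
    norm_num
  rw [e2, Real.sqrt_sq (by positivity)]
  field_simp

/-- the linear relations -/
theorem lin1 : 2 * rb * (Real.cos ph : ℂ) = Real.cos ph + 3 * rw3 * Real.sin ph := by
  have h : 2 * √7 * Real.cos ph = Real.cos ph + 3 * √3 * Real.sin ph := by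
    have h1 : Real.cos ph = Real.cos (2 * ph) * Real.cos ph + Real.sin (2 * ph) * Real.sin ph := by
      rw [← Real.cos_sub]
      congr 1
      ring
    calc 2 * √7 * Real.cos ph = 2 * √7 * (Real.cos (2 * ph) * Real.cos ph +
          Real.sin (2 * ph) * Real.sin ph) := by rw [← h1]
      _ = (2 * √7 * Real.cos (2 * ph)) * Real.cos ph + (2 * √7 * Real.sin (2 * ph)) *
          Real.sin ph := by ring
      _ = _ := by rw [cos_ph, sin_ph]; ring
  have h2 := congrArg (fun x : ℝ => (x : ℂ)) h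
  simp only [Complex.ofReal_mul, Complex.ofReal_add, Complex.ofReal_ofNat] at h2
  exact h2

theorem lin2 : 2 * rb * (Real.sin ph : ℂ) = 3 * rw3 * Real.cos ph - Real.sin ph := by
  have h : 2 * √7 * Real.sin ph = 3 * √3 * Real.cos ph - Real.sin ph := by
    have h1 : Real.sin ph = Real.sin (2 * ph) * Real.cos ph - Real.cos (2 * ph) * Real.sin ph := by
      rw [← Real.sin_sub]
      congr 1
      ring
    calc 2 * √7 * Real.sin ph = 2 * √7 * (Real.sin (2 * ph) * Real.cos ph -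
          Real.cos (2 * ph) * Real.sin ph) := by rw [← h1]
      _ = (2 * √7 * Real.sin (2 * ph)) * Real.cos ph - (2 * √7 * Real.cos (2 * ph)) *
          Real.sin ph := by ring
      _ = _ := by rw [cos_ph, sin_ph]; ring
  have h2 := congrArg (fun x : ℝ => (x : ℂ)) h
  simp only [Complex.ofReal_mul, Complex.ofReal_sub, Complex.ofReal_ofNat] at h2
  exact h2

theorem path1 (i : Fin 3) :
    P0 * rotM ph * pathC 1 i = sym3 (cx (reflC i)) * (P0 * rotM ph) := by
  have h : i = 0 ∨ i = 1 ∨ i = 2 := by fin_cases i <;> simp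
  have l1 := lin1
  have l2 := lin2
  have hw := rw_sq
  have ha := ra_sq
  rcases h with rfl | rfl | rfl
  · show P0 * rotM ph * S0C = _
    unfold rotM
    generalize (Real.cos ph : ℂ) = c at *
    generalize (Real.sin ph : ℂ) = s at *
    ext i j
    fin_cases i <;> fin_cases j <;>
      simp [P0, S0C, sym3, cx, reflC, Matrix.mul_apply, Fin.sum_univ_four]
    · ring
    · ring
  · show P0 * rotM ph * S1C = _
    unfold rotM
    generalize (Real.cos ph : ℂ) = c at *
    generalize (Real.sin ph : ℂ) = s at *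
    ext i j
    fin_cases i <;> fin_cases j <;>
      simp [P0, S1C, sym3, cx, reflC, Matrix.mul_apply, Fin.sum_univ_four]
  · rw [path12]
    have hr : sym3 (cx (reflC 2)) = sym3 !![rw3 / 2, (ra + 1) / 2; (ra - 1) / 2, -(rw3 / 2)] := by
      congr 1
      ext i j
      fin_cases i <;> fin_cases j <;> simp [cx, reflC, ra, rw3]
    rw [hr]
    unfold rotM
    generalize (Real.cos ph : ℂ) = c at *
    generalize (Real.sin ph : ℂ) = s at *
    unfold P0
    generalize rw3 = w at *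
    generalize ra = a at *
    generalize rb = b at *
    ext i j
    fin_cases i <;> fin_cases j <;>
      simp [sym3, matC, Matrix.mul_apply, Fin.sum_univ_four] <;> grind

/-! ### the representations -/

/-- `-1` in `SL4` -/
noncomputable def negSL : SL4 := ⟨-1, by
  rw [Matrix.det_neg, Matrix.det_one]
  norm_num [Fintype.card_fin]⟩

/-- the images of the generators in `SL4` -/
noncomputable def genSL {s : ℝ} (h : GoodC s) (i : Fin 3) : SL4 := ⟨pathC s i, pathC_det h i⟩

theorem rel_path {s : ℝ} (h : GoodC s) : TriRel 2 4 6 (genSL h) negSL where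
  sq i := Subtype.ext (pathC_sq h i)
  zz := Subtype.ext (by
    show (-1 : M4) * (-1 : M4) = 1
    simp)
  comm i := Subtype.ext (by
    show (-1 : M4) * pathC s i = pathC s i * (-1 : M4)
    simp)
  r01 := Subtype.ext (by
    rw [Matrix.SpecialLinearGroup.coe_pow]
    exact pathC_01 s)
  r12 := Subtype.ext (by
    rw [Matrix.SpecialLinearGroup.coe_pow]
    exact pathC_12 h)
  r02 := Subtype.ext (by
    rw [Matrix.SpecialLinearGroup.coe_pow]
    exact pathC_02 h)

/-- the representation at the parameter `s` -/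
noncomputable def PS {s : ℝ} (h : GoodC s) : Tri 2 4 6 →* SL4 := Tri.lift (rel_path h)

theorem PS_s {s : ℝ} (h : GoodC s) (i : Fin 3) : (PS h (Tri.s i)).1 = pathC s i := by
  rw [PS, Tri.lift_s]
  rfl

theorem PS_z {s : ℝ} (h : GoodC s) : (PS h Tri.z).1 = -1 := by
  rw [PS, Tri.lift_z]
  rfl

theorem PhiC_s (i : Fin 3) : (PhiC (Tri.s i)).1 = reflC i := by
  rw [PhiC, Tri.lift_s]

theorem PhiC_z : (PhiC Tri.z).1 = -1 := by
  rw [PhiC, Tri.lift_z]
  rfl

theorem EtaC_s (i : Fin 3) : (EtaC (Tri.s i)).1 = finC i := by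
  rw [EtaC, Tri.lift_s]

theorem EtaC_z : (EtaC Tri.z).1 = -1 := by
  rw [EtaC, Tri.lift_z]
  rfl

/-- induction on the elements of the triangle group -/
theorem tri_ind {k l m : ℕ} {p : Tri k l m → Prop} (h1 : p 1)
    (hs : ∀ i g, p g → p (Tri.s i * g)) (hz : ∀ g, p g → p (Tri.z * g)) (g : Tri k l m) : p g := by
  have hev : ∀ w : List (Fin 3), p (ev Tri.s w) := by
    intro w
    induction w with
    | nil => simpa [ev] using h1
    | cons a w ih =>
      have h : ev (Tri.s : Fin 3 → Tri k l m) (a :: w) = Tri.s a * ev Tri.s w := by simp [ev]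
      rw [h]
      exact hs a _ ih
  obtain ⟨w, hw | hw⟩ := exists_rep g
  · rw [hw]
    exact hev w
  · rw [hw]
    exact hz _ (hev w)

theorem SL_mul_val (A B : SL4) : (A * B).1 = A.1 * B.1 := rfl

theorem PS_form {s : ℝ} (h : GoodC s) (g : Tri 2 4 6) :
    (PS h g).1.transpose * JT * (PS h g).1 = ((PhiC g).1.det : ℂ) • JT := by
  induction g using tri_ind with
  | h1 =>
    rw [map_one, map_one]
    show (1 : M4).transpose * JT * (1 : M4) = (((1 : Matrix (Fin 2) (Fin 2) ℝ).det : ℝ) : ℂ) • JT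
    simp
  | hs i g ih =>
    rw [map_mul, map_mul, SL_mul_val, PS_s, Matrix.transpose_mul]
    have h1 := pathC_form h i
    calc (PS h g).1.transpose * (pathC s i).transpose * JT * (pathC s i * (PS h g).1)
        = (PS h g).1.transpose * ((pathC s i).transpose * JT * pathC s i) * (PS h g).1 := by
          simp only [Matrix.mul_assoc]
      _ = -((PS h g).1.transpose * JT * (PS h g).1) := by
          rw [h1]
          simp only [Matrix.mul_neg, Matrix.neg_mul]
      _ = _ := by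
          rw [ih, Units.val_mul, Matrix.det_mul, PhiC_s, reflC_det]
          push_cast
          rw [neg_one_mul, neg_smul]
  | hz g ih =>
    rw [map_mul, map_mul, SL_mul_val, PS_z, Units.val_mul, Matrix.det_mul, PhiC_z, Matrix.det_neg,
      Matrix.det_one]
    simp only [neg_mul, one_mul, Matrix.transpose_neg, mul_neg, neg_neg, Fintype.card_fin]
    rw [ih]
    norm_num

theorem PS_zero (h : GoodC 0) (g : Tri 2 4 6) :
    (PS h g).1 = blk (cx (PhiC g).1) (EtaC g).1 := by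
  induction g using tri_ind with
  | h1 =>
    rw [map_one, map_one, map_one]
    show (1 : M4) = blk (cx 1) 1
    have : cx 1 = 1 := by
      ext i j
      fin_cases i <;> fin_cases j <;> simp [cx]
    rw [this, blk_one]
  | hs i g ih =>
    rw [map_mul, map_mul, map_mul, SL_mul_val, PS_s, ih, Units.val_mul, Units.val_mul, PhiC_s,
      EtaC_s, path0, cx_mul, blk_mul]
  | hz g ih =>
    have : cx (-1) = -1 := by
      ext i j
      fin_cases i <;> fin_cases j <;> simp [cx]
    rw [map_mul, map_mul, map_mul, SL_mul_val, PS_z, ih, Units.val_mul, Units.val_mul, PhiC_z,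
      EtaC_z, cx_mul, ← blk_mul, this, blk_neg_one]

theorem PS_one (h : GoodC 1) (g : Tri 2 4 6) :
    P0 * rotM ph * (PS h g).1 = sym3 (cx (PhiC g).1) * (P0 * rotM ph) := by
  induction g using tri_ind with
  | h1 =>
    rw [map_one, map_one]
    show P0 * rotM ph * (1 : M4) = sym3 (cx 1) * (P0 * rotM ph)
    have : cx 1 = 1 := by
      ext i j
      fin_cases i <;> fin_cases j <;> simp [cx]
    rw [this, sym3_one, Matrix.mul_one, Matrix.one_mul]
  | hs i g ih =>
    rw [map_mul, map_mul, SL_mul_val, PS_s, Units.val_mul, PhiC_s, cx_mul, sym3_mul,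
      ← Matrix.mul_assoc, path1, Matrix.mul_assoc (sym3 (cx (reflC i))), ih, Matrix.mul_assoc]
  | hz g ih =>
    have h1 : cx (-1) = -1 := by
      ext i j
      fin_cases i <;> fin_cases j <;> simp [cx]
    have h2 : sym3 (-1 : Matrix (Fin 2) (Fin 2) ℂ) = -1 := by
      ext i j
      fin_cases i <;> fin_cases j <;> simp [sym3] <;> norm_num
    rw [map_mul, map_mul, SL_mul_val, PS_z, Units.val_mul, PhiC_z, cx_mul, sym3_mul, h1, h2,
      neg_one_mul, neg_one_mul, Matrix.mul_neg, ih, Matrix.neg_mul]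

/-- the conjugating matrices -/
noncomputable def AA (θ : ℝ) : GL (Fin 4) ℂ where
  val := P0 * rotM θ
  inv := rotM (-θ) * P0i
  val_inv := by
    rw [Matrix.mul_assoc, ← Matrix.mul_assoc (rotM θ), rot_mul, Matrix.one_mul, P0_mul]
  inv_val := by
    have h : rotM (-θ) * rotM θ = 1 := by
      have := rot_mul (-θ)
      rwa [neg_neg] at this
    rw [Matrix.mul_assoc, ← Matrix.mul_assoc P0i, P0i_mul, Matrix.one_mul, h]

theorem AA_J (θ : ℝ) : (AA θ).1.transpose * J4 * (AA θ).1 = JT := by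
  show (P0 * rotM θ).transpose * J4 * (P0 * rotM θ) = JT
  rw [Matrix.transpose_mul]
  calc (rotM θ).transpose * P0.transpose * J4 * (P0 * rotM θ)
      = (rotM θ).transpose * (P0.transpose * J4 * P0) * rotM θ := by
        simp only [Matrix.mul_assoc]
    _ = JT := by rw [P0_J, rot_J]

/-- conjugating by a matrix which carries `J4` to `JT` -/
theorem form_conj {A : GL (Fin 4) ℂ} (hA : A.1.transpose * J4 * A.1 = JT) {M : M4}
    (hM : M.transpose * JT * M = JT) :
    (A.1 * M * (A⁻¹).1).transpose * J4 * (A.1 * M * (A⁻¹).1) = J4 := by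
  have e1 : A.1 * (A⁻¹).1 = 1 := by rw [← Units.val_mul, mul_inv_cancel, Units.val_one]
  have e2 : (A⁻¹).1.transpose * A.1.transpose = 1 := by
    rw [← Matrix.transpose_mul, e1, Matrix.transpose_one]
  calc (A.1 * M * (A⁻¹).1).transpose * J4 * (A.1 * M * (A⁻¹).1)
      = (A⁻¹).1.transpose * (M.transpose * (A.1.transpose * J4 * A.1) * M) * (A⁻¹).1 := by
        simp only [Matrix.transpose_mul, Matrix.mul_assoc]
    _ = (A⁻¹).1.transpose * (A.1.transpose * J4 * A.1) * (A⁻¹).1 := by rw [hA, hM]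
    _ = ((A⁻¹).1.transpose * A.1.transpose) * J4 * (A.1 * (A⁻¹).1) := by
        simp only [Matrix.mul_assoc]
    _ = J4 := by rw [e1, e2, Matrix.one_mul, Matrix.mul_one]

theorem hu_path (s : ℝ) (i : Fin 3) (hi : i ≠ 2) :
    (pathC s i).conjTranspose * pathC s i = 1 := by
  have h : i = 0 ∨ i = 1 := by
    fin_cases i
    · exact Or.inl rfl
    · exact Or.inr rfl
    · exact absurd rfl hi
  rcases h with rfl | rfl
  · show S0C.conjTranspose * S0C = 1
    ext i j
    fin_cases i <;> fin_cases j <;>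
      simp [S0C, Matrix.mul_apply, Fin.sum_univ_four, Matrix.conjTranspose_apply]
  · show S1C.conjTranspose * S1C = 1
    ext i j
    fin_cases i <;> fin_cases j <;>
      simp [S1C, Matrix.mul_apply, Fin.sum_univ_four, Matrix.conjTranspose_apply]

/-- `P0 (A ⊕ 1) = outer A P0` -/
theorem outer_conj (A : Matrix (Fin 2) (Fin 2) ℂ) : P0 * blk A 1 = outer A * P0 := by
  ext i j
  fin_cases i <;> fin_cases j <;>
    simp [P0, blk, outer, Matrix.mul_apply, Fin.sum_univ_four]

theorem cont_PS (hg : ∀ s ∈ Set.Icc (0 : ℝ) 1, GoodC s) (g : Tri 2 4 6) :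
    Continuous fun s : Set.Icc (0 : ℝ) 1 => (PS (hg s.1 s.2) g).1 := by
  induction g using tri_ind with
  | h1 =>
    have h : (fun s : Set.Icc (0 : ℝ) 1 => (PS (hg s.1 s.2) 1).1) = fun _ => (1 : M4) := by
      funext s
      rw [map_one]
      rfl
    rw [h]
    exact continuous_const
  | hs i g ih =>
    have h : (fun s : Set.Icc (0 : ℝ) 1 => (PS (hg s.1 s.2) (Tri.s i * g)).1) =
        fun s => pathC s.1 i * (PS (hg s.1 s.2) g).1 := by
      funext s
      rw [map_mul, SL_mul_val, PS_s]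
    rw [h]
    exact (continuousOn_iff_continuous_domRestrict.1 (pathC_cont hg i)).matrix_mul ih
  | hz g ih =>
    have h : (fun s : Set.Icc (0 : ℝ) 1 => (PS (hg s.1 s.2) (Tri.z * g)).1) =
        fun s => -(PS (hg s.1 s.2) g).1 := by
      funext s
      rw [map_mul, SL_mul_val, PS_z, neg_one_mul]
    rw [h]
    exact ih.neg

theorem cont_rot : Continuous rotM := by
  apply continuous_matrix
  intro i j
  have hc : Continuous fun θ : ℝ => (Real.cos θ : ℂ) :=
    Complex.continuous_ofReal.comp Real.continuous_cos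
  have hs : Continuous fun θ : ℝ => (Real.sin θ : ℂ) :=
    Complex.continuous_ofReal.comp Real.continuous_sin
  fin_cases i <;> fin_cases j <;>
    first | exact continuous_const | exact hc | exact hs | exact hs.neg

theorem conj_of {A : GL (Fin 4) ℂ} {M B : M4} (h : A.1 * M = B * A.1) :
    A.1 * M * (A⁻¹).1 = B := by
  rw [h, Matrix.mul_assoc, ← Units.val_mul, mul_inv_cancel, Units.val_one, Matrix.mul_one]

theorem rot_zero : rotM 0 = 1 := by
  ext i j
  fin_cases i <;> fin_cases j <;> simp [rotM]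

theorem cert_PS {s : ℝ} (h : GoodC s) (hc : CertAt 4 edgesC 1 (pathC s)) :
    CertAt 4 edgesC 1 (fun i => (PS h (Tri.s i)).1) := by
  have e : (fun i => (PS h (Tri.s i)).1) = pathC s := by
    funext i
    exact PS_s h i
  rw [e]
  exact hc

theorem conj_cont {Y Γ : Type*} [TopologicalSpace Y] [Group Γ] {A : Y → GL (Fin 4) ℂ}
    {ρ : Y → Γ →* SL4} (h1 : Continuous fun y => (A y).1) (h2 : Continuous fun y => ((A y)⁻¹).1)
    (h3 : ∀ γ, Continuous fun y => (ρ y γ).1) :
    Continuous fun y => (⇑(conjHom (A y) (ρ y)) : Γ → SL4) := by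
  rw [continuous_pi_iff]
  intro γ
  refine continuous_induced_rng.mpr ?_
  have h : Continuous fun y => (A y).1 * (ρ y γ).1 * ((A y)⁻¹).1 :=
    (h1.matrix_mul (h3 γ)).matrix_mul h2
  exact h

theorem bounded_PS (h : GoodC 1) (K : ℝ) : ∃ K' : ℝ, ∀ g : Tri 2 4 6,
    (∀ i j, |(PhiC g).1 i j| ≤ K) → ∀ i j, ‖(PS h g).1 i j‖ ≤ K' := by
  let Ψ : Matrix (Fin 2) (Fin 2) ℝ → M4 := fun M => ((AA ph)⁻¹).1 * sym3 (cx M) * (AA ph).1
  have hΨ : ∀ g, (PS h g).1 = Ψ (PhiC g).1 := by
    intro g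
    have h1 := PS_one h g
    have h2 : (AA ph).1 * (PS h g).1 = sym3 (cx (PhiC g).1) * (AA ph).1 := h1
    have e1 : ((AA ph)⁻¹).1 * (AA ph).1 = 1 := by
      rw [← Units.val_mul, inv_mul_cancel, Units.val_one]
    show _ = ((AA ph)⁻¹).1 * sym3 (cx (PhiC g).1) * (AA ph).1
    rw [Matrix.mul_assoc, ← h2, ← Matrix.mul_assoc, e1, Matrix.one_mul]
  have hcx : Continuous fun M : Matrix (Fin 2) (Fin 2) ℝ => cx M :=
    Continuous.matrix_map continuous_id Complex.continuous_ofReal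
  have hent : ∀ i j, Continuous fun M : Matrix (Fin 2) (Fin 2) ℝ => cx M i j :=
    fun i j => hcx.matrix_elem i j
  have h00 := hent 0 0
  have h01 := hent 0 1
  have h10 := hent 1 0
  have h11 := hent 1 1
  have hsym : Continuous fun M : Matrix (Fin 2) (Fin 2) ℝ => sym3 (cx M) := by
    apply continuous_matrix
    intro i j
    fin_cases i <;> fin_cases j <;> simp only [sym3] <;> simp <;> fun_prop
  have hcont : Continuous Ψ := (continuous_const.matrix_mul hsym).matrix_mul continuous_const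
  let C : Set (Matrix (Fin 2) (Fin 2) ℝ) :=
    Set.pi Set.univ fun _ => Set.pi Set.univ fun _ => Set.Icc (-K) K
  have hC : IsCompact C := isCompact_univ_pi fun _ => isCompact_univ_pi fun _ => isCompact_Icc
  have hf : Continuous fun M => ∑ i, ∑ j, ‖Ψ M i j‖ :=
    continuous_finsetSum _ fun i _ => continuous_finsetSum _ fun j _ =>
      (hcont.matrix_elem i j).norm
  obtain ⟨K', hK'⟩ := hC.exists_bound_of_continuousOn hf.continuousOn
  refine ⟨K', fun g hg i j => ?_⟩
  have hmem : (PhiC g).1 ∈ C := by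
    intro i _ j _
    exact abs_le.mp (hg i j)
  have h1 := hK' _ hmem
  rw [hΨ]
  have h2 : ‖Ψ (PhiC g).1 i j‖ ≤ ∑ i, ∑ j, ‖Ψ (PhiC g).1 i j‖ := by
    refine le_trans ?_ (Finset.single_le_sum
      (f := fun i => ∑ j, ‖Ψ (PhiC g).1 i j‖)
      (fun i _ => Finset.sum_nonneg fun j _ => norm_nonneg _) (Finset.mem_univ i))
    exact Finset.single_le_sum (f := fun j => ‖Ψ (PhiC g).1 i j‖) (fun j _ => norm_nonneg _)
      (Finset.mem_univ j)
  exact h2.trans ((le_abs_self _).trans h1)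

end EndCAux

open EndCAux

theorem fin_c (hc : ∀ s ∈ Set.Icc (0 : ℝ) 1, GoodC s ∧ CertAt 4 edgesC 1 (pathC s)) (K : ℝ) :
    {g : Tri 2 4 6 | ∀ i j, |(PhiC g).1 i j| ≤ K}.Finite := by
  have h1 := hc 1 (Set.right_mem_Icc.mpr zero_le_one)
  exact fin_of_cert (k := 1) le_rfl (by norm_num) hasWord_c PhiC (PS h1.1) (PS_z h1.1)
    (fun i hi => by rw [PS_s]; exact hu_path 1 i hi) (cert_PS h1.1 h1.2) (bounded_PS h1.1) K

theorem core_c (hc : ∀ s ∈ Set.Icc (0 : ℝ) 1, GoodC s ∧ CertAt 4 edgesC 1 (pathC s))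
    {Γ : Type*} [Group Γ] (ι : Γ →* Tri 2 4 6) (φ : Γ →* X)
    (hφ : ∀ γ, (φ γ).1 = (PhiC (ι γ)).1) (hη : ∀ γ, EtaC (ι γ) = 1) (hf : ⇑φ ∈ fuchs Γ)
    (S : Finset Γ) (hS : Subgroup.closure (S : Set Γ) = ⊤) :
    ⇑(rho211 φ) ∈ connectedComponentIn (anosovSp S {1}) ⇑(rho4 φ) := by
  obtain ⟨φ', ⟨hinj, hdisc, hcoc⟩, he⟩ := hf
  have he' : φ' = φ := DFunLike.coe_injective he
  subst he'
  have hg : ∀ s ∈ Set.Icc (0 : ℝ) 1, GoodC s := fun s hs => (hc s hs).1
  have m0 : (0 : ℝ) ∈ Set.Icc (0 : ℝ) 1 := Set.left_mem_Icc.mpr zero_le_one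
  have m1 : (1 : ℝ) ∈ Set.Icc (0 : ℝ) 1 := Set.right_mem_Icc.mpr zero_le_one
  have hanos : ∀ (s : ℝ) (hs : s ∈ Set.Icc (0 : ℝ) 1),
      IsAnosov S {1} ((PS (hg s hs)).comp ι) := fun s hs =>
    anosov_of_cert (k := 1) le_rfl (by norm_num) hasWord_c PhiC (PS (hg s hs)) (PS_z _)
      (fun i hi => by rw [PS_s]; exact hu_path s i hi) (cert_PS _ (hc s hs).2) ι φ' hφ hinj hdisc
      hcoc S hS
  have hform : ∀ (s : ℝ) (hs : s ∈ Set.Icc (0 : ℝ) 1) (γ : Γ),
      (PS (hg s hs) (ι γ)).1.transpose * JT * (PS (hg s hs) (ι γ)).1 = JT := by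
    intro s hs γ
    rw [PS_form, ← hφ, (φ' γ).2, Complex.ofReal_one, one_smul]
  have hmem : ∀ (s : ℝ) (hs : s ∈ Set.Icc (0 : ℝ) 1) (θ : ℝ),
      (⇑(conjHom (AA θ) ((PS (hg s hs)).comp ι)) : Γ → SL4) ∈ anosovSp S {1} := by
    intro s hs θ
    refine ⟨conjHom (AA θ) ((PS (hg s hs)).comp ι), ?_, fun γ => ?_, rfl⟩
    · exact anosov_conj (by simp) (AA θ) (fun γ => rfl) (hanos s hs)
    · exact form_conj (AA_J θ) (hform s hs γ)
  let F1 : Set.Icc (0 : ℝ) 1 → (Γ → SL4) := fun s =>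
    ⇑(conjHom (AA 0) ((PS (hg s.1 s.2)).comp ι))
  let F2 : ℝ → (Γ → SL4) := fun θ => ⇑(conjHom (AA θ) ((PS (hg 1 m1)).comp ι))
  have c1 : Continuous F1 := conj_cont continuous_const continuous_const
    fun γ => cont_PS hg (ι γ)
  have c2 : Continuous F2 := by
    apply conj_cont
    · exact continuous_const.matrix_mul cont_rot
    · exact (cont_rot.comp continuous_neg).matrix_mul continuous_const
    · exact fun γ => continuous_const
  have p1 : IsPreconnected (Set.range F1) := by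
    have : PreconnectedSpace (Set.Icc (0 : ℝ) 1) :=
      isPreconnected_iff_preconnectedSpace.mp isPreconnected_Icc
    exact isPreconnected_range c1
  have p2 : IsPreconnected (Set.range F2) := isPreconnected_range c2
  have e0 : F1 ⟨0, m0⟩ = ⇑(rho211 φ') := by
    funext γ
    apply Subtype.ext
    show (AA 0).1 * (PS (hg 0 m0) (ι γ)).1 * ((AA 0)⁻¹).1 = (rho211 φ' γ).1
    have h : (rho211 φ' γ).1 = outer (cx (φ' γ).1) := outer_map (φ' γ).1
    rw [h, PS_zero, hη, hφ γ]
    apply conj_of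
    show P0 * rotM 0 * blk (cx (PhiC (ι γ)).1) 1 = outer (cx (PhiC (ι γ)).1) * (P0 * rotM 0)
    rw [rot_zero, Matrix.mul_one, outer_conj]
  have e2 : F2 ph = ⇑(rho4 φ') := by
    funext γ
    apply Subtype.ext
    show (AA ph).1 * (PS (hg 1 m1) (ι γ)).1 * ((AA ph)⁻¹).1 = (rho4 φ' γ).1
    have h : (rho4 φ' γ).1 = sym3 (cx (φ' γ).1) := sym3_map (φ' γ).1
    rw [h, hφ γ]
    exact conj_of (PS_one (hg 1 m1) (ι γ))
  have hU : IsPreconnected (Set.range F1 ∪ Set.range F2) :=
    IsPreconnected.union (F1 ⟨1, m1⟩) ⟨⟨1, m1⟩, rfl⟩ ⟨0, rfl⟩ p1 p2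
  have hsub : Set.range F1 ∪ Set.range F2 ⊆ anosovSp S {1} := by
    rintro f (⟨s, rfl⟩ | ⟨θ, rfl⟩)
    · exact hmem s.1 s.2 0
    · exact hmem 1 m1 θ
  have hfin := hU.subset_connectedComponentIn (x := ⇑(rho4 φ')) (Or.inr ⟨ph, e2⟩) hsub
  exact hfin (Or.inl ⟨⟨0, m0⟩, e0⟩)

end Pool.Agent.Hhelper63.AnT
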