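import Pool.Agent.Hhelper63.AnT.Words
import Pool.Agent.Hhelper63.AnT.Surf

namespace Pool.Agent.Hhelper63.AnT

namespace Ping

/-- real 2 by 2 matrices -/
abbrev M2 := Matrix (Fin 2) (Fin 2) ℝ

/-- the quadratic form which is nonnegative exactly on the double cone over the segment from
`(p1, p2)` to `(r1, r2)` -/
def fq (p1 p2 r1 r2 x y : ℝ) : ℝ := (x * r2 - y * r1) * (p1 * y - p2 * x)

lemma edge_ineq {p1 p2 r1 r2 s1 s2 u1 u2 a b c d : ℝ} (hD : 0 < p1 * r2 - p2 * r1)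
    (h : (0 ≤ (a * p1 + b * p2) * u2 - (c * p1 + d * p2) * u1 ∧
        0 ≤ (a * r1 + b * r2) * u2 - (c * r1 + d * r2) * u1 ∧
        0 ≤ s1 * (c * p1 + d * p2) - s2 * (a * p1 + b * p2) ∧
        0 ≤ s1 * (c * r1 + d * r2) - s2 * (a * r1 + b * r2)) ∨
      ((a * p1 + b * p2) * u2 - (c * p1 + d * p2) * u1 ≤ 0 ∧
        (a * r1 + b * r2) * u2 - (c * r1 + d * r2) * u1 ≤ 0 ∧
        s1 * (c * p1 + d * p2) - s2 * (a * p1 + b * p2) ≤ 0 ∧
        s1 * (c * r1 + d * r2) - s2 * (a * r1 + b * r2) ≤ 0)) :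
    ∃ μ : ℝ, 0 ≤ μ ∧ ∀ x y, μ * fq p1 p2 r1 r2 x y ≤
      fq s1 s2 u1 u2 (a * x + b * y) (c * x + d * y) := by
  generalize hA : (a * p1 + b * p2) * u2 - (c * p1 + d * p2) * u1 = A at h
  generalize hB : (a * r1 + b * r2) * u2 - (c * r1 + d * r2) * u1 = B at h
  generalize hC : s1 * (c * p1 + d * p2) - s2 * (a * p1 + b * p2) = C at h
  generalize hE : s1 * (c * r1 + d * r2) - s2 * (a * r1 + b * r2) = F at h
  have hAC : 0 ≤ A * C := by
    rcases h with ⟨h1, h2, h3, h4⟩ | ⟨h1, h2, h3, h4⟩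
    · exact mul_nonneg h1 h3
    · exact mul_nonneg_of_nonpos_of_nonpos h1 h3
  have hBF : 0 ≤ B * F := by
    rcases h with ⟨h1, h2, h3, h4⟩ | ⟨h1, h2, h3, h4⟩
    · exact mul_nonneg h2 h4
    · exact mul_nonneg_of_nonpos_of_nonpos h2 h4
  have hAF : 0 ≤ A * F := by
    rcases h with ⟨h1, h2, h3, h4⟩ | ⟨h1, h2, h3, h4⟩
    · exact mul_nonneg h1 h4
    · exact mul_nonneg_of_nonpos_of_nonpos h1 h4
  have hBC : 0 ≤ B * C := by
    rcases h with ⟨h1, h2, h3, h4⟩ | ⟨h1, h2, h3, h4⟩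
    · exact mul_nonneg h2 h3
    · exact mul_nonneg_of_nonpos_of_nonpos h2 h3
  generalize hDD : p1 * r2 - p2 * r1 = K at hD
  refine ⟨(A * F + B * C) / K ^ 2, by positivity, fun x y => ?_⟩
  have hK : 0 < K ^ 2 := by positivity
  rw [div_mul_eq_mul_div, div_le_iff₀ hK]
  have e1 : K * ((a * x + b * y) * u2 - (c * x + d * y) * u1)
      = A * (x * r2 - y * r1) + B * (p1 * y - p2 * x) := by
    rw [← hA, ← hB, ← hDD]; ring
  have e2 : K * (s1 * (c * x + d * y) - s2 * (a * x + b * y))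
      = C * (x * r2 - y * r1) + F * (p1 * y - p2 * x) := by
    rw [← hC, ← hE, ← hDD]; ring
  have e3 : fq s1 s2 u1 u2 (a * x + b * y) (c * x + d * y) * K ^ 2
      = (A * (x * r2 - y * r1) + B * (p1 * y - p2 * x)) *
        (C * (x * r2 - y * r1) + F * (p1 * y - p2 * x)) := by
    rw [← e1, ← e2, fq]; ring
  rw [e3, fq]
  nlinarith [mul_nonneg hAC (sq_nonneg (x * r2 - y * r1)),
    mul_nonneg hBF (sq_nonneg (p1 * y - p2 * x))]

lemma fq_comp (p1 p2 r1 r2 a b c d : ℝ) : ∀ x y, fq p1 p2 r1 r2 (a * x + b * y) (c * x + d * y)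
    = fq p1 p2 r1 r2 a c * x ^ 2 + ((a * r2 - c * r1) * (p1 * d - p2 * b) +
      (b * r2 - d * r1) * (p1 * c - p2 * a)) * (x * y) + fq p1 p2 r1 r2 b d * y ^ 2 := by
  intro x y
  unfold fq
  ring

/-- the sum of the values of a form at the two columns -/
def gm (f : ℝ → ℝ → ℝ) (M : M2) : ℝ := f (M 0 0) (M 1 0) + f (M 0 1) (M 1 1)

/-- the edge condition -/
def EdgeOk (f g : ℝ → ℝ → ℝ) (T : M2) : Prop :=
  ∃ μ : ℝ, 0 ≤ μ ∧ ∀ x y, μ * g x y ≤ f (T 0 0 * x + T 0 1 * y) (T 1 0 * x + T 1 1 * y)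

lemma path_nonneg (S : Fin 3 → M2) (E : List Edge) (N : ℕ) (f : ℕ → ℝ → ℝ → ℝ)
    (h0 : ∀ q < N, 0 ≤ f q 1 0 + f q 0 1)
    (hE : ∀ e ∈ E, EdgeOk (f e.src) (f e.tgt) (ev S e.d * S 2))
    {q q' n : ℕ} {u : List (Fin 3)} (h : Syl E q u q' n) (hq' : q' < N) :
    0 ≤ gm (f q) (ev S u) := by
  induction h with
  | nil q =>
    have := h0 q hq'
    simpa [gm, ev] using this
  | cons e he w q' n h ih =>
    have ih' := ih hq'
    obtain ⟨μ, hμ, h1⟩ := hE e he
    have e1 : ev S (e.d ++ 2 :: w) = (ev S e.d * S 2) * ev S w := by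
      simp [ev, mul_assoc]
    rw [e1]
    unfold gm at ih' ⊢
    rw [Matrix.mul_apply, Matrix.mul_apply, Matrix.mul_apply, Matrix.mul_apply,
      Fin.sum_univ_two, Fin.sum_univ_two, Fin.sum_univ_two, Fin.sum_univ_two]
    have h2 := h1 (ev S w 0 0) (ev S w 1 0)
    have h3 := h1 (ev S w 0 1) (ev S w 1 1)
    have h4 : 0 ≤ μ * (f e.tgt (ev S w 0 0) (ev S w 1 0) + f e.tgt (ev S w 0 1) (ev S w 1 1)) :=
      mul_nonneg hμ ih'
    linarith

lemma ev_orth (S : Fin 3 → M2) (h0 : S 0 ∈ Matrix.orthogonalGroup (Fin 2) ℝ)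
    (h1 : S 1 ∈ Matrix.orthogonalGroup (Fin 2) ℝ) (w : List (Fin 3)) (hw : ∀ x ∈ w, x ≠ 2) :
    ev S w ∈ Matrix.orthogonalGroup (Fin 2) ℝ := by
  unfold ev
  apply Submonoid.list_prod_mem
  intro x hx
  rw [List.mem_map] at hx
  obtain ⟨i, hi, rfl⟩ := hx
  have := hw i hi
  have h3 : i = 0 ∨ i = 1 ∨ i = 2 := by fin_cases i <;> simp
  rcases h3 with rfl | rfl | rfl
  · exact h0
  · exact h1
  · exact absurd rfl this

lemma gm_orth (f : ℝ → ℝ → ℝ) (T K : M2) (α β γ : ℝ)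
    (hf : ∀ x y, f (T 0 0 * x + T 0 1 * y) (T 1 0 * x + T 1 1 * y)
      = α * x ^ 2 + β * (x * y) + γ * y ^ 2)
    (hK : K ∈ Matrix.orthogonalGroup (Fin 2) ℝ) : gm f (T * K) = α + γ := by
  rw [Matrix.mem_orthogonalGroup_iff] at hK
  have h00 := congrFun (congrFun hK 0) 0
  have h01 := congrFun (congrFun hK 0) 1
  have h11 := congrFun (congrFun hK 1) 1
  simp [Matrix.mul_apply, Fin.sum_univ_two] at h00 h01 h11
  unfold gm
  rw [Matrix.mul_apply, Matrix.mul_apply, Matrix.mul_apply, Matrix.mul_apply,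
      Fin.sum_univ_two, Fin.sum_univ_two, Fin.sum_univ_two, Fin.sum_univ_two, hf, hf]
  linear_combination α * h00 + β * h01 + γ * h11

theorem inj_of {k l m : ℕ} (S : Fin 3 → M2) (hS : S 2 * S 2 = 1)
    (Φ : Tri k l m →* GL (Fin 2) ℝ)
    (hΦs : ∀ i, (Φ (Tri.s i)).1 = S i) (hΦz : (Φ Tri.z).1 = -1)
    (hO0 : S 0 ∈ Matrix.orthogonalGroup (Fin 2) ℝ) (hO1 : S 1 ∈ Matrix.orthogonalGroup (Fin 2) ℝ)
    (L : List (List (Fin 3))) (E : List Edge) (N : ℕ)
    (c : ℕ → List (Fin 3)) (D : List (List (Fin 3)))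
    (hL : ∀ x ∈ L, ∃ y, Rule k l m x y) (hN : 0 < N) (hc0 : c 0 = [2])
    (hD : ∀ d, (∀ x ∈ d, x ≠ 2) → Avoid L d → d ∈ D) (hlen : ∀ d ∈ D, d.length ≤ 4)
    (hstep : ∀ q < N, ∀ d ∈ D, (∃ e ∈ E, e.src = q ∧ e.d = d ∧ e.tgt < N ∧
      c e.tgt <:+ c q ++ (d ++ [2])) ∨ (∃ x ∈ L, x <:+: c q ++ (d ++ [2])))
    (f : ℕ → ℝ → ℝ → ℝ) (h0 : ∀ q < N, 0 ≤ f q 1 0 + f q 0 1)
    (hE : ∀ e ∈ E, EdgeOk (f e.src) (f e.tgt) (ev S e.d * S 2))
    (p1 p2 r1 r2 : ℝ) (hf : f 0 = fq p1 p2 r1 r2)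
    (hneg : fq p1 p2 r1 r2 (S 2 0 0) (S 2 1 0) + fq p1 p2 r1 r2 (S 2 0 1) (S 2 1 1) < 0)
    (hfin : ∀ d ∈ D, d ≠ [] → ev S d 1 0 ≠ 0 ∨ ev S d 0 0 ≠ ev S d 1 1) :
    Function.Injective Φ := by
  have hev : ∀ w, (Φ (ev Tri.s w)).1 = ev S w := by
    intro w
    induction w with
    | nil => simp [ev]
    | cons a w ih =>
      have e1 : (ev Tri.s (a :: w) : Tri k l m) = Tri.s a * ev Tri.s w := by simp [ev]
      have e2 : ev S (a :: w) = S a * ev S w := by simp [ev]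
      rw [e1, e2, map_mul, Units.val_mul, ih, hΦs]
  rw [injective_iff_map_eq_one]
  intro g hg
  have key : ∀ w, Rep g w → ∃ ε : ℝ, (ε = 1 ∨ ε = -1) ∧ ev S w = ε • (1 : M2) := by
    intro w hw
    rcases hw with hw | hw
    · refine ⟨1, Or.inl rfl, ?_⟩
      rw [← hev, ← hw, hg]
      simp
    · refine ⟨-1, Or.inr rfl, ?_⟩
      have : (Φ g).1 = -(ev S w) := by
        rw [hw, map_mul, Units.val_mul, hΦz, hev]; simp
      rw [hg] at this
      have h2 : ev S w = -1 := by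
        rw [← neg_eq_iff_eq_neg, ← this]
        simp
      rw [h2]; simp
  obtain ⟨w, hw, hA⟩ := exists_avoid L hL g
  obtain ⟨ε, hε, hwε⟩ := key w hw
  by_cases h2 : (2 : Fin 3) ∈ w
  · exfalso
    obtain ⟨d, v', hdv, hd2⟩ := List.eq_append_cons_of_mem h2
    have hd2' : ∀ x ∈ d, x ≠ 2 := fun x hx h => hd2 (h ▸ hx)
    have hA' : Avoid L (c 0 ++ v') := by
      rw [hc0]
      intro x hx hxi
      refine hA x hx (hxi.trans ⟨d, [], ?_⟩)
      rw [hdv]; simp
    obtain ⟨u, d', q', n', h1, h2, h3, h4, h5⟩ :=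
      syl_of_avoid L E N c D hD (fun d hd => (hlen d hd).trans (by norm_num)) hstep
        v'.length v' le_rfl 0 hN hA'
    have hpath := path_nonneg S E N f h0 hE h4 h5
    have e1 : ev S w = ev S d * (S 2 * ev S u) * ev S d' := by
      rw [hdv, h1]
      simp [ev, mul_assoc]
    rw [hwε] at e1
    have hOd := ev_orth S hO0 hO1 d hd2'
    have hOd' := ev_orth S hO0 hO1 d' h3
    set A := ev S d with hAdef
    set B := ev S d' with hBdef
    set U := ev S u with hUdef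
    have hA1 : star A * A = 1 := (Matrix.mem_orthogonalGroup_iff' (Fin 2) ℝ).mp hOd
    have hB1 : B * star B = 1 := (Matrix.mem_orthogonalGroup_iff (Fin 2) ℝ).mp hOd'
    have e2 : U = S 2 * (ε • (star A * star B)) := by
      have : S 2 * U = ε • (star A * star B) := by
        calc S 2 * U = (star A * A) * (S 2 * U) * (B * star B) := by
              rw [hA1, hB1, one_mul, mul_one]
          _ = star A * (A * (S 2 * U) * B) * star B := by simp only [mul_assoc]
          _ = ε • (star A * star B) := by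
              rw [← e1]
              simp
      rw [← this, ← mul_assoc, hS, one_mul]
    have hK : ε • (star A * star B) ∈ Matrix.orthogonalGroup (Fin 2) ℝ := by
      have hAB : star A * star B ∈ Matrix.orthogonalGroup (Fin 2) ℝ :=
        mul_mem (Unitary.star_mem hOd) (Unitary.star_mem hOd')
      rcases hε with rfl | rfl
      · simpa using hAB
      · rw [neg_smul, one_smul]
        rw [Matrix.mem_orthogonalGroup_iff] at hAB ⊢
        rw [Matrix.transpose_neg, neg_mul_neg]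
        exact hAB
    rw [e2, gm_orth (f 0) (S 2) _ _ _ _ (by rw [hf]; exact fq_comp p1 p2 r1 r2 _ _ _ _) hK]
      at hpath
    linarith
  · have h2' : ∀ x ∈ w, x ≠ 2 := fun x hx h => h2 (h ▸ hx)
    have hwD : w ∈ D := hD w h2' hA
    by_cases hw0 : w = []
    · subst hw0
      rcases hw with hw | hw
      · rw [hw]; simp [ev]
      · exfalso
        have h3 : (Φ g).1 = -1 := by
          rw [hw, map_mul, Units.val_mul, hΦz]; simp [ev]
        rw [hg] at h3
        have h4 := congrFun (congrFun h3 0) 0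
        simp at h4
        linarith
    · exfalso
      rcases hfin w hwD hw0 with h | h
      · apply h; rw [hwε]; simp
      · apply h; rw [hwε]; simp

lemma edge_ok {T : M2} {p1 p2 r1 r2 s1 s2 u1 u2 a b c d : ℝ} (hT : T = !![a, b; c, d])
    (hD : 0 < p1 * r2 - p2 * r1)
    (h : (0 ≤ (a * p1 + b * p2) * u2 - (c * p1 + d * p2) * u1 ∧
        0 ≤ (a * r1 + b * r2) * u2 - (c * r1 + d * r2) * u1 ∧
        0 ≤ s1 * (c * p1 + d * p2) - s2 * (a * p1 + b * p2) ∧
        0 ≤ s1 * (c * r1 + d * r2) - s2 * (a * r1 + b * r2)) ∨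
      ((a * p1 + b * p2) * u2 - (c * p1 + d * p2) * u1 ≤ 0 ∧
        (a * r1 + b * r2) * u2 - (c * r1 + d * r2) * u1 ≤ 0 ∧
        s1 * (c * p1 + d * p2) - s2 * (a * p1 + b * p2) ≤ 0 ∧
        s1 * (c * r1 + d * r2) - s2 * (a * r1 + b * r2) ≤ 0)) :
    EdgeOk (fq s1 s2 u1 u2) (fq p1 p2 r1 r2) T := by
  subst hT
  exact edge_ineq hD h

/-! ### The group `Tri 2 4 6` -/

/-- the forms of the four states -/
def fC : ℕ → ℝ → ℝ → ℝ
  | 0 => fq 9 1 (-5) 8
  | 1 => fq 7 3 (-1) 1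
  | 2 => fq 3 5 (-3) 1
  | _ => fq 11 (-2) 1 6

lemma s2_lo : (1.41421 : ℝ) < √2 := by
  rw [Real.lt_sqrt (by norm_num)]; norm_num

lemma s2_hi : √2 < (1.41422 : ℝ) := by
  rw [Real.sqrt_lt' (by norm_num)]; norm_num

lemma s3_lo : (1.73205 : ℝ) < √3 := by
  rw [Real.lt_sqrt (by norm_num)]; norm_num

lemma s3_hi : √3 < (1.73206 : ℝ) := by
  rw [Real.sqrt_lt' (by norm_num)]; norm_num

lemma matC0 : ev reflC [0] * reflC 2 =
    !![√3 / 2, (√2 + 1) / 2; -((√2 - 1) / 2), √3 / 2] := by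
  apply two_ext <;> simp [ev, reflC, Matrix.mul_apply, Fin.sum_univ_two]

lemma matC01 : ev reflC [0, 1] * reflC 2 =
    !![(√2 - 1) / 2, -(√3 / 2); -(√3 / 2), -((√2 + 1) / 2)] := by
  apply two_ext <;> simp [ev, reflC, Matrix.mul_apply, Fin.sum_univ_two]

lemma matC1 : ev reflC [1] * reflC 2 =
    !![(√2 - 1) / 2, -(√3 / 2); √3 / 2, (√2 + 1) / 2] := by
  apply two_ext <;> simp [ev, reflC, Matrix.mul_apply, Fin.sum_univ_two]

lemma edges_c : ∀ e ∈ edgesC, EdgeOk (fC e.src) (fC e.tgt) (ev reflC e.d * reflC 2) := by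
  have h1 := s2_lo
  have h2 := s2_hi
  have h3 := s3_lo
  have h4 := s3_hi
  intro e he
  simp only [edgesC, List.mem_cons, List.not_mem_nil, or_false] at he
  rcases he with rfl | rfl | rfl | rfl | rfl | rfl | rfl | rfl
  · exact edge_ok matC0 (by norm_num) (Or.inl ⟨by linarith, by linarith, by linarith, by linarith⟩)
  · exact edge_ok matC01 (by norm_num) (Or.inr ⟨by linarith, by linarith, by linarith, by linarith⟩)
  · exact edge_ok matC1 (by norm_num) (Or.inl ⟨by linarith, by linarith, by linarith, by linarith⟩)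
  · exact edge_ok matC0 (by norm_num) (Or.inl ⟨by linarith, by linarith, by linarith, by linarith⟩)
  · exact edge_ok matC01 (by norm_num) (Or.inr ⟨by linarith, by linarith, by linarith, by linarith⟩)
  · exact edge_ok matC1 (by norm_num) (Or.inl ⟨by linarith, by linarith, by linarith, by linarith⟩)
  · exact edge_ok matC1 (by norm_num) (Or.inl ⟨by linarith, by linarith, by linarith, by linarith⟩)
  · exact edge_ok matC0 (by norm_num) (Or.inl ⟨by linarith, by linarith, by linarith, by linarith⟩)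

/-! ### The group `Tri 4 3 3` -/

/-- the forms of the three states -/
def fB : ℕ → ℝ → ℝ → ℝ
  | 0 => fq 3 (-4) 1 4
  | 1 => fq 1 (-1) (-1) 5
  | _ => fq 1 (-3) 1 2

lemma c_lo : (0.84089 : ℝ) < cB := by
  have := s2_lo
  rw [cB, Real.lt_sqrt (by norm_num)]; norm_num at this ⊢; linarith

lemma c_hi : cB < (0.8409 : ℝ) := by
  have := s2_hi
  rw [cB, Real.sqrt_lt' (by norm_num)]; norm_num at this ⊢; linarith

lemma t_lo : (1.189 : ℝ) < √2 * cB := by
  have h1 := s2_lo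
  have h2 := c_lo
  nlinarith

lemma t_hi : √2 * cB < (1.1893 : ℝ) := by
  have h1 := s2_hi
  have h2 := c_hi
  have h3 : 0 < cB := by have := c_lo; linarith
  nlinarith

lemma matB010 : ev reflB [0, 1, 0] * reflB 2 =
    !![-((√2 + 1) / 2) - √2 * cB / 2, 1 / 2 - √2 * cB / 2;
      -(1 / 2) - √2 * cB / 2, -((√2 + 1) / 2) + √2 * cB / 2] := by
  have h2 := sqrt2_sq
  apply two_ext <;> simp [ev, reflB, Matrix.mul_apply, Fin.sum_univ_two] <;> nlinarith

lemma matB0101 : ev reflB [0, 1, 0, 1] * reflB 2 =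
    !![-((1 + √2) / 2) - cB, -(1 / 2); -(1 / 2), (1 + √2) / 2 - cB] := by
  have hh : √2 / 2 * (√2 / 2) = 1 / 2 := by nlinarith [sqrt2_sq]
  apply two_ext <;> simp [ev, reflB, Matrix.mul_apply, Fin.sum_univ_two] <;>
    (try simp only [hh]) <;> linarith

lemma matB01 : ev reflB [0, 1] * reflB 2 =
    !![1 / 2 + √2 * cB / 2, (√2 + 1) / 2 - √2 * cB / 2;
      (√2 + 1) / 2 + √2 * cB / 2, -(1 / 2) + √2 * cB / 2] := by
  have h2 := sqrt2_sq
  apply two_ext <;> simp [ev, reflB, Matrix.mul_apply, Fin.sum_univ_two] <;> nlinarith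

lemma matB10 : ev reflB [1, 0] * reflB 2 =
    !![-((√2 + 1) / 2) - √2 * cB / 2, 1 / 2 - √2 * cB / 2;
      1 / 2 + √2 * cB / 2, (√2 + 1) / 2 - √2 * cB / 2] := by
  have h2 := sqrt2_sq
  apply two_ext <;> simp [ev, reflB, Matrix.mul_apply, Fin.sum_univ_two] <;> nlinarith

lemma matB101 : ev reflB [1, 0, 1] * reflB 2 =
    !![-((1 + √2) / 2) - cB, -(1 / 2); 1 / 2, -((1 + √2) / 2) + cB] := by
  have hh : √2 / 2 * (√2 / 2) = 1 / 2 := by nlinarith [sqrt2_sq]
  apply two_ext <;> simp [ev, reflB, Matrix.mul_apply, Fin.sum_univ_two] <;>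
    (try simp only [hh]) <;> linarith

lemma edges_b : ∀ e ∈ edgesB, EdgeOk (fB e.src) (fB e.tgt) (ev reflB e.d * reflB 2) := by
  have h1 := s2_lo
  have h2 := s2_hi
  have h3 := c_lo
  have h4 := c_hi
  have h5 := t_lo
  have h6 := t_hi
  intro e he
  simp only [edgesB, List.mem_cons, List.not_mem_nil, or_false] at he
  rcases he with rfl | rfl | rfl | rfl | rfl | rfl | rfl | rfl | rfl
  · exact edge_ok matB010 (by norm_num) (Or.inr ⟨by linarith, by linarith, by linarith, by linarith⟩)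
  · exact edge_ok matB0101 (by norm_num) (Or.inr ⟨by linarith, by linarith, by linarith, by linarith⟩)
  · exact edge_ok matB01 (by norm_num) (Or.inl ⟨by linarith, by linarith, by linarith, by linarith⟩)
  · exact edge_ok matB10 (by norm_num) (Or.inr ⟨by linarith, by linarith, by linarith, by linarith⟩)
  · exact edge_ok matB101 (by norm_num) (Or.inr ⟨by linarith, by linarith, by linarith, by linarith⟩)
  · exact edge_ok matB010 (by norm_num) (Or.inr ⟨by linarith, by linarith, by linarith, by linarith⟩)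
  · exact edge_ok matB01 (by norm_num) (Or.inl ⟨by linarith, by linarith, by linarith, by linarith⟩)
  · exact edge_ok matB10 (by norm_num) (Or.inr ⟨by linarith, by linarith, by linarith, by linarith⟩)
  · exact edge_ok matB101 (by norm_num) (Or.inr ⟨by linarith, by linarith, by linarith, by linarith⟩)

end Ping

open Ping

theorem faith_c : Function.Injective PhiC := by
  have h1 := s2_lo
  have h2 := s2_hi
  have h3 := s3_lo
  have h4 := s3_hi
  have q2 := sqrt2_sq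
  have q3 := sqrt3_sq
  refine inj_of reflC (reflC_sq 2) PhiC (fun i => ?_) ?_ ?_ ?_ LC edgesC 4 sufC DC ruleC
    (by norm_num) rfl hDC (by decide) hstepC fC ?_ edges_c 9 1 (-5) 8 rfl ?_ ?_
  · rw [PhiC, Tri.lift_s]
  · rw [PhiC, Tri.lift_z]; simp
  · rw [Matrix.mem_orthogonalGroup_iff]
    apply two_ext <;> simp [reflC, Matrix.mul_apply, Fin.sum_univ_two]
  · rw [Matrix.mem_orthogonalGroup_iff]
    apply two_ext <;> simp [reflC, Matrix.mul_apply, Fin.sum_univ_two]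
  · intro q hq
    interval_cases q <;> norm_num [fC, fq]
  · simp [reflC, fq]
    nlinarith
  · intro d hd hd0
    simp only [DC, List.mem_cons, List.not_mem_nil, or_false] at hd
    rcases hd with rfl | rfl | rfl | rfl
    · exact absurd rfl hd0
    · right; norm_num [ev, reflC]
    · left; simp [ev, reflC]
    · left; simp [ev, reflC, Matrix.mul_apply, Fin.sum_univ_two]

theorem faith_b : Function.Injective PhiB := by
  have h1 := s2_lo
  have h2 := s2_hi
  have h3 := c_lo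
  have h4 := c_hi
  have q2 := sqrt2_sq
  have q3 := cB_sq
  refine inj_of reflB (reflB_sq 2) PhiB (fun i => ?_) ?_ ?_ ?_ LB edgesB 3 sufB DB ruleB
    (by norm_num) rfl hDB (by decide) hstepB fB ?_ edges_b 3 (-4) 1 4 rfl ?_ ?_
  · rw [PhiB, Tri.lift_s]
  · rw [PhiB, Tri.lift_z]; simp
  · rw [Matrix.mem_orthogonalGroup_iff]
    apply two_ext <;> simp [reflB, Matrix.mul_apply, Fin.sum_univ_two]
  · rw [Matrix.mem_orthogonalGroup_iff]
    apply two_ext <;> simp [reflB, Matrix.mul_apply, Fin.sum_univ_two] <;> nlinarith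
  · intro q hq
    interval_cases q <;> norm_num [fB, fq]
  · simp [reflB, fq]
    nlinarith
  · intro d hd hd0
    have hpos : (0 : ℝ) < √2 := by positivity
    simp only [DB, List.mem_cons, List.not_mem_nil, or_false] at hd
    rcases hd with rfl | rfl | rfl | rfl | rfl | rfl | rfl | rfl
    · exact absurd rfl hd0
    · right; norm_num [ev, reflB]
    · left; simp [ev, reflB]
    · left; simp [ev, reflB, Matrix.mul_apply, Fin.sum_univ_two]
    · left; simp [ev, reflB, Matrix.mul_apply, Fin.sum_univ_two]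
    · left; simp [ev, reflB, Matrix.mul_apply, Fin.sum_univ_two]
    · left; simp [ev, reflB, Matrix.mul_apply, Fin.sum_univ_two]
    · left; simp [ev, reflB, Matrix.mul_apply, Fin.sum_univ_two]

end Pool.Agent.Hhelper63.AnT
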