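import Pool.Agent.Hhelper63.AnT.SurfC
import Pool.Agent.Hhelper63.AnT.Cover
import Pool.Agent.Hhelper63.AnT.Faith
import Pool.Agent.Hhelper63.AnT.Coc
import Pool.Agent.Hhelper63.AnT.EndC
import Pool.Agent.Hhelper63.AnT.AllC

/-!
Case (c) for one Fuchsian representation of every surface group.
-/

namespace Pool.Agent.Hhelper63.AnT

open Pool.Agent.Hhelper67.Anosov

/-- a finite set of representatives for a composition of two inclusions of finite index -/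
theorem reps_comp {A B C : Type*} [Group A] [Group B] [Group C] (κ : A →* B) (ι : B →* C)
    (h1 : ∃ F : Finset B, ∀ x, ∃ f ∈ F, ∃ γ, x = f * κ γ)
    (h2 : ∃ F : Finset C, ∀ x, ∃ f ∈ F, ∃ γ, x = f * ι γ) :
    ∃ F : Finset C, ∀ x, ∃ f ∈ F, ∃ γ, x = f * (ι.comp κ) γ := by
  classical
  obtain ⟨F1, h1⟩ := h1
  obtain ⟨F2, h2⟩ := h2
  refine ⟨(F2 ×ˢ F1).image fun p => p.1 * ι p.2, fun x => ?_⟩
  obtain ⟨f, hf, b, rfl⟩ := h2 x
  obtain ⟨f', hf', a, rfl⟩ := h1 b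
  refine ⟨f * ι f', ?_, a, ?_⟩
  · rw [Finset.mem_image]
    exact ⟨(f, f'), by rw [Finset.mem_product]; exact ⟨hf, hf'⟩, rfl⟩
  · rw [map_mul, mul_assoc]
    rfl

/-- a homomorphism into matrices of determinant one, from one into `GL(2, ℝ)` -/
noncomputable def toX {A : Type*} [Group A] (f : A →* GL (Fin 2) ℝ)
    (h : ∀ a, (f a).1.det = 1) : A →* X where
  toFun a := ⟨(f a).1, h a⟩
  map_one' := Subtype.ext (by simp)
  map_mul' a b := Subtype.ext (by simp)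

theorem main_c (g : ℕ) (hg : 2 ≤ g) : ∃ φ : Surf g →* X, ⇑φ ∈ fuchs (Surf g) ∧
    ∀ S : Finset (Surf g), Subgroup.closure (S : Set (Surf g)) = ⊤ →
      ⇑(rho211 φ) ∈ connectedComponentIn (anosovSp S {1}) ⇑(rho4 φ) := by
  obtain ⟨ι, hι, hη, hdet, hF⟩ := surf_c
  obtain ⟨κ, hκ, hF'⟩ := surf_cover g hg
  have hfin := fin_c all_c
  let j : Surf g →* Tri 2 4 6 := ι.comp κ
  let φ : Surf g →* X := toX (PhiC.comp j) (fun a => hdet (κ a))
  have hφ : ∀ γ, (φ γ).1 = (PhiC (j γ)).1 := fun _ => rfl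
  have hinj : Function.Injective φ := by
    intro a b hab
    have h1 : (PhiC (j a)).1 = (PhiC (j b)).1 := by rw [← hφ, ← hφ, hab]
    exact hκ (hι (faith_c (Units.ext h1)))
  have hf : ⇑φ ∈ fuchs (Surf g) :=
    ⟨φ, ⟨hinj, disc_of_fin PhiC hfin j φ hφ, coc_c hfin j φ hφ (reps_comp κ ι hF' hF)⟩, rfl⟩
  exact ⟨φ, hf, fun S hS => core_c all_c j φ hφ (fun γ => hη (κ γ)) hf S hS⟩

end Pool.Agent.Hhelper63.AnT
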