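import Pool.Agent.Hhelper63.AnT.FinB
import Pool.Agent.Hhelper63.Anosov.Main
import Pool.Agent.Hhelper67.Anosov.Member

/-!
The full statement, from connectedness of moduli space and case (b) for one representation.
-/

namespace Pool.Agent.Hhelper63.AnT

open Pool.Agent.Hhelper67.Anosov

/-- case (b) for every Fuchsian representation -/
theorem case_b_of {g : ℕ} (ht : TeichStmt g)
    (hb : ∃ φ : Surf g →* X, ⇑φ ∈ fuchs (Surf g) ∧
      ∀ S : Finset (Surf g), Subgroup.closure (S : Set (Surf g)) = ⊤ →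
        ⇑(rho22 φ) ∈ connectedComponentIn (anosovSet 4 S {2}) ⇑(rho4 φ))
    (S : Finset (Surf g)) (hS : Subgroup.closure (S : Set (Surf g)) = ⊤)
    (φ : Surf g →* X) (hinj : Function.Injective φ) (hdisc : DiscreteTopology φ.range)
    (hcoc : CompactSpace (X ⧸ φ.range)) :
    ⇑(rho4 φ) ∈ anosovSet 4 S {2} ∧ ⇑(rho22 φ) ∈ anosovSet 4 S {2} ∧
      ⇑(rho22 φ) ∈ connectedComponentIn (anosovSet 4 S {2}) ⇑(rho4 φ) := by
  have h := all_phi_b ht hb S hS φ ⟨φ, ⟨hinj, hdisc, hcoc⟩, rfl⟩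
  exact ⟨connectedComponentIn_nonempty_iff.1 ⟨_, h⟩, connectedComponentIn_subset _ _ h, h⟩

/-- case (c) for every Fuchsian representation -/
theorem case_c_of {g : ℕ} (hg : 2 ≤ g) (ht : TeichStmt g)
    (S : Finset (Surf g)) (hS : Subgroup.closure (S : Set (Surf g)) = ⊤)
    (φ : Surf g →* X) (hinj : Function.Injective φ) (hdisc : DiscreteTopology φ.range)
    (hcoc : CompactSpace (X ⧸ φ.range)) :
    ⇑(rho4 φ) ∈ anosovSp S {1} ∧ ⇑(rho211 φ) ∈ anosovSp S {1} ∧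
      ⇑(rho211 φ) ∈ connectedComponentIn (anosovSp S {1}) ⇑(rho4 φ) := by
  have h := all_phi_c hg ht S hS φ ⟨φ, ⟨hinj, hdisc, hcoc⟩, rfl⟩
  exact ⟨connectedComponentIn_nonempty_iff.1 ⟨_, h⟩, connectedComponentIn_subset _ _ h, h⟩

end Pool.Agent.Hhelper63.AnT
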