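import Pool.Agent.Hhelper63.AnT.Defs
import Pool.Agent.Hhelper63.Anosov.Singular

/-!
From a certificate to a uniform exponential gap of singular values.

PROOF. Let `H, c, μ_e, κ_e` be the certificate. Choose `B ≥ 1` with `|Q (H q) v| ≤ B n2 v` for all
`q < N`, and `δ ∈ (0, 1/2)` with `δ μ_e B ≤ κ_e` for all edges `e`. Then for every edge
`Q (H src) ((D S2) v) ≥ (1 + δ) μ Q (H tgt) v` and also `≥ (1 - δ) μ Q (H tgt) v`.
By induction on `Syl E q u q' m`: there is `l > 0` with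
`Q (H q) (ev S u v) ≥ l (1 + δ)^m Q (H q') v` and `≥ l (1 - δ)^m Q (H q') v` for all `v`.
Let `P = ev S (u ++ d) = ev S u * D`, `D = ev S d` unitary (product of unitary matrices). With the
subspace `W` (dimension `≥ k`) at `q'` from the certificate, `W' = D⁻¹ W` satisfies
`B n2 (P v) ≥ Q (H 0) (P v) ≥ c l (1 + δ)^m n2 v` on `W'`. With the subspace `W0` (dimension
`≥ 4 - k`) at `0`, on `W'' = P⁻¹ W0`: `c n2 (P v) ≤ - Q (H 0) (P v) ≤ - l (1 - δ)^m Q (H q') (D v)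
≤ B l (1 - δ)^m n2 v`. Multiplying on the left by `ev S w0`, which belongs to a finite set of
invertible matrices (`w0.length ≤ 5`), changes these bounds by a constant factor. Now use
`le_singularValue` and `singularValue_le` of `Hhelper63.Anosov.Singular` for the linear map
`Matrix.toEuclideanLin N.1` (whose singular values are used in `sv`, with index shifted by one):
`sv N k ^ 2 ≥ C₁ l (1 + δ)^m` and `sv N (k + 1) ^ 2 ≤ C₂ l (1 - δ)^m`, and `sv N (k + 1) > 0` since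
`N` is invertible. Take `r = sqrt ((1 + δ) / (1 - δ))`.
-/

namespace Pool.Agent.Hhelper63.AnT

open Pool.Agent.Hhelper67.Anosov

theorem gap_n2_nonneg (v : Fin 4 → ℂ) : 0 ≤ n2 v :=
  Finset.sum_nonneg fun i _ => Complex.normSq_nonneg _

theorem gap_norm_le (v : Fin 4 → ℂ) (i : Fin 4) : ‖v i‖ ≤ Real.sqrt (n2 v) := by
  apply Real.le_sqrt_of_sq_le
  rw [← Complex.normSq_eq_norm_sq]
  exact Finset.single_le_sum (f := fun i => Complex.normSq (v i))
    (fun i _ => Complex.normSq_nonneg _) (Finset.mem_univ i)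

theorem gap_mulVec_le (M : M4) (v : Fin 4 → ℂ) (i : Fin 4) :
    ‖M.mulVec v i‖ ≤ (∑ j, ‖M i j‖) * Real.sqrt (n2 v) := by
  rw [Matrix.mulVec, dotProduct, Finset.sum_mul]
  refine (norm_sum_le _ _).trans (Finset.sum_le_sum fun j _ => ?_)
  rw [norm_mul]
  exact mul_le_mul_of_nonneg_left (gap_norm_le v j) (norm_nonneg _)

theorem gap_Q_le (H : M4) (v : Fin 4 → ℂ) : |Q H v| ≤ (∑ i, ∑ j, ‖H i j‖) * n2 v := by
  have h1 : |Q H v| ≤ ‖star v ⬝ᵥ (H.mulVec v)‖ := Complex.abs_re_le_norm _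
  refine h1.trans ?_
  rw [dotProduct, Finset.sum_mul]
  refine (norm_sum_le _ _).trans (Finset.sum_le_sum fun i _ => ?_)
  rw [norm_mul, Pi.star_apply, norm_star]
  have h2 := gap_norm_le v i
  have h3 := gap_mulVec_le H v i
  have h4 : Real.sqrt (n2 v) * Real.sqrt (n2 v) = n2 v := Real.mul_self_sqrt (gap_n2_nonneg v)
  calc ‖v i‖ * ‖H.mulVec v i‖ ≤ Real.sqrt (n2 v) * ((∑ j, ‖H i j‖) * Real.sqrt (n2 v)) :=
        mul_le_mul h2 h3 (norm_nonneg _) (Real.sqrt_nonneg _)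
    _ = (∑ j, ‖H i j‖) * (Real.sqrt (n2 v) * Real.sqrt (n2 v)) := by ring
    _ = (∑ j, ‖H i j‖) * n2 v := by rw [h4]

theorem gap_n2_mulVec_le (M : M4) (v : Fin 4 → ℂ) :
    n2 (M.mulVec v) ≤ (∑ i, (∑ j, ‖M i j‖) ^ 2) * n2 v := by
  rw [n2, Finset.sum_mul]
  refine Finset.sum_le_sum fun i _ => ?_
  rw [Complex.normSq_eq_norm_sq]
  have h3 := gap_mulVec_le M v i
  calc ‖M.mulVec v i‖ ^ 2 ≤ ((∑ j, ‖M i j‖) * Real.sqrt (n2 v)) ^ 2 := by
        gcongr
    _ = (∑ j, ‖M i j‖) ^ 2 * (Real.sqrt (n2 v)) ^ 2 := by ring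
    _ = (∑ j, ‖M i j‖) ^ 2 * n2 v := by rw [Real.sq_sqrt (gap_n2_nonneg v)]

/-- a common bound for the forms -/
theorem gap_exists_B (H : ℕ → M4) (N : ℕ) : ∃ B : ℝ, 0 < B ∧ ∀ q < N, ∀ v, |Q (H q) v| ≤ B * n2 v := by
  refine ⟨1 + ∑ q ∈ Finset.range N, ∑ i, ∑ j, ‖H q i j‖, by positivity, fun q hq v => ?_⟩
  refine (gap_Q_le (H q) v).trans ?_
  refine mul_le_mul_of_nonneg_right ?_ (gap_n2_nonneg v)
  have : (∑ i, ∑ j, ‖H q i j‖) ≤ ∑ q ∈ Finset.range N, ∑ i, ∑ j, ‖H q i j‖ :=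
    Finset.single_le_sum (f := fun q => ∑ i, ∑ j, ‖H q i j‖)
    (fun q _ => by positivity) (Finset.mem_range.mpr hq)
  linarith

/-- a common bound for the generators -/
theorem gap_exists_R (S : Fin 3 → M4) : ∃ R : ℝ, 1 ≤ R ∧ ∀ i v, n2 ((S i).mulVec v) ≤ R * n2 v := by
  refine ⟨1 + ∑ k, ∑ i, (∑ j, ‖S k i j‖) ^ 2, ?_, fun k v => ?_⟩
  · have : 0 ≤ ∑ k, ∑ i, (∑ j, ‖S k i j‖) ^ 2 := by positivity
    linarith
  · refine (gap_n2_mulVec_le (S k) v).trans ?_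
    refine mul_le_mul_of_nonneg_right ?_ (gap_n2_nonneg v)
    have : (∑ i, (∑ j, ‖S k i j‖) ^ 2) ≤ ∑ k, ∑ i, (∑ j, ‖S k i j‖) ^ 2 :=
      Finset.single_le_sum (f := fun k => ∑ i, (∑ j, ‖S k i j‖) ^ 2)
      (fun q _ => by positivity) (Finset.mem_univ k)
    linarith

theorem gap_ev_nil (S : Fin 3 → M4) : ev S [] = 1 := rfl

theorem gap_ev_cons (S : Fin 3 → M4) (i : Fin 3) (w : List (Fin 3)) :
    ev S (i :: w) = S i * ev S w := by
  simp [ev]

theorem gap_ev_append (S : Fin 3 → M4) (w w' : List (Fin 3)) :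
    ev S (w ++ w') = ev S w * ev S w' := by
  simp [ev]

theorem gap_ev_reverse {S : Fin 3 → M4} (hS : ∀ i, S i * S i = 1) (w : List (Fin 3)) :
    ev S w * ev S w.reverse = 1 := by
  induction w with
  | nil => simp [ev]
  | cons i w ih =>
    rw [List.reverse_cons, gap_ev_append, gap_ev_cons, gap_ev_cons, gap_ev_nil, mul_one,
      mul_assoc, ← mul_assoc (ev S w), ih, one_mul, hS]

theorem gap_ev_reverse' {S : Fin 3 → M4} (hS : ∀ i, S i * S i = 1) (w : List (Fin 3)) :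
    ev S w.reverse * ev S w = 1 := by
  have := gap_ev_reverse hS w.reverse
  rwa [List.reverse_reverse] at this

theorem gap_n2_ev_le {S : Fin 3 → M4} {R : ℝ} (hR : 1 ≤ R)
    (h : ∀ i v, n2 ((S i).mulVec v) ≤ R * n2 v) (w : List (Fin 3)) (v : Fin 4 → ℂ) :
    n2 ((ev S w).mulVec v) ≤ R ^ w.length * n2 v := by
  induction w with
  | nil => simp [ev]
  | cons i w ih =>
    rw [gap_ev_cons, ← Matrix.mulVec_mulVec, List.length_cons, pow_succ']
    refine (h i _).trans ?_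
    rw [mul_assoc]
    exact mul_le_mul_of_nonneg_left ih (by linarith)

theorem gap_le_n2_ev {S : Fin 3 → M4} {R : ℝ} (hR : 1 ≤ R) (hS : ∀ i, S i * S i = 1)
    (h : ∀ i v, n2 ((S i).mulVec v) ≤ R * n2 v) (w : List (Fin 3)) (v : Fin 4 → ℂ) :
    n2 v ≤ R ^ w.length * n2 ((ev S w).mulVec v) := by
  have h1 := gap_n2_ev_le hR h w.reverse ((ev S w).mulVec v)
  rwa [Matrix.mulVec_mulVec, gap_ev_reverse' hS, Matrix.one_mulVec, List.length_reverse] at h1

theorem gap_n2_eq (v : Fin 4 → ℂ) : ((n2 v : ℝ) : ℂ) = star v ⬝ᵥ v := by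
  rw [n2, dotProduct]
  push_cast
  refine Finset.sum_congr rfl fun i _ => ?_
  rw [Pi.star_apply, Complex.star_def, Complex.normSq_eq_conj_mul_self]

theorem gap_n2_unitary {U : M4} (h : U.conjTranspose * U = 1) (v : Fin 4 → ℂ) :
    n2 (U.mulVec v) = n2 v := by
  have h1 : ((n2 (U.mulVec v) : ℝ) : ℂ) = ((n2 v : ℝ) : ℂ) := by
    rw [gap_n2_eq, gap_n2_eq, Matrix.star_mulVec, Matrix.dotProduct_mulVec, Matrix.vecMul_vecMul, h,
      Matrix.vecMul_one]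
  exact_mod_cast h1

theorem gap_n2_ev_unitary {S : Fin 3 → M4} (hu : ∀ i, i ≠ 2 → (S i).conjTranspose * S i = 1)
    (d : List (Fin 3)) (hd : ∀ x ∈ d, x ≠ 2) (v : Fin 4 → ℂ) :
    n2 ((ev S d).mulVec v) = n2 v := by
  induction d with
  | nil => simp [ev]
  | cons i w ih =>
    rw [gap_ev_cons, ← Matrix.mulVec_mulVec, gap_n2_unitary (hu i (hd i (by simp)))]
    exact ih fun x hx => hd x (by simp [hx])

theorem gap_common {α : Type*} (E : List α) (P : α → ℝ → Prop)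
    (hP : ∀ e δ δ', 0 < δ' → δ' ≤ δ → P e δ → P e δ') (h : ∀ e ∈ E, ∃ δ > 0, P e δ) :
    ∃ δ : ℝ, 0 < δ ∧ δ ≤ 1 / 2 ∧ ∀ e ∈ E, P e δ := by
  induction E with
  | nil => exact ⟨1 / 2, by norm_num, le_rfl, by simp⟩
  | cons a E ih =>
    obtain ⟨δ, hδ, hδ2, hE⟩ := ih fun e he => h e (by simp [he])
    obtain ⟨δ', hδ', ha⟩ := h a (by simp)
    refine ⟨min δ δ', lt_min hδ hδ', (min_le_left _ _).trans hδ2, fun e he => ?_⟩
    rcases List.mem_cons.mp he with rfl | he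
    · exact hP _ _ _ (lt_min hδ hδ') (min_le_right _ _) ha
    · exact hP _ _ _ (lt_min hδ hδ') (min_le_left _ _) (hE e he)

theorem gap_Q_syl {E : List Edge} {S : Fin 3 → M4} {H : ℕ → M4} {δ : ℝ} (hδ : 0 < δ)
    (hδ2 : δ ≤ 1 / 2)
    (hE : ∀ e ∈ E, ∃ μ > (0 : ℝ), ∀ v,
      μ * (1 + δ) * Q (H e.tgt) v ≤ Q (H e.src) ((ev S e.d * S 2).mulVec v) ∧
      μ * (1 - δ) * Q (H e.tgt) v ≤ Q (H e.src) ((ev S e.d * S 2).mulVec v))
    {q : ℕ} {u : List (Fin 3)} {q' m : ℕ} (h : Syl E q u q' m) :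
    ∃ l > (0 : ℝ), ∀ v,
      l * (1 + δ) ^ m * Q (H q') v ≤ Q (H q) ((ev S u).mulVec v) ∧
      l * (1 - δ) ^ m * Q (H q') v ≤ Q (H q) ((ev S u).mulVec v) := by
  induction h with
  | nil q => exact ⟨1, one_pos, fun v => by simp [ev]⟩
  | cons e he w q' n _ ih =>
    obtain ⟨l, hl, ih⟩ := ih
    obtain ⟨μ, hμ, hμv⟩ := hE e he
    refine ⟨μ * l, by positivity, fun v => ?_⟩
    have hev : (ev S (e.d ++ 2 :: w)).mulVec v =
        (ev S e.d * S 2).mulVec ((ev S w).mulVec v) := by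
      rw [gap_ev_append, gap_ev_cons, Matrix.mulVec_mulVec, mul_assoc]
    rw [hev]
    obtain ⟨h1, h2⟩ := hμv ((ev S w).mulVec v)
    obtain ⟨h3, h4⟩ := ih v
    constructor
    · refine le_trans ?_ h1
      have : μ * l * (1 + δ) ^ (n + 1) * Q (H q') v =
          μ * (1 + δ) * (l * (1 + δ) ^ n * Q (H q') v) := by ring
      rw [this]
      exact mul_le_mul_of_nonneg_left h3 (by positivity)
    · refine le_trans ?_ h2
      have : μ * l * (1 - δ) ^ (n + 1) * Q (H q') v =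
          μ * (1 - δ) * (l * (1 - δ) ^ n * Q (H q') v) := by ring
      rw [this]
      exact mul_le_mul_of_nonneg_left h4 (mul_nonneg hμ.le (by linarith))

/-- the linear map on coordinate space as a map on Euclidean space -/
theorem gap_norm_sq (x : EuclideanSpace ℂ (Fin 4)) : ‖x‖ ^ 2 = n2 x.ofLp := by
  rw [EuclideanSpace.norm_sq_eq, n2]
  refine Finset.sum_congr rfl fun i _ => ?_
  rw [Complex.normSq_eq_norm_sq]

theorem gap_norm_map_sq (A : M4) (x : EuclideanSpace ℂ (Fin 4)) :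
    ‖Matrix.toEuclideanLin A x‖ ^ 2 = n2 (A.mulVec x.ofLp) := by
  rw [gap_norm_sq]
  rfl

/-- transport of a subspace to Euclidean space by an invertible matrix -/
theorem gap_subspace (W : Submodule ℂ (Fin 4 → ℂ)) {P P' : M4} (h : P * P' = 1) :
    ∃ W' : Submodule ℂ (EuclideanSpace ℂ (Fin 4)), Module.finrank ℂ W' = Module.finrank ℂ W ∧
      ∀ x ∈ W', P.mulVec x.ofLp ∈ W := by
  let f : (Fin 4 → ℂ) →ₗ[ℂ] EuclideanSpace ℂ (Fin 4) :=
    (WithLp.linearEquiv 2 ℂ (Fin 4 → ℂ)).symm.toLinearMap ∘ₗ Matrix.mulVecLin P'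
  have hf : Function.Injective f := by
    intro a b hab
    have h1 : P'.mulVec a = P'.mulVec b := by
      have := congrArg (WithLp.linearEquiv 2 ℂ (Fin 4 → ℂ)) hab
      simpa [f] using this
    have h2 := congrArg (fun v => P.mulVec v) h1
    simpa [Matrix.mulVec_mulVec, h] using h2
  refine ⟨W.map f, (LinearEquiv.finrank_eq (Submodule.equivMapOfInjective f hf W)).symm, ?_⟩
  rintro _ ⟨w, hw, rfl⟩
  have : (f w).ofLp = P'.mulVec w := rfl
  rw [this, Matrix.mulVec_mulVec, h, Matrix.one_mulVec]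
  exact hw

theorem gap_of_cert {N k : ℕ} {E : List Edge} (hk : 1 ≤ k) (hk3 : k ≤ 3) {S : Fin 3 → M4}
    (hS : ∀ i, S i * S i = 1)
    (hu : ∀ i, i ≠ 2 → (S i).conjTranspose * S i = 1) (hc : CertAt N E k S) :
    ∃ C r : ℝ, 0 < C ∧ 1 < r ∧ ∀ (w0 u d : List (Fin 3)) (q m : ℕ), w0.length ≤ 5 →
      d.length ≤ 5 → (∀ x ∈ d, x ≠ 2) → Syl E 0 u q m → q < N → ∀ A : SL4,
      (A.1 = ev S (w0 ++ u ++ d) ∨ A.1 = -ev S (w0 ++ u ++ d)) →
      C * r ^ m ≤ sv A k / sv A (k + 1) := by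
  obtain ⟨H, c, hc0, hcE, hcW, W0, hW0, hW0v⟩ := hc
  obtain ⟨B, hB, hBv⟩ := gap_exists_B H N
  obtain ⟨R, hR, hRv⟩ := gap_exists_R S
  obtain ⟨δ, hδ, hδ2, hδE⟩ := gap_common E
    (fun e δ => ∃ μ > (0 : ℝ), ∃ κ > (0 : ℝ), (∀ v, κ * n2 v ≤
      Q (H e.src) ((ev S e.d * S 2).mulVec v) - μ * Q (H e.tgt) v) ∧ δ * μ * B ≤ κ)
    (by
      rintro e δ δ' h1 h2 ⟨μ, hμ, κ, hκ, h3, h4⟩
      refine ⟨μ, hμ, κ, hκ, h3, le_trans ?_ h4⟩
      gcongr)
    (by
      intro e he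
      obtain ⟨-, -, μ, hμ, κ, hκ, h⟩ := hcE e he
      refine ⟨κ / (μ * B), by positivity, μ, hμ, κ, hκ, h, ?_⟩
      apply le_of_eq
      field_simp)
  have hE : ∀ e ∈ E, ∃ μ > (0 : ℝ), ∀ v,
      μ * (1 + δ) * Q (H e.tgt) v ≤ Q (H e.src) ((ev S e.d * S 2).mulVec v) ∧
      μ * (1 - δ) * Q (H e.tgt) v ≤ Q (H e.src) ((ev S e.d * S 2).mulVec v) := by
    intro e he
    obtain ⟨μ, hμ, κ, hκ, h1, h2⟩ := hδE e he
    refine ⟨μ, hμ, fun v => ?_⟩
    have h3 := h1 v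
    have h4 := hBv _ (hcE e he).2.1 v
    rw [abs_le] at h4
    have h5 : δ * μ * B * n2 v ≤ κ * n2 v := mul_le_mul_of_nonneg_right h2 (gap_n2_nonneg v)
    have h6 : δ * μ * Q (H e.tgt) v ≤ δ * μ * (B * n2 v) :=
      mul_le_mul_of_nonneg_left h4.2 (by positivity)
    have h7 : δ * μ * (-(B * n2 v)) ≤ δ * μ * Q (H e.tgt) v :=
      mul_le_mul_of_nonneg_left h4.1 (by positivity)
    constructor <;> nlinarith
  have hδ1 : 0 < 1 - δ := by linarith
  have hR5 : 0 < R ^ 5 := by positivity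
  refine ⟨c / (B * R ^ 5), Real.sqrt ((1 + δ) / (1 - δ)), by positivity, ?_, ?_⟩
  · rw [Real.lt_sqrt zero_le_one, one_pow, lt_div_iff₀ hδ1]
    linarith
  intro w0 u d q m hw0 hd hd2 hsyl hq A hA
  obtain ⟨l, hl, hlv⟩ := gap_Q_syl hδ hδ2 hE hsyl
  -- norms
  have hAn : ∀ v, n2 (A.1.mulVec v) = n2 ((ev S w0).mulVec ((ev S (u ++ d)).mulVec v)) := by
    intro v
    have h1 : (ev S w0).mulVec ((ev S (u ++ d)).mulVec v) = (ev S (w0 ++ u ++ d)).mulVec v := by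
      rw [Matrix.mulVec_mulVec, ← gap_ev_append, List.append_assoc]
    rw [h1]
    rcases hA with hA | hA
    · rw [hA]
    · rw [hA, Matrix.neg_mulVec]
      simp [n2]
  have hle : ∀ v, n2 ((ev S w0).mulVec v) ≤ R ^ 5 * n2 v := fun v =>
    (gap_n2_ev_le hR hRv w0 v).trans (mul_le_mul_of_nonneg_right
      (pow_le_pow_right₀ hR hw0) (gap_n2_nonneg v))
  have hge : ∀ v, n2 v ≤ R ^ 5 * n2 ((ev S w0).mulVec v) := fun v =>
    (gap_le_n2_ev hR hS hRv w0 v).trans (mul_le_mul_of_nonneg_right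
      (pow_le_pow_right₀ hR hw0) (gap_n2_nonneg _))
  have hevu : ∀ v, (ev S (u ++ d)).mulVec v = (ev S u).mulVec ((ev S d).mulVec v) := by
    intro v
    rw [gap_ev_append, Matrix.mulVec_mulVec]
  -- the large direction
  obtain ⟨W, hWk, hWv⟩ := hcW q hq
  obtain ⟨W1, hW1, hW1v⟩ := gap_subspace W (gap_ev_reverse hS d)
  have h1 : Real.sqrt (c * l * (1 + δ) ^ m / (B * R ^ 5)) ≤ sv A k := by
    refine Pool.Agent.Hhelper63.Anosov.le_singularValue _ W1 (by omega) fun x hx => ?_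
    have h2 : c * n2 x.ofLp ≤ Q (H q) ((ev S d).mulVec x.ofLp) := by
      have := hWv _ (hW1v x hx)
      rwa [gap_n2_ev_unitary hu d hd2] at this
    have h3 := (hlv ((ev S d).mulVec x.ofLp)).1
    rw [← hevu] at h3
    have h4 := (abs_le.mp (hBv 0 (by omega) ((ev S (u ++ d)).mulVec x.ofLp))).2
    have h5 := hge ((ev S (u ++ d)).mulVec x.ofLp)
    have h6 : l * (1 + δ) ^ m * (c * n2 x.ofLp) ≤
        l * (1 + δ) ^ m * Q (H q) ((ev S d).mulVec x.ofLp) :=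
      mul_le_mul_of_nonneg_left h2 (by positivity)
    have h7 : B * n2 ((ev S (u ++ d)).mulVec x.ofLp) ≤
        B * (R ^ 5 * n2 (A.1.mulVec x.ofLp)) := by
      rw [hAn]
      exact mul_le_mul_of_nonneg_left h5 hB.le
    refine abs_le_of_sq_le_sq' ?_ (norm_nonneg _) |>.2
    rw [mul_pow, Real.sq_sqrt (by positivity), gap_norm_map_sq, gap_norm_sq, div_mul_eq_mul_div,
      div_le_iff₀ (by positivity)]
    nlinarith
  -- the small direction
  obtain ⟨W2, hW2, hW2v⟩ := gap_subspace W0 (gap_ev_reverse hS (u ++ d))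
  have hfin : Module.finrank ℂ (EuclideanSpace ℂ (Fin 4)) = 4 := by simp
  have h2 : sv A (k + 1) ≤ Real.sqrt (R ^ 5 * B * l * (1 - δ) ^ m / c) := by
    refine Pool.Agent.Hhelper63.Anosov.singularValue_le _ W2 (by rw [hfin]; omega)
      (by rw [hfin, hW2]; omega) fun x hx => ?_
    have h2 := hW0v _ (hW2v x hx)
    have h3 := (hlv ((ev S d).mulVec x.ofLp)).2
    rw [← hevu] at h3
    have h4 := (abs_le.mp (hBv q hq ((ev S d).mulVec x.ofLp))).1
    rw [gap_n2_ev_unitary hu d hd2] at h4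
    have h5 := hle ((ev S (u ++ d)).mulVec x.ofLp)
    rw [← hAn] at h5
    have h6 : l * (1 - δ) ^ m * (-(B * n2 x.ofLp)) ≤
        l * (1 - δ) ^ m * Q (H q) ((ev S d).mulVec x.ofLp) :=
      mul_le_mul_of_nonneg_left h4 (by positivity)
    have h7 : c * n2 (A.1.mulVec x.ofLp) ≤ c * (R ^ 5 * n2 ((ev S (u ++ d)).mulVec x.ofLp)) :=
      mul_le_mul_of_nonneg_left h5 hc0.le
    have h8 : R ^ 5 * (c * n2 ((ev S (u ++ d)).mulVec x.ofLp)) ≤
        R ^ 5 * (l * (1 - δ) ^ m * (B * n2 x.ofLp)) := by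
      refine mul_le_mul_of_nonneg_left ?_ hR5.le
      nlinarith
    refine abs_le_of_sq_le_sq' ?_ (mul_nonneg (Real.sqrt_nonneg _) (norm_nonneg _)) |>.2
    rw [mul_pow, Real.sq_sqrt (by positivity), gap_norm_map_sq, gap_norm_sq, div_mul_eq_mul_div,
      le_div_iff₀ (by positivity)]
    nlinarith
  -- positivity
  have h3 : 0 < sv A (k + 1) := by
    have h4 : Real.sqrt (1 / R ^ (w0 ++ (u ++ d)).length) ≤ sv A (k + 1) := by
      refine Pool.Agent.Hhelper63.Anosov.le_singularValue _ ⊤ (by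
        rw [finrank_top, hfin]; omega) fun x _ => ?_
      have h5 := gap_le_n2_ev hR hS hRv (w0 ++ (u ++ d)) x.ofLp
      rw [gap_ev_append, ← Matrix.mulVec_mulVec, ← hAn] at h5
      refine abs_le_of_sq_le_sq' ?_ (norm_nonneg _) |>.2
      rw [mul_pow, Real.sq_sqrt (by positivity), gap_norm_map_sq, gap_norm_sq, div_mul_eq_mul_div,
        div_le_iff₀ (by positivity), one_mul, mul_comm]
      exact h5
    refine lt_of_lt_of_le ?_ h4
    apply Real.sqrt_pos.mpr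
    positivity
  rw [le_div_iff₀ h3]
  refine le_trans (mul_le_mul_of_nonneg_left h2 (by positivity)) (le_trans (le_of_eq ?_) h1)
  have h4 : Real.sqrt ((1 + δ) / (1 - δ)) ^ m = Real.sqrt (((1 + δ) / (1 - δ)) ^ m) := by
    rw [Real.sqrt_eq_rpow, Real.sqrt_eq_rpow, ← Real.rpow_natCast, ← Real.rpow_mul (by positivity),
      ← Real.rpow_natCast, ← Real.rpow_mul (by positivity), mul_comm]
  have h5 : c / (B * R ^ 5) = Real.sqrt ((c / (B * R ^ 5)) ^ 2) := (Real.sqrt_sq (by positivity)).symm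
  rw [h4, h5, ← Real.sqrt_mul (by positivity), ← Real.sqrt_mul (by positivity)]
  congr 1
  simp only [div_pow]
  field_simp

end Pool.Agent.Hhelper63.AnT
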