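import Pool.Agent.Hhelper63.AnT.Surf

/-!
The surface group of genus two as a subgroup of finite index of the kernel of `EtaB`.

PROOF. (Data to be computed by a small program, e.g. python; everything below is finite.)
`Tri 4 3 3` modulo `z` is the reflection group `Δ` of the hyperbolic triangle with angles
`π/4, π/3, π/3` (area `π/12`). `EtaB` has image of order 48 (isomorphic to `GL(2, 3)`) and
`EtaB z = 1`; the kernel `L` of `EtaB` contains `z`, and `L / ⟨z⟩` has index 48 in `Δ`, is torsion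
free of area `4π`, so it is a surface group of genus 2, and `L` is the direct product of `⟨z⟩` and a
copy of it.
(i) Choose elements `a₀, b₀, a₁, b₁` of `L`, generating `L / ⟨z⟩`, as words in `s 0, s 1, s 2` with
`[a₀, b₀] [a₁, b₁] = 1` (one can change `a₀` to `z a₀` etc. without changing the relation); this
relation and `EtaB = 1`, `det (PhiB) = 1` are checked with the relations of `Tri 4 3 3` (rewriting
rules `00 -> e`, `11 -> e`, `22 -> e`, `202 -> z 020`, `212 -> z 121`, `1010 -> z 0101`,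
`20121 -> 02012`, `21020 -> 12102`, `20120101 -> z 02012010`: a small verified normal form function
and `decide` will do). This defines `ι`.
(ii) Coset graph: choose 48 coset representatives `t j` (words, `t 0 = 1`), permutations `p i` of
`Fin 48` and elements `c i j : Surf 2` (words in the generators) with
`s i * t j = t (p i j) * ι (c i j)` or `= z * t (p i j) * ι (c i j)` in `Tri 4 3 3`, for `i < 3`,
`j < 48` (144 identities in `Tri 4 3 3`). This gives the finite set `F = {t j, z t j}`.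
(iii) Injectivity: the maps `(j, x) ↦ (p i j, c i j * x)` are permutations of `Fin 48 × Surf 2` and
satisfy the relations of `Tri 4 3 3` with `z` acting trivially (products of the `c i j` around the
relation cycles are trivial in `Surf 2`: with a good choice almost all are freely trivial, the
others are conjugates of the relator or its inverse), so `Tri.lift` gives an action of `Tri 4 3 3`
on `Fin 48 × Surf 2`; for the generators `γ` one checks `ι γ • (0, x) = (0, γ * x)`, hence for all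
`γ`, so `ι` is injective.
-/

namespace Pool.Agent.Hhelper63.AnT

namespace SB

/-! ### A rewriting machine -/

section machine

variable {α : Type} [DecidableEq α]

/-- strip a beginning -/
def strip : List α → List α → Option (List α)
  | [], l => some l
  | _ :: _, [] => none
  | a :: x, b :: l => if a = b then strip x l else none

theorem strip_spec : ∀ (x l l' : List α), strip x l = some l' → l = x ++ l'
  | [], l, l', h => by
    simp only [strip, Option.some.injEq] at h
    simp [h]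
  | _ :: _, [], l', h => by simp [strip] at h
  | a :: x, b :: l, l', h => by
    rw [strip] at h
    split at h
    · next hab =>
      rw [hab, strip_spec x l l' h, List.cons_append]
    · exact absurd h (by simp)

/-- a rule: `x.reverse` may be replaced by `y`, with sign `s` -/
structure Rule (α : Type) where
  x : List α
  y : List α
  s : Bool

/-- find an applicable rule -/
def find : List (Rule α) → List α → Option (List α × List α × Bool)
  | [], _ => none
  | r :: R, st => match strip r.x st with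
    | some l => some (l, r.y, r.s)
    | none => find R st

theorem find_spec : ∀ (R : List (Rule α)) (st : List α) (l y : List α) (s : Bool),
    find R st = some (l, y, s) → ∃ r ∈ R, st = r.x ++ l ∧ r.y = y ∧ r.s = s
  | [], st, l, y, s, h => by simp [find] at h
  | r :: R, st, l, y, s, h => by
    rw [find] at h
    split at h
    · next l' hl' =>
      simp only [Option.some.injEq, Prod.mk.injEq] at h
      refine ⟨r, List.mem_cons_self, ?_, h.2.1, h.2.2⟩
      rw [← h.1]
      exact strip_spec _ _ _ hl'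
    · obtain ⟨r', h1, h2⟩ := find_spec R st l y s h
      exact ⟨r', List.mem_cons_of_mem _ h1, h2⟩

/-- the machine: input, reversed stack, sign -/
def nf (R : List (Rule α)) : ℕ → List α → List α → Bool → List α × Bool
  | 0, inp, st, s => (st.reverse ++ inp, s)
  | _ + 1, [], st, s => (st.reverse, s)
  | n + 1, a :: inp, st, s => match find R (a :: st) with
    | none => nf R n inp (a :: st) s
    | some (st', y, t) => nf R n (y ++ inp) st' (xor s t)

variable {K : Type*} [Group K]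

/-- value of a word -/
def evl (v : α → K) (w : List α) : K := (w.map v).prod

omit [DecidableEq α] in
theorem evl_append (v : α → K) (w w' : List α) : evl v (w ++ w') = evl v w * evl v w' := by
  simp [evl]

omit [DecidableEq α] in
theorem evl_cons (v : α → K) (a : α) (w : List α) : evl v (a :: w) = v a * evl v w := by
  simp [evl]

omit [DecidableEq α] in
theorem evl_nil (v : α → K) : evl v [] = 1 := by
  simp [evl]

/-- sign -/
def zs (z : K) (s : Bool) : K := if s then z else 1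

theorem zs_xor {z : K} (hz : z * z = 1) (s t : Bool) : zs z s * zs z t = zs z (xor s t) := by
  cases s <;> cases t <;> simp [zs, hz]

omit [DecidableEq α] in
theorem zs_comm {v : α → K} {z : K} (hc : ∀ a, z * v a = v a * z) (s : Bool) (w : List α) :
    zs z s * evl v w = evl v w * zs z s := by
  induction w with
  | nil => simp [evl]
  | cons a w ih =>
    have h1 : zs z s * v a = v a * zs z s := by
      cases s
      · simp [zs]
      · simpa [zs] using hc a
    rw [evl_cons, ← mul_assoc, h1, mul_assoc, ih, mul_assoc]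

theorem nf_sound {v : α → K} {z : K} (hz : z * z = 1) (hc : ∀ a, z * v a = v a * z)
    {R : List (Rule α)} (hR : ∀ r ∈ R, evl v r.x.reverse = zs z r.s * evl v r.y) :
    ∀ (n : ℕ) (inp st : List α) (s : Bool), zs z s * (evl v st.reverse * evl v inp) =
      zs z (nf R n inp st s).2 * evl v (nf R n inp st s).1 := by
  intro n
  induction n with
  | zero =>
    intro inp st s
    rw [nf, evl_append]
  | succ n ih =>
    intro inp st s
    rcases inp with _ | ⟨a, inp⟩
    · rw [nf, evl_nil, mul_one]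
    · rw [nf]
      split
      · rw [← ih, List.reverse_cons, evl_append, evl_cons, evl_cons, evl_nil, mul_one, mul_assoc]
      · next st' y t hf =>
        obtain ⟨r, hr, h1, h2, h3⟩ := find_spec _ _ _ _ _ hf
        have h4 := hR r hr
        rw [h2, h3] at h4
        rw [← ih, ← zs_xor hz, evl_append]
        have h5 : evl v st.reverse * evl v (a :: inp) =
            evl v (a :: st).reverse * evl v inp := by
          rw [List.reverse_cons, evl_append, evl_cons, evl_cons, evl_nil, mul_one, mul_assoc]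
        rw [h5, h1, List.reverse_append, evl_append, h4, ← mul_assoc (evl v st'.reverse),
          ← zs_comm hc]
        simp only [mul_assoc]

theorem nf_one {v : α → K} {z : K} (hz : z * z = 1) (hc : ∀ a, z * v a = v a * z)
    {R : List (Rule α)} (hR : ∀ r ∈ R, evl v r.x.reverse = zs z r.s * evl v r.y)
    {n : ℕ} {w : List α} (h : nf R n w [] false = ([], false)) : evl v w = 1 := by
  have h1 := nf_sound hz hc hR n w [] false
  rw [h] at h1
  simpa [zs, evl] using h1

theorem nf_eq {v : α → K} {z : K} (hz : z * z = 1) (hc : ∀ a, z * v a = v a * z)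
    {R : List (Rule α)} (hR : ∀ r ∈ R, evl v r.x.reverse = zs z r.s * evl v r.y)
    {n : ℕ} {w w' : List α} (h : (nf R n w [] false).1 = (nf R n w' [] false).1) :
    ∃ s, evl v w = zs z s * evl v w' := by
  have h1 := nf_sound hz hc hR n w [] false
  have h2 := nf_sound hz hc hR n w' [] false
  rw [h] at h1
  refine ⟨xor (nf R n w [] false).2 (nf R n w' [] false).2, ?_⟩
  have e : ∀ x : List α, zs z false * (evl v ([] : List α).reverse * evl v x) = evl v x := by
    intro x
    simp [zs, evl]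
  rw [e] at h1 h2
  rw [h1, h2, ← mul_assoc, ← zs_xor hz, mul_assoc (zs z _), zs_xor hz]
  simp [zs]

end machine

/-! ### Data -/

/-- the action on the cosets -/
def Pt : List (List ℕ) :=
  [[1, 0, 6, 8, 10, 12, 2, 16, 3, 19, 4, 22, 5, 25, 20, 27, 7, 30, 31, 9, 14, 36, 11, 39, 40,
   13, 42, 15, 38, 37, 17, 18, 44, 35, 45, 33, 21, 29, 28, 23, 24, 46, 26, 47, 32, 34, 41,
   43],
  [2, 4, 0, 9, 1, 13, 14, 17, 18, 3, 20, 23, 24, 5, 6, 28, 29, 7, 8, 33, 10, 37, 38, 11, 12,
   42, 40, 39, 15, 16, 36, 35, 41, 19, 43, 31, 30, 21, 22, 27, 26, 32, 25, 34, 47, 46, 45,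
   44],
  [3, 5, 7, 0, 11, 1, 15, 2, 12, 17, 21, 4, 8, 23, 26, 6, 27, 9, 32, 34, 35, 10, 36, 13, 41,
   43, 14, 16, 40, 44, 45, 37, 18, 42, 19, 20, 22, 31, 46, 47, 28, 24, 33, 25, 29, 30, 38,
   39]]

/-- the cocycle -/
def Ct : List (List (List ℕ)) :=
  [[[], [], [], [], [], [], [], [], [], [], [], [], [], [], [], [], [], [], [], [], [], [],
   [], [], [7, 0], [], [1, 6], [], [], [], [], [], [5, 2, 0], [], [], [], [], [], [], [],
   [1, 6], [0], [7, 0], [], [1, 3, 4], [], [1], []],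
  [[], [], [], [], [], [], [], [], [], [], [], [], [], [], [], [], [], [], [], [], [],
   [6, 5], [5], [], [], [], [], [4], [], [], [4, 7], [], [], [], [2], [], [6, 5], [4, 7],
   [4], [5], [], [], [], [3], [4], [], [], [5]],
  [[], [], [], [], [], [], [], [], [], [], [], [], [], [], [], [], [], [], [], [], [3, 1, 6],
   [], [], [], [], [], [], [], [], [], [], [5, 2, 0], [], [2], [], [7, 0, 2], [],
   [1, 3, 4], [6], [], [], [], [3], [], [], [], [7], []]]

/-- coset representatives -/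
def Tt : List (List ℕ) :=
  [[], [0], [1], [2], [1, 0], [2, 0], [0, 1], [2, 1], [0, 2], [1, 2], [0, 1, 0], [2, 1, 0],
   [2, 0, 2], [1, 2, 0], [1, 0, 1], [2, 0, 1], [0, 2, 1], [2, 1, 2], [1, 0, 2], [0, 1, 2],
   [1, 0, 1, 0], [2, 0, 1, 0], [0, 2, 1, 0], [2, 1, 2, 0], [1, 2, 0, 2], [0, 1, 2, 0],
   [2, 1, 0, 1], [2, 0, 2, 1], [1, 2, 0, 1], [1, 0, 2, 1], [0, 2, 1, 2], [0, 1, 0, 2],
   [2, 1, 0, 2], [1, 0, 1, 2], [2, 0, 1, 2], [0, 1, 0, 1, 2], [0, 2, 0, 1, 0],
   [0, 1, 0, 2, 1], [0, 1, 2, 0, 1], [0, 2, 1, 2, 0], [1, 2, 1, 0, 1], [1, 2, 1, 0, 2],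
   [1, 0, 1, 2, 0], [2, 0, 1, 2, 0], [2, 1, 0, 2, 1], [2, 0, 2, 1, 2], [1, 2, 0, 2, 1, 2],
   [2, 0, 2, 1, 2, 0]]

/-- words for the generators `a₀, b₀, a₁, b₁` -/
def Wt : List (List ℕ) :=
  [[2, 1, 2, 0, 2, 1, 0, 1, 2, 1, 0, 2], [0, 2, 1, 0, 2, 1, 2, 0, 1, 2],
   [0, 2, 1, 2, 0, 1, 2, 0, 2, 1], [2, 1, 2, 0, 2, 1, 2, 0, 1, 2, 0, 1]]

/-- the action on the cosets -/
def p (i j : ℕ) : ℕ := (Pt.getD (min i 2) []).getD j j

/-- the cocycle -/
def cw (i j : ℕ) : List ℕ := (Ct.getD (min i 2) []).getD j []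

/-- path of a word -/
def pth : List ℕ → ℕ → ℕ × List ℕ
  | [], j => (j, [])
  | a :: w, j => (p a (pth w j).1, cw a (pth w j).1 ++ (pth w j).2)

/-- the rules of `Tri 4 3 3` (left-hand sides reversed) -/
def RT : List (Rule ℕ) :=
  [⟨[0, 0], [], false⟩, ⟨[1, 1], [], false⟩, ⟨[2, 2], [], false⟩,
   ⟨[2, 0, 2], [0, 2, 0], true⟩, ⟨[2, 1, 2], [1, 2, 1], true⟩,
   ⟨[0, 1, 0, 1], [0, 1, 0, 1], true⟩, ⟨[1, 2, 1, 0, 2], [0, 2, 0, 1, 2], false⟩,
   ⟨[0, 2, 0, 1, 2], [1, 2, 1, 0, 2], false⟩,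
   ⟨[1, 0, 1, 0, 2, 1, 0, 2], [0, 2, 0, 1, 2, 0, 1, 0], true⟩]

/-- the rules of the surface group (left-hand sides reversed) -/
def RS : List (Rule ℕ) :=
  [⟨[0, 1], [], false⟩, ⟨[1, 0], [], false⟩, ⟨[2, 3], [], false⟩, ⟨[3, 2], [], false⟩,
   ⟨[4, 5], [], false⟩, ⟨[5, 4], [], false⟩, ⟨[6, 7], [], false⟩, ⟨[7, 6], [], false⟩,
   ⟨[2, 0, 7, 5, 6, 4, 3, 1], [], false⟩,
   ⟨[0, 2, 5, 7, 4, 6, 1, 3], [], false⟩,
   ⟨[6, 1, 3, 0, 2, 5, 7, 4], [], false⟩,
   ⟨[4, 3, 1, 2, 0, 7, 5, 6], [], false⟩,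
   ⟨[5, 6, 4, 3, 1, 2, 0, 7], [], false⟩]

/-- letters of `Tri` -/
def ls {K : Type*} (s : Fin 3 → K) : ℕ → K
  | 0 => s 0
  | 1 => s 1
  | _ => s 2

/-- letters of the surface group -/
def lg {K : Type*} [Group K] (f : Fin 2 → Bool → K) : ℕ → K
  | 0 => f 0 false
  | 1 => (f 0 false)⁻¹
  | 2 => f 0 true
  | 3 => (f 0 true)⁻¹
  | 4 => f 1 false
  | 5 => (f 1 false)⁻¹
  | 6 => f 1 true
  | 7 => (f 1 true)⁻¹
  | _ => 1

/-- the word of a letter -/
def lw : ℕ → List ℕ
  | 0 => Wt.getD 0 []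
  | 1 => (Wt.getD 0 []).reverse
  | 2 => Wt.getD 1 []
  | 3 => (Wt.getD 1 []).reverse
  | 4 => Wt.getD 2 []
  | 5 => (Wt.getD 2 []).reverse
  | 6 => Wt.getD 3 []
  | 7 => (Wt.getD 3 []).reverse
  | _ => []

/-! ### Rules are sound -/

theorem tri_rules {K : Type*} [Group K] {a b c z : K} (a1 : a * a = 1) (b1 : b * b = 1)
    (c1 : c * c = 1) (zz : z * z = 1) (za : z * a = a * z) (zb : z * b = b * z)
    (zc : z * c = c * z) (r01 : (a * b) ^ 4 = z) (r12 : (b * c) ^ 3 = z)
    (r02 : (a * c) ^ 3 = z) :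
    c * (a * c) = z * (a * (c * a)) ∧ c * (b * c) = z * (b * (c * b)) ∧
    b * (a * (b * a)) = z * (a * (b * (a * b))) ∧
    c * (a * (b * (c * b))) = a * (c * (a * (b * c))) ∧
    c * (b * (a * (c * a))) = b * (c * (b * (a * c))) ∧
    c * (a * (b * (c * (a * (b * (a * b)))))) =
      z * (a * (c * (a * (b * (c * (a * (b * a))))))) := by
  have a2 : ∀ x, a * (a * x) = x := fun x => by rw [← mul_assoc, a1, one_mul]
  have b2 : ∀ x, b * (b * x) = x := fun x => by rw [← mul_assoc, b1, one_mul]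
  have c2 : ∀ x, c * (c * x) = x := fun x => by rw [← mul_assoc, c1, one_mul]
  have z2 : ∀ x, z * (z * x) = x := fun x => by rw [← mul_assoc, zz, one_mul]
  have za2 : ∀ x, a * (z * x) = z * (a * x) := fun x => by rw [← mul_assoc, ← za, mul_assoc]
  have zb2 : ∀ x, b * (z * x) = z * (b * x) := fun x => by rw [← mul_assoc, ← zb, mul_assoc]
  have zc2 : ∀ x, c * (z * x) = z * (c * x) := fun x => by rw [← mul_assoc, ← zc, mul_assoc]
  have k1 : c * (a * c) = z * (a * (c * a)) := by
    have e : c * (a * c) = a * ((a * c) ^ 3 * (c * a)) := by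
      simp only [pow_succ, pow_zero, one_mul, mul_assoc, a1, b1, c1, a2, b2, c2, mul_one]
    rw [e, r02, za2]
  have k2 : c * (b * c) = z * (b * (c * b)) := by
    have e : c * (b * c) = b * ((b * c) ^ 3 * (c * b)) := by
      simp only [pow_succ, pow_zero, one_mul, mul_assoc, a1, b1, c1, a2, b2, c2, mul_one]
    rw [e, r12, zb2]
  have k3 : b * (a * (b * a)) = z * (a * (b * (a * b))) := by
    have e : b * (a * (b * a)) = a * ((a * b) ^ 4 * (b * (a * b))) := by
      simp only [pow_succ, pow_zero, one_mul, mul_assoc, a1, b1, c1, a2, b2, c2, mul_one]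
    rw [e, r01, za2]
  have k1' : ∀ x, c * (a * (c * x)) = z * (a * (c * (a * x))) := fun x => by
    have e := congrArg (fun t => t * x) k1
    simpa only [mul_assoc] using e
  have k2' : ∀ x, c * (b * (c * x)) = z * (b * (c * (b * x))) := fun x => by
    have e := congrArg (fun t => t * x) k2
    simpa only [mul_assoc] using e
  have k1s : a * (c * a) = z * (c * (a * c)) := by
    rw [k1, z2]
  have k2s : ∀ x, b * (c * (b * x)) = z * (c * (b * (c * x))) := fun x => by
    rw [k2', z2]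
  have k2t : b * (c * b) = z * (c * (b * c)) := by
    rw [k2, z2]
  have k3s : a * (b * (a * b)) = z * (b * (a * (b * a))) := by
    rw [k3, z2]
  -- `cabcb = acabc`
  have k4 : ∀ x, c * (a * (b * (c * (b * x)))) = a * (c * (a * (b * (c * x)))) := fun x => by
    rw [k2s, za2, zc2, k1', z2]
  refine ⟨k1, k2, k3, ?_, ?_, ?_⟩
  · rw [k2t, za2, zc2, k1', z2]
  · rw [k1s, zb2, zc2, k2', z2]
  · rw [k3s, zc2, zb2, za2, zc2, k4]

theorem RT_sound {K : Type*} [Group K] {s : Fin 3 → K} {z : K} (h : TriRel 4 3 3 s z) :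
    ∀ r ∈ RT, evl (ls s) r.x.reverse = zs z r.s * evl (ls s) r.y := by
  obtain ⟨sq, zz, cm', r01, r12, r02⟩ := h
  obtain ⟨k1, k2, k3, k4, k5, k6⟩ := tri_rules (sq 0) (sq 1) (sq 2) zz (cm' 0) (cm' 1) (cm' 2)
    r01 r12 r02
  intro r hr
  simp only [RT, List.mem_cons, List.not_mem_nil, or_false] at hr
  rcases hr with rfl | rfl | rfl | rfl | rfl | rfl | rfl | rfl | rfl
  · simpa [evl, ls, zs] using sq 0
  · simpa [evl, ls, zs] using sq 1
  · simpa [evl, ls, zs] using sq 2
  · simpa [evl, ls, zs] using k1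
  · simpa [evl, ls, zs] using k2
  · simpa [evl, ls, zs] using k3
  · simpa [evl, ls, zs] using k4
  · simpa [evl, ls, zs] using k5
  · simpa [evl, ls, zs] using k6

theorem RS_sound {K : Type*} [Group K] {f : Fin 2 → Bool → K}
    (h : cm (f 0 false) (f 0 true) * cm (f 1 false) (f 1 true) = 1) :
    ∀ r ∈ RS, evl (lg f) r.x.reverse = zs 1 r.s * evl (lg f) r.y := by
  have h' := congrArg (fun t => t⁻¹) h
  simp only [cm] at h h'
  generalize ha : f 0 false = a at h h'
  generalize hb : f 0 true = b at h h'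
  generalize hc : f 1 false = c at h h'
  generalize hd : f 1 true = d at h h'
  intro r hr
  simp only [RS, List.mem_cons, List.not_mem_nil, or_false] at hr
  rcases hr with rfl | rfl | rfl | rfl | rfl | rfl | rfl | rfl | rfl | rfl | rfl | rfl | rfl
  · simp [evl, lg, zs]
  · simp [evl, lg, zs]
  · simp [evl, lg, zs]
  · simp [evl, lg, zs]
  · simp [evl, lg, zs]
  · simp [evl, lg, zs]
  · simp [evl, lg, zs]
  · simp [evl, lg, zs]
  · have e : a⁻¹ * b⁻¹ * c * d * c⁻¹ * d⁻¹ * a * b = (a * b)⁻¹ *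
        (a * b * a⁻¹ * b⁻¹ * (c * d * c⁻¹ * d⁻¹)) * (a * b) := by group
    rw [h] at e
    simp only [mul_assoc] at e
    simpa [evl, lg, zs, ha, hb, hc, hd, mul_assoc] using e
  · have e : b⁻¹ * a⁻¹ * d * c * d⁻¹ * c⁻¹ * b * a = (d * c * d⁻¹ * c⁻¹ * b * a)⁻¹ *
        (a * b * a⁻¹ * b⁻¹ * (c * d * c⁻¹ * d⁻¹))⁻¹ * (d * c * d⁻¹ * c⁻¹ * b * a) := by group
    rw [h, inv_one] at e
    simp only [mul_assoc] at e
    simpa [evl, lg, zs, ha, hb, hc, hd, mul_assoc] using e
  · have e : c * d⁻¹ * c⁻¹ * b * a * b⁻¹ * a⁻¹ * d = (d)⁻¹ *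
        (a * b * a⁻¹ * b⁻¹ * (c * d * c⁻¹ * d⁻¹))⁻¹ * (d) := by group
    rw [h, inv_one] at e
    simp only [mul_assoc] at e
    simpa [evl, lg, zs, ha, hb, hc, hd, mul_assoc] using e
  · have e : d * c⁻¹ * d⁻¹ * a * b * a⁻¹ * b⁻¹ * c = (a * b * a⁻¹ * b⁻¹ * c)⁻¹ *
        (a * b * a⁻¹ * b⁻¹ * (c * d * c⁻¹ * d⁻¹)) * (a * b * a⁻¹ * b⁻¹ * c) := by group
    rw [h] at e
    simp only [mul_assoc] at e
    simpa [evl, lg, zs, ha, hb, hc, hd, mul_assoc] using e
  · have e : d⁻¹ * a * b * a⁻¹ * b⁻¹ * c * d * c⁻¹ = (a * b * a⁻¹ * b⁻¹ * c * d * c⁻¹)⁻¹ *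
        (a * b * a⁻¹ * b⁻¹ * (c * d * c⁻¹ * d⁻¹)) * (a * b * a⁻¹ * b⁻¹ * c * d * c⁻¹) := by group
    rw [h] at e
    simp only [mul_assoc] at e
    simpa [evl, lg, zs, ha, hb, hc, hd, mul_assoc] using e


/-- the rules of the finite group (left-hand sides reversed) -/
def RE : List (Rule ℕ) :=
  [⟨[0, 0], [], false⟩, ⟨[1, 1], [], false⟩, ⟨[2, 2], [], false⟩, ⟨[0, 1], [0, 1], true⟩,
   ⟨[2, 0, 2], [0, 2, 0], false⟩, ⟨[2, 1, 2], [1, 2, 1], false⟩,
   ⟨[1, 2, 1, 0, 2], [0, 2, 0, 1, 2], false⟩, ⟨[0, 2, 1, 0, 2], [1, 2, 0, 1, 2], false⟩]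

theorem fin_rules {K : Type*} [Group K] {a b c z : K} (a1 : a * a = 1) (b1 : b * b = 1)
    (c1 : c * c = 1) (zz : z * z = 1) (za : z * a = a * z) (zb : z * b = b * z)
    (zc : z * c = c * z) (r01 : b * a = z * (a * b)) (r12 : (b * c) ^ 3 = 1)
    (r02 : (a * c) ^ 3 = 1) :
    c * (a * c) = a * (c * a) ∧ c * (b * c) = b * (c * b) ∧
    c * (a * (b * (c * b))) = a * (c * (a * (b * c))) ∧
    c * (a * (b * (c * a))) = b * (c * (a * (b * c))) := by
  have a2 : ∀ x, a * (a * x) = x := fun x => by rw [← mul_assoc, a1, one_mul]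
  have b2 : ∀ x, b * (b * x) = x := fun x => by rw [← mul_assoc, b1, one_mul]
  have c2 : ∀ x, c * (c * x) = x := fun x => by rw [← mul_assoc, c1, one_mul]
  have z2 : ∀ x, z * (z * x) = x := fun x => by rw [← mul_assoc, zz, one_mul]
  have zb2 : ∀ x, b * (z * x) = z * (b * x) := fun x => by rw [← mul_assoc, ← zb, mul_assoc]
  have zc2 : ∀ x, c * (z * x) = z * (c * x) := fun x => by rw [← mul_assoc, ← zc, mul_assoc]
  have k1 : c * (a * c) = a * (c * a) := by
    have e : c * (a * c) = a * ((a * c) ^ 3 * (c * a)) := by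
      simp only [pow_succ, pow_zero, one_mul, mul_assoc, a1, b1, c1, a2, b2, c2, mul_one]
    rw [e, r02, one_mul]
  have k2 : c * (b * c) = b * (c * b) := by
    have e : c * (b * c) = b * ((b * c) ^ 3 * (c * b)) := by
      simp only [pow_succ, pow_zero, one_mul, mul_assoc, a1, b1, c1, a2, b2, c2, mul_one]
    rw [e, r12, one_mul]
  have k1' : ∀ x, c * (a * (c * x)) = a * (c * (a * x)) := fun x => by
    have e := congrArg (fun t => t * x) k1
    simpa only [mul_assoc] using e
  have k2' : ∀ x, c * (b * (c * x)) = b * (c * (b * x)) := fun x => by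
    have e := congrArg (fun t => t * x) k2
    simpa only [mul_assoc] using e
  have k3' : ∀ x, b * (a * x) = z * (a * (b * x)) := fun x => by
    have e := congrArg (fun t => t * x) r01
    simpa only [mul_assoc] using e
  have k3t : ∀ x, a * (b * x) = z * (b * (a * x)) := fun x => by
    rw [k3', z2]
  refine ⟨k1, k2, ?_, ?_⟩
  · rw [← k2, k1']
  · rw [k3t (c * a), zc2, ← k1, k2', ← zb2, ← zc2, ← k3t]

theorem RE_sound {K : Type*} [Group K] {s : Fin 3 → K} {z : K} (sq : ∀ i, s i * s i = 1)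
    (zz : z * z = 1) (cm' : ∀ i, z * s i = s i * z) (r01 : s 1 * s 0 = z * (s 0 * s 1))
    (r12 : (s 1 * s 2) ^ 3 = 1) (r02 : (s 0 * s 2) ^ 3 = 1) :
    ∀ r ∈ RE, evl (ls s) r.x.reverse = zs z r.s * evl (ls s) r.y := by
  obtain ⟨k1, k2, k3, k4⟩ := fin_rules (sq 0) (sq 1) (sq 2) zz (cm' 0) (cm' 1) (cm' 2)
    r01 r12 r02
  intro r hr
  simp only [RE, List.mem_cons, List.not_mem_nil, or_false] at hr
  rcases hr with rfl | rfl | rfl | rfl | rfl | rfl | rfl | rfl
  · simpa [evl, ls, zs] using sq 0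
  · simpa [evl, ls, zs] using sq 1
  · simpa [evl, ls, zs] using sq 2
  · simpa [evl, ls, zs] using r01
  · simpa [evl, ls, zs] using k1
  · simpa [evl, ls, zs] using k2
  · simpa [evl, ls, zs] using k3
  · simpa [evl, ls, zs] using k4

/-! ### The finite checks -/

/-- the relator as a word in the reflections -/
def relw : List ℕ := lw 0 ++ lw 2 ++ lw 1 ++ lw 3 ++ (lw 4 ++ lw 6 ++ lw 5 ++ lw 7)

theorem chk_rel : nf RT 400 relw [] false = ([], false) := by decide +kernel

theorem chk_eta : ∀ k < 4, nf RE 100 (lw (2 * k)) [] false = ([], false) := by decide +kernel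

theorem chk_cos : ∀ i < 3, ∀ j < 48, p i j < 48 ∧
    (nf RT 200 (i :: Tt.getD j []) [] false).1 =
      (nf RT 200 (Tt.getD (p i j) [] ++ (cw i j).flatMap lw) [] false).1 := by
  decide +kernel

theorem chk_path : ∀ w ∈ [[0, 0], [1, 1], [2, 2], [0, 1, 0, 1, 0, 1, 0, 1], [1, 2, 1, 2, 1, 2],
    [0, 2, 0, 2, 0, 2]], ∀ j < 48, (pth w j).1 = j ∧
      nf RS 100 (pth w j).2 [] false = ([], false) := by
  decide +kernel

theorem chk_loop : ∀ k < 4, pth (lw (2 * k)) 0 = (0, [2 * k]) := by decide +kernel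

theorem chk_len : ∀ k < 4, (lw (2 * k)).length % 2 = 0 := by decide +kernel

theorem p_out (i j : ℕ) (hj : 48 ≤ j) : p i j = j := by
  unfold p
  apply List.getD_eq_default
  have h : ∀ i < 3, (Pt.getD i []).length ≤ 48 := by decide
  exact (h _ (by omega)).trans hj

theorem cw_out (i j : ℕ) (hj : 48 ≤ j) : cw i j = [] := by
  unfold cw
  apply List.getD_eq_default
  have h : ∀ i < 3, (Ct.getD i []).length ≤ 48 := by decide
  exact (h _ (by omega)).trans hj

theorem pth_out (w : List ℕ) (j : ℕ) (hj : 48 ≤ j) : pth w j = (j, []) := by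
  induction w with
  | nil => rfl
  | cons a w ih => rw [pth, ih, p_out a j hj, cw_out a j hj, List.nil_append]

/-! ### The action -/

/-- the action of a letter on `ℕ × Surf 2` -/
def act (i : ℕ) (q : ℕ × Surf 2) : ℕ × Surf 2 := (p i q.1, evl (lg Surf.gen) (cw i q.1) * q.2)

/-- the action of a word -/
def run : List ℕ → ℕ × Surf 2 → ℕ × Surf 2
  | [], q => q
  | a :: w, q => act a (run w q)

theorem run_eq (w : List ℕ) (q : ℕ × Surf 2) :
    run w q = ((pth w q.1).1, evl (lg Surf.gen) (pth w q.1).2 * q.2) := by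
  induction w with
  | nil => simp [run, pth, evl]
  | cons a w ih => rw [run, ih, act, pth, evl_append, mul_assoc]

theorem surf_rel2 : cm (Surf.gen (g := 2) 0 false) (Surf.gen 0 true) *
    cm (Surf.gen 1 false) (Surf.gen 1 true) = 1 := by
  have h := Surf.rel 2
  simpa [List.ofFn_succ] using h

theorem surf_nf {n : ℕ} {w : List ℕ} (h : nf RS n w [] false = ([], false)) :
    evl (lg (Surf.gen (g := 2))) w = 1 :=
  nf_one (z := 1) (by simp) (by simp) (RS_sound surf_rel2) h

theorem run_id {w : List ℕ} (hw : w ∈ [[0, 0], [1, 1], [2, 2], [0, 1, 0, 1, 0, 1, 0, 1],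
    [1, 2, 1, 2, 1, 2], [0, 2, 0, 2, 0, 2]]) (q : ℕ × Surf 2) : run w q = q := by
  rw [run_eq]
  by_cases hj : q.1 < 48
  · obtain ⟨h1, h2⟩ := chk_path w hw q.1 hj
    rw [h1, surf_nf h2, one_mul]
  · rw [pth_out w q.1 (by omega)]
    simp [evl]

theorem act_act (i : Fin 3) (q : ℕ × Surf 2) : act i.val (act i.val q) = q := by
  fin_cases i
  · exact run_id (w := [0, 0]) (by simp) q
  · exact run_id (w := [1, 1]) (by simp) q
  · exact run_id (w := [2, 2]) (by simp) q

/-- the permutations -/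
def S (i : Fin 3) : Equiv.Perm (ℕ × Surf 2) where
  toFun := act i.val
  invFun := act i.val
  left_inv := act_act i
  right_inv := act_act i

theorem S_rel : TriRel 4 3 3 S 1 where
  sq i := Equiv.ext (act_act i)
  zz := one_mul 1
  comm i := by rw [one_mul, mul_one]
  r01 := by
    apply Equiv.ext
    intro q
    have h := run_id (w := [0, 1, 0, 1, 0, 1, 0, 1]) (by simp) q
    simpa [pow_succ, Equiv.Perm.mul_apply, run, S] using h
  r12 := by
    apply Equiv.ext
    intro q
    have h := run_id (w := [1, 2, 1, 2, 1, 2]) (by simp) q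
    simpa [pow_succ, Equiv.Perm.mul_apply, run, S] using h
  r02 := by
    apply Equiv.ext
    intro q
    have h := run_id (w := [0, 2, 0, 2, 0, 2]) (by simp) q
    simpa [pow_succ, Equiv.Perm.mul_apply, run, S] using h

/-- the action of the triangle group -/
def A : Tri 4 3 3 →* Equiv.Perm (ℕ × Surf 2) := Tri.lift S_rel

theorem ls_act (n : ℕ) (q : ℕ × Surf 2) : ls S n q = act n q := by
  rcases n with _ | _ | n
  · rfl
  · rfl
  · have h : act (n + 2) q = act 2 q := by
      have e : min (n + 2) 2 = min 2 2 := by omega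
      unfold act p cw
      rw [e]
    exact h.symm

theorem map_ls {K L : Type*} [Group K] [Group L] (f : K →* L) (s : Fin 3 → K) (n : ℕ) :
    f (ls s n) = ls (fun i => f (s i)) n := by
  rcases n with _ | _ | n <;> rfl

theorem map_evl {α : Type} {K L : Type*} [Group K] [Group L] (f : K →* L) (v : α → K) (w : List α) :
    f (evl v w) = evl (fun a => f (v a)) w := by
  simp [evl, map_list_prod, Function.comp_def]

theorem A_word (w : List ℕ) (q : ℕ × Surf 2) : A (evl (ls Tri.s) w) q = run w q := by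
  induction w with
  | nil => simp [evl, run]
  | cons a w ih =>
    rw [evl_cons, map_mul, Equiv.Perm.mul_apply, ih, run, ← ls_act, map_ls]
    congr 2
    funext i
    exact Tri.lift_s S_rel i

/-! ### The homomorphism -/

theorem ls_sq (n : ℕ) : ls (Tri.s (k := 4) (l := 3) (m := 3)) n * ls Tri.s n = 1 := by
  rcases n with _ | _ | n
  · exact (Tri.rel 4 3 3).sq 0
  · exact (Tri.rel 4 3 3).sq 1
  · exact (Tri.rel 4 3 3).sq 2

theorem evl_rev (w : List ℕ) :
    evl (ls (Tri.s (k := 4) (l := 3) (m := 3))) w.reverse = (evl (ls Tri.s) w)⁻¹ := by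
  induction w with
  | nil => simp [evl]
  | cons a w ih =>
    rw [List.reverse_cons, evl_append, ih, evl_cons, evl_cons, evl_nil, mul_one, mul_inv_rev]
    congr 1
    exact eq_inv_of_mul_eq_one_left (ls_sq a)

theorem z_ls (n : ℕ) : (Tri.z : Tri 4 3 3) * ls Tri.s n = ls Tri.s n * Tri.z := by
  rcases n with _ | _ | n
  · exact (Tri.rel 4 3 3).comm 0
  · exact (Tri.rel 4 3 3).comm 1
  · exact (Tri.rel 4 3 3).comm 2

/-- images of the generators -/
def fT (i : Fin 2) (b : Bool) : Tri 4 3 3 :=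
  evl (ls Tri.s) (lw (4 * i.val + if b then 2 else 0))

theorem fT_rel : (List.ofFn fun i : Fin 2 => cm (fT i false) (fT i true)).prod = 1 := by
  have h := nf_one (Tri.rel 4 3 3).zz z_ls (RT_sound (Tri.rel 4 3 3)) chk_rel
  have e : (List.ofFn fun i : Fin 2 => cm (fT i false) (fT i true)).prod =
      cm (fT 0 false) (fT 0 true) * cm (fT 1 false) (fT 1 true) := by
    simp [List.ofFn_succ]
  rw [e, ← h]
  simp only [relw, evl_append, cm, fT]
  have e1 : lw 1 = (lw 0).reverse := rfl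
  have e3 : lw 3 = (lw 2).reverse := rfl
  have e5 : lw 5 = (lw 4).reverse := rfl
  have e7 : lw 7 = (lw 6).reverse := rfl
  rw [e1, e3, e5, e7, evl_rev, evl_rev, evl_rev, evl_rev]
  rfl

/-- the inclusion of the surface group -/
def io : Surf 2 →* Tri 4 3 3 := Surf.lift fT fT_rel

theorem io_letter (n : ℕ) : io (lg Surf.gen n) = evl (ls Tri.s) (lw n) := by
  have h0 : ∀ i b, io (Surf.gen i b) = fT i b := fun i b => Surf.lift_gen fT fT_rel i b
  rcases n with _ | _ | _ | _ | _ | _ | _ | _ | n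
  · exact h0 0 false
  · show io (Surf.gen 0 false)⁻¹ = evl (ls Tri.s) (lw 0).reverse
    rw [map_inv, h0, evl_rev]
    rfl
  · exact h0 0 true
  · show io (Surf.gen 0 true)⁻¹ = evl (ls Tri.s) (lw 2).reverse
    rw [map_inv, h0, evl_rev]
    rfl
  · exact h0 1 false
  · show io (Surf.gen 1 false)⁻¹ = evl (ls Tri.s) (lw 4).reverse
    rw [map_inv, h0, evl_rev]
    rfl
  · exact h0 1 true
  · show io (Surf.gen 1 true)⁻¹ = evl (ls Tri.s) (lw 6).reverse
    rw [map_inv, h0, evl_rev]
    rfl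
  · show io 1 = evl (ls Tri.s) []
    rw [map_one, evl_nil]

theorem io_word (w : List ℕ) : io (evl (lg Surf.gen) w) = evl (ls Tri.s) (w.flatMap lw) := by
  induction w with
  | nil => simp [evl]
  | cons a w ih => rw [evl_cons, map_mul, ih, io_letter, List.flatMap_cons, evl_append]

/-! ### Finite index -/

/-- a coset decomposition -/
def Cos (g : Tri 4 3 3) : Prop :=
  ∃ j < 48, ∃ e : Bool, ∃ γ, g = zs Tri.z e * (evl (ls Tri.s) (Tt.getD j []) * io γ)

theorem cos_one : Cos 1 := ⟨0, by decide, false, 1, by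
  have e : Tt.getD 0 [] = [] := rfl
  rw [e]
  simp [zs, evl]⟩

theorem zs_zs (e e' : Bool) (x : Tri 4 3 3) :
    zs Tri.z e * (zs Tri.z e' * x) = zs Tri.z (xor e e') * x := by
  rw [← mul_assoc, zs_xor (Tri.rel 4 3 3).zz]

theorem cos_z {g : Tri 4 3 3} (h : Cos g) : Cos (Tri.z * g) := by
  obtain ⟨j, hj, e, γ, rfl⟩ := h
  refine ⟨j, hj, xor true e, γ, ?_⟩
  rw [← zs_zs]
  rfl

theorem cos_s {g : Tri 4 3 3} (h : Cos g) (i : Fin 3) : Cos (Tri.s i * g) := by
  obtain ⟨j, hj, e, γ, rfl⟩ := h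
  obtain ⟨h1, h2⟩ := chk_cos i.val i.isLt j hj
  obtain ⟨e', h3⟩ := nf_eq (Tri.rel 4 3 3).zz z_ls (RT_sound (Tri.rel 4 3 3)) h2
  rw [evl_cons, evl_append, ← io_word] at h3
  have h4 : ls (Tri.s (k := 4) (l := 3) (m := 3)) i.val = Tri.s i := by
    fin_cases i <;> rfl
  rw [h4] at h3
  have h5 : Tri.s i * zs Tri.z e = zs Tri.z e * (Tri.s i : Tri 4 3 3) := by
    have h := zs_comm (v := ls (Tri.s (k := 4) (l := 3) (m := 3))) z_ls e [i.val]
    rw [evl_cons, evl_nil, mul_one, h4] at h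
    exact h.symm
  refine ⟨p i.val j, h1, xor e e', evl (lg Surf.gen) (cw i.val j) * γ, ?_⟩
  rw [← mul_assoc, h5, mul_assoc, ← mul_assoc (Tri.s i), h3, ← zs_zs, map_mul]
  simp only [mul_assoc]

theorem cos_all (g : Tri 4 3 3) : Cos g := by
  have key : ∀ g ∈ Subgroup.closure (Set.range
      (PresentedGroup.of : Fin 4 → PresentedGroup (triRels 4 3 3))),
      ∀ x : Tri 4 3 3, Cos x ↔ Cos (g * x) := by
    intro g hg
    induction hg using Subgroup.closure_induction with
    | mem g hg =>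
      obtain ⟨k, rfl⟩ := hg
      have h1 : (∃ i, PresentedGroup.of (rels := triRels 4 3 3) k = Tri.s i) ∨
          PresentedGroup.of (rels := triRels 4 3 3) k = Tri.z := by
        fin_cases k
        · exact Or.inl ⟨0, rfl⟩
        · exact Or.inl ⟨1, rfl⟩
        · exact Or.inl ⟨2, rfl⟩
        · exact Or.inr rfl
      intro x
      rcases h1 with ⟨i, h1⟩ | h1
      · rw [h1]
        refine ⟨fun h => cos_s h i, fun h => ?_⟩
        have h2 := cos_s h i
        rwa [← mul_assoc, (Tri.rel 4 3 3).sq i, one_mul] at h2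
      · rw [h1]
        refine ⟨fun h => cos_z h, fun h => ?_⟩
        have h2 := cos_z h
        rwa [← mul_assoc, (Tri.rel 4 3 3).zz, one_mul] at h2
    | one => intro x; rw [one_mul]
    | mul a b _ _ ha hb =>
      intro x
      rw [hb x, ha (b * x), mul_assoc]
    | inv a _ ha =>
      intro x
      have h := ha (a⁻¹ * x)
      rw [mul_inv_cancel_left] at h
      exact h.symm
  have h := (key g (by rw [PresentedGroup.closure_range_of]; trivial) 1).1 cos_one
  rwa [mul_one] at h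

/-! ### Injectivity -/

theorem A_io (γ : Surf 2) : ∀ x : Surf 2, A (io γ) (0, x) = (0, γ * x) := by
  have hγ : γ ∈ Subgroup.closure (Set.range
      (PresentedGroup.of : Fin 2 × Bool → PresentedGroup (surfRels 2))) := by
    rw [PresentedGroup.closure_range_of]; trivial
  induction hγ using Subgroup.closure_induction with
  | mem g hg =>
    obtain ⟨⟨i, b⟩, rfl⟩ := hg
    intro x
    obtain ⟨k, hk, h1⟩ : ∃ k < 4, lg (Surf.gen (g := 2)) (2 * k) = PresentedGroup.of (i, b) := by
      fin_cases i <;> cases b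
      · exact ⟨0, by decide, rfl⟩
      · exact ⟨1, by decide, rfl⟩
      · exact ⟨2, by decide, rfl⟩
      · exact ⟨3, by decide, rfl⟩
    rw [← h1, io_letter, A_word, run_eq, chk_loop k hk, evl_cons, evl_nil, mul_one]
  | one => intro x; rw [map_one, map_one, one_mul]; rfl
  | mul a b _ _ ha hb =>
    intro x
    rw [map_mul, map_mul, Equiv.Perm.mul_apply, hb x, ha (b * x), mul_assoc]
  | inv a _ ha =>
    intro x
    have h := ha (a⁻¹ * x)
    rw [mul_inv_cancel_left] at h
    rw [map_inv, map_inv, ← h]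
    exact Equiv.symm_apply_apply _ _

theorem io_inj : Function.Injective io := by
  rw [injective_iff_map_eq_one]
  intro γ hγ
  have h := A_io γ 1
  rw [hγ, map_one, mul_one] at h
  have h2 := congrArg Prod.snd h
  exact h2.symm

/-! ### The finite representation and the determinant -/

theorem eta_s (i : Fin 3) : (EtaB (Tri.s i)).1 = finB i := by
  unfold EtaB
  rw [Tri.lift_s]

theorem io_gen (i : Fin 2) (b : Bool) :
    ∃ k < 4, io (Surf.gen i b) = evl (ls Tri.s) (lw (2 * k)) := by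
  have h0 : ∀ i b, io (Surf.gen i b) = fT i b := fun i b => Surf.lift_gen fT fT_rel i b
  rw [h0]
  fin_cases i <;> cases b
  · exact ⟨0, by decide, rfl⟩
  · exact ⟨1, by decide, rfl⟩
  · exact ⟨2, by decide, rfl⟩
  · exact ⟨3, by decide, rfl⟩

theorem eta_io (γ : Surf 2) : EtaB (io γ) = 1 := by
  have hz : EtaB (Tri.z : Tri 4 3 3) = 1 := by
    unfold EtaB
    rw [Tri.lift_z]
  have h2 : finB 1 * finB 0 = -(finB 0 * finB 1) := by
    apply two_ext <;> simp [finB, Matrix.mul_apply, Fin.sum_univ_two]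
  have r01 : EtaB (Tri.s 1) * EtaB (Tri.s 0) = -1 * (EtaB (Tri.s 0) * EtaB (Tri.s 1)) := by
    apply Units.ext
    rw [Units.val_mul, Units.val_mul, Units.val_mul, eta_s, eta_s, h2]
    simp
  have r12 : (EtaB (Tri.s 1) * EtaB (Tri.s 2)) ^ 3 = 1 := by
    rw [← map_mul, ← map_pow, (Tri.rel 4 3 3).r12, hz]
  have r02 : (EtaB (Tri.s 0) * EtaB (Tri.s 2)) ^ 3 = 1 := by
    rw [← map_mul, ← map_pow, (Tri.rel 4 3 3).r02, hz]
  have sq : ∀ i, EtaB (Tri.s i) * EtaB (Tri.s i) = 1 := fun i => by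
    rw [← map_mul, (Tri.rel 4 3 3).sq, map_one]
  have hs := RE_sound (s := fun i => EtaB (Tri.s i)) (z := -1) sq (by simp) (by simp) r01 r12 r02
  have h : EtaB.comp io = 1 := by
    apply Surf.hom_ext
    intro i b
    obtain ⟨k, hk, h1⟩ := io_gen i b
    rw [MonoidHom.comp_apply, h1, map_evl, MonoidHom.one_apply]
    have e : (fun a => EtaB (ls Tri.s a)) = ls (fun i => EtaB (Tri.s i)) := by
      funext a
      exact map_ls EtaB Tri.s a
    rw [e]
    exact nf_one (z := -1) (by simp) (by simp) hs (chk_eta k hk)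
  have h3 := congrArg (fun f => f γ) h
  exact h3

theorem det_io (γ : Surf 2) : (PhiB (io γ)).1.det = 1 := by
  have hd : ∀ n, (Matrix.GeneralLinearGroup.det.comp PhiB) (ls Tri.s n) = -1 := by
    intro n
    rw [map_ls]
    have h : ∀ i, (Matrix.GeneralLinearGroup.det.comp PhiB) (Tri.s i) = -1 := by
      intro i
      apply Units.ext
      show (PhiB (Tri.s i)).1.det = -1
      unfold PhiB
      rw [Tri.lift_s]
      exact reflB_det i
    rcases n with _ | _ | n
    · exact h 0
    · exact h 1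
    · exact h 2
  have hw : ∀ w : List ℕ, (Matrix.GeneralLinearGroup.det.comp PhiB) (evl (ls Tri.s) w) =
      (-1) ^ w.length := by
    intro w
    induction w with
    | nil => rw [evl_nil, map_one]; rfl
    | cons a w ih => rw [evl_cons, map_mul, ih, hd, List.length_cons, pow_succ, mul_comm]
  have h : (Matrix.GeneralLinearGroup.det.comp PhiB).comp io = 1 := by
    apply Surf.hom_ext
    intro i b
    obtain ⟨k, hk, h1⟩ := io_gen i b
    rw [MonoidHom.comp_apply, h1, hw, MonoidHom.one_apply]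
    exact Even.neg_one_pow (Nat.even_iff.2 (chk_len k hk))
  have h3 := congrArg (fun f => (f γ).1) h
  exact h3

end SB

/-- the explicit inclusion of the surface group of genus two in `Tri 4 3 3` -/
def iotaB : Surf 2 →* Tri 4 3 3 := SB.io

/-- the images of the generators -/
theorem iotaB_gen :
    iotaB (Surf.gen 0 false) = ev Tri.s [2, 1, 2, 0, 2, 1, 0, 1, 2, 1, 0, 2] ∧
    iotaB (Surf.gen 0 true) = ev Tri.s [0, 2, 1, 0, 2, 1, 2, 0, 1, 2] ∧
    iotaB (Surf.gen 1 false) = ev Tri.s [0, 2, 1, 2, 0, 1, 2, 0, 2, 1] ∧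
    iotaB (Surf.gen 1 true) = ev Tri.s [2, 1, 2, 0, 2, 1, 2, 0, 1, 2, 0, 1] := by
  have h0 : ∀ i b, iotaB (Surf.gen i b) = SB.fT i b :=
    fun i b => Surf.lift_gen SB.fT SB.fT_rel i b
  rw [h0, h0, h0, h0]
  exact ⟨rfl, rfl, rfl, rfl⟩

theorem iotaB_inj : Function.Injective iotaB := SB.io_inj

theorem iotaB_eta (γ : Surf 2) : EtaB (iotaB γ) = 1 := SB.eta_io γ

theorem iotaB_det (γ : Surf 2) : (PhiB (iotaB γ)).1.det = 1 := SB.det_io γ

theorem iotaB_cover : ∃ F : Finset (Tri 4 3 3), ∀ g, ∃ f ∈ F, ∃ γ, g = f * iotaB γ := by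
  classical
  refine ⟨(Finset.range 48 ×ˢ (Finset.univ : Finset Bool)).image (fun q =>
      SB.zs Tri.z q.2 * SB.evl (SB.ls Tri.s) (SB.Tt.getD q.1 [])), ?_⟩
  intro g
  obtain ⟨j, hj, e, γ, h⟩ := SB.cos_all g
  refine ⟨_, Finset.mem_image.2 ⟨(j, e), ?_, rfl⟩, γ, ?_⟩
  · simp [hj]
  · rw [h, mul_assoc]
    rfl

theorem surf_b : ∃ ι : Surf 2 →* Tri 4 3 3, Function.Injective ι ∧ (∀ γ, EtaB (ι γ) = 1) ∧
    (∀ γ, (PhiB (ι γ)).1.det = 1) ∧
    ∃ F : Finset (Tri 4 3 3), ∀ g, ∃ f ∈ F, ∃ γ, g = f * ι γ :=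
  ⟨iotaB, iotaB_inj, iotaB_eta, iotaB_det, iotaB_cover⟩

end Pool.Agent.Hhelper63.AnT
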