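import Pool.Agent.Hhelper63.AnT.Surf

/-!
The surface group of genus two as a subgroup of finite index of the kernel of `EtaC`.

PROOF. (Data to be computed by a small program, e.g. python; everything below is finite.)
`Tri 2 4 6` modulo `z` is the reflection group `Δ` of the hyperbolic triangle with angles
`π/2, π/4, π/6` (area `π/12`). `EtaC` has image of order 32 and `EtaC z = -1`; the kernel `L` of
`EtaC` maps isomorphically to a subgroup of index 16 of `Δ`, of area `4π/3`: it is the group of the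
sphere with four cone points of order 3, generated by four conjugates `x₁, x₂, x₃, x₄` of
`z (s 0 * s 2) ^ 2` (which has order 3) with product `x₁ x₂ x₃ x₄ = 1`. The kernel of
`L → ℤ/3`, `x₁, x₂ ↦ 1`, `x₃, x₄ ↦ 2` (say) is torsion free of genus 2, of index 48 in `Δ`.
(i) Choose generators `a₀, b₀, a₁, b₁` of it as words in `s 0, s 1, s 2, z` with
`[a₀, b₀] [a₁, b₁] = 1`; this relation and `EtaC = 1`, `det (PhiC) = 1` are checked with the
relations of `Tri 2 4 6` (rewriting rules `00 -> e`, `11 -> e`, `22 -> e`, `10 -> z 01`,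
`2121 -> z 1212`, `21201 -> 12120`, `202020 -> z 020202`: a small verified normal form function
and `decide` will do). This defines `ι`.
(ii) Coset graph: choose 48 coset representatives `t j` (words, `t 0 = 1`), permutations `p i` of
`Fin 48` and elements `c i j : Surf 2` (words in the generators) with
`s i * t j = t (p i j) * ι (c i j)` or `= z * t (p i j) * ι (c i j)` in `Tri 2 4 6`, for `i < 3`,
`j < 48` (144 identities in `Tri 2 4 6`). This gives the finite set `F = {t j, z t j}`.
(iii) Injectivity: the maps `(j, x) ↦ (p i j, c i j * x)` are permutations of `Fin 48 × Surf 2` and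
satisfy the relations of `Tri 2 4 6` with `z` acting trivially (products of the `c i j` around the
relation cycles are trivial in `Surf 2`: with a good choice almost all are freely trivial, the
others are conjugates of the relator or its inverse), so `Tri.lift` gives an action of `Tri 2 4 6`
on `Fin 48 × Surf 2`; for the generators `γ` one checks `ι γ • (0, x) = (0, γ * x)`, hence for all
`γ`, so `ι` is injective.
-/

set_option autoImplicit false

set_option autoImplicit false

namespace Pool.Agent.Hhelper63.AnT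

open Pool.Agent.Hhelper67.Anosov

/-! ### A small rewriting machine -/

namespace SC

/-- value of a word -/
def E {K : Type*} [Monoid K] (s : ℕ → K) (w : List ℕ) : K := (w.map s).prod

/-- power of the central involution -/
def zp {K : Type*} [Monoid K] (z : K) (e : Bool) : K := if e then z else 1

section E

variable {K : Type*} [Group K] (s : ℕ → K)

@[simp] theorem E_nil : E s [] = 1 := rfl

@[simp] theorem E_cons (x : ℕ) (w : List ℕ) : E s (x :: w) = s x * E s w := by
  simp [E]

theorem E_append (v w : List ℕ) : E s (v ++ w) = E s v * E s w := by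
  simp [E]

theorem map_E {L : Type*} [Group L] (f : K →* L) (w : List ℕ) :
    f (E s w) = E (fun n => f (s n)) w := by
  induction w with
  | nil => simp
  | cons x w ih => rw [E_cons, map_mul, ih, E_cons]

theorem E_reverse (hs : ∀ n, s n * s n = 1) (w : List ℕ) : E s w.reverse = (E s w)⁻¹ := by
  induction w with
  | nil => simp
  | cons x w ih =>
    rw [List.reverse_cons, E_append, ih, E_cons, E_cons, E_nil, mul_inv_rev, mul_one,
      ← eq_inv_of_mul_eq_one_left (hs x)]

theorem zp_mul_self (z : K) (hz : z * z = 1) (e : Bool) : zp z e * zp z e = 1 := by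
  cases e <;> simp [zp, hz]

theorem zp_xor (z : K) (hz : z * z = 1) (e f : Bool) : zp z (xor e f) = zp z e * zp z f := by
  cases e <;> cases f <;> simp [zp, hz]

theorem zp_comm (z : K) (hc : ∀ n, z * s n = s n * z) (e : Bool) (w : List ℕ) :
    zp z e * E s w = E s w * zp z e := by
  induction w with
  | nil => simp
  | cons x w ih =>
    rw [E_cons, ← mul_assoc]
    have h : zp z e * s x = s x * zp z e := by
      cases e
      · simp [zp]
      · simpa [zp] using hc x
    rw [h, mul_assoc, ih, mul_assoc]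

end E

/-- strip a prefix -/
def strip : List ℕ → List ℕ → Option (List ℕ)
  | [], st => some st
  | _ :: _, [] => none
  | a :: l, b :: st => if a = b then strip l st else none

theorem strip_eq : ∀ {l st st' : List ℕ}, strip l st = some st' → st = l ++ st'
  | [], st, st', h => by simpa [strip] using h
  | _ :: _, [], st', h => by simp [strip] at h
  | a :: l, b :: st, st', h => by
    rw [strip] at h
    split_ifs at h with hab
    · rw [strip_eq h, hab]
      rfl

/-- a rule: reversed left side, sign, right side -/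
structure Rule where
  lhs : List ℕ
  flip : Bool
  rhs : List ℕ

/-- the rule is valid -/
def Rule.Valid {K : Type*} [Group K] (s : ℕ → K) (z : K) (r : Rule) : Prop :=
  E s r.lhs.reverse = zp z r.flip * E s r.rhs

/-- try to apply a rule at the top of the stack -/
def tryR : List Rule → List ℕ → Option (Bool × List ℕ × List ℕ)
  | [], _ => none
  | r :: rs, st => match strip r.lhs st with
    | some st' => some (r.flip, r.rhs, st')
    | none => tryR rs st

theorem tryR_sound {K : Type*} [Group K] {s : ℕ → K} {z : K} (hc : ∀ n, z * s n = s n * z) :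
    ∀ {R : List Rule} {st : List ℕ} {f : Bool} {r st' : List ℕ}, (∀ ρ ∈ R, ρ.Valid s z) →
      tryR R st = some (f, r, st') →
      E s st.reverse = zp z f * E s st'.reverse * E s r
  | [], st, f, r, st', _, h => by simp [tryR] at h
  | ρ :: R, st, f, r, st', hR, h => by
    rw [tryR] at h
    split at h
    · rename_i st'' hst
      rw [Option.some.injEq, Prod.mk.injEq, Prod.mk.injEq] at h
      obtain ⟨rfl, rfl, rfl⟩ := h
      have h1 : E s ρ.lhs.reverse = zp z ρ.flip * E s ρ.rhs := hR ρ (by simp)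
      rw [strip_eq hst, List.reverse_append, E_append, h1, ← mul_assoc,
        ← zp_comm s z hc]
    · exact tryR_sound hc (fun ρ' h' => hR ρ' (List.mem_cons_of_mem _ h')) h

/-- the machine: fuel, sign, input, stack -/
def run (R : List Rule) : ℕ → Bool → List ℕ → List ℕ → Bool × List ℕ
  | 0, e, inp, st => (e, st.reverse ++ inp)
  | _ + 1, e, [], st => (e, st.reverse)
  | n + 1, e, x :: inp, st => match tryR R (x :: st) with
    | some (f, r, st') => run R n (xor e f) (r ++ inp) st'
    | none => run R n e inp (x :: st)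

theorem run_sound {K : Type*} [Group K] {s : ℕ → K} {z : K} (hz : z * z = 1)
    (hc : ∀ n, z * s n = s n * z) {R : List Rule} (hR : ∀ ρ ∈ R, ρ.Valid s z) :
    ∀ (n : ℕ) (e : Bool) (inp st : List ℕ),
      zp z e * E s st.reverse * E s inp
        = zp z (run R n e inp st).1 * E s (run R n e inp st).2
  | 0, e, inp, st => by rw [run, E_append, mul_assoc]
  | n + 1, e, [], st => by rw [run, E_nil, mul_one]
  | n + 1, e, x :: inp, st => by
    rw [run]
    split
    · rename_i f r st' h
      have h1 := tryR_sound hc hR h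
      rw [← run_sound hz hc hR n (xor e f) (r ++ inp) st']
      rw [List.reverse_cons, E_append, E_cons, E_nil, mul_one] at h1
      rw [E_cons, zp_xor z hz, E_append]
      calc zp z e * E s st.reverse * (s x * E s inp)
          = zp z e * (E s st.reverse * s x) * E s inp := by simp only [mul_assoc]
        _ = zp z e * (zp z f * E s st'.reverse * E s r) * E s inp := by rw [h1]
        _ = _ := by simp only [mul_assoc]
    · rw [← run_sound hz hc hR n e inp (x :: st)]
      rw [List.reverse_cons, E_append, E_cons s x inp, E_cons s x [], E_nil, mul_one]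
      simp only [mul_assoc]

/-- evaluation of a word -/
theorem run_word {K : Type*} [Group K] {s : ℕ → K} {z : K} (hz : z * z = 1)
    (hc : ∀ n, z * s n = s n * z) {R : List Rule} (hR : ∀ ρ ∈ R, ρ.Valid s z) (n : ℕ)
    (w : List ℕ) : E s w = zp z (run R n false w []).1 * E s (run R n false w []).2 := by
  rw [← run_sound hz hc hR n false w []]
  simp [zp]

/-! ### Data -/

/-- the permutation of the 48 cosets given by the letter `i` (fixing all `j ≥ 48`) -/
def pC (i j : ℕ) : ℕ :=
  match i with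
  | 0 => List.getD
      [3, 4, 5, 0, 1, 2, 12, 13, 14, 17, 15, 16, 6, 7, 8, 10, 11, 9, 26, 24, 25, 29, 27, 28, 19,
      20, 18, 22, 23, 21, 38, 36, 37, 39, 40, 41, 31, 32, 30, 33, 34, 35, 45, 46, 47, 42, 43, 44] j j
  | 1 => List.getD
      [6, 7, 8, 12, 13, 14, 0, 1, 2, 21, 22, 23, 3, 4, 5, 27, 28, 29, 30, 31, 32, 9, 10, 11, 36,
      37, 38, 15, 16, 17, 18, 19, 20, 42, 43, 44, 24, 25, 26, 45, 46, 47, 33, 34, 35, 39, 40, 41] j j
  | _ => List.getD
      [9, 10, 11, 15, 16, 17, 18, 19, 20, 0, 1, 2, 24, 25, 26, 3, 4, 5, 6, 7, 8, 33, 34, 35, 12,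
      13, 14, 39, 40, 41, 42, 43, 44, 21, 22, 23, 45, 46, 47, 27, 28, 29, 30, 31, 32, 36, 37, 38] j j

/-- the cocycle with values in words in the generators of the surface group -/
def cC (i j : ℕ) : List ℕ :=
  match i with
  | 0 => List.getD
      [[], [], [], [], [], [], [], [], [], [], [], [], [], [], [], [], [], [], [], [], [], [],
      [], [], [], [], [], [], [], [], [], [], [], [], [], [], [], [], [], [], [], [], [], [], [],
      [], [], []] j []
  | 1 => List.getD
      [[], [], [], [], [], [], [], [], [], [], [], [], [], [], [], [], [], [], [], [], [], [],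
      [], [], [], [], [], [], [], [], [], [], [], [], [], [], [], [], [], [], [], [], [], [], [],
      [], [], []] j []
  | _ => List.getD
      [[], [], [], [], [], [], [], [5, 2], [], [], [], [], [], [2], [5], [], [], [], [], [3, 4],
      [], [], [], [7, 0], [], [3], [4], [7], [0], [], [], [3, 4], [7, 0], [], [], [1, 6], [7],
      [0, 3], [4], [6], [1], [], [], [5, 2], [1, 6], [6], [2, 1], [5]] j []

/-- coset representatives -/
def tC (j : ℕ) : List ℕ := List.getD
    [[], [2, 0, 2, 0], [0, 2, 0, 2], [0], [0, 2, 0, 2, 0], [2, 0, 2], [1], [1, 2, 0, 2, 0], [1,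
    0, 2, 0, 2], [2], [0, 2, 0], [2, 0, 2, 0, 2], [1, 0], [1, 0, 2, 0, 2, 0], [1, 2, 0, 2], [2,
    0], [0, 2, 0, 2, 0, 2], [0, 2], [2, 1], [0, 2, 1, 0], [2, 1, 0, 2, 0, 2], [1, 2], [1, 0, 2,
    0], [1, 2, 0, 2, 0, 2], [2, 1, 0], [0, 2, 1, 0, 2, 0, 2], [0, 2, 1], [1, 2, 0], [1, 0, 2, 0,
    2, 0, 2], [1, 0, 2], [1, 2, 1], [1, 0, 2, 1, 0], [1, 2, 1, 0, 2, 0, 2], [2, 1, 2], [2, 1, 0,
    2, 0], [0, 2, 1, 0, 2], [1, 2, 1, 0], [0, 1, 2, 1, 0, 2, 0, 2], [1, 0, 2, 1], [0, 2, 1, 2],
    [0, 2, 1, 0, 2, 0], [2, 1, 0, 2], [1, 2, 1, 2], [1, 2, 1, 0, 2, 0], [0, 1, 2, 1, 0, 2], [1,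
    0, 2, 1, 2], [1, 0, 2, 1, 0, 2, 0], [1, 2, 1, 0, 2]] j []

/-- the generators `a₀, b₀, a₁, b₁` and their inverses (letters `0, 1, 2, ...`) as words in
the letters `0, 1, 2` -/
def subC (n : ℕ) : List ℕ :=
  match n with
  | 0 => [0, 2, 0, 1, 2, 0, 2, 1, 0, 2, 0, 2, 0, 2]
  | 1 => List.reverse [0, 2, 0, 1, 2, 0, 2, 1, 0, 2, 0, 2, 0, 2]
  | 2 => [2, 0, 2, 0, 1, 2, 0, 2, 1, 0, 2, 0, 2, 0]
  | 3 => List.reverse [2, 0, 2, 0, 1, 2, 0, 2, 1, 0, 2, 0, 2, 0]
  | 4 => [1, 0, 1, 0, 2, 0, 2, 1, 2, 0, 2, 1]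
  | 5 => List.reverse [1, 0, 1, 0, 2, 0, 2, 1, 2, 0, 2, 1]
  | 6 => [1, 0, 1, 0, 0, 2, 1, 2, 0, 2, 1, 2]
  | _ => List.reverse [1, 0, 1, 0, 0, 2, 1, 2, 0, 2, 1, 2]

/-- rewriting rules of `Tri 2 4 6` -/
def RT : List Rule :=
  [⟨[0, 0], false, []⟩, ⟨[1, 1], false, []⟩, ⟨[2, 2], false, []⟩, ⟨[0, 1], true, [0, 1]⟩,
    ⟨[1, 2, 1, 2], true, [1, 2, 1, 2]⟩, ⟨[1, 0, 2, 1, 2], false, [1, 2, 1, 2, 0]⟩,
    ⟨[0, 2, 0, 2, 0, 2], true, [0, 2, 0, 2, 0, 2]⟩]

/-- rewriting rules of the finite quotient -/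
def RQ : List Rule :=
  [⟨[0, 0], false, []⟩, ⟨[1, 1], false, []⟩, ⟨[2, 2], false, []⟩, ⟨[0, 1], true, [0, 1]⟩,
    ⟨[0, 2], true, [0, 2]⟩, ⟨[1, 2, 1, 2], true, [1, 2, 1, 2]⟩]

/-- the relator of the surface group -/
def relS : List ℕ := [0, 2, 1, 3, 4, 6, 5, 7]

/-- the inverse of the relator -/
def relS' : List ℕ := [6, 4, 7, 5, 2, 0, 3, 1]

/-- rewriting rules of the surface group -/
def RS : List Rule :=
  [⟨[0, 1], false, []⟩, ⟨[1, 0], false, []⟩, ⟨[2, 3], false, []⟩, ⟨[3, 2], false, []⟩,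
    ⟨[4, 5], false, []⟩, ⟨[5, 4], false, []⟩, ⟨[6, 7], false, []⟩, ⟨[7, 6], false, []⟩] ++
  (List.range 8).map (fun k => ⟨(relS.rotate k).reverse, false, []⟩) ++
  (List.range 8).map (fun k => ⟨(relS'.rotate k).reverse, false, []⟩)

/-- path in the coset graph -/
def path : List ℕ → ℕ → ℕ × List ℕ
  | [], j => (j, [])
  | i :: w, j => (pC i (path w j).1, cC i (path w j).1 ++ (path w j).2)

/-- all relations of the triangle group hold in the action -/
theorem chk_rel : ∀ w ∈ [[0, 0], [1, 1], [2, 2], [0, 1, 0, 1], [1, 2, 1, 2, 1, 2, 1, 2],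
    [0, 2, 0, 2, 0, 2, 0, 2, 0, 2, 0, 2]], ∀ j < 48, (path w j).1 = j ∧
      (run RS 60 false (path w j).2 []).2 = [] := by
  decide +kernel

/-- action on the coset `0` of the generators -/
theorem chk_gen : ∀ n < 8, (path (subC n) 0).1 = 0 ∧
    (run RS 60 false (path (subC n) 0).2 []).2 = [n] := by
  decide +kernel

/-- the coset table in `Tri 2 4 6` -/
theorem chk_cos : ∀ i < 3, ∀ j < 48, pC i j < 48 ∧ (run RT 200 false (i :: tC j) []).2
    = (run RT 200 false (tC (pC i j) ++ (cC i j).flatMap subC) []).2 := by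
  decide +kernel

theorem chk_inv : run RT 400 false (relS.flatMap subC) [] = (false, []) := by
  decide +kernel

theorem chk_eta : ∀ n ∈ [0, 2, 4, 6], run RQ 200 false (subC n) [] = (false, []) := by
  decide +kernel

/-! ### The triangle group -/

/-- letters as elements of `Fin 3` -/
def f3 : ℕ → Fin 3
  | 0 => 0
  | 1 => 1
  | _ => 2

theorem pC_f3 (n j : ℕ) : pC (f3 n).val j = pC n j := by
  rcases n with _ | _ | n <;> rfl

theorem cC_f3 (n j : ℕ) : cC (f3 n).val j = cC n j := by
  rcases n with _ | _ | n <;> rfl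

section rel

variable {K : Type*} [Group K] {s : Fin 3 → K} {z : K}

theorem sq' (h : TriRel 2 4 6 s z) (n : ℕ) : s (f3 n) * s (f3 n) = 1 := h.sq _

theorem comm' (h : TriRel 2 4 6 s z) (n : ℕ) : z * s (f3 n) = s (f3 n) * z := h.comm _

theorem valid_sq {s : ℕ → K} (hs : ∀ n, s n * s n = 1) (hz : z * z = 1) (w : List ℕ)
    (h : E s w * E s w = z) : Rule.Valid s z ⟨w, true, w⟩ := by
  unfold Rule.Valid
  rw [E_reverse s hs]
  simp only [zp, if_true]
  apply inv_eq_of_mul_eq_one_left
  rw [mul_assoc, h, hz]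

theorem w01 (h : TriRel 2 4 6 s z) :
    E (fun n => s (f3 n)) [0, 1] * E (fun n => s (f3 n)) [0, 1] = z := by
  have := h.r01
  rw [← this]
  simp [pow_succ, f3, mul_assoc]

theorem w12 (h : TriRel 2 4 6 s z) :
    E (fun n => s (f3 n)) [1, 2, 1, 2] * E (fun n => s (f3 n)) [1, 2, 1, 2] = z := by
  have := h.r12
  rw [← this]
  simp [pow_succ, f3, mul_assoc]

theorem w02 (h : TriRel 2 4 6 s z) :
    E (fun n => s (f3 n)) [0, 2, 0, 2, 0, 2] * E (fun n => s (f3 n)) [0, 2, 0, 2, 0, 2] = z := by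
  have := h.r02
  rw [← this]
  simp [pow_succ, f3, mul_assoc]

theorem valid_free (h : TriRel 2 4 6 s z) (n : ℕ) :
    Rule.Valid (fun n => s (f3 n)) z ⟨[n, n], false, []⟩ := by
  unfold Rule.Valid
  simp [zp, sq' h n]

theorem valid_6 (h : TriRel 2 4 6 s z) :
    Rule.Valid (fun n => s (f3 n)) z ⟨[1, 0, 2, 1, 2], false, [1, 2, 1, 2, 0]⟩ := by
  have h4 := valid_sq (sq' h) h.zz [0, 1] (w01 h)
  have h5 := valid_sq (sq' h) h.zz [1, 2, 1, 2] (w12 h)
  unfold Rule.Valid at h4 h5 ⊢
  simp only [List.reverse_cons, List.reverse_nil, List.nil_append, List.cons_append, E_cons, E_nil,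
    mul_one, zp, if_true, f3, one_mul, Bool.false_eq_true, if_false] at h4 h5 ⊢
  have h4' : s 0 * s 1 = z * (s 1 * s 0) := by
    rw [h4, ← mul_assoc, h.zz, one_mul]
  calc s 2 * (s 1 * (s 2 * (s 0 * s 1))) = s 2 * (s 1 * (s 2 * (z * (s 1 * s 0)))) := by rw [h4']
    _ = z * (s 2 * (s 1 * (s 2 * s 1))) * s 0 := by
      rw [← mul_assoc (s 2) z, ← h.comm 2, mul_assoc z (s 2), ← mul_assoc (s 1) z, ← h.comm 1,
        mul_assoc z (s 1), ← mul_assoc (s 2) z, ← h.comm 2, mul_assoc z (s 2)]
      simp only [mul_assoc]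
    _ = z * (z * (s 1 * (s 2 * (s 1 * s 2)))) * s 0 := by rw [h5]
    _ = _ := by
      rw [← mul_assoc z z, h.zz, one_mul]
      simp only [mul_assoc]

theorem valid_RT (h : TriRel 2 4 6 s z) : ∀ ρ ∈ RT, ρ.Valid (fun n => s (f3 n)) z := by
  intro ρ hρ
  simp only [RT, List.mem_cons, List.not_mem_nil, or_false] at hρ
  rcases hρ with rfl | rfl | rfl | rfl | rfl | rfl | rfl
  · exact valid_free h 0
  · exact valid_free h 1
  · exact valid_free h 2
  · exact valid_sq (sq' h) h.zz [0, 1] (w01 h)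
  · exact valid_sq (sq' h) h.zz [1, 2, 1, 2] (w12 h)
  · exact valid_6 h
  · exact valid_sq (sq' h) h.zz [0, 2, 0, 2, 0, 2] (w02 h)

theorem valid_RQ (h : TriRel 2 4 6 s z) (h2 : s 0 * s 2 * (s 0 * s 2) = z) :
    ∀ ρ ∈ RQ, ρ.Valid (fun n => s (f3 n)) z := by
  intro ρ hρ
  simp only [RQ, List.mem_cons, List.not_mem_nil, or_false] at hρ
  rcases hρ with rfl | rfl | rfl | rfl | rfl | rfl
  · exact valid_free h 0
  · exact valid_free h 1
  · exact valid_free h 2
  · exact valid_sq (sq' h) h.zz [0, 1] (w01 h)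
  · refine valid_sq (sq' h) h.zz [0, 2] ?_
    rw [← h2]
    simp [f3, mul_assoc]
  · exact valid_sq (sq' h) h.zz [1, 2, 1, 2] (w12 h)

end rel

theorem TriRel.map {K L : Type*} [Group K] [Group L] {s : Fin 3 → K} {z : K}
    (h : TriRel 2 4 6 s z) (f : K →* L) : TriRel 2 4 6 (fun i => f (s i)) (f z) where
  sq i := by rw [← map_mul, h.sq, map_one]
  zz := by rw [← map_mul, h.zz, map_one]
  comm i := by rw [← map_mul, h.comm, map_mul]
  r01 := by rw [← map_mul, ← map_pow, h.r01]
  r12 := by rw [← map_mul, ← map_pow, h.r12]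
  r02 := by rw [← map_mul, ← map_pow, h.r02]

/-- the relations of `Tri 2 4 6` -/
theorem trel : TriRel 2 4 6 (Tri.s (k := 2) (l := 4) (m := 6)) Tri.z := Tri.rel 2 4 6

/-- letters as elements of `Tri 2 4 6` -/
def sT (n : ℕ) : Tri 2 4 6 := Tri.s (f3 n)

theorem runT (n : ℕ) (w : List ℕ) :
    E sT w = zp Tri.z (run RT n false w []).1 * E sT (run RT n false w []).2 :=
  run_word trel.zz (fun n => comm' trel n) (valid_RT trel) n w

theorem sT_sq (n : ℕ) : sT n * sT n = 1 := sq' trel n

/-! ### The surface group -/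

/-- letters as elements of the surface group -/
def gS : ℕ → Surf 2
  | 0 => Surf.gen 0 false
  | 1 => (Surf.gen 0 false)⁻¹
  | 2 => Surf.gen 0 true
  | 3 => (Surf.gen 0 true)⁻¹
  | 4 => Surf.gen 1 false
  | 5 => (Surf.gen 1 false)⁻¹
  | 6 => Surf.gen 1 true
  | _ => (Surf.gen 1 true)⁻¹

theorem E_relS : E gS relS = 1 := by
  have h := Surf.rel 2
  rw [← h]
  simp [relS, gS, cm, List.ofFn_succ, mul_assoc]

theorem E_relS' : E gS relS' = 1 := by
  have h : E gS relS' = (E gS relS)⁻¹ := by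
    simp [relS, relS', gS, mul_assoc]
  rw [h, E_relS, inv_one]

theorem E_rotate {K : Type*} [Group K] {s : ℕ → K} {w : List ℕ} (h : E s w = 1) (k : ℕ) :
    E s (w.rotate k) = 1 := by
  rw [List.rotate_eq_drop_append_take_mod, E_append]
  have h1 : E s (w.take (k % w.length)) * E s (w.drop (k % w.length)) = 1 := by
    rw [← E_append, List.take_append_drop, h]
  exact mul_eq_one_iff_eq_inv.mpr (eq_inv_of_mul_eq_one_right h1)

theorem valid_RS : ∀ ρ ∈ RS, ρ.Valid gS 1 := by
  intro ρ hρ
  simp only [RS, List.mem_append, List.mem_map] at hρ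
  rcases hρ with (hρ | ⟨k, -, rfl⟩) | ⟨k, -, rfl⟩
  · simp only [List.mem_cons, List.not_mem_nil, or_false] at hρ
    rcases hρ with rfl | rfl | rfl | rfl | rfl | rfl | rfl | rfl <;>
      simp [Rule.Valid, zp, gS]
  · unfold Rule.Valid
    simp only [List.reverse_reverse, zp, Bool.false_eq_true, if_false, E_nil, mul_one]
    exact E_rotate E_relS k
  · unfold Rule.Valid
    simp only [List.reverse_reverse, zp, Bool.false_eq_true, if_false, E_nil, mul_one]
    exact E_rotate E_relS' k

theorem runS (n : ℕ) (w : List ℕ) : E gS w = E gS (run RS n false w []).2 := by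
  have h := run_word (s := gS) (z := 1) (one_mul 1) (fun n => by simp) valid_RS n w
  have h1 : ∀ e, zp (1 : Surf 2) e = 1 := by
    intro e
    cases e <;> simp [zp]
  rw [h1, one_mul] at h
  exact h

/-! ### The homomorphism -/

/-- the word of a generator -/
def gw (i : Fin 2) (b : Bool) : ℕ := 4 * i.val + (if b then 2 else 0)

theorem E_sub1 : E sT (subC 1) = (E sT (subC 0))⁻¹ := E_reverse sT sT_sq _

theorem E_sub3 : E sT (subC 3) = (E sT (subC 2))⁻¹ := E_reverse sT sT_sq _

theorem E_sub5 : E sT (subC 5) = (E sT (subC 4))⁻¹ := E_reverse sT sT_sq _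

theorem E_sub7 : E sT (subC 7) = (E sT (subC 6))⁻¹ := E_reverse sT sT_sq _

/-- the embedding of the surface group -/
def iotaC : Surf 2 →* Tri 2 4 6 :=
  Surf.lift (fun i b => E sT (subC (gw i b))) (by
    have h := runT 400 (relS.flatMap subC)
    rw [chk_inv] at h
    simp only [zp, Bool.false_eq_true, if_false, E_nil, mul_one] at h
    rw [← h]
    simp only [relS, List.flatMap_cons, List.flatMap_nil, E_append, E_nil, mul_one, E_sub1, E_sub3,
      E_sub5, E_sub7]
    simp [List.ofFn_succ, cm, gw, mul_assoc])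

theorem iota_gen (i : Fin 2) (b : Bool) : iotaC (Surf.gen i b) = E sT (subC (gw i b)) := by
  unfold iotaC
  rw [Surf.lift_gen]

theorem iota_gS (n : ℕ) : iotaC (gS n) = E sT (subC n) := by
  rcases n with _ | _ | _ | _ | _ | _ | _ | n
  · exact iota_gen 0 false
  · change iotaC (Surf.gen 0 false)⁻¹ = _
    rw [map_inv, iota_gen]
    exact E_sub1.symm
  · exact iota_gen 0 true
  · change iotaC (Surf.gen 0 true)⁻¹ = _
    rw [map_inv, iota_gen]
    exact E_sub3.symm
  · exact iota_gen 1 false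
  · change iotaC (Surf.gen 1 false)⁻¹ = _
    rw [map_inv, iota_gen]
    exact E_sub5.symm
  · exact iota_gen 1 true
  · change iotaC (Surf.gen 1 true)⁻¹ = _
    rw [map_inv, iota_gen]
    exact E_sub7.symm

theorem iota_E (w : List ℕ) : iotaC (E gS w) = E sT (w.flatMap subC) := by
  induction w with
  | nil => simp
  | cons x w ih => rw [E_cons, map_mul, ih, iota_gS, List.flatMap_cons, E_append]

/-! ### The action -/

theorem pC_ge (n : ℕ) {j : ℕ} (hj : 48 ≤ j) : pC n j = j := by
  rcases n with _ | _ | n <;> exact List.getD_eq_default _ _ hj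

theorem cC_ge (n : ℕ) {j : ℕ} (hj : 48 ≤ j) : cC n j = [] := by
  rcases n with _ | _ | n <;> exact List.getD_eq_default _ _ hj

theorem path_ge (w : List ℕ) {j : ℕ} (hj : 48 ≤ j) : path w j = (j, []) := by
  induction w with
  | nil => rfl
  | cons n w ih => rw [path, ih, pC_ge n hj, cC_ge n hj, List.append_nil]

theorem rel_all {w : List ℕ} (hw : w ∈ [[0, 0], [1, 1], [2, 2], [0, 1, 0, 1],
    [1, 2, 1, 2, 1, 2, 1, 2], [0, 2, 0, 2, 0, 2, 0, 2, 0, 2, 0, 2]]) (j : ℕ) :
    (path w j).1 = j ∧ E gS (path w j).2 = 1 := by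
  rcases lt_or_ge j 48 with hj | hj
  · obtain ⟨h1, h2⟩ := chk_rel w hw j hj
    refine ⟨h1, ?_⟩
    rw [runS 60, h2, E_nil]
  · rw [path_ge w hj]
    simp

/-- one letter acting -/
def actF (n : ℕ) (q : ℕ × Surf 2) : ℕ × Surf 2 := (pC n q.1, E gS (cC n q.1) * q.2)

/-- a word acting -/
def actW : List ℕ → ℕ × Surf 2 → ℕ × Surf 2
  | [], q => q
  | n :: w, q => actF n (actW w q)

theorem actW_eq (w : List ℕ) (q : ℕ × Surf 2) :
    actW w q = ((path w q.1).1, E gS (path w q.1).2 * q.2) := by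
  induction w with
  | nil => simp [actW, path]
  | cons n w ih => rw [actW, ih, actF, path, E_append, mul_assoc]

theorem actW_rel {w : List ℕ} (hw : w ∈ [[0, 0], [1, 1], [2, 2], [0, 1, 0, 1],
    [1, 2, 1, 2, 1, 2, 1, 2], [0, 2, 0, 2, 0, 2, 0, 2, 0, 2, 0, 2]]) (q : ℕ × Surf 2) :
    actW w q = q := by
  obtain ⟨h1, h2⟩ := rel_all hw q.1
  rw [actW_eq, h1, h2, one_mul]

theorem actF_inv (i : Fin 3) (q : ℕ × Surf 2) : actF i.val (actF i.val q) = q := by
  have : ∀ i : Fin 3, [i.val, i.val] ∈ [[0, 0], [1, 1], [2, 2], [0, 1, 0, 1],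
      [1, 2, 1, 2, 1, 2, 1, 2], [0, 2, 0, 2, 0, 2, 0, 2, 0, 2, 0, 2]] := by
    decide
  exact actW_rel (this i) q

/-- a generator acting -/
def act (i : Fin 3) : Equiv.Perm (ℕ × Surf 2) where
  toFun := actF i.val
  invFun := actF i.val
  left_inv := actF_inv i
  right_inv := actF_inv i

theorem E_act (w : List ℕ) (q : ℕ × Surf 2) :
    (E (fun n => act (f3 n)) w) q = actW w q := by
  induction w with
  | nil => rfl
  | cons n w ih =>
    rw [E_cons, Equiv.Perm.mul_apply, ih, actW]
    change actF (f3 n).val _ = actF n _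
    unfold actF
    rw [pC_f3, cC_f3]

theorem E_act_rel {w : List ℕ} (hw : w ∈ [[0, 0], [1, 1], [2, 2], [0, 1, 0, 1],
    [1, 2, 1, 2, 1, 2, 1, 2], [0, 2, 0, 2, 0, 2, 0, 2, 0, 2, 0, 2]]) :
    E (fun n => act (f3 n)) w = 1 := by
  apply Equiv.ext
  intro q
  rw [E_act, actW_rel hw, Equiv.Perm.one_apply]

theorem actRel : TriRel 2 4 6 act 1 where
  sq i := by
    apply Equiv.ext
    intro q
    exact actF_inv i q
  zz := one_mul 1
  comm i := by rw [one_mul, mul_one]
  r01 := by
    rw [← E_act_rel (w := [0, 1, 0, 1]) (by decide)]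
    simp [pow_succ, f3, mul_assoc]
  r12 := by
    rw [← E_act_rel (w := [1, 2, 1, 2, 1, 2, 1, 2]) (by decide)]
    simp [pow_succ, f3, mul_assoc]
  r02 := by
    rw [← E_act_rel (w := [0, 2, 0, 2, 0, 2, 0, 2, 0, 2, 0, 2]) (by decide)]
    simp [pow_succ, f3, mul_assoc]

/-- the action -/
def alpha : Tri 2 4 6 →* Equiv.Perm (ℕ × Surf 2) := Tri.lift actRel

theorem alpha_E (w : List ℕ) (q : ℕ × Surf 2) : alpha (E sT w) q = actW w q := by
  rw [map_E, ← E_act]
  congr 2
  funext n
  exact Tri.lift_s actRel (f3 n)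

theorem alpha_gS {n : ℕ} (hn : n < 8) (x : Surf 2) :
    alpha (iotaC (gS n)) (0, x) = (0, gS n * x) := by
  obtain ⟨h1, h2⟩ := chk_gen n hn
  rw [iota_gS, alpha_E, actW_eq]
  simp only
  rw [h1, runS 60, h2, E_cons, E_nil, mul_one]

theorem alpha_iota (γ x : Surf 2) : alpha (iotaC γ) (0, x) = (0, γ * x) := by
  let H : Subgroup (Surf 2) :=
    { carrier := {γ | ∀ x, alpha (iotaC γ) (0, x) = (0, γ * x)}
      one_mem' := by
        intro x
        simp
      mul_mem' := by
        intro a b ha hb x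
        rw [map_mul, map_mul, Equiv.Perm.mul_apply, hb, ha, mul_assoc]
      inv_mem' := by
        intro a ha x
        rw [map_inv, map_inv, Equiv.Perm.inv_eq_iff_eq, ha, mul_inv_cancel_left] }
  have hH : (⊤ : Subgroup (Surf 2)) ≤ H := by
    rw [← PresentedGroup.closure_range_of, Subgroup.closure_le]
    rintro _ ⟨⟨i, b⟩, rfl⟩
    intro x
    change alpha (iotaC (Surf.gen i b)) (0, x) = (0, Surf.gen i b * x)
    fin_cases i <;> cases b
    · exact alpha_gS (n := 0) (by norm_num) x
    · exact alpha_gS (n := 2) (by norm_num) x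
    · exact alpha_gS (n := 4) (by norm_num) x
    · exact alpha_gS (n := 6) (by norm_num) x
  exact hH (Subgroup.mem_top γ) x

theorem iota_inj : Function.Injective iotaC := by
  rw [injective_iff_map_eq_one]
  intro γ h
  have h1 := alpha_iota γ 1
  rw [h, map_one, Equiv.Perm.one_apply, mul_one] at h1
  exact ((Prod.mk.inj h1).2).symm

/-! ### Finite index -/

/-- the elements reached -/
def Reach (g : Tri 2 4 6) : Prop :=
  ∃ (e : Bool) (j : ℕ) (γ : Surf 2), j < 48 ∧ g = zp Tri.z e * E sT (tC j) * iotaC γ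

theorem reach_z {g : Tri 2 4 6} (h : Reach g) : Reach (Tri.z * g) := by
  obtain ⟨e, j, γ, hj, rfl⟩ := h
  refine ⟨!e, j, γ, hj, ?_⟩
  have : zp (Tri.z (k := 2) (l := 4) (m := 6)) (!e) = Tri.z * zp Tri.z e := by
    cases e
    · simp [zp]
    · simp [zp, trel.zz]
  rw [this]
  simp only [mul_assoc]

theorem reach_zp {g : Tri 2 4 6} (e : Bool) (h : Reach g) : Reach (zp Tri.z e * g) := by
  cases e
  · simpa [zp] using h
  · simpa [zp] using reach_z h

theorem reach_s {g : Tri 2 4 6} (i : Fin 3) (h : Reach g) : Reach (Tri.s i * g) := by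
  obtain ⟨e, j, γ, hj, rfl⟩ := h
  obtain ⟨h1, h2⟩ := chk_cos i.val i.isLt j hj
  have hi : sT i.val = Tri.s i := by
    fin_cases i <;> rfl
  have e1 := runT 200 (i.val :: tC j)
  have e2 := runT 200 (tC (pC i.val j) ++ (cC i.val j).flatMap subC)
  rw [h2] at e1
  set a := (run RT 200 false (i.val :: tC j) []).1
  set b := run RT 200 false (tC (pC i.val j) ++ (cC i.val j).flatMap subC) []
  have e3 : E sT b.2 = zp Tri.z b.1 * E sT (tC (pC i.val j) ++ (cC i.val j).flatMap subC) := by
    rw [e2, ← mul_assoc, zp_mul_self _ trel.zz, one_mul]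
  rw [e3, E_cons, hi, E_append, ← iota_E] at e1
  have hc := zp_comm sT Tri.z (fun n => comm' trel n) e [i.val]
  rw [E_cons, E_nil, mul_one, hi] at hc
  have : Tri.s i * (zp Tri.z e * E sT (tC j) * iotaC γ)
      = zp Tri.z e * (zp Tri.z a * (zp Tri.z b.1 *
        (zp Tri.z false * E sT (tC (pC i.val j)) * iotaC (E gS (cC i.val j) * γ)))) := by
    rw [mul_assoc (zp Tri.z e), ← mul_assoc (Tri.s i), ← hc, mul_assoc (zp Tri.z e),
      ← mul_assoc (Tri.s i), e1, map_mul]
    simp only [zp, Bool.false_eq_true, if_false, one_mul, mul_assoc]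
  rw [this]
  exact reach_zp e (reach_zp a (reach_zp b.1 ⟨false, _, _, h1, rfl⟩))

theorem reach_all (g : Tri 2 4 6) : Reach g := by
  have hinv : ∀ i : Fin 3, (Tri.s i : Tri 2 4 6)⁻¹ = Tri.s i := fun i =>
    inv_eq_of_mul_eq_one_left (trel.sq i)
  have hinvz : (Tri.z : Tri 2 4 6)⁻¹ = Tri.z := inv_eq_of_mul_eq_one_left trel.zz
  have key : ∀ g : Tri 2 4 6, (∀ h, Reach h → Reach (g * h)) ∧ (∀ h, Reach h → Reach (g⁻¹ * h)) := by
    let H : Subgroup (Tri 2 4 6) :=
      { carrier := {g | (∀ h, Reach h → Reach (g * h)) ∧ (∀ h, Reach h → Reach (g⁻¹ * h))}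
        one_mem' := by
          constructor <;> intro h hh <;> simpa using hh
        mul_mem' := by
          rintro a b ⟨ha, ha'⟩ ⟨hb, hb'⟩
          constructor
          · intro h hh
            rw [mul_assoc]
            exact ha _ (hb _ hh)
          · intro h hh
            rw [mul_inv_rev, mul_assoc]
            exact hb' _ (ha' _ hh)
        inv_mem' := by
          rintro a ⟨ha, ha'⟩
          refine ⟨ha', ?_⟩
          intro h hh
          rw [inv_inv]
          exact ha _ hh }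
    have hH : (⊤ : Subgroup (Tri 2 4 6)) ≤ H := by
      rw [← PresentedGroup.closure_range_of, Subgroup.closure_le]
      rintro _ ⟨i, rfl⟩
      have hi : (PresentedGroup.of i : Tri 2 4 6) = Tri.s 0 ∨
          (PresentedGroup.of i : Tri 2 4 6) = Tri.s 1 ∨
          (PresentedGroup.of i : Tri 2 4 6) = Tri.s 2 ∨
          (PresentedGroup.of i : Tri 2 4 6) = Tri.z := by
        have : i = 0 ∨ i = 1 ∨ i = 2 ∨ i = 3 := by fin_cases i <;> simp
        rcases this with rfl | rfl | rfl | rfl
        · exact Or.inl rfl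
        · exact Or.inr (Or.inl rfl)
        · exact Or.inr (Or.inr (Or.inl rfl))
        · exact Or.inr (Or.inr (Or.inr rfl))
      rcases hi with hi | hi | hi | hi <;> rw [hi]
      · exact ⟨fun h hh => reach_s 0 hh, fun h hh => by rw [hinv]; exact reach_s 0 hh⟩
      · exact ⟨fun h hh => reach_s 1 hh, fun h hh => by rw [hinv]; exact reach_s 1 hh⟩
      · exact ⟨fun h hh => reach_s 2 hh, fun h hh => by rw [hinv]; exact reach_s 2 hh⟩
      · exact ⟨fun h hh => reach_z hh, fun h hh => by rw [hinvz]; exact reach_z hh⟩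
    exact fun g => hH (Subgroup.mem_top g)
  have h1 : Reach 1 := ⟨false, 0, 1, by norm_num, by simp [zp, tC]⟩
  simpa using (key g).1 1 h1

/-! ### The finite representation and the determinant -/

theorem trivial_of {K : Type*} [Group K] (f : Tri 2 4 6 →* K)
    (hf : f (Tri.s 0) * f (Tri.s 2) * (f (Tri.s 0) * f (Tri.s 2)) = f Tri.z) (γ : Surf 2) :
    f (iotaC γ) = 1 := by
  have hr := TriRel.map trel f
  have h : f.comp iotaC = 1 := by
    apply Surf.hom_ext
    intro i b
    rw [MonoidHom.comp_apply, iota_gen, MonoidHom.one_apply, map_E]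
    have h1 : gw i b ∈ [0, 2, 4, 6] := by
      fin_cases i <;> cases b <;> simp [gw]
    have h2 := run_word hr.zz (fun n => comm' hr n) (valid_RQ hr hf) 200 (subC (gw i b))
    rw [chk_eta _ h1] at h2
    simpa [zp, sT] using h2
  have := DFunLike.congr_fun h γ
  simpa using this

theorem eta_sq : EtaC (Tri.s 0) * EtaC (Tri.s 2) * (EtaC (Tri.s 0) * EtaC (Tri.s 2)) = EtaC Tri.z := by
  unfold EtaC
  rw [Tri.lift_s, Tri.lift_s, Tri.lift_z]
  apply Units.ext
  have h := quad_mul (t := 0) (finC_det 0) (finC_det 2) (by simp [finC])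
  rw [zero_smul, zero_sub] at h
  simpa using h

theorem det_sq : (Matrix.GeneralLinearGroup.det.comp PhiC) (Tri.s 0) *
      (Matrix.GeneralLinearGroup.det.comp PhiC) (Tri.s 2) *
      ((Matrix.GeneralLinearGroup.det.comp PhiC) (Tri.s 0) *
        (Matrix.GeneralLinearGroup.det.comp PhiC) (Tri.s 2)) =
      (Matrix.GeneralLinearGroup.det.comp PhiC) Tri.z := by
  unfold PhiC
  rw [MonoidHom.comp_apply, MonoidHom.comp_apply, MonoidHom.comp_apply, Tri.lift_s, Tri.lift_s,
    Tri.lift_z]
  apply Units.ext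
  have h0 := reflC_det 0
  have h2 := reflC_det 2
  simp only [Units.val_mul, Matrix.GeneralLinearGroup.val_det_apply]
  rw [h0, h2]
  simp [Matrix.det_fin_two]

end SC

open SC in
theorem surf_c : ∃ ι : Surf 2 →* Tri 2 4 6, Function.Injective ι ∧ (∀ γ, EtaC (ι γ) = 1) ∧
    (∀ γ, (PhiC (ι γ)).1.det = 1) ∧
    ∃ F : Finset (Tri 2 4 6), ∀ g, ∃ f ∈ F, ∃ γ, g = f * ι γ := by
  classical
  refine ⟨iotaC, iota_inj, fun γ => trivial_of EtaC eta_sq γ, ?_, ?_⟩
  · intro γ
    have h := trivial_of (Matrix.GeneralLinearGroup.det.comp PhiC) det_sq γ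
    have h2 := congrArg Units.val h
    simpa [Matrix.GeneralLinearGroup.val_det_apply] using h2
  · refine ⟨((Finset.univ : Finset Bool) ×ˢ Finset.range 48).image
      (fun q => zp Tri.z q.1 * E sT (tC q.2)), ?_⟩
    intro g
    obtain ⟨e, j, γ, hj, rfl⟩ := reach_all g
    exact ⟨_, Finset.mem_image.mpr ⟨(e, j), Finset.mem_product.mpr
      ⟨Finset.mem_univ _, Finset.mem_range.mpr hj⟩, rfl⟩, γ, rfl⟩

end Pool.Agent.Hhelper63.AnT
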